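import Pool.Agent.PDE.StG

/-!
# PDE, module ASL: a lemma on the tree of an ascending HNN extension
-/

set_option autoImplicit false
set_option linter.unusedVariables false

namespace Pool.Agent.PDE

open Pool.Agent.PDA Pool.Agent.PDB Subgroup

/-- the map `g B ↦ g s⁻¹ B` -/
private noncomputable def ASL_P {S : Type} [Group S] (s : S) (B : Subgroup S)
    (hB : ∀ u ∈ B, s * u * s⁻¹ ∈ B) : S ⧸ B → S ⧸ B :=
  Quotient.lift (fun g : S => (QuotientGroup.mk (g * s⁻¹) : S ⧸ B)) (by
    intro a b hab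
    have h1 : a⁻¹ * b ∈ B := QuotientGroup.leftRel_apply.1 hab
    show (QuotientGroup.mk (a * s⁻¹) : S ⧸ B) = QuotientGroup.mk (b * s⁻¹)
    rw [QuotientGroup.eq]
    have h2 := hB _ h1
    have h3 : (a * s⁻¹)⁻¹ * (b * s⁻¹) = s * (a⁻¹ * b) * s⁻¹ := by group
    rw [h3]
    exact h2)

/-- the height -/
private noncomputable def ASL_h {S : Type} [Group S] (π : S →* Multiplicative ℤ) (B : Subgroup S)
    (hB : B ≤ π.ker) : S ⧸ B → ℤ :=
  Quotient.lift (fun g : S => Multiplicative.toAdd (π g)) (by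
    intro a b hab
    have h1 : a⁻¹ * b ∈ B := QuotientGroup.leftRel_apply.1 hab
    have h2 : π (a⁻¹ * b) = 1 := hB h1
    rw [map_mul, map_inv, inv_mul_eq_one] at h2
    show Multiplicative.toAdd (π a) = Multiplicative.toAdd (π b)
    rw [h2])

theorem thm_ASL (hLIQ : St_LIQ) : St_ASL := by
  classical
  intro k S _ _ π s B hs hBk hB z hz
  set u : S ⧸ B →₀ k :=
    Finsupp.mapDomain (fun g : S => (QuotientGroup.mk g : S ⧸ B)) (z * el k s).coeff with hu
  have hPmk : ∀ g : S, ASL_P s B hB (QuotientGroup.mk g) = QuotientGroup.mk (g * s⁻¹) :=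
    fun g => rfl
  have hhmk : ∀ g : S, ASL_h π B hBk (QuotientGroup.mk g) = Multiplicative.toAdd (π g) :=
    fun g => rfl
  have hhP : ∀ q : S ⧸ B, ASL_h π B hBk (ASL_P s B hB q) = ASL_h π B hBk q - 1 := by
    intro q
    obtain ⟨g, rfl⟩ := QuotientGroup.mk_surjective q
    rw [hPmk, hhmk, hhmk, map_mul, map_inv, hs]
    rw [toAdd_mul, toAdd_inv, toAdd_ofAdd]
    ring
  -- the push forward of `z`
  have hcoeff : (z * el k s).coeff = Finsupp.mapDomain (fun g : S => g * s) z.coeff := by
    ext g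
    have e1 : el k s = MonoidAlgebra.single s 1 := rfl
    rw [e1, MonoidAlgebra.coeff_mul_single_apply, mul_one]
    have e2 := Finsupp.mapDomain_apply (mul_left_injective s) z.coeff (g * s⁻¹)
    rw [inv_mul_cancel_right] at e2
    exact e2.symm
  have hPu : Finsupp.mapDomain (ASL_P s B hB) u =
      Finsupp.mapDomain (fun g : S => (QuotientGroup.mk g : S ⧸ B)) z.coeff := by
    rw [hu, hcoeff, ← Finsupp.mapDomain_comp, ← Finsupp.mapDomain_comp]
    congr 1
    funext g
    show (QuotientGroup.mk (g * s * s⁻¹) : S ⧸ B) = QuotientGroup.mk g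
    rw [mul_inv_cancel_right]
  have huP : u = Finsupp.mapDomain (ASL_P s B hB) u := by
    have h1 := (hLIQ k S B _).1 hz
    rw [mul_sub, mul_one, MonoidAlgebra.coeff_sub] at h1
    rw [hPu, hu]
    have h2 := (Finsupp.mapDomain.addMonoidHom (M := k)
      (fun g : S => (QuotientGroup.mk g : S ⧸ B))).map_sub (z * el k s).coeff z.coeff
    rw [← sub_eq_zero]
    exact h2.symm.trans h1
  have hu0 : u = 0 := by
    by_contra hne
    have hsup : u.support.Nonempty := Finsupp.support_nonempty_iff.2 hne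
    obtain ⟨q, hq, hmax⟩ := u.support.exists_max_image (ASL_h π B hBk) hsup
    rw [huP] at hq
    have h1 := Finsupp.mapDomain_support hq
    rw [Finset.mem_image] at h1
    obtain ⟨q', hq', rfl⟩ := h1
    have h2 := hmax q' hq'
    rw [hhP] at h2
    omega
  exact (hLIQ k S B _).2 hu0

end Pool.Agent.PDE
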