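import Pool.Agent.PDE.StG

/-!
# PDE, module CDO: ascending HNN extensions, degree one

Offer 14441, statement of helper49. The last step of the docstring is done directly in `k[S]`: with
`y = s^(-M) - q` one has `u y = y` for all `u ∈ B` and `y ≠ 0` (its augmentation is `1`), so the finite
support of `y` is stable under left multiplication by `u`, and `u` has finite order.
-/

set_option autoImplicit false
set_option linter.unusedVariables false

namespace Pool.Agent.PDE

open Pool.Agent.PDA Pool.Agent.PDB Subgroup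

section aux

variable {k S : Type} [CommRing k] [Group S]

private lemma CDO_mul (x y : S) : el k x * el k y = el k (x * y) := (map_mul _ _ _).symm

private lemma CDO_one : el k (1 : S) = 1 := map_one _

private lemma CDO_coeff (a : MonoidAlgebra k S) (g x : S) :
    (a * el k g).coeff x = a.coeff (x * g⁻¹) := by
  show (a * MonoidAlgebra.single g 1).coeff x = _
  rw [MonoidAlgebra.coeff_mul_single_apply, mul_one]

private lemma CDO_coeff' (a : MonoidAlgebra k S) (g x : S) :
    (el k g * a).coeff x = a.coeff (g⁻¹ * x) := by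
  show (MonoidAlgebra.single g 1 * a).coeff x = _
  rw [MonoidAlgebra.coeff_single_mul_apply, one_mul]

private lemma CDO_ht (π : S →* Multiplicative ℤ) (h : ℤ) (a : MonoidAlgebra k S) (g : S) (m : ℤ)
    (hg : π g = Multiplicative.ofAdd m) : ht π (h + m) (a * el k g) = ht π h a * el k g := by
  classical
  apply MonoidAlgebra.ext
  apply Finsupp.ext
  intro x
  rw [CDO_coeff]
  unfold ht
  rw [MonoidAlgebra.coeff_ofCoeff, MonoidAlgebra.coeff_ofCoeff, Finsupp.filter_apply,
    Finsupp.filter_apply, CDO_coeff]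
  have hiff : (Multiplicative.toAdd (π x) = h + m) ↔ (Multiplicative.toAdd (π (x * g⁻¹)) = h) := by
    rw [map_mul, map_inv, hg, toAdd_mul, toAdd_inv, toAdd_ofAdd]
    constructor
    · intro h1
      omega
    · intro h1
      omega
  by_cases hc : Multiplicative.toAdd (π x) = h + m
  · rw [if_pos hc, if_pos (hiff.1 hc)]
  · rw [if_neg hc, if_neg (fun h' => hc (hiff.2 h'))]

private lemma CDO_ht_add (π : S →* Multiplicative ℤ) (h : ℤ) (a b : MonoidAlgebra k S) :
    ht π h (a + b) = ht π h a + ht π h b := by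
  apply MonoidAlgebra.ext
  unfold ht
  rw [MonoidAlgebra.coeff_ofCoeff, MonoidAlgebra.coeff_add, MonoidAlgebra.coeff_add,
    MonoidAlgebra.coeff_ofCoeff, MonoidAlgebra.coeff_ofCoeff, Finsupp.filter_add]

private lemma CDO_ht_zero (π : S →* Multiplicative ℤ) (h : ℤ) :
    ht π h (0 : MonoidAlgebra k S) = 0 := by
  have h1 := CDO_ht_add π h (0 : MonoidAlgebra k S) 0
  rw [add_zero] at h1
  exact left_eq_add.1 h1

private lemma CDO_ht_neg (π : S →* Multiplicative ℤ) (h : ℤ) (a : MonoidAlgebra k S) :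
    ht π h (-a) = - ht π h a := by
  have h1 := CDO_ht_add π h a (-a)
  rw [add_neg_cancel, CDO_ht_zero] at h1
  exact (neg_eq_of_add_eq_zero_right h1.symm).symm

private lemma CDO_ht_sum (π : S →* Multiplicative ℤ) (h : ℤ) {n : ℕ}
    (f : Fin n → MonoidAlgebra k S) : ht π h (∑ i, f i) = ∑ i, ht π h (f i) := by
  let F : MonoidAlgebra k S →+ MonoidAlgebra k S :=
    { toFun := ht π h
      map_zero' := CDO_ht_zero π h
      map_add' := CDO_ht_add π h }
  exact map_sum F f Finset.univ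

private lemma CDO_aug (B : Subgroup S) (q : MonoidAlgebra k S) (hq : q ∈ LI k B) :
    aug k S q = 0 := by
  have h1 : LI k B ≤ RingHom.ker (aug k S) := by
    unfold LI
    rw [Ideal.span_le]
    rintro z ⟨a, ha, rfl⟩
    show aug k S (el k a - 1) = 0
    rw [map_sub, map_one]
    unfold aug
    rw [MonoidAlgebra.lift_of]
    simp
  exact h1 hq

private lemma CDO_aug_el (g : S) : aug k S (el k g) = 1 := by
  unfold aug
  rw [MonoidAlgebra.lift_of]
  rfl

end aux

theorem thm_CDO (hN : St_NIL) (hA : St_ASL) (hLIQ : St_LIQ) (hL : St_LIS) : St_CDO := by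
  intro k _ S _ π s B n b hπs hBπ hb hcz hsB htor hproj
  -- generators of `B` in `S`
  have hb' : Subgroup.closure (Set.range fun i => (b i : S)) = B := by
    have h1 : (Subgroup.closure (Set.range b)).map B.subtype = B := by
      rw [hb, ← MonoidHom.range_eq_map, Subgroup.range_subtype]
    rw [MonoidHom.map_closure, ← Set.range_comp] at h1
    exact h1
  have hLB : ∀ l : MonoidAlgebra k S, l ∈ LI k B ↔ ∃ z, bd k (fun i => (b i : S)) z = l := by
    intro l
    have h1 := (hL k S).2 n (fun i => (b i : S)) l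
    rw [hb'] at h1
    exact h1
  have hgen : ∀ u ∈ B, el k u - 1 ∈ LI k B := fun u hu => Ideal.subset_span ⟨u, hu, rfl⟩
  -- right multiplication by `s⁻¹`
  have hTs : ∀ u ∈ LI k B, u * el k s⁻¹ ∈ LI k B := by
    intro u hu
    have h1 : LI k B ≤ Submodule.comap (LinearMap.toSpanSingleton (MonoidAlgebra k S)
        (MonoidAlgebra k S) (el k s⁻¹)) (LI k B) := by
      conv_lhs => unfold LI
      rw [Ideal.span_le]
      rintro z ⟨a, ha, rfl⟩
      show (el k a - 1) * el k s⁻¹ ∈ LI k B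
      have h2 : (el k a - 1) * el k s⁻¹ = el k s⁻¹ * (el k (s * a * s⁻¹) - 1) := by
        rw [sub_mul, one_mul, CDO_mul, mul_sub, mul_one, CDO_mul]
        congr 2
        group
      rw [h2]
      exact Ideal.mul_mem_left _ _ (hgen _ (hsB a ha))
    exact h1 hu
  -- stability under `ht`
  have hht : ∀ u ∈ LI k B, ∀ h : ℤ, ht π h u ∈ LI k B := by
    intro u hu h
    obtain ⟨z, rfl⟩ := (hLB u).1 hu
    rw [hLB]
    refine ⟨fun i => ht π h (z i), ?_⟩
    show ∑ i, ht π h (z i) * (el k (b i : S) - 1) = ht π h (∑ i, z i * (el k (b i : S) - 1))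
    rw [CDO_ht_sum]
    refine Finset.sum_congr rfl fun i _ => ?_
    have h1 := CDO_ht π h (z i) (b i : S) 0 (by
      have h2 : π (b i : S) = 1 := hBπ (b i).2
      rw [h2]
      rfl)
    rw [add_zero] at h1
    rw [mul_sub, mul_one, mul_sub, mul_one, sub_eq_add_neg (z i * el k (b i : S)), CDO_ht_add,
      CDO_ht_neg, h1, sub_eq_add_neg]
  -- the map `θ`
  have hLI : ∀ u ∈ LI k B, u ∈ LI k (⊤ : Subgroup S) := by
    intro u hu
    have h1 : LI k B ≤ LI k (⊤ : Subgroup S) := by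
      unfold LI
      apply Ideal.span_mono
      rintro z ⟨a, ha, rfl⟩
      exact ⟨a, Subgroup.mem_top a, rfl⟩
    exact h1 hu
  let θ₀ : (MonoidAlgebra k S × LI k B) →ₗ[MonoidAlgebra k S] MonoidAlgebra k S :=
    (LinearMap.toSpanSingleton (MonoidAlgebra k S) (MonoidAlgebra k S) (el k s - 1)).coprod
      (Submodule.subtype (LI k B))
  have hθ₀ : ∀ w : MonoidAlgebra k S × LI k B, θ₀ w = w.1 * (el k s - 1) + (w.2 : MonoidAlgebra k S) :=
    fun w => rfl
  have hθm : ∀ w, θ₀ w ∈ LI k (⊤ : Subgroup S) := by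
    intro w
    rw [hθ₀]
    exact Ideal.add_mem _ (Ideal.mul_mem_left _ _ (Ideal.subset_span ⟨s, Subgroup.mem_top s, rfl⟩))
      (hLI _ w.2.2)
  let θ : (MonoidAlgebra k S × LI k B) →ₗ[MonoidAlgebra k S] LI k (⊤ : Subgroup S) :=
    θ₀.codRestrict (LI k (⊤ : Subgroup S)) hθm
  have hθ : ∀ w : MonoidAlgebra k S × LI k B, (θ w : MonoidAlgebra k S) =
      w.1 * (el k s - 1) + (w.2 : MonoidAlgebra k S) := fun w => rfl
  have hsurj : Function.Surjective θ := by
    rintro ⟨y, hy⟩
    have hy' := hy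
    rw [← hcz] at hy'
    obtain ⟨z, hz⟩ := ((hL k S).2 (n + 1) (cz s b) y).1 hy'
    have hz' : z 0 * (el k s - 1) + ∑ i : Fin n, z i.succ * (el k (b i : S) - 1) = y := by
      rw [← hz]
      show _ = ∑ i, z i * (el k (cz s b i) - 1)
      rw [Fin.sum_univ_succ]
      rfl
    refine ⟨(z 0, ⟨∑ i : Fin n, z i.succ * (el k (b i : S) - 1), ?_⟩), ?_⟩
    · exact Ideal.sum_mem _ fun i _ => Ideal.mul_mem_left _ _ (hgen _ (b i).2)
    · apply Subtype.ext
      rw [hθ]
      exact hz'
  obtain ⟨σ, hσ⟩ := Module.projective_lifting_property θ LinearMap.id hsurj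
  have hσ' : ∀ y, θ (σ y) = y := fun y => LinearMap.congr_fun hσ y
  -- the map `ρ`
  let ρ₀ : (MonoidAlgebra k S × LI k B) →ₗ[MonoidAlgebra k S] MonoidAlgebra k S :=
    (LinearMap.toSpanSingleton (MonoidAlgebra k S) (MonoidAlgebra k S) (el k s)) ∘ₗ
      (LinearMap.fst (MonoidAlgebra k S) (MonoidAlgebra k S) (LI k B) -
        (LinearMap.fst (MonoidAlgebra k S) (MonoidAlgebra k S) (LI k B)) ∘ₗ σ ∘ₗ θ)
  have hρ₀ : ∀ w, ρ₀ w = (w.1 - (σ (θ w)).1) * el k s := fun w => rfl
  have hρm : ∀ w, ρ₀ w ∈ LI k B := by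
    intro w
    rw [hρ₀]
    apply hA k S π s B hπs hBπ hsB
    have h1 : (θ (σ (θ w)) : MonoidAlgebra k S) = (θ w : MonoidAlgebra k S) := by rw [hσ']
    rw [hθ, hθ] at h1
    have h2 : (w.1 - (σ (θ w)).1) * (el k s - 1) =
        (((σ (θ w)).2 : MonoidAlgebra k S) - (w.2 : MonoidAlgebra k S)) := by
      rw [sub_mul]
      rw [sub_eq_sub_iff_add_eq_add, ← h1]
      rw [add_comm]
    rw [h2]
    exact Ideal.sub_mem _ (σ (θ w)).2.2 w.2.2
  let ρ : (MonoidAlgebra k S × LI k B) →ₗ[MonoidAlgebra k S] LI k B :=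
    ρ₀.codRestrict (LI k B) hρm
  have hρ : ∀ w, (ρ w : MonoidAlgebra k S) = (w.1 - (σ (θ w)).1) * el k s := fun w => rfl
  -- the submodule `U`
  let U : Submodule (MonoidAlgebra k S) (Fin 1 → MonoidAlgebra k S) :=
    Submodule.comap (LinearMap.proj (R := MonoidAlgebra k S)
      (φ := fun _ : Fin 1 => MonoidAlgebra k S) 0) (LI k B)
  have hU : ∀ z : Fin 1 → MonoidAlgebra k S, z ∈ U ↔ z 0 ∈ LI k B := fun z => Iff.rfl
  have hUfg : U.FG := by
    have h1 : Submodule.FG (LI k B) := by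
      have h2 := (hL k S).1 (Set.range fun i => (b i : S))
      rw [hb'] at h2
      rw [h2]
      apply Submodule.fg_span
      have h3 : {z : MonoidAlgebra k S | ∃ x ∈ Set.range (fun i => (b i : S)), z = el k x - 1} =
          (fun x => el k x - 1) '' (Set.range fun i => (b i : S)) := by
        ext z
        constructor
        · rintro ⟨x, hx, rfl⟩
          exact ⟨x, hx, rfl⟩
        · rintro ⟨x, hx, rfl⟩
          exact ⟨x, hx, rfl⟩
      rw [h3]
      exact (Set.finite_range _).image _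
    have h4 : U = Submodule.map (LinearMap.pi (R := MonoidAlgebra k S)
        (φ := fun _ : Fin 1 => MonoidAlgebra k S) (fun _ => LinearMap.id)) (LI k B) := by
      ext z
      rw [Submodule.mem_map, hU]
      constructor
      · intro hz
        refine ⟨z 0, hz, ?_⟩
        funext i
        rw [Subsingleton.elim i 0]
        rfl
      · rintro ⟨y, hy, rfl⟩
        exact hy
    rw [h4]
    exact Submodule.FG.map _ h1
  have hUht : ∀ u ∈ U, ∀ h : ℤ, (fun i => ht π h (u i)) ∈ U := by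
    intro u hu h
    exact hht (u 0) hu h
  -- the map `T`
  let T : (Fin 1 → MonoidAlgebra k S) →ₗ[MonoidAlgebra k S] (Fin 1 → MonoidAlgebra k S) :=
    LinearMap.pi fun i => (LinearMap.toSpanSingleton (MonoidAlgebra k S) (MonoidAlgebra k S)
      (el k s⁻¹)) ∘ₗ LinearMap.proj (R := MonoidAlgebra k S)
        (φ := fun _ : Fin 1 => MonoidAlgebra k S) i
  have hT : ∀ (z : Fin 1 → MonoidAlgebra k S) (i : Fin 1), T z i = z i * el k s⁻¹ :=
    fun z i => rfl
  have hTU : ∀ u ∈ U, T u ∈ U := by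
    intro u hu
    exact hTs (u 0) hu
  have hTht : ∀ (h : ℤ) (z : Fin 1 → MonoidAlgebra k S), T (fun i => ht π h (z i)) =
      fun i => ht π (h - 1) (T z i) := by
    intro h z
    funext i
    rw [hT, hT]
    have h1 := CDO_ht π h (z i) s⁻¹ (-1) (by
      rw [map_inv, hπs]
      rfl)
    rw [← sub_eq_add_neg] at h1
    exact h1.symm
  let jj : LI k B →ₗ[MonoidAlgebra k S] U :=
    (LinearMap.pi (R := MonoidAlgebra k S) (φ := fun _ : Fin 1 => MonoidAlgebra k S)
      (fun _ => Submodule.subtype (LI k B))).codRestrict U (fun u => u.2)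
  have hjj : ∀ (u : LI k B) (i : Fin 1), (jj u : Fin 1 → MonoidAlgebra k S) i = u := fun u i => rfl
  let pp : U →ₗ[MonoidAlgebra k S] LI k B :=
    ((LinearMap.proj (R := MonoidAlgebra k S) (φ := fun _ : Fin 1 => MonoidAlgebra k S) 0) ∘ₗ
      U.subtype).codRestrict (LI k B) (fun u => u.2)
  have hpp : ∀ u : U, (pp u : MonoidAlgebra k S) = (u : Fin 1 → MonoidAlgebra k S) 0 := fun u => rfl
  let ρ₁ : U →ₗ[MonoidAlgebra k S] U :=
    -(jj ∘ₗ ρ ∘ₗ (LinearMap.inr (MonoidAlgebra k S) (MonoidAlgebra k S) (LI k B)) ∘ₗ pp)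
  let ρ₂ : (Fin 1 → MonoidAlgebra k S) →ₗ[MonoidAlgebra k S] U :=
    -(jj ∘ₗ ρ ∘ₗ (LinearMap.inl (MonoidAlgebra k S) (MonoidAlgebra k S) (LI k B)) ∘ₗ
      (LinearMap.toSpanSingleton (MonoidAlgebra k S) (MonoidAlgebra k S) (el k s⁻¹)) ∘ₗ
      (LinearMap.proj (R := MonoidAlgebra k S) (φ := fun _ : Fin 1 => MonoidAlgebra k S) 0))
  have hρ₁ : ∀ (u : U) (i : Fin 1), (ρ₁ u : Fin 1 → MonoidAlgebra k S) i =
      -(ρ (0, pp u) : MonoidAlgebra k S) := fun u i => rfl
  have hρ₂ : ∀ (z : Fin 1 → MonoidAlgebra k S) (i : Fin 1),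
      (ρ₂ z : Fin 1 → MonoidAlgebra k S) i = -(ρ (z 0 * el k s⁻¹, 0) : MonoidAlgebra k S) :=
    fun z i => rfl
  have heq : ∀ (u : U) (hu : T u ∈ U), u = ρ₁ u - ρ₁ ⟨T u, hu⟩ - ρ₂ u := by
    intro u hu
    apply Subtype.ext
    funext i
    rw [Subsingleton.elim i 0]
    show (u : Fin 1 → MonoidAlgebra k S) 0 = (ρ₁ u : Fin 1 → MonoidAlgebra k S) 0 -
      (ρ₁ ⟨T u, hu⟩ : Fin 1 → MonoidAlgebra k S) 0 - (ρ₂ u : Fin 1 → MonoidAlgebra k S) 0
    rw [hρ₁, hρ₁, hρ₂]
    have h1 : ρ (0, pp ⟨T u, hu⟩) + ρ ((u : Fin 1 → MonoidAlgebra k S) 0 * el k s⁻¹, 0) -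
        ρ (0, pp u) = ρ ((u : Fin 1 → MonoidAlgebra k S) 0 * el k s⁻¹, pp ⟨T u, hu⟩ - pp u) := by
      rw [← map_add, ← map_sub]
      congr 1
      ext
      · simp
      · simp
    have h2 : θ ((u : Fin 1 → MonoidAlgebra k S) 0 * el k s⁻¹, pp ⟨T u, hu⟩ - pp u) = 0 := by
      apply Subtype.ext
      rw [hθ]
      show (u : Fin 1 → MonoidAlgebra k S) 0 * el k s⁻¹ * (el k s - 1) +
        ((u : Fin 1 → MonoidAlgebra k S) 0 * el k s⁻¹ - (u : Fin 1 → MonoidAlgebra k S) 0) = 0
      rw [mul_sub, mul_one, mul_assoc, CDO_mul, inv_mul_cancel, CDO_one, mul_one]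
      abel
    have h3 : (ρ ((u : Fin 1 → MonoidAlgebra k S) 0 * el k s⁻¹, pp ⟨T u, hu⟩ - pp u) :
        MonoidAlgebra k S) = (u : Fin 1 → MonoidAlgebra k S) 0 := by
      rw [hρ, h2, map_zero]
      show ((u : Fin 1 → MonoidAlgebra k S) 0 * el k s⁻¹ - 0) * el k s = _
      rw [sub_zero, mul_assoc, CDO_mul, inv_mul_cancel, CDO_one, mul_one]
    have h4 := congrArg (fun w : LI k B => (w : MonoidAlgebra k S)) h1
    beta_reduce at h4
    rw [h3] at h4
    have h5 : (ρ (0, pp ⟨T u, hu⟩) : MonoidAlgebra k S) +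
      (ρ ((u : Fin 1 → MonoidAlgebra k S) 0 * el k s⁻¹, 0) : MonoidAlgebra k S) -
      (ρ (0, pp u) : MonoidAlgebra k S) = (u : Fin 1 → MonoidAlgebra k S) 0 := h4
    refine h5.symm.trans ?_
    abel
  obtain ⟨M, α, hαU, hα⟩ := hN k S π 1 U hUfg hUht T hTU hTht ρ₁ ρ₂ heq
  -- the element `q`
  set q : MonoidAlgebra k S := α (fun _ => 1) 0 with hq
  have hqU : q ∈ LI k B := hαU (fun _ => 1)
  have hiter : ∀ (m : ℕ) (u : MonoidAlgebra k S),
      ((fun z => T z)^[m] (fun _ => u)) 0 = u * el k ((s⁻¹) ^ m) := by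
    intro m u
    induction m with
    | zero =>
      rw [pow_zero, CDO_one, mul_one]
      rfl
    | succ m ih =>
      rw [Function.iterate_succ_apply', hT, ih, mul_assoc, CDO_mul, ← pow_succ]
  have huq : ∀ u ∈ LI k B, u * q = u * el k ((s⁻¹) ^ M) := by
    intro u hu
    have h1 := hα (fun _ => u) hu
    have h2 : (fun _ => u : Fin 1 → MonoidAlgebra k S) = u • (fun _ => (1 : MonoidAlgebra k S)) := by
      funext i
      show u = u * 1
      rw [mul_one]
    have h3 := congrFun h1 0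
    rw [hiter] at h3
    rw [← h3]
    conv_rhs => rw [h2]
    rw [map_smul]
    rfl
  intro u hu
  set y : MonoidAlgebra k S := el k ((s⁻¹) ^ M) - q with hy
  have hyu : el k u * y = y := by
    have h1 := huq _ (hgen u hu)
    rw [sub_mul, sub_mul, one_mul, one_mul] at h1
    rw [hy, mul_sub]
    rw [sub_eq_sub_iff_add_eq_add] at h1 ⊢
    rw [h1.symm]
    abel
  have hy0 : y ≠ 0 := by
    intro h0
    have h1 : aug k S y = 1 := by
      rw [hy, map_sub, CDO_aug_el, CDO_aug B q hqU, sub_zero]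
    rw [h0, map_zero] at h1
    exact zero_ne_one h1
  have hsup : ∃ x₀ : S, y.coeff x₀ ≠ 0 := by
    by_contra hno
    push Not at hno
    apply hy0
    apply MonoidAlgebra.ext
    apply Finsupp.ext
    intro x
    rw [hno x]
    rfl
  obtain ⟨x₀, hx₀⟩ := hsup
  have hstep : ∀ x : S, y.coeff (u * x) = y.coeff x := by
    intro x
    conv_lhs => rw [← hyu]
    rw [CDO_coeff', inv_mul_cancel_left]
  have hpow : ∀ (m : ℕ), y.coeff (u ^ m * x₀) = y.coeff x₀ := by
    intro m
    induction m with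
    | zero => rw [pow_zero, one_mul]
    | succ m ih => rw [pow_succ', mul_assoc, hstep, ih]
  have hfin : ∃ i j : ℕ, i ≠ j ∧ u ^ i * x₀ = u ^ j * x₀ := by
    by_contra hno
    push Not at hno
    have hinj : Function.Injective (fun m : ℕ => u ^ m * x₀) := by
      intro i j hij
      by_contra hne
      exact hno i j hne hij
    have h1 : Set.range (fun m : ℕ => u ^ m * x₀) ⊆ (y.coeff.support : Set S) := by
      rintro _ ⟨m, rfl⟩
      rw [Finset.mem_coe, Finsupp.mem_support_iff]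
      show y.coeff (u ^ m * x₀) ≠ 0
      rw [hpow]
      exact hx₀
    exact (Set.infinite_range_of_injective hinj) ((Finset.finite_toSet _).subset h1)
  obtain ⟨i, j, hij, he⟩ := hfin
  have he' : u ^ i = u ^ j := mul_right_cancel he
  have hkey : ∀ i j : ℕ, i < j → u ^ i = u ^ j → u = 1 := by
    intro i j hlt h
    refine htor u (j - i) (by omega) ?_
    have h1 : u ^ j = u ^ i * u ^ (j - i) := by
      rw [← pow_add]
      congr 1
      omega
    rw [h1] at h
    exact left_eq_mul.1 h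
  rcases lt_or_gt_of_ne hij with h | h
  · exact hkey i j h he'
  · exact hkey j i h he'.symm

end Pool.Agent.PDE
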