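import Pool.Agent.PDE.StG

set_option autoImplicit false

namespace Pool.Agent.PDE

open Pool.Agent.PDA Pool.Agent.PDB Subgroup

theorem thm_CDP (hL : St_LIS) : St_CDP := by
  rintro k B _ _ n b hb ⟨ρ, hρ1, hρ2⟩
  have hmem : ∀ z : Fin n → MonoidAlgebra k B, bd k b z ∈ LI k (⊤ : Subgroup B) := by
    intro z
    rw [← hb]
    exact ((hL k B).2 n b _).2 ⟨z, rfl⟩
  let f : (Fin n → MonoidAlgebra k B) →ₗ[MonoidAlgebra k B] LI k (⊤ : Subgroup B) :=
    LinearMap.codRestrict (LI k (⊤ : Subgroup B)) (bd k b) hmem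
  have hf : ∀ z, ((f z : LI k (⊤ : Subgroup B)) : MonoidAlgebra k B) = bd k b z := fun z => rfl
  have hsurj : Function.Surjective f := by
    intro y
    have hy : (y : MonoidAlgebra k B) ∈ LI k (closure (Set.range b)) := by
      rw [hb]
      exact y.2
    obtain ⟨z, hz⟩ := ((hL k B).2 n b _).1 hy
    exact ⟨z, Subtype.ext hz⟩
  have hker : LinearMap.ker f ≤ LinearMap.ker (LinearMap.id - ρ) := by
    intro z hz
    have hz1 : bd k b z = 0 := by
      rw [← hf z, LinearMap.mem_ker.1 hz]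
      rfl
    rw [LinearMap.mem_ker, LinearMap.sub_apply, LinearMap.id_apply,
      hρ2 z (LinearMap.mem_ker.2 hz1), sub_self]
  let e := LinearMap.quotKerEquivOfSurjective f hsurj
  let i : LI k (⊤ : Subgroup B) →ₗ[MonoidAlgebra k B] (Fin n → MonoidAlgebra k B) :=
    ((LinearMap.ker f).liftQ (LinearMap.id - ρ) hker) ∘ₗ e.symm.toLinearMap
  refine Module.Projective.of_split i f ?_
  ext y
  obtain ⟨z, hz⟩ := hsurj y
  have h1 : e.symm y = (LinearMap.ker f).mkQ z := by
    rw [LinearEquiv.symm_apply_eq]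
    exact hz.symm
  have h2 : i y = z - ρ z := by
    change ((LinearMap.ker f).liftQ (LinearMap.id - ρ) hker) (e.symm y) = _
    rw [h1, Submodule.mkQ_apply, Submodule.liftQ_apply]
    rfl
  rw [LinearMap.comp_apply, h2, hf, map_sub, LinearMap.mem_ker.1 (hρ1 z), sub_zero, ← hf z, hz]
  rfl

end Pool.Agent.PDE
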