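import Pool.Agent.PDE.StG

/-!
# PDE: ascending HNN extensions, degree two
-/

set_option autoImplicit false

namespace Pool.Agent.PDE

open Pool.Agent.PDA Pool.Agent.PDB Subgroup

namespace CDT

section basic

variable {k S : Type} [CommRing k] [Group S]

theorem el_mul (g h : S) : el k (g * h) = el k g * el k h := map_mul (MonoidAlgebra.of k S) g h

theorem el_one : el k (1 : S) = 1 := map_one (MonoidAlgebra.of k S)

theorem el_eq (g : S) : el k g = MonoidAlgebra.single g (1 : k) := rfl

theorem ht_zero (π : S →* Multiplicative ℤ) (h : ℤ) : ht π h (0 : MonoidAlgebra k S) = 0 := by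
  unfold ht
  rw [MonoidAlgebra.coeff_zero, Finsupp.filter_zero]
  rfl

theorem ht_add (π : S →* Multiplicative ℤ) (h : ℤ) (a b : MonoidAlgebra k S) :
    ht π h (a + b) = ht π h a + ht π h b := by
  unfold ht
  rw [MonoidAlgebra.coeff_add, Finsupp.filter_add]
  rfl

theorem ht_sum {ι : Type} (π : S →* Multiplicative ℤ) (h : ℤ) (F : Finset ι)
    (a : ι → MonoidAlgebra k S) : ht π h (∑ i ∈ F, a i) = ∑ i ∈ F, ht π h (a i) :=
  map_sum (AddMonoidHom.mk' (ht π h) (ht_add π h)) a F

theorem ht_single_same (π : S →* Multiplicative ℤ) (h : ℤ) (g : S) (r : k)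
    (hg : Multiplicative.toAdd (π g) = h) :
    ht π h (MonoidAlgebra.single g r) = MonoidAlgebra.single g r := by
  unfold ht
  rw [MonoidAlgebra.coeff_single, Finsupp.filter_single_of_pos (fun g => Multiplicative.toAdd (π g) = h) hg]
  rfl

theorem ht_single_ne (π : S →* Multiplicative ℤ) (h : ℤ) (g : S) (r : k)
    (hg : Multiplicative.toAdd (π g) ≠ h) :
    ht π h (MonoidAlgebra.single g r) = 0 := by
  unfold ht
  rw [MonoidAlgebra.coeff_single, Finsupp.filter_single_of_neg (fun g => Multiplicative.toAdd (π g) = h) hg]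
  rfl

theorem ht_mul_single (π : S →* Multiplicative ℤ) (h : ℤ) (a : MonoidAlgebra k S) (g : S) (r : k) :
    ht π (h + Multiplicative.toAdd (π g)) (a * MonoidAlgebra.single g r) =
      ht π h a * MonoidAlgebra.single g r := by
  induction a using MonoidAlgebra.induction_linear with
  | zero => rw [zero_mul, ht_zero, ht_zero, zero_mul]
  | add a b ha hb => rw [add_mul, ht_add, ha, hb, ht_add, add_mul]
  | single x t =>
    rw [MonoidAlgebra.single_mul_single]
    by_cases hx : Multiplicative.toAdd (π x) = h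
    · rw [ht_single_same π h x t hx, ht_single_same, MonoidAlgebra.single_mul_single]
      rw [map_mul, toAdd_mul, hx]
    · rw [ht_single_ne π h x t hx, ht_single_ne, zero_mul]
      rw [map_mul, toAdd_mul]
      intro h1
      exact hx (by omega)

theorem ht_mul_res (π : S →* Multiplicative ℤ) (h : ℤ) (a : MonoidAlgebra k S) (B : Subgroup S)
    (hB : B ≤ π.ker) (x : MonoidAlgebra k B) :
    ht π h (a * res k B x) = ht π h a * res k B x := by
  induction x using MonoidAlgebra.induction_linear with
  | zero => rw [map_zero, mul_zero, mul_zero, ht_zero]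
  | add x y hx hy => rw [map_add, mul_add, ht_add, hx, hy, mul_add]
  | single u t =>
    have h1 : res k B (MonoidAlgebra.single u t) = MonoidAlgebra.single (u : S) t := by
      show MonoidAlgebra.mapDomainRingHom k B.subtype (MonoidAlgebra.single u t) = _
      rw [MonoidAlgebra.mapDomainRingHom_apply, MonoidAlgebra.mapDomain_single]
      rfl
    have h2 : Multiplicative.toAdd (π (u : S)) = 0 := by
      have h3 : π (u : S) = 1 := hB u.2
      rw [h3, toAdd_one]
    rw [h1]
    have h3 := ht_mul_single π h a (u : S) t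
    rwa [h2, add_zero] at h3

theorem res_single (B : Subgroup S) (u : B) (t : k) :
    res k B (MonoidAlgebra.single u t) = MonoidAlgebra.single (u : S) t := by
  show MonoidAlgebra.mapDomainRingHom k B.subtype (MonoidAlgebra.single u t) = _
  rw [MonoidAlgebra.mapDomainRingHom_apply, MonoidAlgebra.mapDomain_single]
  rfl

theorem res_el (B : Subgroup S) (u : B) : res k B (el k u) = el k (u : S) := res_single B u 1

/-- the part of `a` on the coset `g B`, moved to `B` -/
noncomputable def kap (B : Subgroup S) (g : S) (a : MonoidAlgebra k S) : MonoidAlgebra k B :=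
  MonoidAlgebra.ofCoeff (Finsupp.comapDomain (fun u : B => g * (u : S)) a.coeff
    (fun _ _ _ _ h => Subtype.ext (mul_left_cancel h)))

theorem kap_coeff (B : Subgroup S) (g : S) (a : MonoidAlgebra k S) (u : B) :
    (kap B g a).coeff u = a.coeff (g * (u : S)) := rfl

theorem kap_zero (B : Subgroup S) (g : S) : kap B g (0 : MonoidAlgebra k S) = 0 := by
  apply MonoidAlgebra.ext
  ext u
  rw [kap_coeff]
  rfl

theorem kap_add (B : Subgroup S) (g : S) (a b : MonoidAlgebra k S) :
    kap B g (a + b) = kap B g a + kap B g b := by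
  apply MonoidAlgebra.ext
  ext u
  rw [MonoidAlgebra.coeff_add, Finsupp.add_apply, kap_coeff, kap_coeff, kap_coeff,
    MonoidAlgebra.coeff_add, Finsupp.add_apply]

theorem kap_sum {ι : Type} (B : Subgroup S) (g : S) (F : Finset ι) (a : ι → MonoidAlgebra k S) :
    kap B g (∑ i ∈ F, a i) = ∑ i ∈ F, kap B g (a i) :=
  map_sum (AddMonoidHom.mk' (kap B g) (kap_add B g)) a F

theorem kap_mul_res (B : Subgroup S) (g : S) (a : MonoidAlgebra k S) (x : MonoidAlgebra k B) :
    kap B g (a * res k B x) = kap B g a * x := by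
  induction x using MonoidAlgebra.induction_linear with
  | zero => rw [map_zero, mul_zero, mul_zero, kap_zero]
  | add x y hx hy => rw [map_add, mul_add, kap_add, hx, hy, mul_add]
  | single u t =>
    rw [res_single]
    apply MonoidAlgebra.ext
    ext v
    rw [kap_coeff, MonoidAlgebra.coeff_mul_single_apply, MonoidAlgebra.coeff_mul_single_apply,
      kap_coeff, mul_assoc]
    rfl

theorem res_coeff (B : Subgroup S) (x : MonoidAlgebra k B) (u : B) :
    (res k B x).coeff (u : S) = x.coeff u := by
  show (MonoidAlgebra.mapDomainRingHom k B.subtype x).coeff (u : S) = _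
  rw [MonoidAlgebra.mapDomainRingHom_apply]
  exact Finsupp.mapDomain_apply Subtype.val_injective x.coeff u

theorem res_coeff_zero (B : Subgroup S) (x : MonoidAlgebra k B) (g : S) (hg : g ∉ B) :
    (res k B x).coeff g = 0 := by
  show (MonoidAlgebra.mapDomainRingHom k B.subtype x).coeff g = _
  rw [MonoidAlgebra.mapDomainRingHom_apply]
  apply Finsupp.mapDomain_notin_range
  rintro ⟨u, rfl⟩
  exact hg u.2

open Classical in
theorem part_coeff (B : Subgroup S) (g : S) (a : MonoidAlgebra k S) (x : S) :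
    (el k g * res k B (kap B g a)).coeff x =
      if (QuotientGroup.mk x : S ⧸ B) = QuotientGroup.mk g then a.coeff x else 0 := by
  rw [el_eq, MonoidAlgebra.coeff_single_mul_apply, one_mul]
  split_ifs with h
  · have h1 : g⁻¹ * x ∈ B := QuotientGroup.eq.1 h.symm
    have h2 := res_coeff B (kap B g a) ⟨g⁻¹ * x, h1⟩
    rw [kap_coeff] at h2
    rw [show ((⟨g⁻¹ * x, h1⟩ : B) : S) = g⁻¹ * x from rfl] at h2
    rw [h2, mul_inv_cancel_left]
  · apply res_coeff_zero
    intro h1
    exact h (QuotientGroup.eq.2 h1).symm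

end basic

section fg

variable {k S : Type} [CommRing k] [Group S]

theorem bd_kap (B : Subgroup S) (n : ℕ) (b : Fin n → B) (g : S) (u : Fin n → MonoidAlgebra k S) :
    bd k b (fun i => kap B g (u i)) = kap B g (bd k (fun i => (b i : S)) u) := by
  show ∑ i, kap B g (u i) * (el k (b i) - 1) = kap B g (∑ i, u i * (el k (b i : S) - 1))
  rw [kap_sum]
  refine Finset.sum_congr rfl fun i _ => ?_
  rw [← kap_mul_res, map_sub, map_one, res_el]

theorem fgU (B : Subgroup S) (n : ℕ) (b : Fin n → B)
    (hfg : (⊤ : Submodule (MonoidAlgebra k B) (Rel k b)).FG) :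
    (Rel k (fun i => (b i : S))).FG := by
  classical
  obtain ⟨F, hF⟩ := (Submodule.fg_top (Rel k b)).1 hfg
  let io : (Fin n → MonoidAlgebra k B) → (Fin n → MonoidAlgebra k S) := fun w i => res k B (w i)
  have hio : ∀ w, bd k (fun i => (b i : S)) (io w) = res k B (bd k b w) := by
    intro w
    show ∑ i, res k B (w i) * (el k (b i : S) - 1) = res k B (∑ i, w i * (el k (b i) - 1))
    rw [map_sum]
    refine Finset.sum_congr rfl fun i _ => ?_
    rw [map_mul, map_sub, map_one, res_el]
  refine ⟨F.image io, le_antisymm ?_ ?_⟩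
  · rw [Submodule.span_le]
    intro y hy
    rw [Finset.coe_image] at hy
    obtain ⟨w, hw, rfl⟩ := hy
    have h1 : w ∈ Rel k b := by rw [← hF]; exact Submodule.subset_span hw
    have h2 : bd k b w = 0 := h1
    show bd k (fun i => (b i : S)) (io w) = 0
    rw [hio, h2, map_zero]
  · intro u hu
    have hu0 : bd k (fun i => (b i : S)) u = 0 := hu
    have hspan : ∀ w ∈ Rel k b, io w ∈ Submodule.span (MonoidAlgebra k S)
        ((F.image io : Finset (Fin n → MonoidAlgebra k S)) : Set (Fin n → MonoidAlgebra k S)) := by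
      intro w hw
      rw [← hF] at hw
      induction hw using Submodule.span_induction with
      | mem x hx =>
        apply Submodule.subset_span
        rw [Finset.coe_image]
        exact ⟨x, hx, rfl⟩
      | zero =>
        have h0 : io 0 = 0 := by
          funext i
          exact map_zero _
        rw [h0]
        exact zero_mem _
      | add x y _ _ hx hy =>
        have h0 : io (x + y) = io x + io y := by
          funext i
          exact map_add _ _ _
        rw [h0]
        exact add_mem hx hy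
      | smul a x _ hx =>
        have h0 : io (a • x) = res k B a • io x := by
          funext i
          exact map_mul _ _ _
        rw [h0]
        exact Submodule.smul_mem _ _ hx
    let Q : Finset (S ⧸ B) := Finset.univ.biUnion fun i =>
      (u i).coeff.support.image (fun x => (QuotientGroup.mk x : S ⧸ B))
    have hdec : u = ∑ q ∈ Q, el k (q.out) • io (fun i => kap B (q.out) (u i)) := by
      funext i
      rw [Finset.sum_apply]
      apply MonoidAlgebra.ext
      ext x
      have h1 : (∑ q ∈ Q, (el k (q.out) • io (fun i => kap B (q.out) (u i))) i).coeff x =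
          ∑ q ∈ Q, ((el k (q.out) * res k B (kap B (q.out) (u i)))).coeff x :=
        map_sum (AddMonoidHom.mk' (fun a : MonoidAlgebra k S => a.coeff x) (fun a b => rfl)) _ Q
      rw [h1]
      simp_rw [part_coeff, QuotientGroup.out_eq']
      rw [Finset.sum_ite_eq]
      split_ifs with h
      · rfl
      · by_contra hne
        apply h
        refine Finset.mem_biUnion.2 ⟨i, Finset.mem_univ i, Finset.mem_image.2 ⟨x, ?_, rfl⟩⟩
        exact Finsupp.mem_support_iff.2 hne
    rw [hdec]
    refine Submodule.sum_mem _ fun q _ => Submodule.smul_mem _ _ (hspan _ ?_)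
    show bd k b _ = 0
    rw [bd_kap, hu0, kap_zero]

end fg

section main

variable {k S : Type} [CommRing k] [Group S]

/-- right multiplication by `a`, coordinatewise -/
noncomputable def rm (n : ℕ) (a : MonoidAlgebra k S) :
    (Fin n → MonoidAlgebra k S) →ₗ[MonoidAlgebra k S] (Fin n → MonoidAlgebra k S) where
  toFun z := fun i => z i * a
  map_add' z w := by funext i; simp [add_mul]
  map_smul' c z := by funext i; simp [mul_assoc]

/-- the combination of the `c j` -/
noncomputable def cmb {n m : ℕ} (c : Fin n → Fin m → MonoidAlgebra k S) :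
    (Fin n → MonoidAlgebra k S) →ₗ[MonoidAlgebra k S] (Fin m → MonoidAlgebra k S) where
  toFun z := ∑ j, z j • c j
  map_add' z w := by simp [add_smul, Finset.sum_add_distrib]
  map_smul' a z := by simp [mul_smul, Finset.smul_sum]

theorem TT_eq {n : ℕ} (s : S) (c : Fin n → Fin n → MonoidAlgebra k S)
    (z : Fin n → MonoidAlgebra k S) : TT s c z = cmb c (rm n (el k s⁻¹) z) := rfl

theorem rm_rm (n : ℕ) (a a' : MonoidAlgebra k S) (z : Fin n → MonoidAlgebra k S) :
    rm n a (rm n a' z) = rm n (a' * a) z := by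
  funext i
  show z i * a' * a = z i * (a' * a)
  rw [mul_assoc]

theorem rm_one (n : ℕ) (z : Fin n → MonoidAlgebra k S) : rm n 1 z = z := by
  funext i
  show z i * 1 = z i
  rw [mul_one]

variable (s : S) (B : Subgroup S) (n : ℕ) (b : Fin n → B)

/-- `∑ v_j (β_j - 1)`, `β_j = s b_j s⁻¹` -/
noncomputable def bq : (Fin n → MonoidAlgebra k S) →ₗ[MonoidAlgebra k S] MonoidAlgebra k S :=
  bd k (fun i => s * (b i : S) * s⁻¹)

/-- `bd` of the family `b` in `S` -/
noncomputable def bb : (Fin n → MonoidAlgebra k S) →ₗ[MonoidAlgebra k S] MonoidAlgebra k S :=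
  bd k (fun i => (b i : S))

theorem bb_rm (z : Fin n → MonoidAlgebra k S) :
    bb B n b (rm n (el k s) z) = bq s B n b z * el k s := by
  show ∑ i, z i * el k s * (el k (b i : S) - 1) =
    (∑ i, z i * (el k (s * (b i : S) * s⁻¹) - 1)) * el k s
  rw [Finset.sum_mul]
  refine Finset.sum_congr rfl fun i _ => ?_
  rw [mul_assoc, mul_assoc, mul_sub, sub_mul, ← el_mul, ← el_mul, mul_one, one_mul,
    inv_mul_cancel_right]

theorem bq_rm (z : Fin n → MonoidAlgebra k S) :
    bq s B n b (rm n (el k s⁻¹) z) = bb B n b z * el k s⁻¹ := by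
  show ∑ i, z i * el k s⁻¹ * (el k (s * (b i : S) * s⁻¹) - 1) =
    (∑ i, z i * (el k (b i : S) - 1)) * el k s⁻¹
  rw [Finset.sum_mul]
  refine Finset.sum_congr rfl fun i _ => ?_
  rw [mul_assoc (z i), mul_assoc (z i), mul_sub, sub_mul, ← el_mul, ← el_mul, mul_one, one_mul,
    mul_assoc s, inv_mul_cancel_left]

theorem bb_cmb (c : Fin n → Fin n → MonoidAlgebra k S)
    (hc : ∀ j, bb B n b (c j) = el k (s * (b j : S) * s⁻¹) - 1) (z : Fin n → MonoidAlgebra k S) :
    bb B n b (cmb c z) = bq s B n b z := by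
  show bb B n b (∑ j, z j • c j) = ∑ i, z i * (el k (s * (b i : S) * s⁻¹) - 1)
  rw [map_sum]
  refine Finset.sum_congr rfl fun i _ => ?_
  rw [map_smul, hc]
  rfl

theorem bb_mem (z : Fin n → MonoidAlgebra k S) :
    z ∈ Rel k (fun i => (b i : S)) ↔ bb B n b z = 0 := Iff.rfl

/-- the coordinates of `k[S]^(n+1)` -/
theorem bd_cons (z0 : MonoidAlgebra k S) (z : Fin n → MonoidAlgebra k S) :
    bd k (cz s b) (Fin.cons z0 z : Fin (n + 1) → MonoidAlgebra k S) =
      z0 * (el k s - 1) + bb B n b z := by
  show ∑ i : Fin (n + 1), (Fin.cons z0 z : Fin (n + 1) → MonoidAlgebra k S) i *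
    (el k (cz s b i) - 1) = z0 * (el k s - 1) + ∑ i, z i * (el k (b i : S) - 1)
  rw [Fin.sum_univ_succ]
  rfl

/-- the second component of `θ` -/
noncomputable def th2 (c : Fin n → Fin n → MonoidAlgebra k S) :
    ((Rel k (fun i => (b i : S))) × (Fin n → MonoidAlgebra k S)) →ₗ[MonoidAlgebra k S]
      (Fin n → MonoidAlgebra k S) :=
  (Rel k (fun i => (b i : S))).subtype ∘ₗ LinearMap.fst _ _ _ +
    (rm n (el k s) - cmb c) ∘ₗ LinearMap.snd _ _ _

theorem th2_apply (c : Fin n → Fin n → MonoidAlgebra k S) (u : Rel k (fun i => (b i : S)))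
    (v : Fin n → MonoidAlgebra k S) :
    th2 s B n b c (u, v) = (u : Fin n → MonoidAlgebra k S) + (rm n (el k s) v - cmb c v) := rfl

/-- `θ` before the restriction of the codomain -/
noncomputable def th0 (c : Fin n → Fin n → MonoidAlgebra k S) :
    ((Rel k (fun i => (b i : S))) × (Fin n → MonoidAlgebra k S)) →ₗ[MonoidAlgebra k S]
      (Fin (n + 1) → MonoidAlgebra k S) where
  toFun p := Fin.cons (- bq s B n b p.2) (th2 s B n b c p)
  map_add' p q := by
    funext i
    refine Fin.cases ?_ (fun i => ?_) i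
    · simp [add_comm]
    · simp
  map_smul' a p := by
    funext i
    refine Fin.cases ?_ (fun i => ?_) i
    · simp
    · simp

theorem th0_apply (c : Fin n → Fin n → MonoidAlgebra k S)
    (p : (Rel k (fun i => (b i : S))) × (Fin n → MonoidAlgebra k S)) :
    th0 s B n b c p = Fin.cons (- bq s B n b p.2) (th2 s B n b c p) := rfl

theorem th0_mem (c : Fin n → Fin n → MonoidAlgebra k S)
    (hc : ∀ j, bb B n b (c j) = el k (s * (b j : S) * s⁻¹) - 1)
    (p : (Rel k (fun i => (b i : S))) × (Fin n → MonoidAlgebra k S)) :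
    th0 s B n b c p ∈ Rel k (cz s b) := by
  show bd k (cz s b) (th0 s B n b c p) = 0
  rw [th0_apply, bd_cons]
  obtain ⟨u, v⟩ := p
  have hu : bb B n b (u : Fin n → MonoidAlgebra k S) = 0 := u.2
  rw [th2_apply, map_add, map_sub, hu, bb_rm, bb_cmb s B n b c hc]
  noncomm_ring

/-- the map `θ` -/
noncomputable def th (c : Fin n → Fin n → MonoidAlgebra k S)
    (hc : ∀ j, bb B n b (c j) = el k (s * (b j : S) * s⁻¹) - 1) :
    ((Rel k (fun i => (b i : S))) × (Fin n → MonoidAlgebra k S)) →ₗ[MonoidAlgebra k S]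
      Rel k (cz s b) :=
  LinearMap.codRestrict (Rel k (cz s b)) (th0 s B n b c) (th0_mem s B n b c hc)

end main

end CDT

open CDT in
theorem thm_CDT (hN : St_NIL) (hA : St_ASL) (hL : St_LIS) : St_CDT := by
  intro k _ S _ π s B n b hπs hBk hgen _ hst hproj hfg e he
  classical
  have hβ : ∀ j : Fin n, s * (b j : S) * s⁻¹ ∈ B := fun j => hst _ (b j).2
  let c : Fin n → Fin n → MonoidAlgebra k S := fun j i => res k B (e j i)
  have hc : ∀ j, bb B n b (c j) = el k (s * (b j : S) * s⁻¹) - 1 := by
    intro j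
    have h1 := congrArg (res k B) (he j (hβ j))
    rw [map_sub, map_one, res_el] at h1
    rw [← h1]
    show ∑ i, res k B (e j i) * (el k (b i : S) - 1) = res k B (∑ i, e j i * (el k (b i) - 1))
    rw [map_sum]
    refine Finset.sum_congr rfl fun i _ => ?_
    rw [map_mul, map_sub, map_one, res_el]
  have hss : el k s * el k s⁻¹ = (1 : MonoidAlgebra k S) := by
    rw [← el_mul, mul_inv_cancel, el_one]
  have hss' : el k s⁻¹ * el k s = (1 : MonoidAlgebra k S) := by
    rw [← el_mul, inv_mul_cancel, el_one]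
  have hclB : closure (Set.range (fun i => (b i : S))) = B := by
    have h1 : (Set.range (fun i => (b i : S))) = B.subtype '' (Set.range b) := by
      rw [← Set.range_comp]
      rfl
    rw [h1, ← MonoidHom.map_closure, hgen, ← MonoidHom.range_eq_map, Subgroup.range_subtype]
  -- `θ` is onto
  have hsurj : Function.Surjective (th s B n b c hc) := by
    intro q
    obtain ⟨q, hq⟩ := q
    set z0 : MonoidAlgebra k S := q 0 with hz0
    set z : Fin n → MonoidAlgebra k S := fun i => q i.succ with hz
    have hqe : q = Fin.cons z0 z := by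
      funext i
      refine Fin.cases ?_ (fun i => ?_) i
      · rfl
      · rfl
    have hrel : z0 * (el k s - 1) + bb B n b z = 0 := by
      rw [← bd_cons, ← hqe]
      exact hq
    have h1 : z0 * (el k s - 1) ∈ LI k B := by
      have h2 := ((hL k S).2 n (fun i => (b i : S)) (z0 * (el k s - 1))).2
        ⟨-z, by rw [map_neg]; exact (eq_neg_of_add_eq_zero_left hrel).symm⟩
      rwa [hclB] at h2
    have h2 := hA k S π s B hπs hBk hst z0 h1
    rw [← hclB] at h2
    obtain ⟨a, ha⟩ := ((hL k S).2 n (fun i => (b i : S)) _).1 h2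
    have ha' : bb B n b a = z0 * el k s := ha
    set v : Fin n → MonoidAlgebra k S := - rm n (el k s⁻¹) a with hv
    have hv1 : bq s B n b v = - z0 := by
      rw [hv, map_neg, bq_rm, ha', mul_assoc, hss, mul_one]
    have hu : z - (rm n (el k s) v - cmb c v) ∈ Rel k (fun i => (b i : S)) := by
      rw [bb_mem, map_sub, map_sub, bb_rm, bb_cmb s B n b c hc, hv1,
        eq_neg_of_add_eq_zero_right hrel]
      noncomm_ring
    refine ⟨(⟨_, hu⟩, v), Subtype.ext ?_⟩
    show th0 s B n b c _ = q
    rw [th0_apply, th2_apply, hqe]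
    show (Fin.cons (- bq s B n b v) (z - (rm n (el k s) v - cmb c v) +
      (rm n (el k s) v - cmb c v)) : Fin (n + 1) → MonoidAlgebra k S) = _
    rw [hv1, neg_neg, sub_add_cancel]
  obtain ⟨σ, hσ⟩ := Module.projective_lifting_property (th s B n b c hc) LinearMap.id hsurj
  have hσ' : ∀ q, th s B n b c hc (σ q) = q := fun q => LinearMap.congr_fun hσ q
  -- `ρ`
  let r0 : ((Rel k (fun i => (b i : S))) × (Fin n → MonoidAlgebra k S)) →ₗ[MonoidAlgebra k S]
      (Fin n → MonoidAlgebra k S) :=
    - (rm n (el k s) ∘ₗ (LinearMap.snd _ _ _ - LinearMap.snd _ _ _ ∘ₗ σ ∘ₗ th s B n b c hc))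
  have hr0 : ∀ p, r0 p = - rm n (el k s) (p.2 - (σ (th s B n b c hc p)).2) := fun p => rfl
  have hr0m : ∀ p, r0 p ∈ Rel k (fun i => (b i : S)) := by
    intro p
    rw [bb_mem, hr0, map_neg, bb_rm]
    have h1 : th s B n b c hc (p - σ (th s B n b c hc p)) = 0 := by
      rw [map_sub, hσ', sub_self]
    have h2 : th0 s B n b c (p - σ (th s B n b c hc p)) = 0 := congrArg Subtype.val h1
    have h3 := congrFun h2 0
    rw [th0_apply] at h3
    have h4 : - bq s B n b (p.2 - (σ (th s B n b c hc p)).2) = 0 := h3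
    rw [neg_eq_zero.1 h4, zero_mul, neg_zero]
  let ρ : ((Rel k (fun i => (b i : S))) × (Fin n → MonoidAlgebra k S)) →ₗ[MonoidAlgebra k S]
      Rel k (fun i => (b i : S)) := LinearMap.codRestrict _ r0 hr0m
  have hTU : ∀ u ∈ Rel k (fun i => (b i : S)), TT s c u ∈ Rel k (fun i => (b i : S)) := by
    intro u hu
    rw [bb_mem] at hu ⊢
    rw [TT_eq, bb_cmb s B n b c hc, bq_rm, hu, zero_mul]
  have hht : ∀ u ∈ Rel k (fun i => (b i : S)), ∀ h : ℤ,
      (fun i => ht π h (u i)) ∈ Rel k (fun i => (b i : S)) := by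
    intro u hu h
    have hu' : ∑ i, u i * (el k (b i : S) - 1) = 0 := hu
    show ∑ i, ht π h (u i) * (el k (b i : S) - 1) = 0
    have h1 : ∀ i, ht π h (u i) * (el k (b i : S) - 1) = ht π h (u i * (el k (b i : S) - 1)) := by
      intro i
      have h2 : (el k (b i : S) - 1 : MonoidAlgebra k S) = res k B (el k (b i) - 1) := by
        rw [map_sub, map_one, res_el]
      rw [h2, ht_mul_res π h (u i) B hBk]
    rw [Finset.sum_congr rfl fun i _ => h1 i, ← ht_sum, hu', ht_zero]
  have hdeg : ∀ (h : ℤ) (z : Fin n → MonoidAlgebra k S), TT s c (fun i => ht π h (z i)) =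
      fun i => ht π (h - 1) (TT s c z i) := by
    intro h z
    have hs' : Multiplicative.toAdd (π s⁻¹) = -1 := by
      rw [map_inv, hπs]
      rfl
    funext i
    show (∑ j, (ht π h (z j) * el k s⁻¹) • c j) i = ht π (h - 1) ((∑ j, (z j * el k s⁻¹) • c j) i)
    rw [Finset.sum_apply, Finset.sum_apply, ht_sum]
    refine Finset.sum_congr rfl fun j _ => ?_
    show ht π h (z j) * el k s⁻¹ * res k B (e j i) = ht π (h - 1) (z j * el k s⁻¹ * res k B (e j i))
    rw [ht_mul_res π (h - 1) _ B hBk]
    have h1 := ht_mul_single π h (z j) s⁻¹ (1 : k)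
    rw [hs'] at h1
    rw [el_eq, ← h1]
    rfl
  refine hN k S π n (Rel k (fun i => (b i : S))) (fgU B n b hfg) hht (TT s c) hTU hdeg
    (ρ ∘ₗ LinearMap.inl _ _ _) (ρ ∘ₗ LinearMap.inr _ _ _ ∘ₗ rm n (el k s⁻¹)) ?_
  intro u hu
  have h0 : th s B n b c hc ((u - ⟨TT s c u, hu⟩ : Rel k (fun i => (b i : S))),
      - rm n (el k s⁻¹) (u : Fin n → MonoidAlgebra k S)) = 0 := by
    apply Subtype.ext
    show th0 s B n b c _ = 0
    rw [th0_apply, th2_apply]
    have h1 : bq s B n b (- rm n (el k s⁻¹) (u : Fin n → MonoidAlgebra k S)) = 0 := by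
      have h2 : bb B n b (u : Fin n → MonoidAlgebra k S) = 0 := u.2
      rw [map_neg, bq_rm, h2, zero_mul, neg_zero]
    have h2 : ((u - ⟨TT s c u, hu⟩ : Rel k (fun i => (b i : S))) : Fin n → MonoidAlgebra k S) +
        (rm n (el k s) (- rm n (el k s⁻¹) (u : Fin n → MonoidAlgebra k S)) -
          cmb c (- rm n (el k s⁻¹) (u : Fin n → MonoidAlgebra k S))) = 0 := by
      have h3 : ((u - ⟨TT s c u, hu⟩ : Rel k (fun i => (b i : S))) : Fin n → MonoidAlgebra k S) =
        (u : Fin n → MonoidAlgebra k S) - TT s c (u : Fin n → MonoidAlgebra k S) := rfl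
      rw [h3, map_neg, map_neg, rm_rm, hss', rm_one, TT_eq]
      abel
    rw [h2]
    show (Fin.cons (- bq s B n b (- rm n (el k s⁻¹) (u : Fin n → MonoidAlgebra k S))) 0 :
      Fin (n + 1) → MonoidAlgebra k S) = 0
    rw [h1, neg_zero]
    funext i
    refine Fin.cases ?_ (fun i => ?_) i
    · rfl
    · rfl
  have h1 : ρ ((u - ⟨TT s c u, hu⟩ : Rel k (fun i => (b i : S))),
      - rm n (el k s⁻¹) (u : Fin n → MonoidAlgebra k S)) = u := by
    apply Subtype.ext
    show r0 _ = _
    rw [hr0, h0, map_zero]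
    show - rm n (el k s) (- rm n (el k s⁻¹) (u : Fin n → MonoidAlgebra k S) - 0) = _
    rw [sub_zero, map_neg, neg_neg, rm_rm, hss', rm_one]
  have h2 : (((u - ⟨TT s c u, hu⟩ : Rel k (fun i => (b i : S))),
      - rm n (el k s⁻¹) (u : Fin n → MonoidAlgebra k S)) :
      (Rel k (fun i => (b i : S))) × (Fin n → MonoidAlgebra k S)) =
      LinearMap.inl (MonoidAlgebra k S) _ _ u - LinearMap.inl (MonoidAlgebra k S) _ _ ⟨TT s c u, hu⟩
      - LinearMap.inr (MonoidAlgebra k S) _ _ (rm n (el k s⁻¹) (u : Fin n → MonoidAlgebra k S)) := by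
    ext1
    · simp
    · simp
  rw [h2, map_sub, map_sub] at h1
  exact h1.symm

end Pool.Agent.PDE
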