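import Pool.Agent.PDE.StG

/-!
# PDE, CDW: from the eventually defined map to the retraction
-/

set_option autoImplicit false
set_option linter.unusedVariables false

namespace Pool.Agent.PDE

open Pool.Agent.PDA Pool.Agent.PDB Subgroup

section

variable {k S : Type} [CommRing k] [Group S]

theorem CDW_map_single {A B : Type} [Group A] [Group B] (f : A →* B) (a : A) (c : k) :
    MonoidAlgebra.mapDomainRingHom k f (MonoidAlgebra.single a c) =
      MonoidAlgebra.single (f a) c := by simp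

theorem CDW_map_el {A B : Type} [Group A] [Group B] (f : A →* B) (a : A) :
    MonoidAlgebra.mapDomainRingHom k f (el k a) = el k (f a) := CDW_map_single f a 1

/-- the powers of conjugation by `s` stabilise `B` -/
theorem CDW_mem {s : S} {B : Subgroup S} (hB : ∀ u ∈ B, s * u * s⁻¹ ∈ B) (M : ℕ) :
    ∀ u ∈ B, s ^ M * u * (s ^ M)⁻¹ ∈ B := by
  induction M with
  | zero => intro u hu; simpa using hu
  | succ M ih =>
    intro u hu
    have h := hB _ (ih u hu)
    have e : s ^ (M + 1) * u * (s ^ (M + 1))⁻¹ = s * (s ^ M * u * (s ^ M)⁻¹) * s⁻¹ := by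
      rw [pow_succ']
      group
    rw [e]
    exact h

/-- conjugation by `s ^ M` on `B` -/
noncomputable def CDW_th {s : S} {B : Subgroup S} (hB : ∀ u ∈ B, s * u * s⁻¹ ∈ B) (M : ℕ) :
    B →* B where
  toFun u := ⟨s ^ M * u * (s ^ M)⁻¹, CDW_mem hB M u u.2⟩
  map_one' := by
    ext
    simp
  map_mul' u v := by
    ext
    push_cast
    group

theorem CDW_th_inj {s : S} {B : Subgroup S} (hB : ∀ u ∈ B, s * u * s⁻¹ ∈ B) (M : ℕ) :
    Function.Injective (CDW_th hB M) := by
  intro u v h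
  have h1 : s ^ M * (u : S) * (s ^ M)⁻¹ = s ^ M * (v : S) * (s ^ M)⁻¹ := congrArg Subtype.val h
  ext
  exact mul_left_cancel (mul_right_cancel h1)

theorem CDW_th_succ {s : S} {B : Subgroup S} (hB : ∀ u ∈ B, s * u * s⁻¹ ∈ B) (M : ℕ)
    (a : MonoidAlgebra k B) :
    MonoidAlgebra.mapDomainRingHom k (CDW_th hB 1)
      (MonoidAlgebra.mapDomainRingHom k (CDW_th hB M) a) =
      MonoidAlgebra.mapDomainRingHom k (CDW_th hB (M + 1)) a := by
  induction a using MonoidAlgebra.induction_linear with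
  | zero => simp only [map_zero]
  | add x y hx hy => simp only [map_add, hx, hy]
  | single u c =>
    rw [CDW_map_single, CDW_map_single, CDW_map_single]
    congr 1
    ext
    change s ^ 1 * (s ^ M * (u : S) * (s ^ M)⁻¹) * (s ^ 1)⁻¹ = s ^ (M + 1) * (u : S) * (s ^ (M + 1))⁻¹
    rw [pow_succ']
    group

/-- the restriction to the coset `s ^ (-M) B` -/
noncomputable def CDW_ka (s : S) (B : Subgroup S) (M : ℕ) :
    MonoidAlgebra k S →+ MonoidAlgebra k B where
  toFun a := MonoidAlgebra.ofCoeff (a.coeff.comapDomain (fun u : B => (s ^ M)⁻¹ * (u : S))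
    (fun u _ v _ h => Subtype.ext (mul_left_cancel h)))
  map_zero' := by
    ext u
    simp
  map_add' a c := by
    ext u
    simp

theorem CDW_ka_coeff (s : S) (B : Subgroup S) (M : ℕ) (a : MonoidAlgebra k S) (u : B) :
    (CDW_ka s B M a).coeff u = a.coeff ((s ^ M)⁻¹ * (u : S)) := rfl

theorem CDW_ka_left {s : S} {B : Subgroup S} (hB : ∀ u ∈ B, s * u * s⁻¹ ∈ B) (M : ℕ)
    (c : MonoidAlgebra k B) (a : MonoidAlgebra k S) :
    CDW_ka s B M (res k B c * a) =
      MonoidAlgebra.mapDomainRingHom k (CDW_th hB M) c * CDW_ka s B M a := by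
  induction c using MonoidAlgebra.induction_linear with
  | zero => simp only [map_zero, zero_mul]
  | add x y hx hy => simp only [map_add, add_mul, hx, hy]
  | single u r =>
    rw [CDW_map_single, CDW_map_single]
    ext v
    rw [CDW_ka_coeff, MonoidAlgebra.coeff_single_mul_apply, MonoidAlgebra.coeff_single_mul_apply,
      CDW_ka_coeff]
    congr 2
    change (u : S)⁻¹ * ((s ^ M)⁻¹ * (v : S)) =
      (s ^ M)⁻¹ * ((s ^ M * (u : S) * (s ^ M)⁻¹)⁻¹ * (v : S))
    group

theorem CDW_ka_right (s : S) (B : Subgroup S) (M : ℕ) (a : MonoidAlgebra k S)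
    (c : MonoidAlgebra k B) :
    CDW_ka s B M (a * res k B c) = CDW_ka s B M a * c := by
  induction c using MonoidAlgebra.induction_linear with
  | zero => simp only [map_zero, mul_zero]
  | add x y hx hy => simp only [map_add, mul_add, hx, hy]
  | single u r =>
    rw [CDW_map_single]
    ext v
    rw [CDW_ka_coeff, MonoidAlgebra.coeff_mul_single_apply, MonoidAlgebra.coeff_mul_single_apply,
      CDW_ka_coeff]
    congr 2
    change (s ^ M)⁻¹ * (v : S) * (u : S)⁻¹ = (s ^ M)⁻¹ * ((v : S) * (u : S)⁻¹)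
    group

theorem CDW_ka_one (s : S) (B : Subgroup S) (M : ℕ) :
    CDW_ka s B M (el k (s ^ M)⁻¹) = 1 := by
  ext v
  rw [CDW_ka_coeff]
  change (MonoidAlgebra.single (s ^ M)⁻¹ (1 : k)).coeff ((s ^ M)⁻¹ * (v : S)) =
    (MonoidAlgebra.single (1 : B) (1 : k)).coeff v
  classical
  rw [MonoidAlgebra.coeff_single, MonoidAlgebra.coeff_single, Finsupp.single_apply,
    Finsupp.single_apply]
  congr 1
  apply propext
  constructor
  · intro h
    ext
    have h1 : (s ^ M)⁻¹ * 1 = (s ^ M)⁻¹ * (v : S) := by rw [mul_one]; exact h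
    exact mul_left_cancel h1
  · rintro rfl
    simp

theorem CDW_bd_apply {G : Type} [Group G] {n : ℕ} (x : Fin n → G) (z : Fin n → MonoidAlgebra k G) :
    bd k x z = ∑ i, z i * (el k (x i) - 1) := rfl

/-- the map `z ↦ ∑ φ(z_j) e_j` -/
noncomputable def CDW_ph {s : S} {B : Subgroup S} (hB : ∀ u ∈ B, s * u * s⁻¹ ∈ B) {n : ℕ}
    (e : Fin n → Fin n → MonoidAlgebra k B) :
    (Fin n → MonoidAlgebra k B) →+ (Fin n → MonoidAlgebra k B) where
  toFun z := ∑ j, MonoidAlgebra.mapDomainRingHom k (CDW_th hB 1) (z j) • e j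
  map_zero' := by simp
  map_add' z w := by simp only [Pi.add_apply, map_add, add_smul, Finset.sum_add_distrib]

theorem CDW_ph_apply {s : S} {B : Subgroup S} (hB : ∀ u ∈ B, s * u * s⁻¹ ∈ B) {n : ℕ}
    (e : Fin n → Fin n → MonoidAlgebra k B) (z : Fin n → MonoidAlgebra k B) :
    CDW_ph hB e z = ∑ j, MonoidAlgebra.mapDomainRingHom k (CDW_th hB 1) (z j) • e j := rfl

theorem CDW_ph_smul {s : S} {B : Subgroup S} (hB : ∀ u ∈ B, s * u * s⁻¹ ∈ B) {n : ℕ}
    (e : Fin n → Fin n → MonoidAlgebra k B) (a : MonoidAlgebra k B)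
    (z : Fin n → MonoidAlgebra k B) :
    CDW_ph hB e (a • z) =
      MonoidAlgebra.mapDomainRingHom k (CDW_th hB 1) a • CDW_ph hB e z := by
  rw [CDW_ph_apply, CDW_ph_apply, Finset.smul_sum]
  refine Finset.sum_congr rfl fun j _ => ?_
  rw [Pi.smul_apply, smul_eq_mul, map_mul, mul_smul]

theorem CDW_ph_bd {s : S} {B : Subgroup S} (hB : ∀ u ∈ B, s * u * s⁻¹ ∈ B) {n : ℕ} (b : Fin n → B)
    (e : Fin n → Fin n → MonoidAlgebra k B)
    (he : ∀ j, bd k b (e j) = el k (CDW_th hB 1 (b j)) - 1) (z : Fin n → MonoidAlgebra k B) :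
    bd k b (CDW_ph hB e z) = MonoidAlgebra.mapDomainRingHom k (CDW_th hB 1) (bd k b z) := by
  rw [CDW_ph_apply, map_sum, CDW_bd_apply, map_sum]
  refine Finset.sum_congr rfl fun j _ => ?_
  rw [map_smul, he, map_mul, map_sub, map_one, CDW_map_el, smul_eq_mul]

/-- moving `s⁻¹` to the left -/
theorem CDW_comm {s : S} {B : Subgroup S} (hB : ∀ u ∈ B, s * u * s⁻¹ ∈ B)
    (a : MonoidAlgebra k B) :
    res k B a * el k s⁻¹ =
      el k s⁻¹ * res k B (MonoidAlgebra.mapDomainRingHom k (CDW_th hB 1) a) := by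
  induction a using MonoidAlgebra.induction_linear with
  | zero => simp only [map_zero, zero_mul, mul_zero]
  | add x y hx hy => simp only [map_add, add_mul, mul_add, hx, hy]
  | single u c =>
    have hel : el k s⁻¹ = MonoidAlgebra.single s⁻¹ (1 : k) := rfl
    rw [CDW_map_single, CDW_map_single, CDW_map_single, hel, MonoidAlgebra.single_mul_single,
      MonoidAlgebra.single_mul_single, mul_one, one_mul]
    have h1 : B.subtype u * s⁻¹ = s⁻¹ * B.subtype (CDW_th hB 1 u) := by
      change (u : S) * s⁻¹ = s⁻¹ * (s ^ 1 * (u : S) * (s ^ 1)⁻¹)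
      group
    rw [h1]

/-- the inclusion of `k[B]^n` into `k[S]^n` -/
noncomputable def CDW_io (B : Subgroup S) {n : ℕ} :
    (Fin n → MonoidAlgebra k B) →+ (Fin n → MonoidAlgebra k S) where
  toFun z := fun i => res k B (z i)
  map_zero' := by
    funext i
    exact map_zero _
  map_add' z w := by
    funext i
    exact map_add _ _ _

theorem CDW_io_apply (B : Subgroup S) {n : ℕ} (z : Fin n → MonoidAlgebra k B) (i : Fin n) :
    CDW_io B z i = res k B (z i) := rfl

theorem CDW_io_smul (B : Subgroup S) {n : ℕ} (a : MonoidAlgebra k B)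
    (z : Fin n → MonoidAlgebra k B) : CDW_io B (a • z) = res k B a • CDW_io B z := by
  funext i
  rw [CDW_io_apply, Pi.smul_apply, Pi.smul_apply, smul_eq_mul, map_mul, smul_eq_mul, CDW_io_apply]

theorem CDW_T {s : S} {B : Subgroup S} (hB : ∀ u ∈ B, s * u * s⁻¹ ∈ B) {n : ℕ}
    (e : Fin n → Fin n → MonoidAlgebra k B) (z : Fin n → MonoidAlgebra k B) :
    TT s (fun j i => res k B (e j i)) (CDW_io B z) =
      el k s⁻¹ • CDW_io B (CDW_ph hB e z) := by
  change ∑ j, (CDW_io B z j * el k s⁻¹) • (fun i => res k B (e j i)) = _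
  rw [CDW_ph_apply, map_sum, Finset.smul_sum]
  refine Finset.sum_congr rfl fun j _ => ?_
  rw [CDW_io_smul, CDW_io_apply, CDW_comm hB, mul_smul]
  rfl

/-- the iterates -/
theorem CDW_iter {s : S} {B : Subgroup S} (hB : ∀ u ∈ B, s * u * s⁻¹ ∈ B) {n : ℕ} (b : Fin n → B)
    (e : Fin n → Fin n → MonoidAlgebra k B)
    (he : ∀ j, bd k b (e j) = el k (CDW_th hB 1 (b j)) - 1) (M : ℕ) :
    ∃ Φ : (Fin n → MonoidAlgebra k B) →+ (Fin n → MonoidAlgebra k B),
      (∀ (a : MonoidAlgebra k B) (z), Φ (a • z) =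
        MonoidAlgebra.mapDomainRingHom k (CDW_th hB M) a • Φ z) ∧
      (∀ z, bd k b (Φ z) = MonoidAlgebra.mapDomainRingHom k (CDW_th hB M) (bd k b z)) ∧
      ∀ z, (fun z => TT s (fun j i => res k B (e j i)) z)^[M] (CDW_io B z) =
        el k (s ^ M)⁻¹ • CDW_io B (Φ z) := by
  induction M with
  | zero =>
    have h0 : ∀ a : MonoidAlgebra k B,
        MonoidAlgebra.mapDomainRingHom k (CDW_th hB 0) a = a := by
      intro a
      induction a using MonoidAlgebra.induction_linear with
      | zero => simp only [map_zero]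
      | add x y hx hy => simp only [map_add, hx, hy]
      | single u c =>
        rw [CDW_map_single]
        congr 1
        ext
        change s ^ 0 * (u : S) * (s ^ 0)⁻¹ = (u : S)
        simp
    refine ⟨AddMonoidHom.id _, fun a z => ?_, fun z => ?_, fun z => ?_⟩
    · rw [h0]
      rfl
    · rw [h0]
      rfl
    · rw [Function.iterate_zero, id, pow_zero, inv_one]
      have h1 : el k (1 : S) = 1 := map_one (MonoidAlgebra.of k S)
      rw [h1, one_smul]
      rfl
  | succ M ih =>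
    obtain ⟨Φ, h1, h2, h3⟩ := ih
    refine ⟨(CDW_ph hB e).comp Φ, fun a z => ?_, fun z => ?_, fun z => ?_⟩
    · rw [AddMonoidHom.comp_apply, AddMonoidHom.comp_apply, h1, CDW_ph_smul, CDW_th_succ]
    · rw [AddMonoidHom.comp_apply, CDW_ph_bd hB b e he, h2, CDW_th_succ]
    · rw [Function.iterate_succ_apply', h3]
      change TT s (fun j i => res k B (e j i)) (el k (s ^ M)⁻¹ • CDW_io B (Φ z)) = _
      rw [map_smul, CDW_T hB, ← mul_smul, AddMonoidHom.comp_apply]
      congr 1
      have h4 : el k ((s ^ M)⁻¹ * s⁻¹) = el k (s ^ M)⁻¹ * el k s⁻¹ :=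
        map_mul (MonoidAlgebra.of k S) _ _
      rw [← h4]
      congr 1
      rw [pow_succ']
      group

end

theorem thm_CDW (hC : St_CDT) (hH : St_HTP) (hB : St_BDR) : St_CDW := by
  intro k _ S _ π s B n b hπ hBk hb hcz hst hproj hfg
  have hex : ∀ j : Fin n, ∃ e : Fin n → MonoidAlgebra k B,
      bd k b e = el k (CDW_th hst 1 (b j)) - 1 := by
    intro j
    refine (hB k B n b hb _).1 ?_
    rw [map_sub, map_one, sub_eq_zero]
    simp [aug, el]
  choose e he using hex
  have he' : ∀ (j : Fin n) (hj : s * (b j : S) * s⁻¹ ∈ B),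
      bd k b (e j) = el k (⟨_, hj⟩ : B) - 1 := by
    intro j hj
    rw [he j]
    congr 2
    ext
    change s ^ 1 * (b j : S) * (s ^ 1)⁻¹ = s * (b j : S) * s⁻¹
    rw [pow_one]
  obtain ⟨M, α, hα1, hα2⟩ := hC k S π s B n b hπ hBk hb hcz hst hproj hfg e he'
  obtain ⟨Φ, h1, h2, h3⟩ := CDW_iter hst b e he M
  have hbd : ∀ v : Fin n → MonoidAlgebra k S,
      bd k b (fun i => CDW_ka s B M (v i)) = CDW_ka s B M (bd k (fun i => (b i : S)) v) := by
    intro v
    rw [CDW_bd_apply, CDW_bd_apply, map_sum]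
    refine Finset.sum_congr rfl fun i _ => ?_
    have h4 : el k (b i : S) - 1 = res k B (el k (b i) - 1) := by
      rw [map_sub, map_one, CDW_map_el]
      rfl
    rw [h4, CDW_ka_right]
  have hio : ∀ r ∈ Rel k b, CDW_io B r ∈ Rel k (fun i => (b i : S)) := by
    intro r hr
    have hr' : bd k b r = 0 := hr
    change bd k (fun i => (b i : S)) (CDW_io B r) = 0
    have h5 : bd k (fun i => (b i : S)) (CDW_io B r) = res k B (bd k b r) := by
      rw [CDW_bd_apply, CDW_bd_apply, map_sum]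
      refine Finset.sum_congr rfl fun i _ => ?_
      rw [map_mul, map_sub, map_one, CDW_map_el]
      rfl
    rw [h5, hr', map_zero]
  refine hH k B n b hb (CDW_th hst M) (CDW_th_inj hst M) Φ
    { toFun := fun z => fun i => CDW_ka s B M (α (CDW_io B z) i)
      map_zero' := by
        funext i
        simp
      map_add' := fun z w => by
        funext i
        simp } h1 h2 ?_ ?_ ?_
  · intro a z
    funext i
    change CDW_ka s B M (α (CDW_io B (a • z)) i) =
      MonoidAlgebra.mapDomainRingHom k (CDW_th hst M) a * CDW_ka s B M (α (CDW_io B z) i)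
    rw [CDW_io_smul, map_smul, Pi.smul_apply, smul_eq_mul, CDW_ka_left hst]
  · intro z
    change bd k b (fun i => CDW_ka s B M (α (CDW_io B z) i)) = 0
    have h6 : bd k (fun i => (b i : S)) (α (CDW_io B z)) = 0 := hα1 _
    rw [hbd, h6, map_zero]
  · intro r hr
    funext i
    change CDW_ka s B M (α (CDW_io B r) i) = Φ r i
    rw [hα2 _ (hio r hr), h3, Pi.smul_apply, smul_eq_mul, CDW_io_apply, CDW_ka_right, CDW_ka_one,
      one_mul]

end Pool.Agent.PDE
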