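import Pool.Agent.PDE.StG
import Pool.Agent.PDA.CMP

/-!
# PDE, module CMD: comparison of the dual complex with the relation module

The proof of `Pool/Agent/PDA/CMP.lean` with coefficients in a division ring.
-/

set_option autoImplicit false

namespace Pool.Agent.PDE

open Pool.Agent.PDA Pool.Agent.PDB

namespace CMD

section U

variable {S D : Type} [Group S] [DivisionRing D] (ψ : S →* Dˣ)

/-- `s ↦ ψ(s)⁻¹` as a homomorphism to the opposite ring -/
noncomputable def ro : ZG S →+* Dᵐᵒᵖ :=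
  (MonoidAlgebra.lift ℤ Dᵐᵒᵖ S
    { toFun := fun s => MulOpposite.op (((ψ s)⁻¹ : Dˣ) : D)
      map_one' := by
        rw [map_one, inv_one, Units.val_one, MulOpposite.op_one]
      map_mul' := fun s t => by
        rw [← MulOpposite.op_mul, ← Units.val_mul, map_mul, mul_inv_rev] } ).toRingHom

theorem ro_el (s : S) : ro ψ (el ℤ s) = MulOpposite.op (((ψ s)⁻¹ : Dˣ) : D) := by
  show MonoidAlgebra.lift ℤ Dᵐᵒᵖ S _ (MonoidAlgebra.single s (1 : ℤ)) = _
  rw [MonoidAlgebra.lift_single, one_smul]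
  rfl

/-- `D` with `s` acting by `c ↦ c ψ(s)⁻¹` -/
def U (_ : S →* Dˣ) : Type := D

noncomputable instance : AddCommGroup (U ψ) := inferInstanceAs (AddCommGroup D)

noncomputable instance : Module (ZG S) (U ψ) := Module.compHom D (ro ψ)

/-- an element of `D` in `U` -/
def mkU (c : D) : U ψ := c

/-- an element of `U` in `D` -/
def unU (c : U ψ) : D := c

theorem el_smul_U (s : S) (c : U ψ) : unU ψ (el ℤ s • c) = unU ψ c * (((ψ s)⁻¹ : Dˣ) : D) := by
  show ro ψ (el ℤ s) • (unU ψ c) = _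
  rw [ro_el]
  rfl

variable {M : Type} [AddCommGroup M] [Module (ZG S) M]

/-- an equivariant map is linear -/
noncomputable def mkLin (φ : M →+ D)
    (h : ∀ (s : S) (y : M), φ (el ℤ s • y) = φ y * (((ψ s)⁻¹ : Dˣ) : D)) :
    M →ₗ[ZG S] U ψ :=
  CMP.mkL (S := S) (M := M) (N := U ψ)
    { toFun := fun y => mkU ψ (φ y)
      map_zero' := by
        rw [map_zero]
        rfl
      map_add' := fun a b => by
        rw [map_add]
        rfl }
    (fun s y => by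
      show mkU ψ (φ (el ℤ s • y)) = el ℤ s • mkU ψ (φ y)
      rw [h]
      exact (el_smul_U ψ s (mkU ψ (φ y))).symm)

/-- the additive map of a linear map -/
noncomputable def toAdd (φ : M →ₗ[ZG S] U ψ) : M →+ D where
  toFun y := unU ψ (φ y)
  map_zero' := map_zero φ
  map_add' a b := map_add φ a b

theorem toAdd_el (φ : M →ₗ[ZG S] U ψ) (s : S) (y : M) :
    toAdd ψ φ (el ℤ s • y) = toAdd ψ φ y * (((ψ s)⁻¹ : Dˣ) : D) := by
  show unU ψ (φ (el ℤ s • y)) = unU ψ (φ y) * _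
  rw [map_smul]
  exact el_smul_U ψ s (φ y)

theorem E2R_of {d : ℕ} (x : Fin d → S)
    (h : ∀ φ : LinearMap.ker (bd ℤ x) →ₗ[ZG S] U ψ,
      ∃ φ' : (Fin d → ZG S) →ₗ[ZG S] U ψ, ∀ y : LinearMap.ker (bd ℤ x), φ' y = φ y) :
    E2R x ψ := by
  intro φ hφ
  obtain ⟨φ', h1⟩ := h (mkLin ψ φ hφ)
  exact ⟨toAdd ψ φ', toAdd_el ψ φ', fun y => h1 y⟩

end U

open CMP

theorem Om_to (G : Type) [Group G] (R : Short G) (w : G →* ℤˣ) (H : Subgroup G)
    (D : Type) [DivisionRing D] (χ ψ : H →* Dˣ)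
    (hψ : ∀ h : H, (χ h : D) = ((w (h : G) : ℤ) : D) * (ψ h : D)) (hO : OmPropD R H χ) :
    ∀ φ : LinearMap.ker (pc w (H := H) R.d3) →ₗ[ZG H] U ψ,
      ∃ φ' : DH w H R.P2 →ₗ[ZG H] U ψ, ∀ y : LinearMap.ker (pc w (H := H) R.d3), φ' y = φ y := by
  have hwQ : ∀ g : G, ((w g : ℤ) : D) * ((w g : ℤ) : D) = 1 := fun g => by
    rw [← Int.cast_mul, w_sq, Int.cast_one]
  have hdd : ∀ f : R.P1 →ₗ[ZG G] ZG G, (f ∘ₗ R.d2) ∘ₗ R.d3 = 0 := by
    intro f
    ext x : 1
    show f (R.d2 (R.d3 x)) = 0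
    rw [(R.ex2 _).2 ⟨x, rfl⟩, map_zero]
  have hdd1 : ∀ f : R.P0 →ₗ[ZG G] ZG G, (f ∘ₗ R.d1) ∘ₗ R.d2 = 0 := by
    intro f
    ext x : 1
    show f (R.d1 (R.d2 x)) = 0
    rw [(R.ex1 _).2 ⟨x, rfl⟩, map_zero]
  intro φ
  -- the cocycle
  let j : (R.P1 →ₗ[ZG G] ZG G) → LinearMap.ker (pc w (H := H) R.d3) := fun f =>
    ⟨mk w H (f ∘ₗ R.d2), hdd f⟩
  have hj : ∀ (h : H) (f : R.P1 →ₗ[ZG G] ZG G),
      j (rm f (h : G)) = (w (h : G) : ℤ) • (el ℤ h⁻¹ • j f) := by
    intro h f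
    apply Subtype.ext
    have := rm_eq w h (mk w H (f ∘ₗ R.d2))
    exact this
  obtain ⟨ω', h1, h2⟩ := hO
    { toFun := fun f => toAdd ψ φ (j f)
      map_zero' := by
        have : j 0 = 0 := by
          apply Subtype.ext
          exact LinearMap.zero_comp _
        rw [this, map_zero]
      map_add' := fun f g => by
        have : j (f + g) = j f + j g := by
          apply Subtype.ext
          exact LinearMap.add_comp _ _ _
        rw [this, map_add] }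
    (fun h f => by
      show toAdd ψ φ (j (rm f (h : G))) = toAdd ψ φ (j f) * _
      rw [hj, map_zsmul, toAdd_el, zsmul_eq_mul, hψ, map_inv, inv_inv, ← mul_assoc, ← mul_assoc,
        (Int.cast_commute (w (h : G) : ℤ) (toAdd ψ φ (j f))).eq])
    (fun f => by
      have : j (f ∘ₗ R.d1) = 0 := by
        apply Subtype.ext
        exact hdd1 f
      show toAdd ψ φ (j (f ∘ₗ R.d1)) = 0
      rw [this, map_zero])
  refine ⟨mkLin (M := DH w H R.P2) ψ ω' ?_, ?_⟩
  · intro h f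
    have h3 : (el ℤ h • f : DH w H R.P2) = (w (h : G) : ℤ) • mk w H (rm (un w H f) (h : G)⁻¹) :=
      el_smul w H h f
    rw [h3]
    have h4 : ω' ((w (h : G) : ℤ) • mk w H (rm (un w H f) (h : G)⁻¹)) =
        (w (h : G) : ℤ) • ω' (rm (un w H f) ((h⁻¹ : H) : G)) := map_zsmul ω' _ _
    refine h4.trans ?_
    have h5 : (χ h⁻¹ : D) = ((w (h : G) : ℤ) : D) * (((ψ h)⁻¹ : Dˣ) : D) := by
      rw [hψ, Subgroup.coe_inv, w_inv, map_inv]
    rw [h1 h⁻¹, zsmul_eq_mul, h5, ← mul_assoc, ← mul_assoc,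
      ((Int.cast_commute (w (h : G) : ℤ) (ω' (un w H f))).eq), mul_assoc (ω' (un w H f)), hwQ,
      mul_one]
    rfl
  · rintro ⟨y, hy⟩
    obtain ⟨g, hg⟩ := R.h2 y hy
    have h3 := h2 g
    have h4 : (⟨y, hy⟩ : LinearMap.ker (pc w (H := H) R.d3)) = j g := Subtype.ext hg
    rw [h4]
    exact h3.symm

end CMD

open CMP CMD in
theorem thm_CMD (hF : St_FRE) (hE : St_EX2) (hB : St_BDR) : St_CMD := by
  intro G _ R w hw H D _ χ ψ hψ d x hx hO
  refine E2R_of ψ x ?_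
  have := DH_proj w H R.P3 hF
  have := DH_proj w H R.P2 hF
  let e : DH w H R.P3 →ₗ[ZG H] Tr ℤ H := mkL (S := H) (M := DH w H R.P3) (N := Tr ℤ H) R.θ (by
    intro h f
    have h3 : (el ℤ h • f : DH w H R.P3) = (w (h : G) : ℤ) • mk w H (rm (un w H f) (h : G)⁻¹) :=
      el_smul w H h f
    rw [h3]
    have h4 : R.θ ((w (h : G) : ℤ) • mk w H (rm (un w H f) (h : G)⁻¹)) =
        (w (h : G) : ℤ) • R.θ (rm (un w H f) (h : G)⁻¹) := map_zsmul R.θ _ _
    refine h4.trans ?_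
    rw [hw, w_inv, smul_eq_mul, ← mul_assoc, w_sq, one_mul]
    show _ = aug ℤ H (el ℤ h) * R.θ f
    have h5 : aug ℤ H (el ℤ h) = 1 := by
      unfold aug
      rw [MonoidAlgebra.lift_of]
      rfl
    rw [h5, one_mul]
    rfl)
  let e' : ZG H →ₗ[ZG H] Tr ℤ H :=
    { toFun := fun a => (aug ℤ H a : ℤ)
      map_add' := fun a b => map_add _ a b
      map_smul' := fun a b => map_mul (aug ℤ H) a b }
  have he : Function.Surjective e := R.θ_surj
  have he' : Function.Surjective e' := by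
    intro c
    refine ⟨algebraMap ℤ (ZG H) c, ?_⟩
    exact AlgHom.commutes (aug ℤ H) c
  have hr : LinearMap.range (pc w (H := H) R.d3) = LinearMap.ker e := by
    ext f
    constructor
    · rintro ⟨g, hg⟩
      exact (R.θ_ker f).2 ⟨g, hg.symm⟩
    · intro hf
      obtain ⟨g, hg⟩ := (R.θ_ker f).1 hf
      exact ⟨g, hg.symm⟩
  have hr' : LinearMap.range (bd ℤ x) = LinearMap.ker e' := by
    ext a
    exact (hB ℤ H d x hx a).symm
  exact hE (ZG H) (Tr ℤ H) (DH w H R.P3) (DH w H R.P2) (ZG H) (Fin d → ZG H) (U ψ) e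
    (pc w (H := H) R.d3) e' (bd ℤ x) he he' hr hr' (Om_to G R w H D χ ψ hψ hO)

end Pool.Agent.PDE
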