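import Pool.Agent.PDE.StG

/-!
# PDE, module DUD: duality with coefficients in a division ring

The proof of `Pool/Agent/PDA/DUA.lean` with right vector spaces over a division ring.
-/

set_option autoImplicit false

namespace Pool.Agent.PDE

open Pool.Agent.PDA Pool.Agent.PDB MulOpposite

namespace DUD

variable {G : Type} [Group G]

/-- finite dual bases -/
theorem dual_basis {Λ : Type} [Ring Λ] (P : Type) [AddCommGroup P] [Module Λ P]
    [Module.Finite Λ P] [Module.Projective Λ P] :
    ∃ (n : ℕ) (u : Fin n → P) (f : Fin n → (P →ₗ[Λ] Λ)), ∀ x, x = ∑ j, f j x • u j := by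
  obtain ⟨n, φ, hφ⟩ := Module.Finite.exists_fin' Λ P
  obtain ⟨s, hs⟩ := LinearMap.exists_rightInverse_of_surjective φ (LinearMap.range_eq_top.2 hφ)
  refine ⟨n, fun j => φ (Pi.single j 1), fun j => LinearMap.proj j ∘ₗ s, fun x => ?_⟩
  have h1 : φ (s x) = x := by
    have := congrArg (fun t => t x) hs
    simpa using this
  conv_lhs => rw [← h1]
  have h2 : s x = ∑ j, (s x j) • (Pi.single j (1 : Λ) : Fin n → Λ) := by
    funext i
    simp [Finset.sum_apply, Pi.single_apply]
  conv_lhs => rw [h2]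
  rw [map_sum]
  simp

theorem el_eq (g : G) : el ℤ g = MonoidAlgebra.single g (1 : ℤ) := rfl

theorem el_mul (g h : G) : el ℤ (g * h) = el ℤ g * el ℤ h := map_mul (MonoidAlgebra.of ℤ G) g h

variable {D : Type} [DivisionRing D] (H : Subgroup G) (χ : H →* Dˣ)

open Classical in
/-- `χ` extended by zero -/
noncomputable def phi (g : G) : D := if h : g ∈ H then (χ ⟨g, h⟩ : D) else 0

theorem phi_mul_left (h : H) (g : G) : phi H χ ((h : G) * g) = (χ h : D) * phi H χ g := by
  unfold phi
  by_cases hg : g ∈ H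
  · rw [dif_pos hg, dif_pos (H.mul_mem h.2 hg), ← Units.val_mul, ← map_mul]
    rfl
  · rw [dif_neg hg, dif_neg (fun h' => hg ((H.mul_mem_cancel_left h.2).1 h')), mul_zero]

theorem phi_mul_right (h : H) (g : G) : phi H χ (g * (h : G)) = phi H χ g * (χ h : D) := by
  unfold phi
  by_cases hg : g ∈ H
  · rw [dif_pos hg, dif_pos (H.mul_mem hg h.2), ← Units.val_mul, ← map_mul]
    rfl
  · rw [dif_neg hg, dif_neg (fun h' => hg ((H.mul_mem_cancel_right h.2).1 h')), zero_mul]

theorem phi_ne {g : G} (h : phi H χ g ≠ 0) : g ∈ H := by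
  unfold phi at h
  by_contra hg
  exact h (dif_neg hg)

theorem phi_mem {g : G} (h : g ∈ H) : phi H χ g = (χ ⟨g, h⟩ : D) := dif_pos h

/-- the functional `∑ a_g g ↦ ∑_{h ∈ H} a_h χ(h)` -/
noncomputable def cH : ZG G →+ D :=
  MonoidAlgebra.liftNC (Int.castAddHom D) (phi H χ)

theorem cH_single (g : G) (c : ℤ) : cH H χ (MonoidAlgebra.single g c) = (c : D) * phi H χ g := by
  unfold cH
  rw [MonoidAlgebra.liftNC_single]
  rfl

theorem cH_left (h : H) (z : ZG G) : cH H χ (el ℤ (h : G) * z) = (χ h : D) * cH H χ z := by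
  induction z using MonoidAlgebra.induction_linear with
  | zero => simp
  | add a b ha hb => rw [mul_add, map_add, ha, hb, map_add, mul_add]
  | single g c =>
    rw [el_eq, MonoidAlgebra.single_mul_single, one_mul, cH_single, cH_single,
      phi_mul_left, ← mul_assoc, ← mul_assoc, (Int.cast_commute c (χ h : D)).eq]

theorem cH_right (h : H) (z : ZG G) : cH H χ (z * el ℤ (h : G)) = cH H χ z * (χ h : D) := by
  induction z using MonoidAlgebra.induction_linear with
  | zero => simp
  | add a b ha hb => rw [add_mul, map_add, ha, hb, map_add, add_mul]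
  | single g c =>
    rw [el_eq, MonoidAlgebra.single_mul_single, mul_one, cH_single, cH_single,
      phi_mul_right, mul_assoc]

/-- right cosets -/
abbrev RC : Type := Quotient (QuotientGroup.rightRel H)

variable {H} in
theorem rc_out (g : G) : g * ((Quotient.mk (QuotientGroup.rightRel H) g).out)⁻¹ ∈ H := by
  exact QuotientGroup.rightRel_apply.1 (Quotient.mk_out (s := QuotientGroup.rightRel H) g)

variable {H} in
theorem rc_eq {q : RC H} {g : G} (h : g * (q.out)⁻¹ ∈ H) : q = Quotient.mk _ g := by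
  have h1 : (Quotient.mk (QuotientGroup.rightRel H) q.out) = Quotient.mk _ g :=
    Quotient.sound (s := QuotientGroup.rightRel H) (QuotientGroup.rightRel_apply.2 h)
  rw [← h1, Quotient.out_eq]

/-- `∑ z_g a(g)` -/
noncomputable def sm (a : G → D) : ZG G →+ D := MonoidAlgebra.liftNC (Int.castAddHom D) a

theorem sm_single (a : G → D) (g : G) (c : ℤ) :
    sm a (MonoidAlgebra.single g c) = (c : D) * a g := by
  unfold sm
  rw [MonoidAlgebra.liftNC_single]
  rfl

theorem fin_r (z : ZG G) :
    (Function.support fun q : RC H => cH H χ (z * el ℤ (q.out)⁻¹)).Finite := by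
  induction z using MonoidAlgebra.induction_linear with
  | zero => simp
  | add a b ha hb =>
    refine (ha.union hb).subset fun q hq => ?_
    by_contra hcon
    rw [Set.mem_union, not_or, Function.mem_support, Function.mem_support, not_not, not_not] at hcon
    apply hq
    show cH H χ ((a + b) * el ℤ (q.out)⁻¹) = 0
    rw [add_mul, map_add, hcon.1, hcon.2, add_zero]
  | single g c =>
    refine (Set.finite_singleton (Quotient.mk _ g : RC H)).subset fun q hq => ?_
    rw [Function.mem_support, el_eq, MonoidAlgebra.single_mul_single, mul_one, cH_single] at hq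
    exact rc_eq (phi_ne H χ (right_ne_zero_of_mul hq))

theorem fin_l (z : ZG G) :
    (Function.support fun q : RC H => cH H χ (el ℤ q.out * z)).Finite := by
  induction z using MonoidAlgebra.induction_linear with
  | zero => simp
  | add a b ha hb =>
    refine (ha.union hb).subset fun q hq => ?_
    by_contra hcon
    rw [Set.mem_union, not_or, Function.mem_support, Function.mem_support, not_not, not_not] at hcon
    apply hq
    show cH H χ (el ℤ q.out * (a + b)) = 0
    rw [mul_add, map_add, hcon.1, hcon.2, add_zero]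
  | single g c =>
    refine (Set.finite_singleton (Quotient.mk _ g⁻¹ : RC H)).subset fun q hq => ?_
    rw [Function.mem_support, el_eq, MonoidAlgebra.single_mul_single, one_mul, cH_single] at hq
    have h1 := phi_ne H χ (right_ne_zero_of_mul hq)
    apply rc_eq
    have h2 := H.inv_mem h1
    rwa [mul_inv_rev] at h2

/-- regrouping by right cosets -/
theorem sm_left (a : G → D) (ha : ∀ (h : H) (g : G), a ((h : G) * g) = (χ h : D) * a g) (z : ZG G) :
    sm a z = ∑ᶠ q : RC H, cH H χ (z * el ℤ (q.out)⁻¹) * a q.out := by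
  have hfin : ∀ z : ZG G,
      (Function.support fun q : RC H => cH H χ (z * el ℤ (q.out)⁻¹) * a q.out).Finite := fun z =>
    (fin_r H χ z).subset fun q hq => left_ne_zero_of_mul hq
  induction z using MonoidAlgebra.induction_linear with
  | zero => simp
  | add x y hx hy =>
    rw [map_add, hx, hy, ← finsum_add_distrib (hfin x) (hfin y)]
    refine finsum_congr fun q => ?_
    rw [add_mul, map_add, add_mul]
  | single g c =>
    rw [finsum_eq_single _ (Quotient.mk _ g : RC H) ?_]
    · rw [sm_single, el_eq, MonoidAlgebra.single_mul_single, mul_one, cH_single,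
        phi_mem H χ (rc_out g)]
      have h1 := ha ⟨_, rc_out (H := H) g⟩ ((Quotient.mk _ g : RC H)).out
      rw [Subgroup.coe_mk, inv_mul_cancel_right] at h1
      rw [h1, mul_assoc]
    · intro q hq
      rw [el_eq, MonoidAlgebra.single_mul_single, mul_one, cH_single]
      by_contra hne
      exact hq (rc_eq (phi_ne H χ (right_ne_zero_of_mul (left_ne_zero_of_mul hne))))

theorem sm_right (b : G → D) (hb : ∀ (h : H) (g : G), b (g * (h : G)) = b g * (χ h : D))
    (z : ZG G) : sm b z = ∑ᶠ q : RC H, b (q.out)⁻¹ * cH H χ (el ℤ q.out * z) := by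
  have hfin : ∀ z : ZG G,
      (Function.support fun q : RC H => b (q.out)⁻¹ * cH H χ (el ℤ q.out * z)).Finite := fun z =>
    (fin_l H χ z).subset fun q hq => right_ne_zero_of_mul hq
  induction z using MonoidAlgebra.induction_linear with
  | zero => simp
  | add x y hx hy =>
    rw [map_add, hx, hy, ← finsum_add_distrib (hfin x) (hfin y)]
    refine finsum_congr fun q => ?_
    rw [mul_add, map_add, mul_add]
  | single g c =>
    rw [finsum_eq_single _ (Quotient.mk _ g⁻¹ : RC H) ?_]
    · have h0 : (Quotient.mk _ g⁻¹ : RC H).out * g ∈ H := by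
        have h2 := H.inv_mem (rc_out (H := H) g⁻¹)
        rwa [mul_inv_rev, inv_inv, inv_inv] at h2
      rw [sm_single, el_eq, MonoidAlgebra.single_mul_single, one_mul, cH_single,
        phi_mem H χ h0]
      have h1 := hb ⟨_, h0⟩ ((Quotient.mk _ g⁻¹ : RC H)).out⁻¹
      rw [Subgroup.coe_mk, inv_mul_cancel_left] at h1
      rw [h1, ← mul_assoc, ← mul_assoc, (Int.cast_commute c _).eq]
    · intro q hq
      rw [el_eq, MonoidAlgebra.single_mul_single, one_mul, cH_single]
      by_contra hne
      have h1 := phi_ne H χ (right_ne_zero_of_mul (right_ne_zero_of_mul hne))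
      apply hq
      apply rc_eq
      have h2 := H.inv_mem h1
      rwa [mul_inv_rev] at h2

section module

variable {P : Type} [AddCommGroup P] [Module (ZG G) P]

theorem map_smul_sm (l : P →+ D) (u : P) (z : ZG G) :
    l (z • u) = sm (fun g => l (el ℤ g • u)) z := by
  induction z using MonoidAlgebra.induction_linear with
  | zero => simp
  | add x y hx hy => rw [add_smul, map_add, hx, hy, map_add]
  | single g c =>
    rw [sm_single]
    have h1 : (MonoidAlgebra.single g c : ZG G) = c • el ℤ g := by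
      rw [el_eq, MonoidAlgebra.smul_single, smul_eq_mul, mul_one]
    rw [h1, smul_assoc, map_zsmul, zsmul_eq_mul]

/-- `λ_f` -/
noncomputable def lam (f : P →ₗ[ZG G] ZG G) : P →+ D := (cH H χ).comp f.toAddMonoidHom

theorem lam_apply (f : P →ₗ[ZG G] ZG G) (x : P) : lam H χ f x = cH H χ (f x) := rfl

theorem lam_add (f f' : P →ₗ[ZG G] ZG G) : lam H χ (f + f') = lam H χ f + lam H χ f' := by
  ext x
  rw [lam_apply, LinearMap.add_apply, map_add]
  rfl

theorem lam_rm (f : P →ₗ[ZG G] ZG G) (h : H) :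
    lam H χ (rm f (h : G)) = op (χ h : D) • lam H χ f := by
  ext x
  rw [lam_apply]
  show cH H χ (f x * el ℤ (h : G)) = cH H χ (f x) * (χ h : D)
  rw [cH_right]

theorem lam_isFS (f : P →ₗ[ZG G] ZG G) : IsFSD H χ (lam H χ f) := by
  refine ⟨fun h x => ?_, fun x => ?_⟩
  · rw [lam_apply, map_smul, smul_eq_mul, cH_left, lam_apply]
  · classical
    refine ⟨(f x).coeff.support.image (fun g => g⁻¹), fun g hg => ?_⟩
    rw [Set.mem_ofPred_eq, lam_apply, map_smul, smul_eq_mul] at hg
    by_contra hcon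
    push Not at hcon
    apply hg
    have key : ∀ z : ZG G, (∀ k ∈ z.coeff.support, g * k ∉ H) → cH H χ (el ℤ g * z) = 0 := by
      intro z hz
      rw [← MonoidAlgebra.sum_coeff_single z]
      unfold Finsupp.sum
      rw [Finset.mul_sum, map_sum]
      refine Finset.sum_eq_zero fun k hk => ?_
      rw [el_eq, MonoidAlgebra.single_mul_single, one_mul, cH_single]
      have : phi H χ (g * k) = 0 := by
        by_contra hne
        exact hz k hk (phi_ne H χ hne)
      rw [this, mul_zero]
    refine key _ fun k hk => ?_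
    have := hcon k⁻¹ (Finset.mem_image_of_mem _ hk)
    rwa [inv_inv] at this

variable (P) in
/-- the space of `IsFSD` maps -/
def VS : Submodule Dᵐᵒᵖ (P →+ D) where
  carrier := {l | IsFSD H χ l}
  zero_mem' := by
    refine ⟨fun h x => by simp, fun x => ⟨∅, fun g hg => ?_⟩⟩
    exact absurd rfl hg
  add_mem' := by
    classical
    rintro a b ⟨ha1, ha2⟩ ⟨hb1, hb2⟩
    refine ⟨fun h x => ?_, fun x => ?_⟩
    · rw [AddMonoidHom.add_apply, ha1, hb1, AddMonoidHom.add_apply, mul_add]
    · obtain ⟨F1, hF1⟩ := ha2 x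
      obtain ⟨F2, hF2⟩ := hb2 x
      refine ⟨F1 ∪ F2, fun g hg => ?_⟩
      by_cases h1 : a (el ℤ g • x) = 0
      · by_cases h2 : b (el ℤ g • x) = 0
        · exfalso
          apply hg
          rw [AddMonoidHom.add_apply, h1, h2, add_zero]
        · obtain ⟨f, hf, hf'⟩ := hF2 g h2
          exact ⟨f, Finset.mem_union_right _ hf, hf'⟩
      · obtain ⟨f, hf, hf'⟩ := hF1 g h1
        exact ⟨f, Finset.mem_union_left _ hf, hf'⟩
  smul_mem' := by
    rintro c a ⟨ha1, ha2⟩
    refine ⟨fun h x => ?_, fun x => ?_⟩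
    · show c • a _ = _ * (c • a x)
      rw [ha1, ← mul_smul_comm]
    · obtain ⟨F1, hF1⟩ := ha2 x
      refine ⟨F1, fun g hg => hF1 g ?_⟩
      intro h0
      apply hg
      show c • a _ = 0
      rw [h0, smul_zero]

theorem fin_q {l : P →+ D} (hl : IsFSD H χ l) (u : P) :
    (Function.support fun q : RC H => l (el ℤ q.out • u)).Finite := by
  obtain ⟨F, hF⟩ := hl.2 u
  refine (F.finite_toSet.image fun f => (Quotient.mk _ f : RC H)).subset fun q hq => ?_
  obtain ⟨f, hf, hf'⟩ := hF q.out hq
  refine ⟨f, hf, ?_⟩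
  symm
  apply rc_eq
  have h2 := H.inv_mem hf'
  rwa [mul_inv_rev, inv_inv] at h2

/-- (A) -/
theorem mem_span [Module.Finite (ZG G) P] [Module.Projective (ZG G) P] {l : P →+ D}
    (hl : IsFSD H χ l) : l ∈ Submodule.span Dᵐᵒᵖ (Set.range (lam H χ (P := P))) := by
  obtain ⟨n, u, f, huf⟩ := dual_basis (Λ := ZG G) P
  have key : l = ∑ j, ∑ q ∈ (fin_q H χ hl (u j)).toFinset,
      op (l (el ℤ q.out • u j)) • lam H χ (rm (f j) (q.out)⁻¹) := by
    ext x
    rw [AddMonoidHom.finsetSum_apply]
    conv_lhs => rw [huf x]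
    rw [map_sum]
    refine Finset.sum_congr rfl fun j _ => ?_
    rw [AddMonoidHom.finsetSum_apply, map_smul_sm,
      sm_left H χ (fun g => l (el ℤ g • u j)) (fun h g => ?_)]
    · rw [finsum_eq_sum_of_support_subset _ (s := (fin_q H χ hl (u j)).toFinset) ?_]
      · rfl
      · intro q hq
        rw [Set.Finite.coe_toFinset]
        exact right_ne_zero_of_mul hq
    · show l (el ℤ ((h : G) * g) • u j) = _
      rw [el_mul, mul_smul, hl.1]
  rw [key]
  refine Submodule.sum_mem _ fun j _ => Submodule.sum_mem _ fun q _ => ?_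
  exact Submodule.smul_mem _ _ (Submodule.subset_span ⟨_, rfl⟩)

/-- right multiplication by an element of the group ring -/
noncomputable def mr (f : P →ₗ[ZG G] ZG G) (z : ZG G) : P →ₗ[ZG G] ZG G where
  toFun x := f x * z
  map_add' x y := by rw [map_add, add_mul]
  map_smul' a x := by rw [map_smul, smul_eq_mul, mul_assoc, RingHom.id_apply, smul_eq_mul]

theorem om_mr (ω : (P →ₗ[ZG G] ZG G) →+ D) (f : P →ₗ[ZG G] ZG G) (z : ZG G) :
    ω (mr f z) = sm (fun g => ω (rm f g)) z := by
  induction z using MonoidAlgebra.induction_linear with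
  | zero =>
    have : mr f 0 = 0 := by ext x : 1; show f x * 0 = 0; rw [mul_zero]
    rw [this, map_zero, map_zero]
  | add x y hx hy =>
    have : mr f (x + y) = mr f x + mr f y := by ext t : 1; show f t * (x + y) = _; rw [mul_add]; rfl
    rw [this, map_add, hx, hy, map_add]
  | single g c =>
    have : mr f (MonoidAlgebra.single g c) = c • rm f g := by
      ext t : 1
      show f t * MonoidAlgebra.single g c = c • (f t * el ℤ g)
      rw [el_eq, ← mul_smul_comm, MonoidAlgebra.smul_single, smul_eq_mul, mul_one]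
    rw [this, map_zsmul, sm_single, zsmul_eq_mul]

/-- (B) -/
theorem exists_ext [Module.Finite (ZG G) P] [Module.Projective (ZG G) P]
    (ω : (P →ₗ[ZG G] ZG G) →+ D)
    (hω : ∀ (h : H) (f : P →ₗ[ZG G] ZG G), ω (rm f (h : G)) = ω f * (χ h : D)) :
    ∃ Ω : (P →+ D) →ₗ[Dᵐᵒᵖ] D, ∀ f, Ω (lam H χ f) = ω f := by
  obtain ⟨n, u, f, huf⟩ := dual_basis (Λ := ZG G) P
  let b : Fin n → G → D := fun j g => ω (rm (f j) g)
  have hb : ∀ j (h : H) (g : G), b j (g * (h : G)) = b j g * (χ h : D) := by
    intro j h g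
    show ω (rm (f j) (g * (h : G))) = _
    have : rm (f j) (g * (h : G)) = rm (rm (f j) g) (h : G) := by
      ext x : 1
      show f j x * el ℤ (g * (h : G)) = f j x * el ℤ g * el ℤ (h : G)
      rw [el_mul, mul_assoc]
    rw [this, hω]
  have hfin : ∀ (l : P →+ D), IsFSD H χ l → ∀ j,
      (Function.support fun q : RC H => b j (q.out)⁻¹ * l (el ℤ q.out • u j)).Finite :=
    fun l hl j => (fin_q H χ hl (u j)).subset fun q hq => right_ne_zero_of_mul hq
  let Ω0 : VS H χ P →ₗ[Dᵐᵒᵖ] D :=
    { toFun := fun l => ∑ j, ∑ᶠ q : RC H, b j (q.out)⁻¹ * l.1 (el ℤ q.out • u j)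
      map_add' := by
        intro l l'
        rw [← Finset.sum_add_distrib]
        refine Finset.sum_congr rfl fun j _ => ?_
        rw [← finsum_add_distrib (hfin _ l.2 j) (hfin _ l'.2 j)]
        refine finsum_congr fun q => ?_
        show _ * (l.1 _ + l'.1 _) = _
        rw [mul_add]
      map_smul' := by
        intro c l
        rw [RingHom.id_apply, Finset.smul_sum]
        refine Finset.sum_congr rfl fun j _ => ?_
        rw [smul_finsum]
        refine finsum_congr fun q => ?_
        show _ * (c • l.1 _) = c • (_ * _)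
        rw [mul_smul_comm] }
  obtain ⟨Ω, hΩ⟩ := LinearMap.exists_extend Ω0
  refine ⟨Ω, fun g => ?_⟩
  have h1 : Ω (lam H χ g) = Ω0 ⟨lam H χ g, lam_isFS H χ g⟩ := by
    rw [← hΩ]
    rfl
  rw [h1]
  show ∑ j, ∑ᶠ q : RC H, b j (q.out)⁻¹ * lam H χ g (el ℤ q.out • u j) = _
  have h2 : ∀ j, ∑ᶠ q : RC H, b j (q.out)⁻¹ * lam H χ g (el ℤ q.out • u j) =
      ω (mr (f j) (g (u j))) := by
    intro j
    rw [om_mr, sm_right H χ (b j) (hb j)]
    refine finsum_congr fun q => ?_
    rw [lam_apply, map_smul, smul_eq_mul]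
  rw [Finset.sum_congr rfl fun j _ => h2 j, ← map_sum]
  congr 1
  ext x : 1
  rw [LinearMap.sum_apply]
  conv_rhs => rw [huf x]
  rw [map_sum]
  refine Finset.sum_congr rfl fun j _ => ?_
  rw [map_smul]
  rfl

end module

/-- precomposition -/
def pre {P Q : Type} [AddCommGroup P] [AddCommGroup Q] (d : Q →+ P) : (P →+ D) →ₗ[Dᵐᵒᵖ] (Q →+ D) where
  toFun l := l.comp d
  map_add' _ _ := rfl
  map_smul' _ _ := rfl

theorem pre_lam {P Q : Type} [AddCommGroup P] [AddCommGroup Q] [Module (ZG G) P] [Module (ZG G) Q]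
    (d : Q →ₗ[ZG G] P) (f : P →ₗ[ZG G] ZG G) :
    pre d.toAddMonoidHom (lam H χ f) = lam H χ (f ∘ₗ d) := rfl

theorem isFS_pre {P Q : Type} [AddCommGroup P] [AddCommGroup Q] [Module (ZG G) P]
    [Module (ZG G) Q] (d : Q →ₗ[ZG G] P) {l : P →+ D} (hl : IsFSD H χ l) :
    IsFSD H χ (pre d.toAddMonoidHom l) := by
  refine ⟨fun h x => ?_, fun x => ?_⟩
  · show l (d (el ℤ (h : G) • x)) = _ * l (d x)
    rw [map_smul, hl.1]
  · obtain ⟨F, hF⟩ := hl.2 (d x)
    refine ⟨F, fun g hg => hF g ?_⟩
    have : l (d (el ℤ g • x)) ≠ 0 := hg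
    rwa [map_smul] at this

/-- factorization through a linear map of vector spaces -/
theorem factor {K V W X : Type} [DivisionRing K] [AddCommGroup V] [Module K V] [AddCommGroup W]
    [Module K W] [AddCommGroup X] [Module K X] (f : V →ₗ[K] W) (g : V →ₗ[K] X)
    (hker : ∀ v, f v = 0 → g v = 0) : ∃ Ω : W →ₗ[K] X, ∀ v, Ω (f v) = g v := by
  obtain ⟨s, hs⟩ := LinearMap.exists_rightInverse_of_surjective f.rangeRestrict
    (LinearMap.range_rangeRestrict f)
  obtain ⟨Ω', hΩ'⟩ := LinearMap.exists_extend (g ∘ₗ s)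
  refine ⟨Ω', fun v => ?_⟩
  have h1 : Ω' (f v) = (g ∘ₗ s) (f.rangeRestrict v) := by
    rw [← hΩ']
    rfl
  rw [h1]
  have h2 : f (s (f.rangeRestrict v) - v) = 0 := by
    rw [map_sub, sub_eq_zero]
    exact congrArg (fun t => ((t (f.rangeRestrict v)) : W)) hs
  have h4 := hker _ h2
  rw [map_sub, sub_eq_zero] at h4
  exact h4

end DUD

open DUD in
theorem thm_DUD : St_DUD := by
  intro G _ R H D _ χ hF ω hω1 hω2
  obtain ⟨Ω, hΩ⟩ := exists_ext H χ ω hω1
  let f : VS H χ R.P1 →ₗ[Dᵐᵒᵖ] (R.P2 →+ D) :=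
    (pre R.d2.toAddMonoidHom) ∘ₗ (VS H χ R.P1).subtype
  let g : VS H χ R.P1 →ₗ[Dᵐᵒᵖ] D := Ω ∘ₗ (VS H χ R.P1).subtype
  have hker : ∀ v, f v = 0 → g v = 0 := by
    intro v hv
    obtain ⟨L, hL, hL'⟩ := hF v.1 v.2 (fun x => by
      have := congrArg (fun t : R.P2 →+ D => t x) hv
      exact this)
    have h1 : (v.1 : R.P1 →+ D) = pre R.d1.toAddMonoidHom L := by
      ext x
      exact hL' x
    show Ω v.1 = 0
    rw [h1]
    have key : ∀ m ∈ Submodule.span Dᵐᵒᵖ (Set.range (lam H χ (P := R.P0))),
        Ω (pre R.d1.toAddMonoidHom m) = 0 := by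
      intro m hm
      induction hm using Submodule.span_induction with
      | mem m hm =>
        obtain ⟨f, rfl⟩ := hm
        rw [pre_lam, hΩ]
        exact hω2 f
      | zero => simp
      | add a b _ _ ha hb => rw [map_add, map_add, ha, hb, add_zero]
      | smul c a _ ha => rw [map_smul, map_smul, ha, smul_zero]
    exact key L (mem_span H χ hL)
  obtain ⟨Ω', hΩ'2⟩ := factor (K := Dᵐᵒᵖ) (V := VS H χ R.P1) (W := R.P2 →+ D) (X := D) f g hker
  refine ⟨{ toFun := fun f => Ω' (lam H χ f)
            map_zero' := by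
              have : lam H χ (0 : R.P2 →ₗ[ZG G] ZG G) = 0 := by
                ext x
                rw [lam_apply, LinearMap.zero_apply, map_zero]
                rfl
              rw [this, map_zero]
            map_add' := fun f g => by rw [lam_add, map_add] }, ?_, ?_⟩
  · intro h f
    show Ω' (lam H χ (rm f (h : G))) = Ω' (lam H χ f) * _
    rw [lam_rm, map_smul]
    rfl
  · intro f'
    show ω f' = Ω' (lam H χ (f' ∘ₗ R.d2))
    rw [← pre_lam, ← hΩ f']
    exact (hΩ'2 ⟨lam H χ f', lam_isFS H χ f'⟩).symm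

end Pool.Agent.PDE
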