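import Pool.Agent.PDE.StG

/-!
# PDE: E2L, the second cohomology with coefficients in a division ring
-/

set_option autoImplicit false

namespace Pool.Agent.PDE

open Pool.Agent.PDA Pool.Agent.PDB Subgroup

section

variable {H : Type} [Group H]

/-- the homomorphism `h ↦ op (w(h) h⁻¹)` -/
private noncomputable def E2L_m (w : H →* ℤˣ) : H →* (ZG H)ᵐᵒᵖ where
  toFun h := MulOpposite.op (MonoidAlgebra.single h⁻¹ (w h : ℤ))
  map_one' := by
    rw [inv_one, map_one, Units.val_one]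
    rfl
  map_mul' g h := by
    rw [← MulOpposite.op_mul, MonoidAlgebra.single_mul_single, mul_inv_rev, map_mul,
      Units.val_mul, mul_comm (w g : ℤ)]

/-- the twisted inversion `∑ a_h h ↦ ∑ a_h w(h) h⁻¹` -/
private noncomputable def E2L_T (w : H →* ℤˣ) : ZG H →+* (ZG H)ᵐᵒᵖ :=
  (MonoidAlgebra.lift ℤ (ZG H)ᵐᵒᵖ H (E2L_m w)).toRingHom

private lemma E2L_T_single (w : H →* ℤˣ) (h : H) (n : ℤ) :
    E2L_T w (MonoidAlgebra.single h n) =
      MulOpposite.op (MonoidAlgebra.single h⁻¹ (n * (w h : ℤ))) := by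
  show MonoidAlgebra.lift ℤ (ZG H)ᵐᵒᵖ H (E2L_m w) (MonoidAlgebra.single h n) = _
  rw [MonoidAlgebra.lift_single]
  show n • MulOpposite.op (MonoidAlgebra.single h⁻¹ (w h : ℤ)) = _
  rw [← MulOpposite.op_smul, MonoidAlgebra.smul_single, smul_eq_mul]

private lemma E2L_T_T (w : H →* ℤˣ) (a : ZG H) :
    (E2L_T w (E2L_T w a).unop).unop = a := by
  induction a using MonoidAlgebra.induction_linear with
  | zero => simp
  | add a b ha hb => rw [map_add, MulOpposite.unop_add, map_add, MulOpposite.unop_add, ha, hb]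
  | single s n =>
    rw [E2L_T_single, MulOpposite.unop_op, E2L_T_single, MulOpposite.unop_op, inv_inv,
      map_inv, mul_assoc, ← Units.val_mul, mul_inv_cancel, Units.val_one, mul_one]

private lemma E2L_T_inj (w : H →* ℤˣ) : Function.Injective (E2L_T w) := by
  intro a b hab
  rw [← E2L_T_T w a, hab, E2L_T_T]

/-- the units given by a ring homomorphism -/
private noncomputable def E2L_u {D : Type} [Ring D] (g : ZG H →+* D) : H →* Dˣ :=
  (Units.map (g : ZG H →* D)).comp ((Units.map (MonoidAlgebra.of ℤ H)).comp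
    (toUnits (G := H)).toMonoidHom)

private lemma E2L_u_val {D : Type} [Ring D] (g : ZG H →+* D) (h : H) :
    (E2L_u g h : D) = g (el ℤ h) := rfl

/-- the additive maps with `Φ(s y) = f(s) Φ(y)` are linear over `f` -/
private lemma E2L_lin {D M : Type} [Ring D] [AddCommGroup M] [Module (ZG H) M] (f : ZG H →+* D)
    (Φ : M →+ D) (h : ∀ (s : H) (y : M), Φ (el ℤ s • y) = f (el ℤ s) * Φ y) (a : ZG H) (y : M) :
    Φ (a • y) = f a * Φ y := by
  induction a using MonoidAlgebra.induction_linear with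
  | zero => simp
  | add a b ha hb => rw [add_smul, map_add, ha, hb, map_add, add_mul]
  | single s n =>
    have e : (MonoidAlgebra.single s n : ZG H) = n • el ℤ s := by
      rw [el, MonoidAlgebra.of_apply, MonoidAlgebra.smul_single, smul_eq_mul, mul_one]
    rw [e, smul_assoc, map_zsmul, h, map_zsmul, smul_mul_assoc]

end

/-- the theorem for subgroups -/
private lemma E2L_sub (hW : St_WCH) (hP : St_PTH) (hF : St_FSD) (hU : St_DUD) (hC : St_CMD)
    {G : Type} [Group G] (R : Short G) (H : Subgroup G) (hnt : Nontrivial H) (hno : NoF2 H)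
    {D : Type} [DivisionRing D] (f : ZG H →+* D) (hf : Function.Injective f)
    {d : ℕ} (x : Fin d → H) (hx : closure (Set.range x) = ⊤) (Φ : Rel ℤ x →+ D)
    (hΦ : ∀ (s : H) (y : Rel ℤ x), Φ (el ℤ s • y) = f (el ℤ s) * Φ y) :
    ∃ c : Fin d → D, ∀ y : Rel ℤ x, Φ y = ∑ i, f ((y : Fin d → ZG H) i) * c i := by
  obtain ⟨w, hw⟩ := hW G R
  obtain ⟨w', hw'⟩ : ∃ w' : H →* ℤˣ, ∀ h : H, w' h = w (h : G) := ⟨w.comp H.subtype, fun _ => rfl⟩
  obtain ⟨g, hg⟩ : ∃ g : ZG H →+* Dᵐᵒᵖ, g = (RingHom.op f).comp (E2L_T w') := ⟨_, rfl⟩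
  obtain ⟨g1, hg1⟩ : ∃ g1 : ZG H →+* Dᵐᵒᵖ, g1 = (RingHom.op f).comp (E2L_T 1) := ⟨_, rfl⟩
  have hgi : Function.Injective g := by
    rw [hg]
    intro a b hab
    apply E2L_T_inj w'
    apply MulOpposite.unop_injective
    apply hf
    exact MulOpposite.op_injective hab
  have hgv : ∀ h : H, g (el ℤ h) = MulOpposite.op (f (MonoidAlgebra.single h⁻¹ (w' h : ℤ))) := by
    intro h
    rw [hg]
    show MulOpposite.op (f (E2L_T w' (MonoidAlgebra.single h 1)).unop) = _
    rw [E2L_T_single, MulOpposite.unop_op, one_mul]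
  have hg1v : ∀ h : H, g1 (el ℤ h) = MulOpposite.op (f (el ℤ h⁻¹)) := by
    intro h
    rw [hg1]
    show MulOpposite.op (f (E2L_T 1 (MonoidAlgebra.single h 1)).unop) = _
    rw [E2L_T_single, MulOpposite.unop_op, one_mul]
    rfl
  have hχinj : Function.Injective (E2L_u g) := by
    intro a b hab
    have h1 := congrArg (fun u : (Dᵐᵒᵖ)ˣ => (u : Dᵐᵒᵖ)) hab
    exact MonoidAlgebra.of_injective (hgi h1)
  have hOne : HOneD (E2L_u g) := by
    intro δ hδ
    exact hP H Dᵐᵒᵖ g hgi hno δ hδ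
  have hFs := hF G R H Dᵐᵒᵖ (E2L_u g) hχinj hnt hOne
  have hOm := hU G R H Dᵐᵒᵖ (E2L_u g) hFs
  have hrel : ∀ h : H, (E2L_u g h : Dᵐᵒᵖ) = ((w (h : G) : ℤ) : Dᵐᵒᵖ) * (E2L_u g1 h : Dᵐᵒᵖ) := by
    intro h
    rw [E2L_u_val, E2L_u_val, hgv, hg1v, ← hw']
    have e : (MonoidAlgebra.single h⁻¹ (w' h : ℤ) : ZG H) = (w' h : ℤ) • el ℤ h⁻¹ := by
      rw [el, MonoidAlgebra.of_apply, MonoidAlgebra.smul_single, smul_eq_mul, mul_one]
    rw [e, map_zsmul, MulOpposite.op_smul, zsmul_eq_mul]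
  obtain ⟨φ', h1, h2⟩ := hC G R w hw H Dᵐᵒᵖ (E2L_u g) (E2L_u g1) hrel d x hx hOm
    ((MulOpposite.opAddEquiv : D ≃+ Dᵐᵒᵖ).toAddMonoidHom.comp Φ) (by
      intro s y
      rw [← map_inv, E2L_u_val, hg1v, inv_inv]
      show MulOpposite.op (Φ (el ℤ s • y)) = MulOpposite.op (Φ y) * MulOpposite.op (f (el ℤ s))
      rw [hΦ, MulOpposite.op_mul])
  obtain ⟨Ψ, hΨ⟩ : ∃ Ψ : (Fin d → ZG H) →+ D, ∀ y, Ψ y = (φ' y).unop :=
    ⟨(MulOpposite.opAddEquiv : D ≃+ Dᵐᵒᵖ).symm.toAddMonoidHom.comp φ', fun _ => rfl⟩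
  have hΨ1 : ∀ (s : H) (y : Fin d → ZG H), Ψ (el ℤ s • y) = f (el ℤ s) * Ψ y := by
    intro s y
    rw [hΨ, hΨ, h1, ← map_inv, E2L_u_val, hg1v, inv_inv, MulOpposite.unop_mul, MulOpposite.unop_op]
  have hΨ2 := E2L_lin f Ψ hΨ1
  refine ⟨fun i => Ψ (Pi.single i 1), fun y => ?_⟩
  have h3 : Φ y = Ψ (y : Fin d → ZG H) := by
    rw [hΨ, h2]
    rfl
  have h4 : (y : Fin d → ZG H) = ∑ i, (y : Fin d → ZG H) i • (Pi.single i 1 : Fin d → ZG H) := by
    funext k
    rw [Finset.sum_apply, Finset.sum_eq_single k]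
    · simp
    · intro b _ hb
      rw [Pi.smul_apply, Pi.single_eq_of_ne hb.symm, smul_zero]
    · intro h
      exact absurd (Finset.mem_univ _) h
  rw [h3]
  conv_lhs => rw [h4]
  rw [map_sum]
  exact Finset.sum_congr rfl fun i _ => hΨ2 _ _

theorem thm_E2L (hW : St_WCH) (hP : St_PTH) (hF : St_FSD) (hU : St_DUD) (hC : St_CMD) :
    St_E2L := by
  intro G _ R S _ j hj hnt hno D _ f hf d x hx Φ hΦ
  obtain ⟨ε, hε⟩ : ∃ ε : S ≃* j.range, ∀ s, (ε s : G) = j s :=
    ⟨MonoidHom.ofInjective hj, fun _ => rfl⟩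
  obtain ⟨q, hq⟩ : ∃ q : ZG S ≃+* ZG j.range, ∀ (s : S) (n : ℤ),
      q (MonoidAlgebra.single s n) = MonoidAlgebra.single (ε s) n :=
    ⟨MonoidAlgebra.mapDomainRingEquiv ℤ ε, fun s n => MonoidAlgebra.mapDomainRingEquiv_single _ _ _⟩
  have hqs : ∀ (h : j.range) (n : ℤ), q.symm (MonoidAlgebra.single h n) =
      MonoidAlgebra.single (ε.symm h) n := by
    intro h n
    rw [RingEquiv.symm_apply_eq, hq, MulEquiv.apply_symm_apply]
  have hqe : ∀ s : S, q (el ℤ s) = el ℤ (ε s) := fun s => hq s 1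
  have hqse : ∀ h : j.range, q.symm (el ℤ h) = el ℤ (ε.symm h) := fun h => hqs h 1
  obtain ⟨x', hx'⟩ : ∃ x' : Fin d → j.range, ∀ i, x' i = ε (x i) := ⟨fun i => ε (x i), fun _ => rfl⟩
  have hgen : closure (Set.range x') = ⊤ := by
    have e : Set.range x' = ε.toMonoidHom '' Set.range x := by
      rw [← Set.range_comp]
      congr 1
      funext i
      exact hx' i
    rw [e, ← MonoidHom.map_closure, hx]
    exact Subgroup.map_top_of_surjective _ ε.surjective
  -- the relation modules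
  have hbd : ∀ y : Fin d → ZG S, bd ℤ x' (fun i => q (y i)) = q (bd ℤ x y) := by
    intro y
    show ∑ i, q (y i) * (el ℤ (x' i) - 1) = q (∑ i, y i * (el ℤ (x i) - 1))
    rw [map_sum]
    refine Finset.sum_congr rfl fun i _ => ?_
    rw [map_mul, map_sub, map_one, hqe, hx']
  have hR1 : ∀ y : Rel ℤ x, (fun i => q ((y : Fin d → ZG S) i)) ∈ Rel ℤ x' := by
    intro y
    show bd ℤ x' _ = 0
    rw [hbd, show bd ℤ x (y : Fin d → ZG S) = 0 from y.2, map_zero]
  have hR2 : ∀ y : Rel ℤ x', (fun i => q.symm ((y : Fin d → ZG j.range) i)) ∈ Rel ℤ x := by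
    intro y
    show bd ℤ x _ = 0
    apply q.injective
    rw [← hbd, map_zero]
    have e : (fun i => q (q.symm ((y : Fin d → ZG j.range) i))) = (y : Fin d → ZG j.range) := by
      funext i
      exact q.apply_symm_apply _
    rw [e]
    exact y.2
  obtain ⟨Φ', hΦ'⟩ : ∃ Φ' : Rel ℤ x' →+ D, ∀ y, Φ' y = Φ ⟨_, hR2 y⟩ :=
    ⟨{ toFun := fun y => Φ ⟨_, hR2 y⟩
       map_zero' := by
        rw [← map_zero Φ]
        congr 1
        apply Subtype.ext
        funext i
        exact map_zero q.symm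
       map_add' := fun y z => by
        rw [← map_add Φ]
        congr 1
        apply Subtype.ext
        funext i
        exact map_add q.symm _ _ }, fun _ => rfl⟩
  obtain ⟨c, hc⟩ := E2L_sub hW hP hF hU hC R j.range (ε.symm.surjective.nontrivial)
    (fun F hF => hno (ε.symm.toMonoidHom.comp F) (ε.symm.injective.comp hF))
    (f.comp (q.symm : ZG j.range →+* ZG S)) (hf.comp q.symm.injective) x' hgen Φ' (by
      intro s y
      rw [hΦ', hΦ']
      show _ = f (q.symm (el ℤ s)) * _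
      rw [hqse, ← hΦ]
      congr 1
      apply Subtype.ext
      funext i
      show q.symm (el ℤ s * (y : Fin d → ZG j.range) i) =
        el ℤ (ε.symm s) * q.symm ((y : Fin d → ZG j.range) i)
      rw [map_mul, hqse])
  refine ⟨c, fun y => ?_⟩
  have h1 := hc ⟨_, hR1 y⟩
  rw [hΦ'] at h1
  have e1 : (⟨_, hR2 ⟨_, hR1 y⟩⟩ : Rel ℤ x) = y := by
    apply Subtype.ext
    funext i
    exact q.symm_apply_apply _
  rw [e1] at h1
  rw [h1]
  refine Finset.sum_congr rfl fun i _ => ?_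
  show f (q.symm (q ((y : Fin d → ZG S) i))) * c i = _
  rw [RingEquiv.symm_apply_apply]

end Pool.Agent.PDE
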