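import Pool.Agent.PDE.StG

/-!
# PDE: almost invariant functions with values in a division ring
-/

set_option autoImplicit false

namespace Pool.Agent.PDE

open Pool.Agent.PDA Pool.Agent.PDB Subgroup

section edn

variable {G D : Type} [Group G] [DivisionRing D] {H : Subgroup G} {χ : H →* Dˣ} {F : G → D}

theorem edn_fin (hχ : Function.Injective χ) (hF : ∀ (h : H) (g : G), F ((h : G) * g) = (χ h : D) * F g)
    {T : Set G} (hT : FinMod H T) {c : D} (hc : c ≠ 0) (t : G) : {g | g ∈ T ∧ F (g * t) = c}.Finite := by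
  obtain ⟨B, hB⟩ := hT
  choose! φ hφ1 hφ2 using hB
  refine Set.Finite.of_injOn (f := φ) (t := (B : Set G)) (fun g hg => hφ1 g hg.1) ?_ B.finite_toSet
  intro g hg g' hg' he
  have e1 := hφ2 g hg.1
  have e2 := hφ2 g' hg'.1
  rw [← he] at e2
  have k1 : F (g * t) = (χ ⟨_, e1⟩ : D) * F (φ g * t) := by
    rw [← hF]
    congr 1
    show g * t = g * (φ g)⁻¹ * (φ g * t)
    group
  have k2 : F (g' * t) = (χ ⟨_, e2⟩ : D) * F (φ g * t) := by
    rw [← hF]
    congr 1
    show g' * t = g' * (φ g)⁻¹ * (φ g * t)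
    group
  rw [hg.2] at k1
  rw [hg'.2] at k2
  have hne : F (φ g * t) ≠ 0 := by
    intro h0
    rw [h0, mul_zero] at k1
    exact hc k1
  have k3 : (χ ⟨_, e1⟩ : D) = (χ ⟨_, e2⟩ : D) := mul_right_cancel₀ hne (k1.symm.trans k2)
  have k4 := hχ (Units.ext k3)
  have k5 : g * (φ g)⁻¹ = g' * (φ g)⁻¹ := congrArg Subtype.val k4
  exact mul_right_cancel k5

theorem edn_level (hO : St_ONE) (R : Short G) (hχ : Function.Injective χ) (hH : Nontrivial H)
    (hF : ∀ (h : H) (g : G), F ((h : G) * g) = (χ h : D) * F g)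
    (hA : ∀ s : G, FinMod H {g : G | F (g * s) ≠ F g}) {c : D} (hc : c ≠ 0) :
    {g | F g = c}.Finite := by
  have h1 := hO G R {g | F g = c} (by
    intro s
    refine ((edn_fin hχ hF (hA s) hc 1).union (edn_fin hχ hF (hA s) hc s)).subset ?_
    intro g hg
    by_cases h1 : F g = c
    · left
      refine ⟨fun h2 => hg ?_, by rw [mul_one]; exact h1⟩
      exact iff_of_true h1 (h2.trans h1)
    · right
      have h2 : F (g * s) = c := by
        by_contra h2
        exact hg (iff_of_false h1 h2)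
      exact ⟨fun h3 => h1 (h3 ▸ h2), h2⟩)
  rcases h1 with h1 | h1
  · exact h1
  · obtain ⟨h, hh⟩ := exists_ne (1 : H)
    have h2 : (fun g => (h : G) * g) '' {g | F g = c} ⊆ {g | F g = c}ᶜ := by
      rintro _ ⟨g, hg, rfl⟩ h3
      have h4 : F ((h : G) * g) = c := h3
      have h5 : F g = c := hg
      rw [hF, h5] at h4
      have h6 : (χ h : D) = 1 := mul_right_cancel₀ hc (by rw [h4, one_mul])
      exact hh (hχ (by rw [map_one]; exact Units.ext h6))
    exact Set.Finite.of_finite_image (h1.subset h2) (mul_right_injective (h : G)).injOn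

end edn

theorem thm_EDN (hO : St_ONE) (hG : St_GFG) : St_EDN := by
  classical
  intro G _ R H D _ χ hχ hH F hF hA
  obtain ⟨E, hE⟩ := (hG G R).out
  -- bad elements
  let Bad : Set G := {g | ∃ s ∈ E, F (g * s) ≠ F g ∨ F (g * s⁻¹) ≠ F g}
  have hBad : ∃ B : Finset G, ∀ g ∈ Bad, ∃ f ∈ B, g * f⁻¹ ∈ H := by
    choose B hB using hA
    refine ⟨E.biUnion fun s => B s ∪ B s⁻¹, ?_⟩
    rintro g ⟨s, hs, h | h⟩
    · obtain ⟨f, hf, hfH⟩ := hB s g h
      exact ⟨f, Finset.mem_biUnion.2 ⟨s, hs, Finset.mem_union_left _ hf⟩, hfH⟩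
    · obtain ⟨f, hf, hfH⟩ := hB s⁻¹ g h
      exact ⟨f, Finset.mem_biUnion.2 ⟨s, hs, Finset.mem_union_right _ hf⟩, hfH⟩
  obtain ⟨B, hB⟩ := hBad
  have hfin : (⋃ f ∈ B.filter (fun f => F f ≠ 0), {g | F g = F f}).Finite := by
    refine Set.Finite.biUnion (Finset.finite_toSet _) fun f hf => ?_
    exact edn_level hO R hχ hH hF hA (Finset.mem_filter.1 hf).2
  refine ⟨hfin.toFinset, ?_⟩
  intro g hg
  have hg0 : F g ≠ 0 := hg
  -- the level set of `g` meets `Bad`
  have hmeet : ∃ g' ∈ Bad, F g' = F g := by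
    by_contra hcon
    push Not at hcon
    have key : ∀ u ∈ (closure (E : Set G) : Subgroup G), ∀ g', F g' = F g →
        F (g' * u) = F g ∧ F (g' * u⁻¹) = F g := by
      intro u hu
      induction hu using closure_induction with
      | mem s hs =>
        intro g' hg'
        by_contra h1
        rw [not_and_or] at h1
        refine hcon g' ⟨s, hs, ?_⟩ hg'
        rw [hg']
        exact h1
      | one =>
        intro g' hg'
        rw [inv_one, mul_one]
        exact ⟨hg', hg'⟩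
      | mul a b _ _ iha ihb =>
        intro g' hg'
        refine ⟨?_, ?_⟩
        · rw [← mul_assoc]
          exact (ihb _ (iha g' hg').1).1
        · rw [mul_inv_rev, ← mul_assoc]
          exact (iha _ (ihb g' hg').2).2
      | inv a _ iha =>
        intro g' hg'
        rw [inv_inv]
        exact ⟨(iha g' hg').2, (iha g' hg').1⟩
    obtain ⟨h, hh⟩ := exists_ne (1 : H)
    have h1 := (key (g⁻¹ * ((h : G) * g)) (by rw [hE]; exact mem_top _) g rfl).1
    rw [mul_inv_cancel_left, hF] at h1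
    have h6 : (χ h : D) = 1 := mul_right_cancel₀ hg0 (by rw [h1, one_mul])
    exact hh (hχ (by rw [map_one]; exact Units.ext h6))
  obtain ⟨g', hg', hFg⟩ := hmeet
  obtain ⟨f, hf, hfH⟩ := hB g' hg'
  have h1 : F g' = (χ ⟨_, hfH⟩ : D) * F f := by
    rw [← hF]
    congr 1
    show g' = g' * f⁻¹ * f
    group
  have hf0 : F f ≠ 0 := by
    intro h0
    rw [h0, mul_zero, hFg] at h1
    exact hg0 h1
  refine ⟨((⟨_, hfH⟩ : H) : G)⁻¹ * g, ?_, ?_⟩
  · rw [Set.Finite.mem_toFinset, Set.mem_iUnion₂]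
    refine ⟨f, Finset.mem_filter.2 ⟨hf, hf0⟩, ?_⟩
    show F (((⟨_, hfH⟩ : H) : G)⁻¹ * g) = F f
    have h2 : F g = (χ ⟨_, hfH⟩ : D) * F (((⟨_, hfH⟩ : H) : G)⁻¹ * g) := by
      rw [← hF, mul_inv_cancel_left]
    rw [← hFg, h1] at h2
    exact (mul_left_cancel₀ (Units.ne_zero _) h2).symm
  · rw [mul_inv_rev, inv_inv, mul_inv_cancel_left]
    exact hfH

end Pool.Agent.PDE
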