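import Pool.Agent.PDE.StG

/-!
# PDE: from the integral group ring to the rational one
-/

set_option autoImplicit false

namespace Pool.Agent.PDE

open Pool.Agent.PDA Pool.Agent.PDB Subgroup

section fac
variable {S : Type} [Group S]

/-- the inclusion of the group rings -/
noncomputable abbrev facq (S : Type) [Group S] : ZG S →+* MonoidAlgebra ℚ S :=
  MonoidAlgebra.mapRingHom S (Int.castRingHom ℚ)

theorem fac_el (s : S) : facq S (el ℤ s) = el ℚ s := by
  show facq S (MonoidAlgebra.of ℤ S s) = MonoidAlgebra.of ℚ S s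
  rw [facq, MonoidAlgebra.of_apply, MonoidAlgebra.of_apply, MonoidAlgebra.mapRingHom_single, map_one]

theorem fac_inj : Function.Injective (facq S) := by
  intro a b h
  apply MonoidAlgebra.ext
  ext g
  have h1 := congrArg (fun z : MonoidAlgebra ℚ S => z.coeff g) h
  simp only [facq, MonoidAlgebra.coeff_mapRingHom] at h1
  exact Int.cast_injective (α := ℚ) (by simpa using h1)

/-- common denominators -/
theorem fac_den (a : MonoidAlgebra ℚ S) : ∃ N : ℕ, 0 < N ∧ ∃ a' : ZG S, facq S a' = (N : ℚ) • a := by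
  induction a using MonoidAlgebra.induction_on with
  | of g =>
    refine ⟨1, one_pos, el ℤ g, ?_⟩
    rw [fac_el, Nat.cast_one, one_smul]
  | add f g hf hg =>
    obtain ⟨N, hN, a', ha⟩ := hf
    obtain ⟨N', hN', b', hb⟩ := hg
    refine ⟨N * N', Nat.mul_pos hN hN', N' • a' + N • b', ?_⟩
    rw [map_add, map_nsmul, map_nsmul, ha, hb, smul_add, Nat.cast_mul, ← Nat.cast_smul_eq_nsmul ℚ,
      ← Nat.cast_smul_eq_nsmul ℚ, smul_smul, smul_smul, mul_comm (N' : ℚ) (N : ℚ)]
  | smul r f hf =>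
    obtain ⟨N, hN, a', ha⟩ := hf
    refine ⟨N * r.den, Nat.mul_pos hN r.pos, r.num • a', ?_⟩
    have h1 : (r.den : ℚ) * r = r.num := by
      rw [mul_comm]
      exact Rat.mul_den_eq_num r
    rw [map_zsmul, ha, ← Int.cast_smul_eq_zsmul ℚ, smul_smul, smul_smul, Nat.cast_mul, mul_assoc, h1,
      mul_comm]

theorem fac_denf {d : ℕ} (y : Fin d → MonoidAlgebra ℚ S) :
    ∃ N : ℕ, 0 < N ∧ ∃ y' : Fin d → ZG S, ∀ i, facq S (y' i) = (N : ℚ) • y i := by
  choose N hN a ha using fun i => fac_den (y i)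
  refine ⟨∏ i, N i, Finset.prod_pos fun i _ => hN i, fun i => (∏ j ∈ Finset.univ.erase i, N j) • a i, ?_⟩
  intro i
  rw [map_nsmul, ha, ← Nat.cast_smul_eq_nsmul ℚ, smul_smul, ← Nat.cast_mul,
    Finset.prod_erase_mul _ _ (Finset.mem_univ i)]

theorem fac_bd {d : ℕ} (x : Fin d → S) (y : Fin d → ZG S) :
    facq S (bd ℤ x y) = bd ℚ x (fun i => facq S (y i)) := by
  show facq S (∑ i, y i * (el ℤ (x i) - 1)) = ∑ i, facq S (y i) * (el ℚ (x i) - 1)
  rw [map_sum]
  refine Finset.sum_congr rfl fun i _ => ?_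
  rw [map_mul, map_sub, fac_el, map_one]

theorem fac_rel {d : ℕ} (x : Fin d → S) (y : Rel ℤ x) :
    (fun i => facq S ((y : Fin d → ZG S) i)) ∈ Rel ℚ x := by
  show bd ℚ x _ = 0
  rw [← fac_bd, show bd ℤ x (y : Fin d → ZG S) = 0 from y.2, map_zero]

end fac

theorem thm_FAC (hE : St_E2L) : St_FAC := by
  intro G _ R S _ j hj hnt hF D _ φ hφ d x hx L
  let q : Rel ℤ x →+ Rel ℚ x :=
    { toFun := fun y => ⟨_, fac_rel x y⟩
      map_zero' := by
        apply Subtype.ext
        funext i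
        exact map_zero (facq S)
      map_add' := fun a b => by
        apply Subtype.ext
        funext i
        exact map_add (facq S) _ _ }
  let Φ : Rel ℤ x →+ D := (φ : MonoidAlgebra ℚ S →+ D).comp ((L : Rel ℚ x →+ MonoidAlgebra ℚ S).comp q)
  have hΦ : ∀ y, Φ y = φ (L (q y)) := fun y => rfl
  obtain ⟨c, hc⟩ := hE G R S j hj hnt hF D (φ.comp (facq S)) (hφ.comp fac_inj) d x hx Φ (by
    intro s y
    have h1 : q (el ℤ s • y) = el ℚ s • q y := by
      apply Subtype.ext
      funext i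
      show facq S (el ℤ s * (y : Fin d → ZG S) i) = el ℚ s * facq S ((y : Fin d → ZG S) i)
      rw [map_mul, fac_el]
    rw [hΦ, hΦ, h1, map_smul, smul_eq_mul, map_mul]
    show _ = φ (facq S (el ℤ s)) * _
    rw [fac_el])
  refine ⟨c, fun y => ?_⟩
  obtain ⟨N, hN, y', hy'⟩ := fac_denf (y : Fin d → MonoidAlgebra ℚ S)
  have hrel : y' ∈ Rel ℤ x := by
    show bd ℤ x y' = 0
    apply fac_inj
    rw [fac_bd, map_zero]
    have h1 : (fun i => facq S (y' i)) = N • (y : Fin d → MonoidAlgebra ℚ S) := by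
      funext i
      rw [hy', Pi.smul_apply, Nat.cast_smul_eq_nsmul]
    rw [h1, map_nsmul, show bd ℚ x (y : Fin d → MonoidAlgebra ℚ S) = 0 from y.2, smul_zero]
  have h2 : q ⟨y', hrel⟩ = N • y := by
    apply Subtype.ext
    funext i
    show facq S (y' i) = _
    rw [hy', Nat.cast_smul_eq_nsmul]
    rfl
  have h3 := hc ⟨y', hrel⟩
  rw [hΦ, h2, map_nsmul, map_nsmul] at h3
  have h4 : ∀ i, (φ.comp (facq S)) (y' i) = N • φ ((y : Fin d → MonoidAlgebra ℚ S) i) := by
    intro i
    show φ (facq S (y' i)) = _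
    rw [hy', Nat.cast_smul_eq_nsmul, map_nsmul]
  have h5 : N • φ (L y) = N • ∑ i, φ ((y : Fin d → MonoidAlgebra ℚ S) i) * c i := by
    rw [h3, Finset.smul_sum]
    refine Finset.sum_congr rfl fun i _ => ?_
    show (φ.comp (facq S)) (y' i) * c i = _
    rw [h4, smul_mul_assoc]
  have hN0 : (N : D) ≠ 0 := by
    intro h0
    have h6 : φ (N : MonoidAlgebra ℚ S) = φ 0 := by rw [map_natCast, h0, map_zero]
    have h7 := hφ h6
    have h8 := congrArg (aug ℚ S) h7
    rw [map_natCast, map_zero] at h8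
    exact hN.ne' (by exact_mod_cast h8)
  rw [nsmul_eq_mul, nsmul_eq_mul] at h5
  exact mul_left_cancel₀ hN0 h5

end Pool.Agent.PDE
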