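import Pool.Agent.PDE.StG

set_option autoImplicit false

namespace Pool.Agent.PDE

open Pool.Agent.PDA Pool.Agent.PDB Subgroup

theorem thm_FGD : St_FGD := by
  intro S _ D _ φ hφ d x hP hF
  obtain ⟨σ, hσ⟩ := hP.out
  let v : Rel ℚ x → (Fin d → D) := fun y i => φ ((y : Fin d → MonoidAlgebra ℚ S) i)
  obtain ⟨t, ht1, ht2⟩ := Submodule.fg_span_iff_fg_span_finset_subset (Set.range v) |>.1
    (IsNoetherian.noetherian (Submodule.span D (Set.range v)))
  let g : (Fin d → D) → Rel ℚ x := Function.invFun v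
  have hg : ∀ w ∈ t, v (g w) = w := fun w hw => Function.invFun_eq (ht1 hw)
  classical
  let X0 : Finset (Rel ℚ x) := t.biUnion fun w => (σ (g w)).support
  have key : ∀ ξ : Rel ℚ x, ξ ∉ X0 → ∀ y, σ y ξ = 0 := by
    intro ξ hξ y
    obtain ⟨c, hc⟩ := hF ((Finsupp.lapply ξ) ∘ₗ σ)
    let ψ : (Fin d → D) →ₗ[D] D :=
      { toFun := fun r => ∑ i, r i * c i
        map_add' := fun r s => by simp [add_mul, Finset.sum_add_distrib]
        map_smul' := fun a r => by simp [mul_assoc, Finset.mul_sum] }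
    have h1 : Submodule.span D (Set.range v) ≤ LinearMap.ker ψ := by
      rw [ht2, Submodule.span_le]
      intro w hw
      have hw' : w ∈ t := hw
      have h2 : σ (g w) ξ = 0 := by
        by_contra hne
        exact hξ (Finset.mem_biUnion.2 ⟨w, hw', Finsupp.mem_support_iff.2 hne⟩)
      have h3 := hc (g w)
      have h4 : ((Finsupp.lapply ξ) ∘ₗ σ) (g w) = σ (g w) ξ := rfl
      rw [h4, h2, map_zero] at h3
      change ∑ i, w i * c i = 0
      rw [h3]
      exact Finset.sum_congr rfl fun i _ => by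
        have := congrFun (hg w hw') i
        rw [← this]
    have h2 : v y ∈ LinearMap.ker ψ := h1 (Submodule.subset_span ⟨y, rfl⟩)
    have h3 : φ (σ y ξ) = 0 := (hc y).trans h2
    exact hφ (h3.trans (map_zero φ).symm)
  refine ⟨X0, top_le_iff.1 fun y _ => ?_⟩
  have h1 : Finsupp.linearCombination (MonoidAlgebra ℚ S) id (σ y) = y := hσ y
  rw [← h1, Finsupp.linearCombination_apply, Finsupp.sum]
  refine Submodule.sum_mem _ fun ξ hξ => Submodule.smul_mem _ _ (Submodule.subset_span ?_)
  by_contra hne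
  exact (Finsupp.mem_support_iff.1 hξ) (key ξ hne y)

end Pool.Agent.PDE
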