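import Pool.Agent.PDE.StG

/-!
# PDE: finitely supported cocycles with coefficients in a division ring
-/

set_option autoImplicit false

namespace Pool.Agent.PDE

open Pool.Agent.PDA Pool.Agent.PDB Subgroup

theorem fsd_mono {G : Type} [Group G] {H : Subgroup G} {A B : Set G} (h : FinMod H B)
    (hAB : A ⊆ B) : FinMod H A := by
  obtain ⟨F, hF⟩ := h
  exact ⟨F, fun g hg => hF g (hAB hg)⟩

theorem fsd_union {G : Type} [Group G] {H : Subgroup G} {A B : Set G} (hA : FinMod H A)
    (hB : FinMod H B) : FinMod H (A ∪ B) := by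
  classical
  obtain ⟨F, hF⟩ := hA
  obtain ⟨F', hF'⟩ := hB
  refine ⟨F ∪ F', fun g hg => ?_⟩
  rcases hg with hg | hg
  · obtain ⟨f, hf, h⟩ := hF g hg
    exact ⟨f, Finset.mem_union_left _ hf, h⟩
  · obtain ⟨f, hf, h⟩ := hF' g hg
    exact ⟨f, Finset.mem_union_right _ hf, h⟩

theorem fsd_el {G : Type} [Group G] (g h : G) : el ℤ (g * h) = el ℤ g * el ℤ h :=
  map_mul (MonoidAlgebra.of ℤ G) g h

theorem thm_FSD (hE : St_EDN) : St_FSD := by
  intro G _ R H D _ χ hχ hnt hH1 l hl hl2
  have hwell : ∀ z z', R.d1 z = R.d1 z' → l z = l z' := by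
    intro z z' h
    obtain ⟨t, ht⟩ := (R.ex1 (z - z')).1 (by rw [map_sub, h, sub_self])
    have := hl2 t
    rwa [ht, map_sub, sub_eq_zero] at this
  obtain ⟨x0, hx0⟩ := R.e_surj 1
  have hz : ∀ x, ∃ z, R.d1 z = x - R.e x • x0 := fun x => by
    apply (R.ex0 _).1
    rw [map_sub, map_zsmul, hx0, smul_eq_mul, mul_one, sub_self]
  choose z hz using hz
  have hy : ∀ g : G, ∃ y, R.d1 y = el ℤ g • x0 - x0 := fun g => by
    apply (R.ex0 _).1
    rw [map_sub, R.e_smul, sub_self]
  choose y hy using hy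
  obtain ⟨v, hv⟩ := hH1 (fun h : H => l (y (h : G))) (by
    intro g h
    have h1 : R.d1 (y ((g * h : H) : G)) = R.d1 (y (g : G) + el ℤ (g : G) • y (h : G)) := by
      rw [hy, map_add, map_smul, hy, hy, smul_sub, Subgroup.coe_mul, fsd_el, mul_smul]
      abel
    show l (y ((g * h : H) : G)) = _
    rw [hwell _ _ h1, map_add, hl.1])
  let Λ : R.P0 →+ D :=
    { toFun := fun x => l (z x) + R.e x • v
      map_zero' := by
        have : l (z 0) = l 0 := by
          apply hwell
          rw [hz, map_zero, map_zero, zero_smul, sub_zero]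
        rw [this, map_zero, map_zero, zero_smul, add_zero]
      map_add' := fun a b => by
        have : l (z (a + b)) = l (z a + z b) := by
          apply hwell
          rw [hz, map_add, map_add, hz, hz, add_smul]
          abel
        rw [this, map_add, map_add, add_smul]
        abel }
  have hΛd : ∀ t, Λ (R.d1 t) = l t := by
    intro t
    have he : R.e (R.d1 t) = 0 := (R.ex0 _).2 ⟨t, rfl⟩
    show l (z (R.d1 t)) + R.e (R.d1 t) • v = l t
    rw [he, zero_smul, add_zero]
    apply hwell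
    rw [hz, he, zero_smul, sub_zero]
  have hΛh : ∀ (h : H) (x : R.P0), Λ (el ℤ (h : G) • x) = (χ h : D) * Λ x := by
    intro h x
    have h1 : l (z (el ℤ (h : G) • x)) = l (el ℤ (h : G) • z x + R.e x • y (h : G)) := by
      apply hwell
      rw [hz, R.e_smul, map_add, map_smul R.d1, map_zsmul, hz, hy, smul_sub, smul_sub,
        smul_comm (el ℤ (h : G)) (R.e x) x0]
      abel
    show l (z (el ℤ (h : G) • x)) + R.e (el ℤ (h : G) • x) • v =
      (χ h : D) * (l (z x) + R.e x • v)
    have h2 : l (y (h : G)) = ((χ h : D) - 1) * v := hv h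
    rw [h1, map_add, map_zsmul, hl.1, h2, R.e_smul, mul_add, mul_smul_comm, sub_mul, one_mul,
      smul_sub]
    abel
  have hdec : ∀ (g : G) (x : R.P0), Λ (el ℤ g • x) = l (el ℤ g • z x) +
      R.e x • Λ (el ℤ g • x0) := by
    intro g x
    have h1 : el ℤ g • x = R.d1 (el ℤ g • z x) + R.e x • (el ℤ g • x0) := by
      rw [map_smul, hz, smul_sub, smul_comm (el ℤ g) (R.e x) x0]
      abel
    rw [h1, map_add, hΛd, map_zsmul]
  have hfin : FinMod H {g : G | Λ (el ℤ g • x0) ≠ 0} := by
    refine hE G R H D χ hχ hnt (fun g => Λ (el ℤ g • x0)) ?_ ?_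
    · intro h g
      show Λ (el ℤ ((h : G) * g) • x0) = _
      rw [fsd_el, mul_smul, hΛh]
    · intro s
      refine fsd_mono (hl.2 (y s)) fun g hg => ?_
      intro h0
      apply hg
      show Λ (el ℤ (g * s) • x0) = Λ (el ℤ g • x0)
      have h1 : el ℤ (g * s) • x0 = R.d1 (el ℤ g • y s) + el ℤ g • x0 := by
        rw [map_smul, hy, smul_sub, fsd_el, mul_smul]
        abel
      have h2 : l (el ℤ g • y s) = 0 := h0
      rw [h1, map_add, hΛd, h2, zero_add]
  refine ⟨Λ, ⟨hΛh, fun x => ?_⟩, fun x => (hΛd x).symm⟩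
  refine fsd_mono (fsd_union (hl.2 (z x)) hfin) fun g hg => ?_
  by_contra hcon
  rw [Set.mem_union, not_or] at hcon
  apply hg
  rw [hdec]
  have h1 : l (el ℤ g • z x) = 0 := by
    by_contra hne
    exact hcon.1 hne
  have h2 : Λ (el ℤ g • x0) = 0 := by
    by_contra hne
    exact hcon.2 hne
  rw [h1, h2, smul_zero, add_zero]

end Pool.Agent.PDE
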