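import Pool.Agent.PDE.StG

/-!
# PDE, module HTP: a retraction onto the relation module
-/

set_option autoImplicit false

namespace Pool.Agent.PDE

open Pool.Agent.PDA Pool.Agent.PDB Subgroup

section

variable {k : Type} [CommRing k] {B : Type} [Group B]

private lemma HTP_map_el (θ : B →* B) (g : B) :
    MonoidAlgebra.mapDomainRingHom k θ (el k g) = el k (θ g) := by
  simp

private lemma HTP_el_mul (g h : B) : el k (g * h) = el k g * el k h := by simp

/-- the additive map with prescribed values -/
private noncomputable def HTP_L {M : Type} [AddCommGroup M] [Module k M] (f : B → M) :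
    MonoidAlgebra k B →ₗ[k] M :=
  (Finsupp.linearCombination k f) ∘ₗ (MonoidAlgebra.coeffLinearEquiv k).toLinearMap

private lemma HTP_L_el {M : Type} [AddCommGroup M] [Module k M] (f : B → M) (g : B) :
    HTP_L (k := k) f (el k g) = f g := by
  simp [HTP_L]

private lemma HTP_ind {p : MonoidAlgebra k B → Prop} (hel : ∀ g, p (el k g))
    (hadd : ∀ a b, p a → p b → p (a + b)) (hsmul : ∀ (r : k) a, p a → p (r • a)) (a) : p a :=
  MonoidAlgebra.induction_on (motive := p) a hel hadd hsmul

private lemma HTP_semi {M : Type} [AddCommGroup M] [Module k M] [Module (MonoidAlgebra k B) M]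
    [IsScalarTower k (MonoidAlgebra k B) M] [SMulCommClass (MonoidAlgebra k B) k M]
    (θ : B →* B) (f : B → M)
    (hf : ∀ g h, f (θ g * h) = el k g • f h) (a y : MonoidAlgebra k B) :
    HTP_L (k := k) f (MonoidAlgebra.mapDomainRingHom k θ a * y) = a • HTP_L (k := k) f y := by
  induction a using HTP_ind with
  | hel g =>
    rw [HTP_map_el]
    induction y using HTP_ind with
    | hel h => rw [← HTP_el_mul, HTP_L_el, HTP_L_el, hf]
    | hadd a b ha hb => rw [mul_add, map_add, map_add, ha, hb, smul_add]
    | hsmul r a ha => rw [mul_smul_comm, map_smul, map_smul, ha, smul_comm]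
  | hadd a b ha hb => rw [map_add, add_mul, map_add, ha, hb, add_smul]
  | hsmul r a ha =>
    have h1 : MonoidAlgebra.mapDomainRingHom k θ (r • a) =
        r • MonoidAlgebra.mapDomainRingHom k θ a := by
      simp [MonoidAlgebra.mapDomain_smul]
    rw [h1, smul_mul_assoc, map_smul, ha, smul_assoc]

/-- equivariant map to `B` -/
private lemma HTP_pi (θ : B →* B) (hθ : Function.Injective θ) :
    ∃ π : B → B, π 1 = 1 ∧ ∀ a g, π (θ a * g) = a * π g := by
  classical
  have h0 : ∀ g : B, ∃ a : B, θ a = g *
      (Quotient.out (Quotient.mk (QuotientGroup.rightRel θ.range) g))⁻¹ := by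
    intro g
    have h1 := Quotient.exact (Quotient.out_eq (Quotient.mk (QuotientGroup.rightRel θ.range) g))
    exact QuotientGroup.rightRel_apply.1 h1
  choose p hp using h0
  have h1 : ∀ a g, p (θ a * g) = a * p g := by
    intro a g
    apply hθ
    rw [hp, map_mul, hp]
    have h2 : Quotient.mk (QuotientGroup.rightRel θ.range) (θ a * g) =
        Quotient.mk (QuotientGroup.rightRel θ.range) g := by
      apply Quotient.sound
      apply QuotientGroup.rightRel_apply.2
      exact ⟨a⁻¹, by simp⟩
    rw [h2, mul_assoc]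
  refine ⟨fun g => p g * (p 1)⁻¹, by simp, fun a g => ?_⟩
  change p (θ a * g) * (p 1)⁻¹ = a * (p g * (p 1)⁻¹)
  rw [h1, mul_assoc]

private lemma HTP_bd_smul {n : ℕ} (b : Fin n → B) (r : k) (z : Fin n → MonoidAlgebra k B) :
    bd k b (r • z) = r • bd k b z := by
  change ∑ i, (r • z) i * (el k (b i) - 1) = r • ∑ i, z i * (el k (b i) - 1)
  rw [Finset.smul_sum]
  refine Finset.sum_congr rfl fun i _ => ?_
  rw [Pi.smul_apply, smul_mul_assoc]

end

/-- [HTP] -/
theorem thm_HTP (hB : St_BDR) : St_HTP := by
  intro k _ B _ n b hb θ hθ Φ w hΦ hΦb hw hwR hwr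
  obtain ⟨π, hπ1, hπ⟩ := HTP_pi θ hθ
  set p0 : MonoidAlgebra k B →ₗ[k] MonoidAlgebra k B := HTP_L (fun g => el k (π g)) with hp0
  have p0s : ∀ a y, p0 (MonoidAlgebra.mapDomainRingHom k θ a * y) = a * p0 y := by
    intro a y
    exact HTP_semi θ (fun g => el k (π g)) (fun g h => by rw [hπ, HTP_el_mul, smul_eq_mul]) a y
  have p0a : ∀ y, aug k B (p0 y) = aug k B y := by
    intro y
    induction y using HTP_ind with
    | hel g => rw [hp0, HTP_L_el]; simp [aug]
    | hadd a b ha hb => rw [map_add, map_add, map_add, ha, hb]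
    | hsmul r a ha => rw [map_smul, map_smul, map_smul, ha]
  have p01 : p0 1 = 1 := by
    have h1 : (1 : MonoidAlgebra k B) = el k (1 : B) := (map_one (MonoidAlgebra.of k B)).symm
    rw [h1, hp0, HTP_L_el, hπ1]
  have hZ : ∀ (t : B) (i : Fin n), ∃ z : Fin n → MonoidAlgebra k B,
      bd k b z = p0 (el k t * (el k (b i) - 1)) := by
    intro t i
    apply (hB k B n b hb _).1
    rw [p0a]
    simp [aug]
  choose Z hZ using hZ
  set F : Fin n → B → (Fin n → MonoidAlgebra k B) :=
    fun i g => el k (π g) • Z ((θ (π g))⁻¹ * g) i with hF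
  have hFs : ∀ i g h, F i (θ g * h) = el k g • F i h := by
    intro i g h
    rw [hF]
    simp only
    rw [hπ, HTP_el_mul, mul_smul]
    congr 3
    rw [map_mul]
    group
  set p1 : (Fin n → MonoidAlgebra k B) → (Fin n → MonoidAlgebra k B) :=
    fun y => ∑ i, HTP_L (k := k) (F i) (y i) with hp1
  have p1add : ∀ x y, p1 (x + y) = p1 x + p1 y := by
    intro x y
    rw [hp1]
    simp only [Pi.add_apply, map_add, Finset.sum_add_distrib]
  have p1s : ∀ a y, p1 (MonoidAlgebra.mapDomainRingHom k θ a • y) = a • p1 y := by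
    intro a y
    rw [hp1]
    simp only [Pi.smul_apply, smul_eq_mul]
    rw [Finset.smul_sum]
    refine Finset.sum_congr rfl fun i _ => ?_
    exact HTP_semi θ (F i) (hFs i) a (y i)
  have p1b : ∀ y, bd k b (p1 y) = p0 (bd k b y) := by
    intro y
    rw [hp1]
    simp only [map_sum]
    have h1 : bd k b y = ∑ i, y i * (el k (b i) - 1) := rfl
    rw [h1, map_sum]
    refine Finset.sum_congr rfl fun i _ => ?_
    generalize y i = a
    induction a using HTP_ind with
    | hel g =>
      rw [HTP_L_el, hF]
      simp only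
      rw [map_smul, hZ, smul_eq_mul, ← p0s, HTP_map_el, ← mul_assoc, ← HTP_el_mul]
      congr 3
      group
    | hadd a b ha hb => rw [map_add, map_add, ha, hb, add_mul, map_add]
    | hsmul r a ha =>
      rw [map_smul, HTP_bd_smul, ha, smul_mul_assoc, map_smul]
  refine ⟨{ toFun := fun z => z - p1 (Φ z) + p1 (w z), map_add' := ?_, map_smul' := ?_ }, ?_, ?_⟩
  · intro x y
    rw [map_add, map_add, p1add, p1add]
    abel
  · intro a x
    simp only [RingHom.id_apply]
    rw [hΦ, hw, p1s, p1s, smul_add, smul_sub]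
  · intro z
    change bd k b (z - p1 (Φ z) + p1 (w z)) = 0
    have h2 : bd k b (w z) = 0 := hwR z
    have h3 := p0s (bd k b z) 1
    rw [mul_one, p01, mul_one] at h3
    rw [map_add, map_sub, p1b, p1b, h2, map_zero, hΦb, h3, sub_self, add_zero]
  · intro r hr
    change r - p1 (Φ r) + p1 (w r) = r
    rw [hwr r hr]
    abel

end Pool.Agent.PDE

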