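import Pool.Agent.PDE.StG

set_option autoImplicit false

namespace Pool.Agent.PDE

open Pool.Agent.PDA Pool.Agent.PDB Subgroup

/-- the augmentation is compatible with the maps of group rings -/
theorem INE_aug {H K : Type} [Group H] [Group K] (j : K →* H) (a : MonoidAlgebra ℚ K) :
    aug ℚ H (MonoidAlgebra.mapDomainRingHom ℚ j a) = aug ℚ K a := by
  induction a using MonoidAlgebra.induction_linear with
  | zero => simp
  | add f g hf hg => rw [map_add, map_add, map_add, hf, hg]
  | single g a =>
    rw [MonoidAlgebra.mapDomainRingHom_apply, MonoidAlgebra.mapDomain_single, aug, aug,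
      MonoidAlgebra.lift_single, MonoidAlgebra.lift_single]
    simp

theorem thm_INE (hI : St_INS) : St_INE := by
  intro H K _ _ j hj
  have h1 : NoF2 H → NoF2 K := fun h f hf => h (j.comp f) (by
    rw [MonoidHom.coe_comp]
    exact hj.comp hf)
  have h2 : DivQ H → DivQ K := by
    rintro ⟨D, hD, φ, hφ, h⟩
    refine ⟨D, hD, φ.comp (MonoidAlgebra.mapDomainRingHom ℚ j), ?_, fun m A hA => ?_⟩
    · rw [RingHom.coe_comp]
      refine hφ.comp ?_
      exact MonoidAlgebra.mapDomain_injective hj
    · have h3 := h m (A.map (MonoidAlgebra.mapDomainRingHom ℚ j)) (by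
        rw [Matrix.map_map, ← hA]
        ext i k
        simp only [Matrix.map_apply, Function.comp_apply]
        exact INE_aug j _)
      rw [Matrix.map_map] at h3
      exact h3
  exact ⟨h1, h2, fun h => ⟨(hI H K j hj).1 h.1, h1 h.2.1, h2 h.2.2⟩⟩

end Pool.Agent.PDE
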