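import Pool.Agent.PDE.StG

/-!
# PDE, module INQ: a homomorphism onto the integers (helper9)
-/

set_option autoImplicit false

namespace Pool.Agent.PDE

open Pool.Agent.PDA Pool.Agent.PDB Subgroup

private theorem INQ_aug_el {k S : Type} [CommRing k] [Group S] (g : S) :
    aug k S (el k g) = 1 := by
  unfold aug el
  rw [MonoidAlgebra.lift_of]
  rfl

/-- the augmentations of the coordinates -/
private noncomputable def INQ_A (S : Type) [Group S] (d : ℕ) :
    (Fin d → MonoidAlgebra ℚ S) →ₗ[ℚ] (Fin d → ℚ) where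
  toFun z i := aug ℚ S (z i)
  map_add' z w := by
    funext i
    rw [Pi.add_apply, map_add]
    rfl
  map_smul' n z := by
    funext i
    rw [Pi.smul_apply, map_smul]
    rfl

private theorem INQ_A_apply {S : Type} [Group S] {d : ℕ} (z : Fin d → MonoidAlgebra ℚ S)
    (i : Fin d) : INQ_A S d z i = aug ℚ S (z i) := rfl

/-- the augmentation kills `I R` -/
private theorem INQ_IA {S : Type} [Group S] {d : ℕ} (x : Fin d → S) (t : Rel ℚ x)
    (ht : t ∈ IA (aug ℚ S) (⊤ : Submodule (MonoidAlgebra ℚ S) (Rel ℚ x))) :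
    INQ_A S d (t : Fin d → MonoidAlgebra ℚ S) = 0 := by
  unfold IA at ht
  induction ht using AddSubgroup.closure_induction with
  | mem t ht =>
    obtain ⟨a, ha, r, -, rfl⟩ := ht
    funext i
    rw [INQ_A_apply, Submodule.coe_smul, Pi.smul_apply, smul_eq_mul, map_mul, ha, zero_mul]
    rfl
  | zero => exact map_zero _
  | add s t _ _ hs ht => rw [Submodule.coe_add, map_add, hs, ht, add_zero]
  | neg s _ hs => rw [Submodule.coe_neg, map_neg, hs, neg_zero]

/-- a nonzero additive map to `ℤ` gives a homomorphism onto `ℤ` -/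
private theorem INQ_onto {S : Type} [Group S] (χ : S → ℤ) (hadd : ∀ s t, χ (s * t) = χ s + χ t)
    (s0 : S) (hs0 : χ s0 ≠ 0) : ∃ π : S →* Multiplicative ℤ, Function.Surjective π := by
  have hone : χ 1 = 0 := by
    have := hadd 1 1
    rw [mul_one] at this
    omega
  have hinv : ∀ s, χ s⁻¹ = - χ s := by
    intro s
    have := hadd s s⁻¹
    rw [mul_inv_cancel, hone] at this
    omega
  let H : AddSubgroup ℤ :=
    { carrier := Set.range χ
      add_mem' := by
        rintro _ _ ⟨s, rfl⟩ ⟨t, rfl⟩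
        exact ⟨s * t, hadd s t⟩
      zero_mem' := ⟨1, hone⟩
      neg_mem' := by
        rintro _ ⟨s, rfl⟩
        exact ⟨s⁻¹, hinv s⟩ }
  obtain ⟨n, hn⟩ := Int.subgroup_cyclic H
  have hdvd : ∀ s, n ∣ χ s := by
    intro s
    have h1 : χ s ∈ H := ⟨s, rfl⟩
    rw [hn, AddSubgroup.mem_closure_singleton] at h1
    obtain ⟨k, hk⟩ := h1
    exact ⟨k, by rw [← hk, smul_eq_mul, mul_comm]⟩
  have hn0 : n ≠ 0 := by
    rintro rfl
    exact hs0 (zero_dvd_iff.1 (hdvd s0))
  have hnH : n ∈ H := by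
    rw [hn]
    exact AddSubgroup.subset_closure rfl
  obtain ⟨s1, hs1⟩ := hnH
  refine ⟨
    { toFun := fun s => Multiplicative.ofAdd (χ s / n)
      map_one' := by
        rw [hone, Int.zero_ediv]
        rfl
      map_mul' := by
        intro s t
        rw [hadd, Int.add_ediv_of_dvd_left (hdvd s)]
        rfl }, ?_⟩
  have hpow : ∀ k : ℤ, χ (s1 ^ k) = k * n := by
    have hnat : ∀ k : ℕ, χ (s1 ^ k) = k * n := by
      intro k
      induction k with
      | zero => rw [pow_zero, hone, Nat.cast_zero, zero_mul]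
      | succ k ih =>
        rw [pow_succ, hadd, ih, hs1]
        push_cast
        ring
    intro k
    obtain ⟨j, rfl | rfl⟩ := k.eq_nat_or_neg
    · rw [zpow_natCast, hnat]
    · rw [zpow_neg, zpow_natCast, hinv, hnat]
      ring
  intro k
  refine ⟨s1 ^ (Multiplicative.toAdd k), ?_⟩
  show Multiplicative.ofAdd (χ (s1 ^ (Multiplicative.toAdd k)) / n) = k
  rw [hpow, Int.mul_ediv_cancel _ hn0]
  rfl

/-- a nonzero functional with integral values on the unit vectors -/
private theorem INQ_int {d : ℕ} (V : Submodule ℚ (Fin d → ℚ)) (hV : V ≠ ⊤) :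
    ∃ f : (Fin d → ℚ) →ₗ[ℚ] ℚ, (∀ v ∈ V, f v = 0) ∧ (∃ i, f (Pi.single i 1) ≠ 0) ∧
      ∀ i, ∃ n : ℤ, f (Pi.single i 1) = n := by
  obtain ⟨f, hf0, hf⟩ := Submodule.exists_le_ker_of_lt_top V (lt_top_iff_ne_top.2 hV)
  set N : ℕ := ∏ i, (f (Pi.single i 1)).den with hN
  have hN0 : (N : ℚ) ≠ 0 := by
    rw [hN, Nat.cast_ne_zero]
    exact Finset.prod_ne_zero_iff.2 fun i _ => Rat.den_ne_zero _
  refine ⟨(N : ℚ) • f, fun v hv => ?_, ?_, fun i => ?_⟩
  · rw [LinearMap.smul_apply, LinearMap.mem_ker.1 (hf hv), smul_zero]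
  · by_contra hcon
    push Not at hcon
    apply hf0
    apply LinearMap.pi_ext'
    intro i
    apply LinearMap.ext_ring
    have h1 := hcon i
    rw [LinearMap.smul_apply, smul_eq_mul] at h1
    exact (mul_eq_zero.1 h1).resolve_left hN0
  · obtain ⟨m, hm⟩ : (f (Pi.single i 1)).den ∣ N := Finset.dvd_prod_of_mem _ (Finset.mem_univ i)
    refine ⟨m * (f (Pi.single i 1)).num, ?_⟩
    rw [LinearMap.smul_apply, smul_eq_mul, hm]
    push_cast
    have h2 := Rat.mul_den_eq_num (f (Pi.single i 1))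
    rw [← h2]
    ring

theorem thm_INQ (hB : St_BDR) : St_INQ := by
  classical
  intro S _ d x hx hind
  let V : Submodule ℚ (Fin d → ℚ) :=
    { carrier := {l | ∃ z : Fin d → MonoidAlgebra ℚ S, bd ℚ x z = 0 ∧ INQ_A S d z = l}
      add_mem' := by
        rintro _ _ ⟨z, hz, rfl⟩ ⟨w, hw, rfl⟩
        exact ⟨z + w, by rw [map_add, hz, hw, add_zero], map_add _ _ _⟩
      zero_mem' := ⟨0, map_zero _, map_zero _⟩
      smul_mem' := by
        rintro n _ ⟨z, hz, rfl⟩
        refine ⟨algebraMap ℚ (MonoidAlgebra ℚ S) n • z, by rw [map_smul, hz, smul_zero], ?_⟩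
        funext i
        rw [INQ_A_apply, Pi.smul_apply, smul_eq_mul, map_mul, AlgHom.commutes]
        rfl }
  have hVm : ∀ l, l ∈ V ↔ ∃ z : Fin d → MonoidAlgebra ℚ S, bd ℚ x z = 0 ∧ INQ_A S d z = l :=
    fun l => Iff.rfl
  have hV : V ≠ ⊤ := by
    intro htop
    have h1 : ∀ i : Fin d, ∃ z : Fin d → MonoidAlgebra ℚ S, bd ℚ x z = 0 ∧
        INQ_A S d z = Pi.single i 1 := by
      intro i
      have h2 : (Pi.single i 1 : Fin d → ℚ) ∈ V := by
        rw [htop]
        exact Submodule.mem_top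
      exact (hVm _).1 h2
    choose y hy hyA using h1
    have h2 := hind d (fun i => ⟨y i, hy i⟩) (by
      intro c hc
      have h3 := INQ_IA x _ hc
      funext j
      have h4 := congrArg (fun f => f j) h3
      simp only [Submodule.coe_sum, Submodule.coe_smul, map_sum, Finset.sum_apply] at h4
      have h5 : ∀ i : Fin d, INQ_A S d (algebraMap ℚ (MonoidAlgebra ℚ S) (c i) • y i) j =
          c i * (Pi.single i 1 : Fin d → ℚ) j := by
        intro i
        rw [← hyA i, INQ_A_apply, INQ_A_apply, Pi.smul_apply, smul_eq_mul, map_mul,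
          AlgHom.commutes]
        rfl
      rw [Finset.sum_congr rfl fun i _ => h5 i, Finset.sum_eq_single j] at h4
      · simpa using h4
      · intro i _ hij
        rw [Pi.single_eq_of_ne (Ne.symm hij), mul_zero]
      · intro h
        exact absurd (Finset.mem_univ j) h)
    omega
  obtain ⟨f, hfV, ⟨i0, hi0⟩, hfZ⟩ := INQ_int V hV
  have hZ : ∀ s : S, ∃ z, bd ℚ x z = el ℚ s - 1 := by
    intro s
    apply (hB ℚ S d x hx _).1
    rw [map_sub, INQ_aug_el, map_one, sub_self]
  choose Z hZ using hZ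
  have key : ∀ (s : S) (z : Fin d → MonoidAlgebra ℚ S), bd ℚ x z = el ℚ s - 1 →
      f (INQ_A S d z) = f (INQ_A S d (Z s)) := by
    intro s z hz
    have h1 : INQ_A S d (z - Z s) ∈ V := ⟨z - Z s, by rw [map_sub, hz, hZ, sub_self], rfl⟩
    have h2 := hfV _ h1
    rw [map_sub, map_sub, sub_eq_zero] at h2
    exact h2
  have hadd : ∀ s t : S, f (INQ_A S d (Z (s * t))) = f (INQ_A S d (Z s)) + f (INQ_A S d (Z t)) := by
    intro s t
    have h1 : bd ℚ x (Z s + el ℚ s • Z t) = el ℚ (s * t) - 1 := by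
      rw [map_add, map_smul, hZ, hZ, smul_eq_mul, el, el, el, map_mul]
      noncomm_ring
    have h2 := key (s * t) _ h1
    rw [← h2, map_add, map_add]
    congr 2
    funext i
    rw [INQ_A_apply, INQ_A_apply, Pi.smul_apply, smul_eq_mul, map_mul, INQ_aug_el, one_mul]
  have hx1 : ∀ i, f (INQ_A S d (Z (x i))) = f (Pi.single i 1) := by
    intro i
    have h1 : bd ℚ x (Pi.single i 1) = el ℚ (x i) - 1 := by
      show ∑ j, (Pi.single i 1 : Fin d → MonoidAlgebra ℚ S) j * (el ℚ (x j) - 1) =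
        el ℚ (x i) - 1
      rw [Finset.sum_eq_single i]
      · rw [Pi.single_eq_same, one_mul]
      · intro j _ hj
        rw [Pi.single_eq_of_ne hj, zero_mul]
      · intro h
        exact absurd (Finset.mem_univ i) h
    rw [← key (x i) _ h1]
    congr 1
    funext j
    rw [INQ_A_apply]
    by_cases hj : j = i
    · subst hj
      rw [Pi.single_eq_same, Pi.single_eq_same, map_one]
    · rw [Pi.single_eq_of_ne hj, Pi.single_eq_of_ne hj, map_zero]
  have hone : f (INQ_A S d (Z 1)) = 0 := by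
    have h1 := hadd 1 1
    rw [mul_one] at h1
    linarith
  have hint : ∀ s : S, ∃ n : ℤ, f (INQ_A S d (Z s)) = n := by
    intro s
    have hs : s ∈ closure (Set.range x) := by
      rw [hx]
      exact Subgroup.mem_top s
    induction hs using Subgroup.closure_induction with
    | mem s hs =>
      obtain ⟨i, rfl⟩ := hs
      rw [hx1 i]
      exact hfZ i
    | one => exact ⟨0, by rw [hone, Int.cast_zero]⟩
    | mul s t _ _ hs ht =>
      obtain ⟨m, hm⟩ := hs
      obtain ⟨n, hn⟩ := ht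
      exact ⟨m + n, by rw [hadd, hm, hn, Int.cast_add]⟩
    | inv s _ hs =>
      obtain ⟨m, hm⟩ := hs
      refine ⟨-m, ?_⟩
      have h1 := hadd s s⁻¹
      rw [mul_inv_cancel, hone, hm] at h1
      push_cast
      linarith
  choose χ hχ using hint
  refine INQ_onto χ ?_ (x i0) ?_
  · intro s t
    have h1 := hadd s t
    rw [hχ, hχ, hχ] at h1
    exact_mod_cast h1
  · intro h0
    apply hi0
    rw [← hx1, hχ, h0, Int.cast_zero]

end Pool.Agent.PDE
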