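import Pool.Agent.PDE.StG

/-!
# PDE, module MDE: the main theorem
-/

set_option autoImplicit false
set_option linter.unusedVariables false

namespace Pool.Agent.PDE

open Pool.Agent.PDA Pool.Agent.PDB Subgroup

/-- a nontrivial homomorphism to `ℤ` can be made surjective -/
private theorem MDE_surj {S : Type} [Group S] (χ : S →* Multiplicative ℤ) (h : χ ≠ 1) :
    ∃ π : S →* Multiplicative ℤ, Function.Surjective π := by
  -- the image as a subgroup of `ℤ`
  let f : Additive S →+ ℤ := MonoidHom.toAdditiveLeft χ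
  obtain ⟨m, hm⟩ := Int.subgroup_cyclic f.range
  have hm0 : m ≠ 0 := by
    rintro rfl
    apply h
    ext g
    have h1 : f (Additive.ofMul g) ∈ f.range := ⟨_, rfl⟩
    rw [hm, AddSubgroup.mem_closure_singleton] at h1
    obtain ⟨n, hn⟩ := h1
    have h2 : f (Additive.ofMul g) = 0 := by rw [← hn, smul_zero]
    exact Multiplicative.toAdd.injective h2
  have hdvd : ∀ g : S, ∃ n : ℤ, Multiplicative.toAdd (χ g) = n * m := by
    intro g
    have h1 : f (Additive.ofMul g) ∈ f.range := ⟨_, rfl⟩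
    rw [hm, AddSubgroup.mem_closure_singleton] at h1
    obtain ⟨n, hn⟩ := h1
    exact ⟨n, by rw [← smul_eq_mul, hn]; rfl⟩
  choose n hn using hdvd
  refine ⟨{ toFun := fun g => Multiplicative.ofAdd (n g)
            map_one' := ?_
            map_mul' := ?_ }, ?_⟩
  · have h1 := hn 1
    rw [map_one, toAdd_one] at h1
    have h2 : n 1 = 0 := by
      rcases mul_eq_zero.1 h1.symm with h2 | h2
      · exact h2
      · exact absurd h2 hm0
    rw [h2, ofAdd_zero]
  · intro g g'
    have h1 : n (g * g') * m = (n g + n g') * m := by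
      rw [← hn, map_mul, toAdd_mul, hn, hn, add_mul]
    have h2 : n (g * g') = n g + n g' := mul_right_cancel₀ hm0 h1
    rw [h2, ofAdd_add]
  · intro q
    have h1 : m * Multiplicative.toAdd q ∈ f.range := by
      rw [hm, AddSubgroup.mem_closure_singleton]
      exact ⟨Multiplicative.toAdd q, by rw [smul_eq_mul, mul_comm]⟩
    obtain ⟨g, hg⟩ := h1
    refine ⟨Additive.toMul g, ?_⟩
    show Multiplicative.ofAdd (n (Additive.toMul g)) = q
    have h2 : n (Additive.toMul g) * m = Multiplicative.toAdd q * m := by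
      rw [← hn, mul_comm (Multiplicative.toAdd q) m, ← hg]
      rfl
    rw [mul_right_cancel₀ hm0 h2, ofAdd_toAdd]

theorem thm_MDE (hSTE : St_STE) (hFNE : St_FNE) (hVPF : St_VPF) (hINE : St_INE)
    (hTFE : St_TFE) (hPZF : St_PZF) (hPZV : St_PZV) : St_MDE := by
  intro G _ hG H hfg hno H0 hH0 hdiv hor
  have : H0.FiniteIndex := ⟨hH0⟩
  have : Group.FG H := (Group.fg_iff_subgroup_fg H).2 hfg
  by_cases hidx : H.index = 0
  · -- infinite index
    have hfg0 : Group.FG H0 := inferInstance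
    have hno0 : NoF2 H0 := (hINE H H0 H0.subtype H0.subtype_injective).1 hno
    have hin0 : InPD3 H0 := by
      refine ⟨G, inferInstance, hG, H.subtype.comp H0.subtype,
        H.subtype_injective.comp H0.subtype_injective, ?_⟩
      rw [MonoidHom.range_comp, Subgroup.range_subtype,
        Subgroup.index_map_of_injective _ H.subtype_injective, Subgroup.range_subtype, hidx,
        mul_zero]
    have hpoly : PolyZ (⊤ : Subgroup H0) := by
      rcases hSTE H0 ⟨hin0, hno0, hdiv⟩ hfg0 with hs | ⟨π, x, hπ, hker⟩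
      · exact hPZV.2 H0 hs
      · exact hPZF H0 π x hπ (hTFE H0 hdiv) hker
    exact hPZV.1 H H0 hH0 hpoly
  obtain ⟨H1, hH1, χ, hχ⟩ := hor.resolve_left hidx
  have : H1.FiniteIndex := ⟨hH1⟩
  have : H.FiniteIndex := ⟨hidx⟩
  have hfi : (H0 ⊓ H1).FiniteIndex := inferInstance
  have hH2 : (H0 ⊓ H1).index ≠ 0 := hfi.index_ne_zero
  -- `χ` on `H0 ⊓ H1`
  let ι : (H0 ⊓ H1 : Subgroup H) →* H1 := Subgroup.inclusion inf_le_right
  have hχ2 : χ.comp ι ≠ 1 := by
    intro h1
    apply hχ
    ext u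
    obtain ⟨n, hn, -, hmem⟩ := Subgroup.exists_pow_mem_of_index_ne_zero hH2 (u : H)
    have h2 : χ (ι ⟨(u : H) ^ n, hmem⟩) = 1 := by
      have h3 := congrArg (fun f => f ⟨(u : H) ^ n, hmem⟩) h1
      exact h3
    have h3 : ι ⟨(u : H) ^ n, hmem⟩ = u ^ n := Subtype.ext rfl
    rw [h3, map_pow] at h2
    have h4 : (n : ℤ) * Multiplicative.toAdd (χ u) = 0 := by
      have h5 := congrArg Multiplicative.toAdd h2
      rw [toAdd_pow, toAdd_one, nsmul_eq_mul] at h5
      exact h5
    rcases mul_eq_zero.1 h4 with h5 | h5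
    · exact absurd (Int.natCast_eq_zero.1 h5) hn.ne'
    · exact Multiplicative.toAdd.injective h5
  obtain ⟨π, hπ⟩ := MDE_surj _ hχ2
  have hno2 : NoF2 (H0 ⊓ H1 : Subgroup H) :=
    (hINE H _ (H0 ⊓ H1).subtype (H0 ⊓ H1).subtype_injective).1 hno
  have hdiv2 : DivQ (H0 ⊓ H1 : Subgroup H) :=
    (hINE H0 _ (Subgroup.inclusion inf_le_left) (Subgroup.inclusion_injective _)).2.1 hdiv
  have hfg2 : Group.FG (H0 ⊓ H1 : Subgroup H) := inferInstance
  have hj : Function.Injective (H.subtype.comp (H0 ⊓ H1).subtype) :=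
    H.subtype_injective.comp (H0 ⊓ H1).subtype_injective
  have hji : (H.subtype.comp (H0 ⊓ H1).subtype).range.index ≠ 0 := by
    rw [MonoidHom.range_comp, Subgroup.range_subtype,
      Subgroup.index_map_of_injective _ H.subtype_injective, Subgroup.range_subtype]
    exact mul_ne_zero hH2 hidx
  exact hVPF H (H0 ⊓ H1) hH2 (hFNE G hG _ _ hj hji hfg2 hno2 hdiv2 π hπ)

end Pool.Agent.PDE
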