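import Pool.Agent.PDE.StG

/-!
# PDE module NIL: a homogeneous nilpotency argument over graded group rings (MP_add920_al)

Proof of `St_NIL`.
-/

set_option autoImplicit false
set_option linter.unusedVariables false

namespace Pool.Agent.PDE

open Pool.Agent.PDA Pool.Agent.PDB Subgroup

section NIL

variable {k S : Type} [CommRing k] [Group S] (π : S →* Multiplicative ℤ)

theorem NIL_coeff_pos (h : ℤ) (a : MonoidAlgebra k S) (g : S)
    (hg : Multiplicative.toAdd (π g) = h) : (ht π h a).coeff g = a.coeff g := by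
  unfold ht
  simp [hg]

theorem NIL_coeff_neg (h : ℤ) (a : MonoidAlgebra k S) (g : S)
    (hg : Multiplicative.toAdd (π g) ≠ h) : (ht π h a).coeff g = 0 := by
  unfold ht
  simp [hg]

theorem NIL_zero (h : ℤ) : ht π h (0 : MonoidAlgebra k S) = 0 := by
  ext g
  by_cases hg : Multiplicative.toAdd (π g) = h
  · rw [NIL_coeff_pos π h _ g hg]
  · rw [NIL_coeff_neg π h _ g hg]; rfl

theorem NIL_add (h : ℤ) (a b : MonoidAlgebra k S) : ht π h (a + b) = ht π h a + ht π h b := by
  ext g
  rw [MonoidAlgebra.coeff_add, Finsupp.add_apply]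
  by_cases hg : Multiplicative.toAdd (π g) = h
  · rw [NIL_coeff_pos π h _ g hg, NIL_coeff_pos π h _ g hg, NIL_coeff_pos π h _ g hg]; rfl
  · rw [NIL_coeff_neg π h _ g hg, NIL_coeff_neg π h _ g hg, NIL_coeff_neg π h _ g hg, add_zero]

theorem NIL_single (h : ℤ) (g : S) (r : k) (b : MonoidAlgebra k S) :
    ht π h (MonoidAlgebra.single g r * b) =
      MonoidAlgebra.single g r * ht π (h - Multiplicative.toAdd (π g)) b := by
  ext x
  rw [MonoidAlgebra.coeff_single_mul_apply]
  have key : (Multiplicative.toAdd (π x) = h) ↔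
      (Multiplicative.toAdd (π (g⁻¹ * x)) = h - Multiplicative.toAdd (π g)) := by
    rw [map_mul, map_inv, toAdd_mul, toAdd_inv]; omega
  by_cases hx : Multiplicative.toAdd (π x) = h
  · rw [NIL_coeff_pos π h _ x hx, NIL_coeff_pos π _ _ _ (key.1 hx),
      MonoidAlgebra.coeff_single_mul_apply]
  · rw [NIL_coeff_neg π h _ x hx, NIL_coeff_neg π _ _ _ (fun h' => hx (key.2 h')), mul_zero]

theorem NIL_hts_pos (h : ℤ) (g : S) (r : k) (hg : Multiplicative.toAdd (π g) = h) :
    ht π h (MonoidAlgebra.single g r) = MonoidAlgebra.single g r := by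
  classical
  ext x
  by_cases hx : Multiplicative.toAdd (π x) = h
  · rw [NIL_coeff_pos π h _ x hx]
  · rw [NIL_coeff_neg π h _ x hx, MonoidAlgebra.coeff_single, Finsupp.single_apply, if_neg]
    rintro rfl
    exact hx hg

theorem NIL_hts_neg (h : ℤ) (g : S) (r : k) (hg : Multiplicative.toAdd (π g) ≠ h) :
    ht π h (MonoidAlgebra.single g r) = 0 := by
  classical
  ext x
  by_cases hx : Multiplicative.toAdd (π x) = h
  · rw [NIL_coeff_pos π h _ x hx, MonoidAlgebra.coeff_single, Finsupp.single_apply, if_neg]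
    · rfl
    · rintro rfl
      exact hg hx
  · rw [NIL_coeff_neg π h _ x hx]; rfl

/-- the homogeneous component of a vector -/
noncomputable def NILH (n : ℕ) (h : ℤ) :
    (Fin n → MonoidAlgebra k S) →+ (Fin n → MonoidAlgebra k S) where
  toFun z := fun i => ht π h (z i)
  map_zero' := by
    funext i
    exact NIL_zero π h
  map_add' z w := by
    funext i
    exact NIL_add π h (z i) (w i)

variable {n : ℕ}

theorem NIL_H (h : ℤ) (z : Fin n → MonoidAlgebra k S) :
    NILH π n h z = fun i => ht π h (z i) := rfl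

theorem NIL_Hsingle (h : ℤ) (g : S) (r : k) (z : Fin n → MonoidAlgebra k S) :
    NILH π n h ((MonoidAlgebra.single g r : MonoidAlgebra k S) • z) =
      (MonoidAlgebra.single g r : MonoidAlgebra k S) •
        NILH π n (h - Multiplicative.toAdd (π g)) z := by
  funext i
  exact NIL_single π h g r (z i)

theorem NIL_Hsame (h : ℤ) (z : Fin n → MonoidAlgebra k S) :
    NILH π n h (NILH π n h z) = NILH π n h z := by
  funext i
  show ht π h (ht π h (z i)) = ht π h (z i)
  ext g
  by_cases hg : Multiplicative.toAdd (π g) = h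
  · rw [NIL_coeff_pos π h _ g hg]
  · rw [NIL_coeff_neg π h _ g hg, NIL_coeff_neg π h _ g hg]

theorem NIL_Hdiff (h h' : ℤ) (hne : h ≠ h') (z : Fin n → MonoidAlgebra k S) :
    NILH π n h (NILH π n h' z) = 0 := by
  funext i
  show ht π h (ht π h' (z i)) = 0
  ext g
  by_cases hg : Multiplicative.toAdd (π g) = h
  · rw [NIL_coeff_pos π h _ g hg, NIL_coeff_neg π h' _ g (by omega)]; rfl
  · rw [NIL_coeff_neg π h _ g hg]; rfl

theorem NIL_Hht (h e : ℤ) (a : MonoidAlgebra k S) (z : Fin n → MonoidAlgebra k S) :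
    NILH π n e (ht π h a • z) = ht π h a • NILH π n (e - h) z := by
  induction a using MonoidAlgebra.induction_linear with
  | zero => rw [NIL_zero, zero_smul, zero_smul, map_zero]
  | add a b ha hb => rw [NIL_add, add_smul, add_smul, map_add, ha, hb]
  | single g r =>
    by_cases hg : Multiplicative.toAdd (π g) = h
    · rw [NIL_hts_pos π h g r hg, NIL_Hsingle, hg]
    · rw [NIL_hts_neg π h g r hg, zero_smul, zero_smul, map_zero]

theorem NIL_fin (z : Fin n → MonoidAlgebra k S) :
    ∃ s : Finset ℤ, ∀ h, h ∉ s → NILH π n h z = 0 := by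
  classical
  refine ⟨Finset.univ.biUnion (fun i => (z i).coeff.support.image
    (fun g => Multiplicative.toAdd (π g))), fun h hh => ?_⟩
  funext i
  show ht π h (z i) = 0
  ext g
  by_cases hg : Multiplicative.toAdd (π g) = h
  · rw [NIL_coeff_pos π h _ g hg]
    by_contra hne
    apply hh
    rw [Finset.mem_biUnion]
    refine ⟨i, Finset.mem_univ i, ?_⟩
    rw [Finset.mem_image]
    exact ⟨g, Finsupp.mem_support_iff.2 hne, hg⟩
  · rw [NIL_coeff_neg π h _ g hg]; rfl

theorem NIL_dec (z : Fin n → MonoidAlgebra k S) (s : Finset ℤ)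
    (hs : ∀ h, h ∉ s → NILH π n h z = 0) : z = ∑ h ∈ s, NILH π n h z := by
  classical
  funext i
  rw [Finset.sum_apply]
  ext g
  rw [MonoidAlgebra.coeff_sum, Finsupp.finsetSum_apply]
  by_cases hg : Multiplicative.toAdd (π g) ∈ s
  · rw [Finset.sum_eq_single_of_mem _ hg]
    · show _ = (ht π _ (z i)).coeff g
      rw [NIL_coeff_pos π _ _ g rfl]
    · intro b _ hb
      show (ht π b (z i)).coeff g = 0
      exact NIL_coeff_neg π b _ g (fun h => hb h.symm)
  · rw [Finset.sum_eq_zero]
    · have h1 := congrFun (hs _ hg) i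
      have h2 : ht π (Multiplicative.toAdd (π g)) (z i) = 0 := h1
      rw [← NIL_coeff_pos π _ (z i) g rfl, h2]; rfl
    · intro b hb
      show (ht π b (z i)).coeff g = 0
      refine NIL_coeff_neg π b _ g ?_
      rintro rfl
      exact hg hb

theorem NIL_one {U : Submodule (MonoidAlgebra k S) (Fin n → MonoidAlgebra k S)}
    (ρ : U →ₗ[MonoidAlgebra k S] U) (v : Fin n → MonoidAlgebra k S) :
    ∃ N : ℕ, ∀ (h e : ℤ) (w : U), (w : Fin n → MonoidAlgebra k S) = NILH π n h v →
      (N : ℤ) < |e - h| → NILH π n e (ρ w : Fin n → MonoidAlgebra k S) = 0 := by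
  classical
  have hN : ∀ h : ℤ, ∃ N : ℕ, ∀ (e : ℤ) (w : U),
      (w : Fin n → MonoidAlgebra k S) = NILH π n h v → (N : ℤ) < |e - h| →
        NILH π n e (ρ w : Fin n → MonoidAlgebra k S) = 0 := by
    intro h
    by_cases hU : NILH π n h v ∈ U
    · obtain ⟨s, hs⟩ := NIL_fin π (ρ ⟨NILH π n h v, hU⟩ : Fin n → MonoidAlgebra k S)
      refine ⟨s.sup (fun e => (e - h).natAbs), fun e w hw he => ?_⟩
      have hwe : w = ⟨NILH π n h v, hU⟩ := Subtype.ext hw
      rw [hwe]
      apply hs
      intro hes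
      have h1 : (e - h).natAbs ≤ s.sup (fun e => (e - h).natAbs) :=
        Finset.le_sup (f := fun e : ℤ => (e - h).natAbs) hes
      have h2 : ((e - h).natAbs : ℤ) = |e - h| := Int.natCast_natAbs _
      omega
    · exact ⟨0, fun e w hw _ => absurd (hw ▸ w.2) hU⟩
  choose N hN using hN
  obtain ⟨s, hs⟩ := NIL_fin π v
  refine ⟨s.sup N, fun h e w hw he => ?_⟩
  by_cases hh : h ∈ s
  · refine hN h e w hw ?_
    have h1 : N h ≤ s.sup N := Finset.le_sup hh
    have h2 : (N h : ℤ) ≤ (s.sup N : ℕ) := by exact_mod_cast h1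
    omega
  · have h0 : w = 0 := Subtype.ext (by rw [hw, hs h hh]; rfl)
    rw [h0, map_zero]
    exact map_zero _

theorem NIL_all {U : Submodule (MonoidAlgebra k S) (Fin n → MonoidAlgebra k S)} (hfg : U.FG)
    (hU : ∀ u ∈ U, ∀ h : ℤ, NILH π n h u ∈ U) (ρ : U →ₗ[MonoidAlgebra k S] U) :
    ∃ N : ℕ, ∀ v ∈ U, ∀ (h e : ℤ) (w : U), (w : Fin n → MonoidAlgebra k S) = NILH π n h v →
      (N : ℤ) < |e - h| → NILH π n e (ρ w : Fin n → MonoidAlgebra k S) = 0 := by
  classical
  obtain ⟨t, ht⟩ := hfg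
  choose N hN using NIL_one π ρ
  refine ⟨t.sup N, fun v hv => ?_⟩
  have hv' : v ∈ Submodule.span (MonoidAlgebra k S) (t : Set (Fin n → MonoidAlgebra k S)) := by
    rw [ht]; exact hv
  have hle : ∀ x ∈ Submodule.span (MonoidAlgebra k S) (t : Set (Fin n → MonoidAlgebra k S)),
      x ∈ U := fun x hx => by rw [← ht]; exact hx
  induction hv' using Submodule.span_induction with
  | mem x hx =>
    intro h e w hw he
    refine hN x h e w hw ?_
    have h1 : N x ≤ t.sup N := Finset.le_sup hx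
    have h2 : (N x : ℤ) ≤ (t.sup N : ℕ) := by exact_mod_cast h1
    omega
  | zero =>
    intro h e w hw he
    have h0 : w = 0 := Subtype.ext (by rw [hw, map_zero]; rfl)
    rw [h0, map_zero]
    exact map_zero _
  | add x y hx hy ihx ihy =>
    intro h e w hw he
    have hxU := hle x hx
    have hyU := hle y hy
    have hw2 : w = ⟨NILH π n h x, hU x hxU h⟩ + ⟨NILH π n h y, hU y hyU h⟩ := by
      apply Subtype.ext
      rw [hw, map_add]; rfl
    rw [hw2, map_add, Submodule.coe_add, map_add, ihx hxU h e _ rfl he, ihy hyU h e _ rfl he,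
      add_zero]
  | smul a x hx ihx =>
    have hxU := hle x hx
    clear hv
    induction a using MonoidAlgebra.induction_linear with
    | zero =>
      intro h e w hw he
      have h0 : w = 0 := Subtype.ext (by rw [hw, zero_smul, map_zero]; rfl)
      rw [h0, map_zero]
      exact map_zero _
    | add a b ha hb =>
      intro h e w hw he
      have hw2 : w = ⟨NILH π n h (a • x), hU _ (U.smul_mem a hxU) h⟩ +
          ⟨NILH π n h (b • x), hU _ (U.smul_mem b hxU) h⟩ := by
        apply Subtype.ext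
        rw [hw, add_smul, map_add]; rfl
      rw [hw2, map_add, Submodule.coe_add, map_add, ha h e _ rfl he, hb h e _ rfl he, add_zero]
    | single g r =>
      intro h e w hw he
      have hw2 : w = (MonoidAlgebra.single g r : MonoidAlgebra k S) •
          (⟨NILH π n (h - Multiplicative.toAdd (π g)) x, hU x hxU _⟩ : U) := by
        apply Subtype.ext
        rw [hw, NIL_Hsingle]; rfl
      rw [hw2, map_smul, Submodule.coe_smul, NIL_Hsingle, ihx hxU (h - Multiplicative.toAdd (π g))
        (e - Multiplicative.toAdd (π g)) _ rfl, smul_zero]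
      have : e - Multiplicative.toAdd (π g) - (h - Multiplicative.toAdd (π g)) = e - h := by ring
      rw [this]
      exact he

end NIL

theorem thm_NIL : St_NIL := by
  intro k S _ _ π n U hfg hU T hTU hTdeg ρ₁ ρ₂ hrel
  classical
  have hU' : ∀ u ∈ U, ∀ h : ℤ, NILH π n h u ∈ U := hU
  obtain ⟨N, hN⟩ := NIL_all π hfg hU' ρ₁
  -- degree of the powers of `T`
  have hT1 : ∀ (e : ℤ) (z : Fin n → MonoidAlgebra k S),
      NILH π n e (T z) = T (NILH π n (e + 1) z) := by
    intro e z
    have h1 := hTdeg (e + 1) z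
    have h2 : e + 1 - 1 = e := by ring
    rw [h2] at h1
    exact h1.symm
  have hTi : ∀ (i : ℕ) (e : ℤ) (z : Fin n → MonoidAlgebra k S),
      NILH π n e ((T ^ i) z) = (T ^ i) (NILH π n (e + i) z) := by
    intro i
    induction i with
    | zero => intro e z; simp
    | succ i ih =>
      intro e z
      rw [pow_succ', Module.End.mul_apply, hT1, ih, Module.End.mul_apply]
      have h2 : e + 1 + (i : ℤ) = e + ((i + 1 : ℕ) : ℤ) := by push_cast; ring
      rw [h2]
  -- powers preserve `U`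
  have hTUi : ∀ (i : ℕ) (u : Fin n → MonoidAlgebra k S), u ∈ U → (T ^ i) u ∈ U := by
    intro i
    induction i with
    | zero => intro u hu; simpa using hu
    | succ i ih =>
      intro u hu
      rw [pow_succ', Module.End.mul_apply]
      exact hTU _ (ih u hu)
  -- telescoping
  have htel : ∀ (M : ℕ) (u : U), (∑ i ∈ Finset.range M, (T ^ i) (u : Fin n → MonoidAlgebra k S)) =
      (ρ₁ u : Fin n → MonoidAlgebra k S) -
        (ρ₁ ⟨(T ^ M) (u : Fin n → MonoidAlgebra k S), hTUi M _ u.2⟩ :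
          Fin n → MonoidAlgebra k S) -
        (ρ₂ (∑ i ∈ Finset.range M, (T ^ i) (u : Fin n → MonoidAlgebra k S)) :
          Fin n → MonoidAlgebra k S) := by
    intro M u
    induction M with
    | zero => simp
    | succ M ih =>
      have h1 := hrel ⟨(T ^ M) (u : Fin n → MonoidAlgebra k S), hTUi M _ u.2⟩
        (hTU _ (hTUi M _ u.2))
      have h2 := congrArg (fun y : U => (y : Fin n → MonoidAlgebra k S)) h1
      simp only [Submodule.coe_sub] at h2
      have h3 : (⟨T ((T ^ M) (u : Fin n → MonoidAlgebra k S)), hTU _ (hTUi M _ u.2)⟩ : U) =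
          ⟨(T ^ (M + 1)) (u : Fin n → MonoidAlgebra k S), hTUi (M + 1) _ u.2⟩ := by
        apply Subtype.ext
        show T ((T ^ M) (u : Fin n → MonoidAlgebra k S)) = (T ^ (M + 1)) _
        rw [pow_succ', Module.End.mul_apply]
      rw [h3] at h2
      rw [Finset.sum_range_succ, map_add, Submodule.coe_add]
      calc (∑ i ∈ Finset.range M, (T ^ i) (u : Fin n → MonoidAlgebra k S)) +
            (T ^ M) (u : Fin n → MonoidAlgebra k S)
          = ((ρ₁ u : Fin n → MonoidAlgebra k S) -
            (ρ₁ ⟨(T ^ M) (u : Fin n → MonoidAlgebra k S), hTUi M _ u.2⟩ :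
              Fin n → MonoidAlgebra k S) -
            (ρ₂ (∑ i ∈ Finset.range M, (T ^ i) (u : Fin n → MonoidAlgebra k S)) :
              Fin n → MonoidAlgebra k S)) + _ := congrArg₂ (· + ·) ih h2
        _ = _ := by abel
  set β : (Fin n → MonoidAlgebra k S) →ₗ[MonoidAlgebra k S] U :=
    -(ρ₂ ∘ₗ (∑ i ∈ Finset.range (2 * N + 3), T ^ i)) with hβ
  have hβa : ∀ z, β z = -ρ₂ (∑ i ∈ Finset.range (2 * N + 3), (T ^ i) z) := by
    intro z
    rw [hβ, LinearMap.neg_apply, LinearMap.comp_apply, LinearMap.sum_apply]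
  -- the key identity on homogeneous elements
  have hkey : ∀ (h : ℤ) (u : Fin n → MonoidAlgebra k S), u ∈ U → NILH π n h u = u →
      (T ^ (N + 1)) u = NILH π n (h - (N + 1 : ℕ)) (β u : Fin n → MonoidAlgebra k S) := by
    intro h u hu hh
    have h1 := congrArg (NILH π n (h - (N + 1 : ℕ))) (htel (2 * N + 3) ⟨u, hu⟩)
    have hL : NILH π n (h - (N + 1 : ℕ)) (∑ i ∈ Finset.range (2 * N + 3), (T ^ i) u) =
        (T ^ (N + 1)) u := by
      rw [map_sum, Finset.sum_eq_single_of_mem (N + 1) (Finset.mem_range.2 (by omega))]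
      · rw [hTi]
        have h2 : h - ((N + 1 : ℕ) : ℤ) + ((N + 1 : ℕ) : ℤ) = h := by ring
        rw [h2, hh]
      · intro i _ hi
        rw [hTi]
        have h3 : NILH π n (h - ((N + 1 : ℕ) : ℤ) + (i : ℤ)) u = 0 := by
          rw [← hh]
          exact NIL_Hdiff π _ _ (by omega) u
        rw [h3, map_zero]
    have hR1 : NILH π n (h - (N + 1 : ℕ)) (ρ₁ ⟨u, hu⟩ : Fin n → MonoidAlgebra k S) = 0 := by
      refine hN u hu h _ ⟨u, hu⟩ hh.symm ?_
      have h4 : h - ((N + 1 : ℕ) : ℤ) - h = -((N + 1 : ℕ) : ℤ) := by ring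
      rw [h4, abs_neg]
      have h5 : (0 : ℤ) ≤ ((N + 1 : ℕ) : ℤ) := Int.natCast_nonneg _
      rw [abs_of_nonneg h5]
      push_cast
      omega
    have hR2 : NILH π n (h - (N + 1 : ℕ)) (ρ₁ ⟨(T ^ (2 * N + 3)) u, hTUi _ u hu⟩ :
        Fin n → MonoidAlgebra k S) = 0 := by
      refine hN _ (hTUi (2 * N + 3) u hu) (h - (2 * N + 3 : ℕ)) _ ⟨_, hTUi _ u hu⟩ ?_ ?_
      · rw [hTi]
        have h6 : h - ((2 * N + 3 : ℕ) : ℤ) + ((2 * N + 3 : ℕ) : ℤ) = h := by ring
        rw [h6, hh]
      · have h4 : h - ((N + 1 : ℕ) : ℤ) - (h - ((2 * N + 3 : ℕ) : ℤ)) = (N : ℤ) + 2 := by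
          push_cast; ring
        rw [h4, abs_of_nonneg (by positivity)]
        omega
    rw [map_sub, map_sub] at h1
    rw [hβa, Submodule.coe_neg, map_neg, ← hL]
    have h7 : NILH π n (h - (N + 1 : ℕ)) (∑ i ∈ Finset.range (2 * N + 3),
        (T ^ i) ((⟨u, hu⟩ : U) : Fin n → MonoidAlgebra k S)) = _ := h1
    have h8 : NILH π n (h - (N + 1 : ℕ)) (∑ i ∈ Finset.range (2 * N + 3), (T ^ i) u) =
      NILH π n (h - (N + 1 : ℕ)) (ρ₁ ⟨u, hu⟩ : Fin n → MonoidAlgebra k S) -
        NILH π n (h - (N + 1 : ℕ)) (ρ₁ ⟨(T ^ (2 * N + 3)) u, hTUi _ u hu⟩ :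
          Fin n → MonoidAlgebra k S) -
        NILH π n (h - (N + 1 : ℕ))
          (ρ₂ (∑ i ∈ Finset.range (2 * N + 3), (T ^ i) u) : Fin n → MonoidAlgebra k S) := h1
    rw [h8, hR1, hR2]
    simp
  -- the map `α`
  let c : Fin n → (Fin n → MonoidAlgebra k S) := fun i =>
    NILH π n (-((N + 1 : ℕ) : ℤ)) (β (Pi.single i 1) : Fin n → MonoidAlgebra k S)
  let α : (Fin n → MonoidAlgebra k S) →ₗ[MonoidAlgebra k S] (Fin n → MonoidAlgebra k S) :=
    { toFun := fun z => ∑ i, z i • c i
      map_add' := fun z w => by simp [add_smul, Finset.sum_add_distrib]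
      map_smul' := fun a z => by simp [mul_smul, Finset.smul_sum] }
  have hαa : ∀ z, α z = ∑ i, z i • c i := fun z => rfl
  have hhom : ∀ (h : ℤ) (u : Fin n → MonoidAlgebra k S), u ∈ U → NILH π n h u = u →
      α u = (T ^ (N + 1)) u := by
    intro h u hu hh
    rw [hkey h u hu hh, hαa]
    have h1 : u = ∑ i, u i • (Pi.single i 1 : Fin n → MonoidAlgebra k S) :=
      (pi_eq_sum_univ' u).trans (Finset.sum_congr rfl (fun i _ => by
        congr 1))
    have h2 : (β u : Fin n → MonoidAlgebra k S) =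
        ∑ i, u i • (β (Pi.single i 1) : Fin n → MonoidAlgebra k S) := by
      conv_lhs => rw [h1]
      rw [map_sum, Submodule.coe_sum]
      refine Finset.sum_congr rfl (fun i _ => ?_)
      rw [map_smul, Submodule.coe_smul]
    rw [h2, map_sum]
    refine Finset.sum_congr rfl (fun i _ => ?_)
    have h3 : u i = ht π h (u i) := (congrFun hh i).symm
    rw [h3, NIL_Hht]
    have h4 : h - ((N + 1 : ℕ) : ℤ) - h = -((N + 1 : ℕ) : ℤ) := by ring
    rw [h4]
  refine ⟨N + 1, α, fun z => ?_, fun u hu => ?_⟩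
  · rw [hαa]
    exact U.sum_mem (fun i _ => U.smul_mem _ (hU' _ (β (Pi.single i 1)).2 _))
  · have h5 : α u = (T ^ (N + 1)) u := by
      obtain ⟨s, hs⟩ := NIL_fin π u
      rw [NIL_dec π u s hs, map_sum, map_sum]
      exact Finset.sum_congr rfl (fun h _ => hhom h _ (hU' u hu h) (NIL_Hsame π h u))
    rw [h5, Module.End.pow_apply]

end Pool.Agent.PDE
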