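import Pool.Agent.PDE.StG
import Pool.Agent.PDA.DUA

/-!
# PDE, module ONE: `PD_3`-groups have one end (helper91)
-/

set_option autoImplicit false
set_option linter.unusedVariables false

namespace Pool.Agent.PDE

open Pool.Agent.PDA Pool.Agent.PDB Subgroup
open Pool.Agent.PDA.DUA (dual_basis el_eq el_mul)

namespace ONEx

variable {G : Type} [Group G]

/-- the additive extension of a function on the group to the group ring -/
noncomputable def smz (a : G → ℤ) : ZG G →+ ℤ := MonoidAlgebra.liftNC (AddMonoidHom.id ℤ) a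

theorem smz_single (a : G → ℤ) (g : G) (c : ℤ) :
    smz a (MonoidAlgebra.single g c) = c * a g := by
  unfold smz
  rw [MonoidAlgebra.liftNC_single]
  rfl

/-- the map to the group ring of a finitely supported functional -/
noncomputable def psi {P : Type} [AddCommGroup P] [Module (ZG G) P] (l : P →+ ℤ)
    (hl : ∀ x, {g : G | l (el ℤ g • x) ≠ 0}.Finite) (x : P) : ZG G :=
  MonoidAlgebra.ofCoeff (Finsupp.ofSupportFinite (fun g : G => l (el ℤ g⁻¹ • x)) (by
    have h1 := (hl x).image (fun g : G => g⁻¹)
    refine h1.subset fun g hg => ?_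
    exact ⟨g⁻¹, hg, inv_inv g⟩))

theorem psi_coeff {P : Type} [AddCommGroup P] [Module (ZG G) P] (l : P →+ ℤ)
    (hl : ∀ x, {g : G | l (el ℤ g • x) ≠ 0}.Finite) (x : P) (g : G) :
    (psi l hl x).coeff g = l (el ℤ g⁻¹ • x) := rfl

theorem ext_coeff {a b : ZG G} (h : ∀ g, a.coeff g = b.coeff g) : a = b := by
  apply MonoidAlgebra.coeff_injective
  ext g
  exact h g

/-- the same as a linear map -/
noncomputable def psiL {P : Type} [AddCommGroup P] [Module (ZG G) P] (l : P →+ ℤ)
    (hl : ∀ x, {g : G | l (el ℤ g • x) ≠ 0}.Finite) : P →ₗ[ZG G] ZG G where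
  toFun := psi l hl
  map_add' x y := by
    apply ext_coeff
    intro g
    rw [MonoidAlgebra.coeff_add, Finsupp.add_apply, psi_coeff, psi_coeff, psi_coeff, smul_add,
      map_add]
  map_smul' a x := by
    have hadd : ∀ x y, psi l hl (x + y) = psi l hl x + psi l hl y := by
      intro x y
      apply ext_coeff
      intro g
      rw [MonoidAlgebra.coeff_add, Finsupp.add_apply, psi_coeff, psi_coeff, psi_coeff, smul_add,
        map_add]
    rw [RingHom.id_apply, smul_eq_mul]
    induction a using MonoidAlgebra.induction_linear with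
    | zero =>
      apply ext_coeff
      intro g
      rw [zero_mul, zero_smul, psi_coeff, smul_zero, map_zero]
      rfl
    | add a b ha hb => rw [add_smul, hadd, ha, hb, add_mul]
    | single g c =>
      apply ext_coeff
      intro h
      have h1 : (MonoidAlgebra.single g c : ZG G) = c • el ℤ g := by
        rw [el_eq, MonoidAlgebra.smul_single, smul_eq_mul, mul_one]
      rw [psi_coeff, MonoidAlgebra.coeff_single_mul_apply, psi_coeff, h1, smul_assoc,
        smul_comm, map_zsmul, ← mul_smul, ← el_mul, mul_inv_rev, inv_inv, smul_eq_mul]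

end ONEx

open ONEx in
theorem thm_ONE : St_ONE := by
  classical
  intro G _ R A hA
  obtain ⟨n, u, f, huf⟩ := dual_basis (Λ := ZG G) R.P0
  obtain ⟨x0, hx0⟩ := R.e_surj 1
  set F : G → ℤ := fun g => if g ∈ A then 1 else 0 with hF
  have hF2 : ∀ s : G, {g : G | F (g * s) ≠ F g}.Finite := by
    intro s
    refine (hA s).subset fun g hg => ?_
    intro hiff
    apply hg
    show (if g * s ∈ A then (1 : ℤ) else 0) = if g ∈ A then 1 else 0
    by_cases h : g ∈ A
    · rw [if_pos h, if_pos (hiff.1 h)]
    · rw [if_neg h, if_neg (fun h' => h (hiff.2 h'))]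
  have haug1 : ∀ (g : G) (c : ℤ), aug ℤ G (MonoidAlgebra.single g c) = c := by
    intro g c
    unfold aug
    rw [MonoidAlgebra.lift_single]
    simp
  have hfs : ∀ z : ZG G, {g | smz F (el ℤ g * z) ≠ F g * aug ℤ G z}.Finite := by
    intro z
    induction z using MonoidAlgebra.induction_linear with
    | zero =>
      refine Set.finite_empty.subset fun g hg => ?_
      exfalso
      apply hg
      simp
    | add a b ha hb =>
      refine (ha.union hb).subset fun g hg => ?_
      by_contra hcon
      rw [Set.mem_union, not_or] at hcon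
      have h1 : smz F (el ℤ g * a) = F g * aug ℤ G a := by
        by_contra hne
        exact hcon.1 hne
      have h2 : smz F (el ℤ g * b) = F g * aug ℤ G b := by
        by_contra hne
        exact hcon.2 hne
      apply hg
      rw [mul_add, map_add, h1, h2, map_add, mul_add]
    | single g' c =>
      refine (hF2 g').subset fun g hg => ?_
      intro hne
      apply hg
      rw [haug1, el_eq, MonoidAlgebra.single_mul_single, one_mul, smz_single, hne, mul_comm]
  have haug2 : ∀ (a : ZG G) (x : R.P0), R.e (a • x) = aug ℤ G a * R.e x := by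
    intro a x
    induction a using MonoidAlgebra.induction_linear with
    | zero => simp
    | add a b ha hb => rw [add_smul, map_add, ha, hb, map_add, add_mul]
    | single g c =>
      have h1 : (MonoidAlgebra.single g c : ZG G) = c • el ℤ g := by
        rw [el_eq, MonoidAlgebra.smul_single, smul_eq_mul, mul_one]
      rw [haug1, h1, smul_assoc, map_zsmul, R.e_smul, smul_eq_mul]
  let Λ : R.P0 →+ ℤ :=
    { toFun := fun x => ∑ j, R.e (u j) * smz F (f j x)
      map_zero' := by simp
      map_add' := fun a b => by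
        rw [← Finset.sum_add_distrib]
        refine Finset.sum_congr rfl fun j _ => ?_
        rw [map_add, map_add, mul_add] }
  have hΛ : ∀ x, Λ x = ∑ j, R.e (u j) * smz F (f j x) := fun x => rfl
  have hΛe : ∀ x, {g | Λ (el ℤ g • x) ≠ F g * R.e x}.Finite := by
    intro x
    have hex : R.e x = ∑ j, aug ℤ G (f j x) * R.e (u j) := by
      conv_lhs => rw [huf x]
      rw [map_sum]
      exact Finset.sum_congr rfl fun j _ => haug2 _ _
    have key : (⋃ j, {g | smz F (el ℤ g * f j x) ≠ F g * aug ℤ G (f j x)}).Finite :=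
      Set.finite_iUnion fun j => hfs (f j x)
    refine key.subset fun g hg => ?_
    by_contra hcon
    apply hg
    rw [hΛ, hex, Finset.mul_sum]
    refine Finset.sum_congr rfl fun j _ => ?_
    have h1 : smz F (el ℤ g * f j x) = F g * aug ℤ G (f j x) := by
      by_contra hne
      exact hcon (Set.mem_iUnion.2 ⟨j, hne⟩)
    rw [map_smul, smul_eq_mul, h1]
    ring
  have hd0 : ∀ z, R.e (R.d1 z) = 0 := fun z => (R.ex0 _).2 ⟨z, rfl⟩
  have hl : ∀ x, {g : G | (Λ.comp R.d1.toAddMonoidHom) (el ℤ g • x) ≠ 0}.Finite := by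
    intro x
    refine (hΛe (R.d1 x)).subset fun g hg => ?_
    have h1 : Λ (R.d1 (el ℤ g • x)) ≠ 0 := hg
    rw [map_smul] at h1
    show Λ (el ℤ g • R.d1 x) ≠ F g * R.e (R.d1 x)
    rwa [hd0, mul_zero]
  obtain ⟨f', hf'⟩ := R.h1 (psiL (Λ.comp R.d1.toAddMonoidHom) hl) (by
    apply LinearMap.ext
    intro y
    apply ext_coeff
    intro g
    show (psi (Λ.comp R.d1.toAddMonoidHom) hl (R.d2 y)).coeff g = _
    rw [psi_coeff]
    show Λ (R.d1 (el ℤ g⁻¹ • R.d2 y)) = _
    rw [← map_smul R.d2, (R.ex1 _).2 ⟨_, rfl⟩, map_zero]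
    rfl)
  let L : R.P0 →+ ℤ :=
    { toFun := fun x => (f' x).coeff 1
      map_zero' := by rw [map_zero]; rfl
      map_add' := fun a b => by rw [map_add]; rfl }
  have hLg : ∀ (g : G) (x : R.P0), L (el ℤ g • x) = (f' x).coeff g⁻¹ := by
    intro g x
    show (f' (el ℤ g • x)).coeff 1 = _
    rw [map_smul, smul_eq_mul, el_eq, MonoidAlgebra.coeff_single_mul_apply, one_mul, mul_one]
  have hLfin : ∀ x : R.P0, {g : G | L (el ℤ g • x) ≠ 0}.Finite := by
    intro x
    have h1 := ((f' x).coeff.support.finite_toSet).image (fun g : G => g⁻¹)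
    refine h1.subset fun g hg => ?_
    refine ⟨g⁻¹, ?_, inv_inv g⟩
    rw [Finset.mem_coe, Finsupp.mem_support_iff, ← hLg]
    exact hg
  have hLd : ∀ z, Λ (R.d1 z) = L (R.d1 z) := by
    intro z
    show _ = (f' (R.d1 z)).coeff 1
    have h1 : f' (R.d1 z) = psi (Λ.comp R.d1.toAddMonoidHom) hl z := by
      have := LinearMap.congr_fun hf' z
      exact this.symm
    rw [h1, psi_coeff]
    show Λ (R.d1 z) = Λ (R.d1 (el ℤ (1 : G)⁻¹ • z))
    rw [inv_one, show el ℤ (1 : G) = 1 from rfl, one_smul]
  have hdiff : ∀ x, Λ x - L x = R.e x * (Λ x0 - L x0) := by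
    intro x
    obtain ⟨z, hz⟩ := (R.ex0 (x - R.e x • x0)).1 (by
      rw [map_sub, map_zsmul, hx0, smul_eq_mul, mul_one, sub_self])
    have h1 := hLd z
    rw [hz, map_sub, map_sub, map_zsmul, map_zsmul, smul_eq_mul, smul_eq_mul] at h1
    linarith
  set c : ℤ := Λ x0 - L x0 with hc
  have hfin : {g : G | F g ≠ c}.Finite := by
    refine ((hLfin x0).union (hΛe x0)).subset fun g hg => ?_
    by_contra hcon
    rw [Set.mem_union, not_or] at hcon
    have h1 : L (el ℤ g • x0) = 0 := by
      by_contra hne
      exact hcon.1 hne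
    have h2 : Λ (el ℤ g • x0) = F g * R.e x0 := by
      by_contra hne
      exact hcon.2 hne
    apply hg
    have h3 := hdiff (el ℤ g • x0)
    rw [h1, h2, R.e_smul, hx0, mul_one, one_mul, sub_zero] at h3
    exact h3
  by_cases hc1 : c = 1
  · right
    refine hfin.subset fun g hg => ?_
    show (if g ∈ A then (1 : ℤ) else 0) ≠ c
    rw [if_neg hg, hc1]
    norm_num
  · left
    refine hfin.subset fun g hg => ?_
    show (if g ∈ A then (1 : ℤ) else 0) ≠ c
    rw [if_pos hg]
    exact fun h => hc1 h.symm

end Pool.Agent.PDE
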