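import Pool.Agent.PDE.StG

/-!
# PDE, PTH: derivations into division rings are inner if there is no free subgroup
-/

set_option autoImplicit false

namespace Pool.Agent.PDE

open Pool.Agent.PDA Pool.Agent.PDB Subgroup

/-! ### words -/

section word

variable {S : Type} [Group S]

/-- the value of a letter -/
def PTH_lt (y : Fin 2 → S) (a : Fin 2 × Bool) : S := cond a.2 (y a.1) (y a.1)⁻¹

/-- the value of the word of the first `n` letters of `c` -/
def PTH_u (y : Fin 2 → S) (c : ℕ → Fin 2 × Bool) : ℕ → S
  | 0 => 1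
  | n + 1 => PTH_u y c n * PTH_lt y (c n)

/-- the word of the first `n` letters is reduced -/
def PTH_red (n : ℕ) (c : ℕ → Fin 2 × Bool) : Prop :=
  ∀ i, i + 1 < n → (c i).1 = (c (i + 1)).1 → (c i).2 = (c (i + 1)).2

theorem PTH_shift (y : Fin 2 → S) (c : ℕ → Fin 2 × Bool) (i j : ℕ) :
    PTH_u y c (i + j) = PTH_u y c i * PTH_u y (fun k => c (i + k)) j := by
  induction j with
  | zero => simp [PTH_u]
  | succ j ih =>
    rw [← add_assoc]
    simp only [PTH_u]
    rw [ih, mul_assoc]

theorem PTH_list (y : Fin 2 → S) (L : List (Fin 2 × Bool)) (m : ℕ) (hm : m ≤ L.length) :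
    ((L.take m).map (PTH_lt y)).prod = PTH_u y (fun i => L.getD i (0, true)) m := by
  induction m with
  | zero => simp [PTH_u]
  | succ m ih =>
    have hm' : m < L.length := hm
    rw [List.take_add_one, List.getElem?_eq_getElem hm', Option.toList_some, List.map_append,
      List.prod_append, ih hm'.le]
    simp only [PTH_u, List.map_cons, List.map_nil, List.prod_cons, List.prod_nil, mul_one]
    rw [List.getD_eq_getElem _ _ hm']

end word

/-! ### coefficients -/

section coef

variable {S : Type} [Group S]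

/-- the coefficient of `s` -/
noncomputable def PTH_cf (s : S) : ZG S →+ ℤ :=
  (Finsupp.applyAddHom s).comp (MonoidAlgebra.coeffAddEquiv (R := ℤ) (M := S)).toAddMonoidHom

open Classical in
theorem PTH_cf_el (s g : S) : PTH_cf s (el ℤ g) = if g = s then 1 else 0 := by
  show (Finsupp.single g (1 : ℤ)) s = _
  rw [Finsupp.single_apply]

theorem PTH_el_inj {g h : S} (e : el ℤ g = el ℤ h) : g = h := by
  classical
  have h1 := congrArg (PTH_cf h) e
  rw [PTH_cf_el, PTH_cf_el, if_pos rfl] at h1
  by_contra hne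
  rw [if_neg hne] at h1
  exact absurd h1 (by norm_num)

variable {D : Type} [DivisionRing D]

theorem PTH_ne {f : ZG S →+* D} (hf : Function.Injective f) {g : S} (hg : g ≠ 1) :
    f (el ℤ g) - 1 ≠ 0 := by
  intro h
  apply hg
  have h1 : f (el ℤ g) = f (el ℤ (1 : S)) := by
    rw [sub_eq_zero.1 h]
    show 1 = f (MonoidAlgebra.of ℤ S 1)
    rw [map_one, map_one]
  exact PTH_el_inj (hf h1)

theorem PTH_tf {f : ZG S →+* D} (hf : Function.Injective f) (g : S) (n : ℕ) (hn : 0 < n)
    (h : g ^ n = 1) : g = 1 := by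
  by_contra hg
  have h1 : (el ℤ g - 1) * ∑ i ∈ Finset.range n, (el ℤ g) ^ i = 0 := by
    rw [mul_geom_sum]
    show (MonoidAlgebra.of ℤ S g) ^ n - 1 = 0
    rw [← map_pow, h, map_one, sub_self]
  have h2 : (f (el ℤ g) - 1) * f (∑ i ∈ Finset.range n, (el ℤ g) ^ i) = 0 := by
    rw [← map_one f, ← map_sub, ← map_mul, h1, map_zero]
  rcases mul_eq_zero.1 h2 with h3 | h3
  · exact PTH_ne hf hg h3
  · have h4 : ∑ i ∈ Finset.range n, (el ℤ g) ^ i = 0 := hf (by rw [h3, map_zero])
    have h5 := congrArg (aug ℤ S) h4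
    rw [map_sum, map_zero] at h5
    have h6 : ∀ i ∈ Finset.range n, aug ℤ S ((el ℤ g) ^ i) = 1 := by
      intro i _
      rw [map_pow]
      have h7 : aug ℤ S (el ℤ g) = 1 := by
        show MonoidAlgebra.lift ℤ ℤ S 1 (MonoidAlgebra.of ℤ S g) = 1
        rw [MonoidAlgebra.lift_of]
        rfl
      rw [h7, one_pow]
    rw [Finset.sum_congr rfl h6, Finset.sum_const, Finset.card_range, nsmul_eq_mul, mul_one] at h5
    have h7 : n = 0 := by exact_mod_cast h5
    omega

open Classical in
theorem PTH_core (f : ZG S →+* D) (hf : Function.Injective f) (δ : S → D)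
    (hδ : ∀ g h, δ (g * h) = δ g + f (el ℤ g) * δ h) (y : Fin 2 → S) (hy : ∀ i, y i ≠ 1)
    (h0 : δ (y 0) = 0) (v : D) (hv : v ≠ 0) (h1 : δ (y 1) = (f (el ℤ (y 1)) - 1) * v) :
    ∀ n, 0 < n → ∀ c, PTH_red n c → PTH_u y c n ≠ 1 := by
  intro n
  induction n using Nat.strong_induction_on with
  | _ n ih =>
  intro hn c hc hu
  have hmul : ∀ g h : S, el ℤ (g * h) = el ℤ g * el ℤ h := fun g h => map_mul _ _ _
  have hone : el ℤ (1 : S) = 1 := map_one _
  have hδ1 : δ 1 = 0 := by
    have h := hδ 1 1
    rw [mul_one, hone, map_one, one_mul] at h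
    have h' := sub_eq_zero.2 h
    rw [← neg_eq_zero, ← h']
    abel
  have hinv : ∀ g : S, f (el ℤ g⁻¹) * f (el ℤ g) = 1 := fun g => by
    rw [← map_mul, ← hmul, inv_mul_cancel, hone, map_one]
  have hδi : ∀ g : S, δ g⁻¹ = - (f (el ℤ g⁻¹) * δ g) := by
    intro g
    have h := hδ g⁻¹ g
    rw [inv_mul_cancel, hδ1] at h
    exact eq_neg_of_add_eq_zero_left h.symm
  -- letters
  have hlt : ∀ a : Fin 2 × Bool, δ (PTH_lt y a) =
      if a.1 = 1 then (f (el ℤ (PTH_lt y a)) - 1) * v else 0 := by
    rintro ⟨a, b⟩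
    have ha : a = 0 ∨ a = 1 := by fin_cases a <;> simp
    rcases ha with rfl | rfl
    · rw [if_neg (by simp)]
      cases b
      · show δ (y 0)⁻¹ = 0
        rw [hδi, h0, mul_zero, neg_zero]
      · exact h0
    · rw [if_pos rfl]
      cases b
      · show δ (y 1)⁻¹ = (f (el ℤ (y 1)⁻¹) - 1) * v
        rw [hδi, h1, ← mul_assoc, mul_sub, hinv, mul_one, ← neg_mul, neg_sub]
      · exact h1
  -- different values
  have hdist : ∀ i j, i < j → j < n ∨ (0 < i ∧ j ≤ n) → PTH_u y c i ≠ PTH_u y c j := by
    intro i j hij hj he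
    have hs := PTH_shift y c i (j - i)
    rw [Nat.add_sub_cancel' hij.le, ← he] at hs
    have hs' : PTH_u y (fun k => c (i + k)) (j - i) = 1 := by
      have := mul_left_cancel (hs.symm.trans (mul_one _).symm)
      exact this
    refine ih (j - i) (by omega) (by omega) _ ?_ hs'
    intro k hk h
    exact hc (i + k) (by omega) h
  -- the sum
  have hsum : ∀ m, δ (PTH_u y c m) = f (∑ k ∈ Finset.range m,
      if (c k).1 = 1 then el ℤ (PTH_u y c (k + 1)) - el ℤ (PTH_u y c k) else 0) * v := by
    intro m
    induction m with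
    | zero => rw [Finset.range_zero, Finset.sum_empty, map_zero, zero_mul]; exact hδ1
    | succ m ihm =>
      rw [Finset.sum_range_succ, map_add, add_mul, ← ihm]
      show δ (PTH_u y c m * PTH_lt y (c m)) = _
      rw [hδ, hlt]
      congr 1
      by_cases h : (c m).1 = 1
      · rw [if_pos h, if_pos h]
        show _ = f (el ℤ (PTH_u y c m * PTH_lt y (c m)) - el ℤ (PTH_u y c m)) * v
        rw [hmul, map_sub, map_mul, ← mul_assoc, mul_sub, mul_one]
      · rw [if_neg h, if_neg h, mul_zero, map_zero, zero_mul]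
  have hZ : (∑ k ∈ Finset.range n,
      if (c k).1 = 1 then el ℤ (PTH_u y c (k + 1)) - el ℤ (PTH_u y c k) else 0) = 0 := by
    have h := hsum n
    rw [hu, hδ1] at h
    rcases mul_eq_zero.1 h.symm with h2 | h2
    · exact hf (by rw [h2, map_zero])
    · exact absurd h2 hv
  by_cases hall : ∀ i, i + 1 < n → ((c i).1 = 1 ↔ (c (i + 1)).1 = 1)
  · -- all letters are equal
    have hfin : ∀ a b : Fin 2, (a = 1 ↔ b = 1) → a = b := by decide
    have heq : ∀ i, i < n → c i = c 0 := by
      intro i
      induction i with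
      | zero => intro _; rfl
      | succ i ihi =>
        intro hi
        rw [← ihi (by omega)]
        have h2 := hfin _ _ (hall i hi)
        exact (Prod.ext h2 (hc i hi h2)).symm
    have hpow : ∀ m, m ≤ n → PTH_u y c m = PTH_lt y (c 0) ^ m := by
      intro m
      induction m with
      | zero => intro _; rw [pow_zero]; rfl
      | succ m ihm =>
        intro hm
        show PTH_u y c m * PTH_lt y (c m) = _
        rw [ihm (by omega), heq m (by omega), pow_succ]
    have h2 := PTH_tf hf _ n hn ((hpow n le_rfl).symm.trans hu)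
    unfold PTH_lt at h2
    cases hb : (c 0).2
    · rw [hb] at h2
      exact hy _ (inv_eq_one.1 h2)
    · rw [hb] at h2
      exact hy _ h2
  · push Not at hall
    obtain ⟨i, hi, hne⟩ := hall
    have h2 := congrArg (PTH_cf (PTH_u y c (i + 1))) hZ
    rw [map_sum, map_zero] at h2
    have h3 : ∀ k ∈ Finset.range n, PTH_cf (PTH_u y c (i + 1))
        (if (c k).1 = 1 then el ℤ (PTH_u y c (k + 1)) - el ℤ (PTH_u y c k) else 0) =
        (if k = i then (if (c i).1 = 1 then (1 : ℤ) else 0) else 0) -
        (if k = i + 1 then (if (c (i + 1)).1 = 1 then (1 : ℤ) else 0) else 0) := by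
      intro k hk
      rw [Finset.mem_range] at hk
      have e1 : PTH_u y c (k + 1) = PTH_u y c (i + 1) ↔ k = i := by
        constructor
        · intro h
          rcases lt_trichotomy (k + 1) (i + 1) with h3 | h3 | h3
          · exact absurd h (hdist _ _ h3 (Or.inl hi))
          · omega
          · exact absurd h.symm (hdist _ _ h3 (Or.inr ⟨by omega, by omega⟩))
        · rintro rfl; rfl
      have e2 : PTH_u y c k = PTH_u y c (i + 1) ↔ k = i + 1 := by
        constructor
        · intro h
          rcases lt_trichotomy k (i + 1) with h3 | h3 | h3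
          · exact absurd h (hdist _ _ h3 (Or.inl hi))
          · exact h3
          · exact absurd h.symm (hdist _ _ h3 (Or.inl hk))
        · rintro rfl; rfl
      by_cases h : (c k).1 = 1
      · rw [if_pos h, map_sub, PTH_cf_el, PTH_cf_el]
        simp only [e1, e2]
        by_cases hki : k = i
        · subst hki
          rw [if_pos rfl, if_pos rfl, if_pos h, if_neg (by omega), if_neg (by omega)]
        · rw [if_neg hki, if_neg hki]
          by_cases hki1 : k = i + 1
          · subst hki1
            rw [if_pos rfl, if_pos rfl, if_pos h]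
          · rw [if_neg hki1, if_neg hki1]
      · rw [if_neg h, map_zero]
        by_cases hki : k = i
        · subst hki
          rw [if_pos rfl, if_neg h, if_neg (by omega), sub_zero]
        · rw [if_neg hki]
          by_cases hki1 : k = i + 1
          · subst hki1
            rw [if_pos rfl, if_neg h, sub_zero]
          · rw [if_neg hki1, sub_zero]
    rw [Finset.sum_congr rfl h3, Finset.sum_sub_distrib, Finset.sum_ite_eq', Finset.sum_ite_eq',
      if_pos (Finset.mem_range.2 (by omega)), if_pos (Finset.mem_range.2 hi)] at h2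
    by_cases a1 : (c i).1 = 1
    · by_cases a2 : (c (i + 1)).1 = 1
      · rcases hne with ⟨_, h⟩ | ⟨h, _⟩
        · exact h a2
        · exact h a1
      · rw [if_pos a1, if_neg a2] at h2
        exact absurd h2 (by norm_num)
    · by_cases a2 : (c (i + 1)).1 = 1
      · rw [if_neg a1, if_pos a2] at h2
        exact absurd h2 (by norm_num)
      · rcases hne with ⟨h, _⟩ | ⟨_, h⟩
        · exact a1 h
        · exact a2 h

end coef

theorem thm_PTH : St_PTH := by
  intro S D _ _ f hf hno δ hδ
  by_contra hne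
  push Not at hne
  have hone : el ℤ (1 : S) = 1 := map_one _
  have hδ1 : δ 1 = 0 := by
    have h := hδ 1 1
    rw [mul_one, hone, map_one, one_mul] at h
    have h' := sub_eq_zero.2 h
    rw [← neg_eq_zero, ← h']
    abel
  obtain ⟨g, hg⟩ := hne 0
  have hg1 : g ≠ 1 := by
    rintro rfl
    exact hg (by rw [hδ1, mul_zero])
  obtain ⟨h, hh⟩ := hne ((f (el ℤ g) - 1)⁻¹ * δ g)
  have hh1 : h ≠ 1 := by
    rintro rfl
    exact hh (by rw [hδ1, hone, map_one, sub_self, zero_mul])
  set w : D := (f (el ℤ g) - 1)⁻¹ * δ g with hw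
  set δ' : S → D := fun k => δ k - (f (el ℤ k) - 1) * w with hδ'
  have hd : ∀ a b, δ' (a * b) = δ' a + f (el ℤ a) * δ' b := by
    intro a b
    simp only [hδ']
    have hmul : el ℤ (a * b) = el ℤ a * el ℤ b := map_mul _ _ _
    rw [hδ, hmul, map_mul]
    noncomm_ring
  have h0 : δ' g = 0 := by
    simp only [hδ', hw]
    rw [mul_inv_cancel_left₀ (PTH_ne hf hg1), sub_self]
  set v : D := (f (el ℤ h) - 1)⁻¹ * δ' h with hv
  have h1 : δ' h = (f (el ℤ h) - 1) * v := by
    rw [hv, mul_inv_cancel_left₀ (PTH_ne hf hh1)]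
  have hv0 : v ≠ 0 := by
    intro h2
    rw [h2, mul_zero] at h1
    exact hh (sub_eq_zero.1 h1)
  have hcore := PTH_core f hf δ' hd ![g, h] (by
    intro i
    fin_cases i
    · exact hg1
    · exact hh1) h0 v hv0 h1
  refine hno (FreeGroup.lift ![g, h]) ?_
  rw [injective_iff_map_eq_one]
  intro x hx
  by_contra hx1
  have hL : x.toWord ≠ [] := fun h2 => hx1 (FreeGroup.toWord_eq_nil_iff.1 h2)
  have hlen : 0 < x.toWord.length := List.length_pos_iff.2 hL
  refine hcore x.toWord.length hlen (fun i => x.toWord.getD i (0, true)) ?_ ?_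
  · intro i hi hi2
    have hr : FreeGroup.IsReduced x.toWord := FreeGroup.isReduced_toWord
    unfold FreeGroup.IsReduced at hr
    rw [List.isChain_iff_getElem] at hr
    simp only at hi2 ⊢
    rw [List.getD_eq_getElem _ _ (by omega : i < x.toWord.length),
      List.getD_eq_getElem _ _ hi] at hi2 ⊢
    exact hr i hi hi2
  · rw [← PTH_list ![g, h] x.toWord _ le_rfl, List.take_length]
    have h2 : FreeGroup.lift ![g, h] (FreeGroup.mk x.toWord) = 1 := by
      rw [FreeGroup.mk_toWord]; exact hx
    rw [FreeGroup.lift_mk] at h2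
    exact h2

end Pool.Agent.PDE
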