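import Pool.Agent.PDE.StG

/-!
# PDE, module RKD: the rank count over the division ring (helper18)
-/

set_option autoImplicit false

namespace Pool.Agent.PDE

open Pool.Agent.PDA Pool.Agent.PDB Subgroup

namespace RKDx

/-- functionals dual to elements independent modulo the augmentation ideal. -/
theorem dual_fun {k Λ P : Type} [Field k] [Ring Λ] [Algebra k Λ] [AddCommGroup P] [Module Λ P]
    (ε : Λ →ₐ[k] k) (hP : Module.Projective Λ P) (m : ℕ) (y : Fin m → P)
    (hy : IndMod ε (IA ε (⊤ : Submodule Λ P)) y) :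
    ∃ L : Fin m → (P →ₗ[Λ] Λ), ∀ a b, ε (L a (y b)) = if b = a then 1 else 0 := by
  obtain ⟨s, hs⟩ := hP.out
  let v : Fin m → (P →₀ k) := fun i => (s (y i)).mapRange ε (map_zero ε)
  have hv : ∀ c : Fin m → k, ∑ i, c i • v i = 0 → c = 0 := by
    intro c hc
    apply hy
    set z := ∑ i, algebraMap k Λ (c i) • y i with hz
    have h1 : ∀ x, ε (s z x) = 0 := by
      intro x
      have h2 := DFunLike.congr_fun hc x
      rw [Finsupp.finsetSum_apply] at h2
      rw [hz, map_sum, Finsupp.finsetSum_apply, map_sum]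
      rw [Finsupp.coe_zero, Pi.zero_apply] at h2
      rw [← h2]
      refine Finset.sum_congr rfl fun i _ => ?_
      rw [map_smul, Finsupp.smul_apply, Finsupp.smul_apply, smul_eq_mul, smul_eq_mul, map_mul,
        AlgHom.commutes]
      rfl
    rw [← hs z, Finsupp.linearCombination_apply]
    refine AddSubgroup.sum_mem _ fun x _ => ?_
    exact AddSubgroup.subset_closure ⟨s z x, h1 x, x, Submodule.mem_top, rfl⟩
  let Φ : (Fin m → k) →ₗ[k] (P →₀ k) := Fintype.linearCombination k v
  have hΦ : ∀ c, Φ c = ∑ i, c i • v i := fun c => Fintype.linearCombination_apply k v c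
  have hker : LinearMap.ker Φ = ⊥ := by
    rw [LinearMap.ker_eq_bot']
    intro c hc
    rw [hΦ] at hc
    exact hv c hc
  obtain ⟨g, hg⟩ := Φ.exists_leftInverse_of_injective hker
  have hgv : ∀ b a, g (v b) a = if b = a then 1 else 0 := by
    intro b a
    have h1 : Φ (Pi.single b 1) = v b := by
      rw [hΦ, Finset.sum_eq_single b]
      · rw [Pi.single_eq_same, one_smul]
      · intro i _ hi
        rw [Pi.single_eq_of_ne hi, zero_smul]
      · intro h'
        exact absurd (Finset.mem_univ b) h'
    rw [← h1]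
    have h2 : g (Φ (Pi.single b 1)) = Pi.single b 1 := LinearMap.congr_fun hg _
    rw [h2, Pi.single_apply]
    by_cases h : b = a
    · rw [if_pos h, if_pos h.symm]
    · rw [if_neg h, if_neg (fun h' => h h'.symm)]
  let L : Fin m → (P →ₗ[Λ] Λ) := fun a =>
    (Finsupp.linearCombination Λ
      (fun x : P => algebraMap k Λ (g (Finsupp.single x 1) a))) ∘ₗ s
  have hL : ∀ a z, ε (L a z) = g ((s z).mapRange ε (map_zero ε)) a := by
    intro a z
    have h1 : ((s z).mapRange ε (map_zero ε)) =
        ∑ x ∈ (s z).support, ε (s z x) • (Finsupp.single x (1 : k)) := by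
      ext x
      rw [Finsupp.mapRange_apply, Finsupp.finsetSum_apply]
      by_cases hx : x ∈ (s z).support
      · rw [Finset.sum_eq_single x]
        · rw [Finsupp.smul_apply, Finsupp.single_eq_same, smul_eq_mul, mul_one]
        · intro w _ hw
          rw [Finsupp.smul_apply, Finsupp.single_eq_of_ne (Ne.symm hw), smul_zero]
        · intro h'
          exact absurd hx h'
      · rw [Finsupp.notMem_support_iff.1 hx, map_zero, Finset.sum_eq_zero]
        intro w hw
        rw [Finsupp.smul_apply, Finsupp.single_eq_of_ne, smul_zero]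
        intro h'
        exact hx (h' ▸ hw)
    rw [h1, map_sum, Finset.sum_apply]
    change ε (Finsupp.linearCombination Λ _ (s z)) = _
    rw [Finsupp.linearCombination_apply, Finsupp.sum, map_sum]
    refine Finset.sum_congr rfl fun x _ => ?_
    rw [smul_eq_mul, map_mul, AlgHom.commutes, map_smul, Pi.smul_apply, smul_eq_mul]
    rfl
  exact ⟨L, fun a b => by rw [hL]; exact hgv b a⟩

/-- the dimension count. -/
theorem count {D : Type} [DivisionRing D] {m d : ℕ} (Y : Matrix (Fin m) (Fin d) D)
    (C : Matrix (Fin d) (Fin m) D) (h : IsUnit (Y * C)) (v : Fin d → D) (hv : v ≠ 0)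
    (hY : ∀ b, ∑ i, Y b i * v i = 0) : m + 1 ≤ d := by
  obtain ⟨M, hM⟩ := h.exists_right_inv
  let ℓ : (Fin d → D) →ₗ[D] D :=
    { toFun := fun r => ∑ i, r i * v i
      map_add' := fun r t => by simp [add_mul, Finset.sum_add_distrib]
      map_smul' := fun a r => by simp [mul_assoc, Finset.mul_sum] }
  let T : (Fin m → D) →ₗ[D] (Fin d → D) :=
    { toFun := fun r i => ∑ b, r b * Y b i
      map_add' := fun r t => by
        funext i
        simp [add_mul, Finset.sum_add_distrib]
      map_smul' := fun a r => by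
        funext i
        simp [mul_assoc, Finset.mul_sum] }
  have hT : ∀ r i, T r i = ∑ b, r b * Y b i := fun r i => rfl
  have hℓ : ∀ r, ℓ r = ∑ i, r i * v i := fun r => rfl
  have hTinj : Function.Injective T := by
    intro r t hrt
    have key : ∀ r : Fin m → D, ∀ a, r a = ∑ i, T r i * (C * M) i a := by
      intro r a
      have h1 : ∑ i, T r i * (C * M) i a = ∑ b, r b * (Y * C * M) b a := by
        simp only [hT]
        rw [Matrix.mul_assoc]
        simp only [Matrix.mul_apply (M := Y), Finset.sum_mul, Finset.mul_sum]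
        rw [Finset.sum_comm]
        refine Finset.sum_congr rfl fun b _ => Finset.sum_congr rfl fun i _ => ?_
        rw [mul_assoc]
      rw [h1, hM]
      simp [Matrix.one_apply]
    funext a
    rw [key r a, key t a, hrt]
  have hTker : ∀ r, T r ∈ LinearMap.ker ℓ := by
    intro r
    rw [LinearMap.mem_ker, hℓ]
    simp only [hT, Finset.sum_mul]
    rw [Finset.sum_comm]
    refine Finset.sum_eq_zero fun b _ => ?_
    have h1 : ∑ i, r b * Y b i * v i = r b * ∑ i, Y b i * v i := by
      rw [Finset.mul_sum]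
      exact Finset.sum_congr rfl fun i _ => mul_assoc _ _ _
    rw [h1, hY, mul_zero]
  obtain ⟨i, hi⟩ := Function.ne_iff.1 hv
  rw [Pi.zero_apply] at hi
  have hsurj : Function.Surjective ℓ := by
    intro a
    refine ⟨Pi.single i (a * (v i)⁻¹), ?_⟩
    rw [hℓ, Finset.sum_eq_single i]
    · rw [Pi.single_eq_same, mul_assoc, inv_mul_cancel₀ hi, mul_one]
    · intro j _ hj
      rw [Pi.single_eq_of_ne hj, zero_mul]
    · intro h'
      exact absurd (Finset.mem_univ i) h'
  have h1 := LinearMap.finrank_range_add_finrank_ker ℓ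
  rw [LinearMap.range_eq_top.2 hsurj, finrank_top, Module.finrank_self, Module.finrank_fin_fun]
    at h1
  have h2 := LinearMap.finrank_le_finrank_of_injective (f := T.codRestrict (LinearMap.ker ℓ) hTker)
    (fun r t hrt => hTinj (congrArg Subtype.val hrt))
  rw [Module.finrank_fin_fun] at h2
  omega

end RKDx

open RKDx in
theorem thm_RKD : St_RKD := by
  intro S _ D _ φ hφ hA d x hx hnt hP hF m y hy
  obtain ⟨L, hL⟩ := dual_fun (aug ℚ S) hP m y hy
  have hc : ∀ a, ∃ c : Fin d → D, ∀ z : Rel ℚ x,
      φ (L a z) = ∑ i, φ ((z : Fin d → MonoidAlgebra ℚ S) i) * c i := fun a => hF (L a)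
  choose c hc using hc
  set A : Matrix (Fin m) (Fin m) (MonoidAlgebra ℚ S) := Matrix.of fun b a => L a (y b) with hAdef
  have h1 : A.map (aug ℚ S) = 1 := by
    ext b a
    rw [Matrix.map_apply, hAdef, Matrix.of_apply, hL, Matrix.one_apply]
  have h2 := hA m A h1
  have h3 : A.map φ = (Matrix.of fun (b : Fin m) (i : Fin d) =>
      φ ((y b : Fin d → MonoidAlgebra ℚ S) i)) * (Matrix.of fun (i : Fin d) (a : Fin m) => c a i) := by
    ext b a
    rw [Matrix.map_apply, hAdef, Matrix.of_apply, hc, Matrix.mul_apply]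
    rfl
  rw [h3] at h2
  refine count _ _ h2 (fun i => φ (el ℚ (x i) - 1)) ?_ ?_
  · intro hv
    have h4 : ∀ i, x i = 1 := by
      intro i
      have h5 : φ (el ℚ (x i) - 1) = 0 := congrFun hv i
      have h6 : el ℚ (x i) - 1 = 0 := hφ (by rw [h5, map_zero])
      have h7 : MonoidAlgebra.of ℚ S (x i) = MonoidAlgebra.of ℚ S 1 := by
        rw [map_one]
        exact sub_eq_zero.1 h6
      exact MonoidAlgebra.of_injective h7
    have h5 : closure (Set.range x) ≤ ⊥ := by
      rw [closure_le]
      rintro _ ⟨i, rfl⟩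
      exact h4 i
    rw [hx] at h5
    obtain ⟨a, b, hab⟩ := hnt
    exact hab ((mem_bot.1 (h5 (mem_top a))).trans (mem_bot.1 (h5 (mem_top b))).symm)
  · intro b
    have h4 : bd ℚ x (y b : Fin d → MonoidAlgebra ℚ S) = 0 := (y b).2
    have h5 : ∑ i, (y b : Fin d → MonoidAlgebra ℚ S) i * (el ℚ (x i) - 1) = 0 := h4
    have h6 := congrArg φ h5
    rw [map_sum, map_zero] at h6
    rw [← h6]
    exact Finset.sum_congr rfl fun i _ => (map_mul φ _ _).symm

end Pool.Agent.PDE
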