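import Pool.Agent.PDE.StG

/-!
# PDE TFE: torsion-freeness from the division ring (helper52)
-/

set_option autoImplicit false

namespace Pool.Agent.PDE

open Pool.Agent.PDA Pool.Agent.PDB Subgroup

theorem thm_TFE : St_TFE := by
  rintro S _ ⟨D, _, φ, hφ, _⟩ c n hn hc
  by_contra hne
  have h1 : (el ℚ c - 1) * ∑ i ∈ Finset.range n, el ℚ c ^ i = 0 := by
    rw [mul_geom_sum, ← map_pow, hc, map_one, sub_self]
  have h2 : φ (el ℚ c - 1) * φ (∑ i ∈ Finset.range n, el ℚ c ^ i) = 0 := by
    rw [← map_mul, h1, map_zero]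
  rcases mul_eq_zero.1 h2 with h3 | h3
  · have h4 : el ℚ c - 1 = 0 := hφ (by rw [h3, map_zero])
    apply hne
    have h5 : el ℚ c = el ℚ (1 : S) := by
      rw [sub_eq_zero.1 h4]
      exact (map_one (MonoidAlgebra.of ℚ S)).symm
    exact MonoidAlgebra.of_injective h5
  · have h4 : ∑ i ∈ Finset.range n, el ℚ c ^ i = 0 := hφ (by rw [h3, map_zero])
    have h5 := congrArg (aug ℚ S) h4
    rw [map_sum, map_zero] at h5
    have h6 : ∀ i ∈ Finset.range n, aug ℚ S (el ℚ c ^ i) = 1 := by
      intro i _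
      rw [map_pow]
      have : aug ℚ S (el ℚ c) = 1 := by
        unfold aug
        simp
      rw [this, one_pow]
    rw [Finset.sum_congr rfl h6] at h5
    simp at h5
    omega

end Pool.Agent.PDE
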