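import Pool.Agent.PDA.All
import Pool.Agent.PDE.TFE
import Pool.Agent.PDE.INE
import Pool.Agent.PDE.PTH
import Pool.Agent.PDE.ONE
import Pool.Agent.PDE.EDN
import Pool.Agent.PDE.FSD
import Pool.Agent.PDE.DUD
import Pool.Agent.PDE.CMD
import Pool.Agent.PDE.E2L
import Pool.Agent.PDE.FAC
import Pool.Agent.PDE.RKD
import Pool.Agent.PDE.FGD
import Pool.Agent.PDE.INQ
import Pool.Agent.PDE.BRF
import Pool.Agent.PDE.SCF
import Pool.Agent.PDE.ASL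
import Pool.Agent.PDE.NIL
import Pool.Agent.PDE.CDT
import Pool.Agent.PDE.HTP
import Pool.Agent.PDE.CDW
import Pool.Agent.PDE.CDP
import Pool.Agent.PDE.CDO
import Pool.Agent.PDE.STE
import Pool.Agent.PDE.FNE
import Pool.Agent.PDE.MDE

/-!
# PDE: the assembly of all modules
-/

set_option autoImplicit false

namespace Pool.Agent.PDE

open Pool.Agent.PDA Pool.Agent.PDB

theorem pf_INE : St_INE := thm_INE thm_INS

theorem pf_FSD : St_FSD := thm_FSD (thm_EDN thm_ONE thm_GFG)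

theorem pf_E2L : St_E2L :=
  thm_E2L thm_WCH thm_PTH pf_FSD thm_DUD (thm_CMD thm_FRE thm_EX2 thm_BDR)

theorem pf_SCF : St_SCF :=
  thm_SCF (thm_CST thm_LIS thm_LIK thm_KGN) (thm_BRF thm_LIQ thm_TRE) thm_ASC

theorem pf_ASL : St_ASL := thm_ASL thm_LIQ

theorem pf_CDW : St_CDW :=
  thm_CDW (thm_CDT thm_NIL pf_ASL thm_LIS) (thm_HTP thm_BDR) thm_BDR

theorem pf_CDO : St_CDO := thm_CDO thm_NIL pf_ASL thm_LIQ thm_LIS

theorem pf_STE : St_STE :=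
  thm_STE thm_TOP pf_RPJ (thm_FAC pf_E2L) thm_RKD thm_FGD (thm_INQ thm_BDR) pf_SCF pf_CDW
    (thm_CDP thm_LIS) pf_CDO thm_TFE pf_INE pf_BSX

theorem pf_FNE : St_FNE :=
  thm_FNE thm_TOP (thm_FG2 thm_FG1 thm_FRE thm_HOM thm_BDR) (thm_FG3 thm_BDR) pf_SCF pf_STE
    thm_TFE pf_INE pf_BSX pf_ABK pf_KLE thm_PZ3 thm_PZF thm_PZV

theorem pf_MDE : St_MDE := thm_MDE pf_STE pf_FNE thm_VPF pf_INE thm_TFE thm_PZF thm_PZV

end Pool.Agent.PDE
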