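import Pool.Agent.PDE.StR

/-!
# PDE, DLA: amenable locally indicable groups, division rings
-/

set_option autoImplicit false

namespace Pool.Agent.PDE

open Pool.Agent.PDA Pool.Agent.PDB Subgroup

namespace DLAx

open nonZeroDivisors in
/-- Ore localization of a domain -/
theorem ore (R : Type) [Ring R] [Nontrivial R] [NoZeroDivisors R]
    (hO : ∀ a b : R, b ≠ 0 → ∃ u v : R, v ≠ 0 ∧ v * a = u * b) :
    ∃ (D : Type) (_ : DivisionRing D) (φ : R →+* D), Function.Injective φ ∧
      ∀ x : D, ∃ s y : R, s ≠ 0 ∧ φ s * x = φ y := by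
  have h1 : Nonempty (OreLocalization.OreSet R⁰) := by
    rw [OreLocalization.nonempty_oreSet_iff_of_noZeroDivisors]
    intro r s
    obtain ⟨u, v, hv, h⟩ := hO r s (nonZeroDivisors.coe_ne_zero s)
    exact ⟨u, ⟨v, mem_nonZeroDivisors_of_ne_zero hv⟩, h⟩
  obtain ⟨inst⟩ := h1
  refine ⟨OreLocalization R⁰ R, inferInstance, OreLocalization.numeratorRingHom,
    OreLocalization.numeratorHom_inj inf_le_left, fun x => ?_⟩
  induction x using OreLocalization.ind with
  | _ r s =>
    refine ⟨s, r, nonZeroDivisors.coe_ne_zero s, ?_⟩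
    show OreLocalization.numeratorHom (s : R) * (OreLocalization.oreDiv r s) =
      OreLocalization.numeratorHom r
    rw [OreLocalization.numeratorHom_apply, OreLocalization.numeratorHom_apply]
    exact OreLocalization.mul_cancel

/-- common denominators -/
theorem denom {R D ι : Type} [Ring R] [Nontrivial R] [NoZeroDivisors R] [DivisionRing D]
    (φ : R →+* D) (hD : ∀ x : D, ∃ s y : R, s ≠ 0 ∧ φ s * x = φ y) (r : ι → D) (t : Finset ι) :
    ∃ s : R, s ≠ 0 ∧ ∀ i ∈ t, ∃ y : R, φ s * r i = φ y := by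
  classical
  induction t using Finset.induction_on with
  | empty => exact ⟨1, one_ne_zero, fun i hi => absurd hi (Finset.notMem_empty i)⟩
  | insert j t _ ih =>
    obtain ⟨s, hs, h⟩ := ih
    obtain ⟨u, z, hu, hz⟩ := hD (φ s * r j)
    refine ⟨u * s, mul_ne_zero hu hs, fun i hi => ?_⟩
    rcases Finset.mem_insert.1 hi with rfl | hi
    · exact ⟨z, by rw [map_mul, mul_assoc, hz]⟩
    · obtain ⟨y, hy⟩ := h i hi
      exact ⟨u * y, by rw [map_mul, mul_assoc, hy, map_mul]⟩

/-- a square matrix over a division ring whose rows are independent is invertible -/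
theorem isUnit {D : Type} [DivisionRing D] {m : ℕ} (M : Matrix (Fin m) (Fin m) D)
    (h : ∀ r : Fin m → D, Matrix.vecMul r M = 0 → r = 0) : IsUnit M := by
  have h1 : Function.Injective (Matrix.toLinearMapRight' M) := by
    rw [← LinearMap.ker_eq_bot, LinearMap.ker_eq_bot']
    exact h
  set e := LinearEquiv.ofInjectiveEndo (Matrix.toLinearMapRight' M) h1 with he
  set B := LinearMap.toMatrixRight' (R := D) (e.symm : (Fin m → D) →ₗ[D] (Fin m → D)) with hB
  have hB' : Matrix.toLinearMapRight' B = (e.symm : (Fin m → D) →ₗ[D] (Fin m → D)) := by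
    rw [hB]
    exact LinearEquiv.symm_apply_apply LinearMap.toMatrixRight' _
  have hM' : Matrix.toLinearMapRight' M = (e : (Fin m → D) →ₗ[D] (Fin m → D)) := by
    ext i j
    rfl
  have h2 : M * B = 1 := by
    apply Matrix.toLinearMapRight'.injective
    rw [Matrix.toLinearMapRight'_mul, Matrix.toLinearMapRight'_one, hB', hM']
    exact e.symm_comp
  have h3 : B * M = 1 := by
    apply Matrix.toLinearMapRight'.injective
    rw [Matrix.toLinearMapRight'_mul, Matrix.toLinearMapRight'_one, hB', hM']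
    exact e.comp_symm
  exact ⟨⟨M, B, h2, h3⟩, rfl⟩

end DLAx

theorem thm_DLA (h1 : St_LUP) (h2 : St_ORE) (h3 : St_LCV) : St_DLA := by
  intro S _ hL hF
  have hU : UniqueProds S := h1 S hL
  have hN : NoZeroDivisors (MonoidAlgebra ℚ S) := inferInstance
  obtain ⟨D, iD, φ, hφ, hD⟩ := DLAx.ore (MonoidAlgebra ℚ S) (h2 ℚ S hF hN)
  refine ⟨D, iD, φ, hφ, fun m A hA => DLAx.isUnit _ fun r hr => ?_⟩
  obtain ⟨s, hs, hy⟩ := DLAx.denom φ hD r Finset.univ
  choose y hy using fun i => hy i (Finset.mem_univ i)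
  have hs' : φ s ≠ 0 := fun h => hs (hφ (by rw [h, map_zero]))
  have h4 : ∀ l, ∑ i, y i * A i l = 0 := by
    intro l
    apply hφ
    rw [map_sum, map_zero]
    have h5 : ∑ i, r i * φ (A i l) = 0 := by
      have := congrFun hr l
      simpa [Matrix.vecMul, dotProduct] using this
    calc ∑ i, φ (y i * A i l) = ∑ i, φ s * (r i * φ (A i l)) := by
          refine Finset.sum_congr rfl fun i _ => ?_
          rw [map_mul, ← hy i, mul_assoc]
      _ = φ s * ∑ i, r i * φ (A i l) := by rw [Finset.mul_sum]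
      _ = 0 := by rw [h5, mul_zero]
  by_contra hr0
  have hy0 : y ≠ 0 := by
    intro h
    apply hr0
    funext i
    have h6 := hy i
    rw [h, Pi.zero_apply, map_zero] at h6
    exact (mul_eq_zero.1 h6).resolve_left hs'
  obtain ⟨c, hc, h5⟩ := h3 ℚ S hL (Fin m) y hy0
  apply hc
  funext l
  have h6 := h5 (fun i => A i l) (h4 l)
  have h7 : ∀ i, aug ℚ S (A i l) = (1 : Matrix (Fin m) (Fin m) ℚ) i l := fun i => by
    rw [← hA]
    rfl
  simp only [h7, Matrix.one_apply, mul_ite, mul_one, mul_zero] at h6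
  simpa using h6

end Pool.Agent.PDE
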