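import Pool.Agent.PDE.STL

/-!
# PDE: subgroups of finite index without free subgroups, with a map onto `ℤ`

As `Pool/Agent/PDE/FNE.lean`, with the class `CL`.
-/

set_option autoImplicit false
set_option linter.unusedVariables false

namespace Pool.Agent.PDE

open Pool.Agent.PDA Pool.Agent.PDB Subgroup

private theorem FNL_surj {H : Type} [Group H] (π : H →* Multiplicative ℤ) (s : H)
    (h : π s = Multiplicative.ofAdd 1) : Function.Surjective π := by
  intro q
  refine ⟨s ^ (Multiplicative.toAdd q), ?_⟩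
  rw [map_zpow, h, ← ofAdd_zsmul, smul_eq_mul, mul_one]
  rfl

private theorem FNL_index {H : Type} [Group H] (π : H →* Multiplicative ℤ)
    (h : Function.Surjective π) : π.ker.index = 0 := by
  rw [Subgroup.index_ker, MonoidHom.range_eq_top.2 h]
  have : Infinite (⊤ : Subgroup (Multiplicative ℤ)) := by
    have e : (⊤ : Subgroup (Multiplicative ℤ)) ≃* Multiplicative ℤ := Subgroup.topEquiv
    exact Infinite.of_injective e.symm e.symm.injective
  exact Nat.card_eq_zero_of_infinite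

private theorem FNL_norm {H : Type} [Group H] (s x : H) (m : ℤ) (hm : m = 1 ∨ m = -1)
    (hx : s * x * s⁻¹ = x ^ m) (g : H) (n : ℕ) (h : s ^ n * g * (s ^ n)⁻¹ ∈ zpowers x) :
    g ∈ zpowers x := by
  have h1 : s⁻¹ * x * s ∈ zpowers x := by
    rcases hm with rfl | rfl
    · rw [zpow_one] at hx
      have h2 : s⁻¹ * x * s = x := by
        conv_lhs => rw [← hx]
        group
      rw [h2]
      exact mem_zpowers x
    · have h2 : s⁻¹ * x * s = x⁻¹ := by
        have h3 : x⁻¹ = s * x * s⁻¹ := by rw [hx, zpow_neg_one]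
        have h4 : x = (s * x * s⁻¹)⁻¹ := by rw [← h3, inv_inv]
        conv_lhs => rw [h4]
        group
      rw [h2]
      exact inv_mem (mem_zpowers x)
  have h2 : ∀ h : H, s * h * s⁻¹ ∈ zpowers x → h ∈ zpowers x := by
    intro h hh
    obtain ⟨j, hj⟩ := mem_zpowers_iff.1 hh
    have h3 : h = (s⁻¹ * x * s) ^ j := by
      have h4 : s⁻¹ * x * s = s⁻¹ * x * (s⁻¹)⁻¹ := by rw [inv_inv]
      rw [h4, conj_zpow, hj]
      group
    rw [h3]
    exact zpow_mem h1 j
  induction n with
  | zero => simpa using h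
  | succ n ih =>
    refine ih (h2 _ ?_)
    have h3 : s * (s ^ n * g * (s ^ n)⁻¹) * s⁻¹ = s ^ (n + 1) * g * (s ^ (n + 1))⁻¹ := by
      rw [pow_succ']
      group
    rw [h3]
    exact h

private theorem FNL_top {S : Type} [Group S] (h : PolyZ (⊤ : Subgroup S)) : VPolyZ S :=
  ⟨⊤, by rw [Subgroup.index_top]; exact one_ne_zero, h⟩

theorem thm_FNL (hTOP : St_TOP) (hF2 : St_FG2) (hF3 : St_FG3) (hSCF : St_SCF)
    (hSTL : ∀ (S : Type) [Group S], CL S → Group.FG S →
      Subsingleton S ∨ ∃ (π : S →* Multiplicative ℤ) (x : S), Function.Surjective π ∧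
        π.ker = zpowers x)
    (hBSX : St_BSX) (hABK : St_ABK) (hKLE : St_KLE)
    (hPZ3 : St_PZ3) (hPZF : St_PZF) (hPZV : St_PZV) (G : Type) [Group G] (hG : IsPD3 G)
    (S : Type) [Group S] (j : S →* G) (hj : Function.Injective j) (hidx : j.range.index ≠ 0)
    (hfg : Group.FG S) (hnf : NoF2 S) (hdiv : LIE S) (π₀ : S →* Multiplicative ℤ)
    (hπ₀ : Function.Surjective π₀) : VPolyZ S := by
  obtain ⟨R⟩ := hTOP G hG
  obtain ⟨π, s, B, n, b, hker, hs1, hBk, hb, hcz, hsB, hasc⟩ :=
    hSCF ℚ S π₀ hπ₀ hfg hnf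
      (fun d x hx => hF3 ℚ S d x hx (hF2 G R S j hj hidx d x hx))
  have hπ := FNL_surj π s hs1
  have hBidx : B.index = 0 := by
    have h1 := Subgroup.index_dvd_of_le hBk
    rw [FNL_index π hπ] at h1
    exact Nat.eq_zero_of_zero_dvd h1
  have hBinj : Function.Injective (j.comp B.subtype) := hj.comp B.subtype_injective
  have hInB : InPD3 B := by
    refine ⟨G, inferInstance, hG, j.comp B.subtype, hBinj, ?_⟩
    rw [MonoidHom.range_comp, Subgroup.range_subtype, Subgroup.index_map_of_injective _ hj, hBidx,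
      zero_mul]
  have hCB : CL B := ⟨hInB, hnf.sub B.subtype B.subtype_injective,
    hdiv.sub B.subtype B.subtype_injective⟩
  have htorB : TorFree B := hCB.2.2.2.torFree
  have hconj : ∀ (m : ℕ) (g : S), s ^ m * g * (s ^ m)⁻¹ = 1 → g = 1 := by
    intro m g h
    rw [mul_inv_eq_one, mul_eq_left] at h
    exact h
  have htor : TorFree S := hdiv.2.torFree
  have hBfg : Group.FG B := by
    rw [Group.fg_iff]
    exact ⟨Set.range b, hb, Set.finite_range b⟩
  rcases hSTL B hCB hBfg with hB | hB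
  · -- `B` is trivial
    refine FNL_top (hPZF S π 1 hπ htor ?_)
    rw [zpowers_one_eq_bot, eq_bot_iff]
    intro g hg
    obtain ⟨m, hm⟩ := hasc g hg
    have h1 : (⟨_, hm⟩ : B) = 1 := Subsingleton.elim _ _
    exact hconj m g (congrArg Subtype.val h1)
  obtain ⟨πB, x, hπB, hkB⟩ := hB
  obtain ⟨t, ht⟩ := hπB (Multiplicative.ofAdd 1)
  -- every element of `B` is `x ^ i * t ^ k`
  have hform : ∀ u : B, ∃ i k : ℤ, u = x ^ i * t ^ k := by
    intro u
    have h1 : u * (t ^ (Multiplicative.toAdd (πB u)))⁻¹ ∈ πB.ker := by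
      rw [MonoidHom.mem_ker, map_mul, map_inv, map_zpow, ht, ← ofAdd_zsmul, smul_eq_mul, mul_one,
        ofAdd_toAdd, mul_inv_cancel]
    rw [hkB] at h1
    obtain ⟨i, hi⟩ := mem_zpowers_iff.1 h1
    exact ⟨i, Multiplicative.toAdd (πB u), by rw [hi]; group⟩
  have hformS : ∀ u ∈ B, ∃ i k : ℤ, u = (x : S) ^ i * (t : S) ^ k := by
    intro u hu
    obtain ⟨i, k, h⟩ := hform ⟨u, hu⟩
    exact ⟨i, k, congrArg Subtype.val h⟩
  have ht1 : t ≠ 1 := by
    rintro rfl
    rw [map_one] at ht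
    have := congrArg Multiplicative.toAdd ht
    rw [toAdd_one, toAdd_ofAdd] at this
    exact zero_ne_one this
  have hpx : π (x : S) = 1 := MonoidHom.mem_ker.1 (hBk x.2)
  have hpt : π (t : S) = 1 := MonoidHom.mem_ker.1 (hBk t.2)
  by_cases hx : x = 1
  · -- `B` is cyclic
    have hBt : ∀ g ∈ B, g ∈ zpowers (t : S) := by
      intro g hg
      obtain ⟨i, k, h⟩ := hformS g hg
      refine mem_zpowers_iff.2 ⟨k, ?_⟩
      rw [h, hx, OneMemClass.coe_one, one_zpow, one_mul]
    obtain ⟨m, hm⟩ := mem_zpowers_iff.1 (hBt _ (hsB t t.2))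
    have hasc' : ∀ g ∈ π.ker, ∃ n : ℕ, s ^ n * g * (s ^ n)⁻¹ ∈ zpowers (t : S) := by
      intro g hg
      obtain ⟨q, hq⟩ := hasc g hg
      exact ⟨q, hBt _ hq⟩
    have htS : (t : S) ≠ 1 := fun h => ht1 (Subtype.ext h)
    have hd : BSData S π (t : S) s m := by
      refine ⟨hs1, hpt, ?_, ?_, hm.symm⟩
      · intro g hg
        obtain ⟨q, hq⟩ := hasc' g (MonoidHom.mem_ker.2 hg)
        obtain ⟨i, hi⟩ := mem_zpowers_iff.1 hq
        exact ⟨q, i, hi.symm⟩
      · intro q hq h
        exact htS (htor t q hq h)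
    have hm1 := hBSX G hG S j hj π t s m hd
    have hm0 : m ≠ 0 := by
      rintro rfl
      rw [zpow_zero] at hm
      have h := hm.symm
      rw [mul_inv_eq_one, mul_eq_left] at h
      exact htS h
    have hm2 : m = 1 ∨ m = -1 := by
      rw [abs_le] at hm1
      omega
    refine FNL_top (hPZF S π t hπ htor (le_antisymm ?_ ?_))
    · intro g hg
      obtain ⟨q, hq⟩ := hasc' g hg
      exact FNL_norm s t m hm2 hm.symm g q hq
    · rw [zpowers_le]
      exact hBk t.2
  -- `B` is `ℤ^2` or the Klein bottle group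
  have hind : ∀ a c : ℤ, x ^ a * t ^ c = 1 → a = 0 ∧ c = 0 := by
    intro a c h
    have hxk : πB x = 1 := by
      rw [← MonoidHom.mem_ker, hkB]
      exact mem_zpowers x
    have hc : c = 0 := by
      have h1 := congrArg (fun g => Multiplicative.toAdd (πB g)) h
      simp only [map_mul, map_zpow, hxk, ht, one_zpow, one_mul, map_one, toAdd_zpow, toAdd_ofAdd,
        smul_eq_mul, mul_one, toAdd_one] at h1
      exact h1
    subst hc
    refine ⟨?_, rfl⟩
    rw [zpow_zero, mul_one] at h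
    by_contra ha
    apply hx
    have h2 : x ^ a.natAbs = 1 := by
      rcases Int.natAbs_eq a with h3 | h3
      · rw [h3, zpow_natCast] at h
        exact h
      · rw [h3, zpow_neg, zpow_natCast, inv_eq_one] at h
        exact h
    exact htorB x a.natAbs (Int.natAbs_pos.2 ha) h2
  have hindS : Ind2 (x : S) (t : S) := by
    intro a c h
    exact hind a c (Subtype.ext h)
  obtain ⟨a₁, a₂, ha⟩ := hformS _ (hsB x x.2)
  obtain ⟨c₁, c₂, hc⟩ := hformS _ (hsB t t.2)
  have hcl : closure {s, (x : S), (t : S)} = ⊤ := by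
    rw [eq_top_iff, ← hcz, closure_le]
    rintro _ ⟨i, rfl⟩
    refine Fin.cases ?_ (fun i => ?_) i
    · exact subset_closure (by simp [cz])
    · show (cz s b i.succ) ∈ closure {s, (x : S), (t : S)}
      have h0 : cz s b i.succ = (b i : S) := by simp [cz]
      rw [h0]
      obtain ⟨k, l, h⟩ := hformS (b i) (b i).2
      rw [h]
      exact mul_mem (zpow_mem (subset_closure (by simp)) k) (zpow_mem (subset_closure (by simp)) l)
  obtain ⟨m, hm⟩ : ∃ m : ℤ, t * x * t⁻¹ = x ^ m := by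
    have h1 : t * x * t⁻¹ ∈ πB.ker := by
      rw [MonoidHom.mem_ker, map_mul, map_mul, map_inv]
      have hxk : πB x = 1 := by
        rw [← MonoidHom.mem_ker, hkB]
        exact mem_zpowers x
      rw [hxk, mul_one, mul_inv_cancel]
    rw [hkB] at h1
    obtain ⟨m, hm⟩ := mem_zpowers_iff.1 h1
    exact ⟨m, hm.symm⟩
  have hm1 : m = 1 ∨ m = -1 := by
    have h1 : t⁻¹ * x * t ∈ πB.ker := by
      rw [MonoidHom.mem_ker, map_mul, map_mul, map_inv]
      have hxk : πB x = 1 := by
        rw [← MonoidHom.mem_ker, hkB]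
        exact mem_zpowers x
      rw [hxk, mul_one, inv_mul_cancel]
    rw [hkB] at h1
    obtain ⟨k, hk⟩ := mem_zpowers_iff.1 h1
    have h2 : x = x ^ (m * k) := by
      have h3 : t * x ^ k * t⁻¹ = x ^ (m * k) := by
        rw [zpow_mul, ← hm, conj_zpow]
      rw [← h3, hk]
      group
    have h4 : x ^ (m * k - 1) * t ^ (0 : ℤ) = 1 := by
      rw [zpow_zero, mul_one, zpow_sub, zpow_one, ← h2, mul_inv_cancel]
    have h5 := (hind _ _ h4).1
    have h6 : m * k = 1 := by omega
    exact Int.eq_one_or_neg_one_of_mul_eq_one h6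
  rcases hm1 with rfl | rfl
  · have hcomm : (x : S) * t = t * x := by
      rw [zpow_one] at hm
      have h1 : t * x = x * t := by
        rw [mul_inv_eq_iff_eq_mul] at hm
        exact hm
      exact congrArg Subtype.val h1.symm
    have hK := hABK G R S j hj π s x t hs1 hpx hpt hcomm hindS ⟨a₁, a₂, ha⟩ ⟨c₁, c₂, hc⟩ hcl
    exact FNL_top (hPZ3 S π x t hπ hpx hpt hcomm hindS hK)
  · have hinv : (t : S) * x * (t : S)⁻¹ = (x : S)⁻¹ := by
      rw [zpow_neg_one] at hm
      exact congrArg Subtype.val hm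
    obtain ⟨T, hT, hTP⟩ := hKLE G R S j hj π s x t hs1 hpx hpt hinv hindS ⟨a₁, a₂, ha⟩
      ⟨c₁, c₂, hc⟩ hcl
    exact hPZV.1 S T hT hTP

end Pool.Agent.PDE
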