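import Pool.Agent.PDE.StR

/-!
# PDE, FRL: finitely many elements of a residually (amenable and locally indicable) group
-/

set_option autoImplicit false

namespace Pool.Agent.PDE

open Pool.Agent.PDA Pool.Agent.PDB Subgroup
open scoped Classical

private theorem FRL_ncard {G : Type} [Group G] (F : Finset G) (g : G) :
    ((F : Set G) \ {y | y * g ∈ F}).ncard = (F.filter fun y => y * g ∉ F).card := by
  rw [← Set.ncard_coe_finset]
  congr 1
  ext y
  simp

private theorem FRL_folner {Q1 Q2 : Type} [Group Q1] [Group Q2] (h1 : Folner Q1)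
    (h2 : Folner Q2) : Folner (Q1 × Q2) := by
  intro E ε hε
  obtain ⟨F1, hn1, hF1⟩ := h1 (E.image Prod.fst) (ε / 2) (by positivity)
  obtain ⟨F2, hn2, hF2⟩ := h2 (E.image Prod.snd) (ε / 2) (by positivity)
  refine ⟨F1 ×ˢ F2, hn1.product hn2, fun g hg => ?_⟩
  have e1 := hF1 g.1 (Finset.mem_image_of_mem _ hg)
  have e2 := hF2 g.2 (Finset.mem_image_of_mem _ hg)
  rw [FRL_ncard] at e1 e2 ⊢
  have hsub : ((F1 ×ˢ F2).filter fun y => y * g ∉ F1 ×ˢ F2) ⊆
      (F1.filter fun y => y * g.1 ∉ F1) ×ˢ F2 ∪ F1 ×ˢ (F2.filter fun y => y * g.2 ∉ F2) := by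
    intro y hy
    rw [Finset.mem_filter, Finset.mem_product, Finset.mem_product] at hy
    obtain ⟨⟨hy1, hy2⟩, hy3⟩ := hy
    rw [Finset.mem_union, Finset.mem_product, Finset.mem_product, Finset.mem_filter,
      Finset.mem_filter]
    by_cases hy4 : y.1 * g.1 ∈ F1
    · right
      refine ⟨hy1, hy2, fun hy5 => hy3 ⟨hy4, hy5⟩⟩
    · left
      exact ⟨⟨hy1, hy4⟩, hy2⟩
  have h3 := (Finset.card_le_card hsub).trans (Finset.card_union_le _ _)
  rw [Finset.card_product, Finset.card_product] at h3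
  have h4 : ((((F1 ×ˢ F2).filter fun y => y * g ∉ F1 ×ˢ F2).card : ℕ) : ℝ) ≤
      ((F1.filter fun y => y * g.1 ∉ F1).card : ℝ) * F2.card +
      F1.card * ((F2.filter fun y => y * g.2 ∉ F2).card : ℝ) := by exact_mod_cast h3
  rw [Finset.card_product, Nat.cast_mul]
  have h5 : ((F1.filter fun y => y * g.1 ∉ F1).card : ℝ) * F2.card ≤
      ε / 2 * F1.card * F2.card := mul_le_mul_of_nonneg_right e1 (Nat.cast_nonneg _)
  have h6 : (F1.card : ℝ) * ((F2.filter fun y => y * g.2 ∉ F2).card : ℝ) ≤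
      F1.card * (ε / 2 * F2.card) := mul_le_mul_of_nonneg_left e2 (Nat.cast_nonneg _)
  have h7 : ε / 2 * F1.card * F2.card + F1.card * (ε / 2 * F2.card) =
      ε * (F1.card * F2.card) := by ring
  have h8 := h4.trans ((add_le_add h5 h6).trans h7.le)
  refine le_trans (le_of_eq ?_) h8
  congr

private theorem FG_map {P Q : Type} [Group P] [Group Q] (p : P →* Q) (K : Subgroup P)
    (hK : K.FG) : (K.map p).FG := by
  obtain ⟨T, rfl⟩ := hK
  exact ⟨T.image p, by rw [MonoidHom.map_closure, Finset.coe_image]⟩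

/-- a homomorphism from the image of a subgroup -/
private theorem FRL_map {P Q : Type} [Group P] [Group Q] (hQ : LocInd Q) (p : P →* Q)
    (K : Subgroup P) (hK : K.FG) (hne : K.map p ≠ ⊥) :
    ∃ π : K →* Multiplicative ℤ, π ≠ 1 := by
  obtain ⟨π, hπ⟩ := hQ (K.map p) (FG_map p K hK) hne
  refine ⟨π.comp (p.subgroupMap K), fun h => hπ ?_⟩
  ext u
  obtain ⟨s, rfl⟩ := p.subgroupMap_surjective K u
  exact congrArg Multiplicative.toAdd (DFunLike.congr_fun h s)

private theorem FRL_locInd {Q1 Q2 : Type} [Group Q1] [Group Q2] (h1 : LocInd Q1)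
    (h2 : LocInd Q2) : LocInd (Q1 × Q2) := by
  intro K hK hne
  by_cases e1 : K.map (MonoidHom.fst Q1 Q2) = ⊥
  · by_cases e2 : K.map (MonoidHom.snd Q1 Q2) = ⊥
    · exfalso
      apply hne
      rw [eq_bot_iff]
      intro u hu
      have f1 : u.1 ∈ K.map (MonoidHom.fst Q1 Q2) := ⟨u, hu, rfl⟩
      have f2 : u.2 ∈ K.map (MonoidHom.snd Q1 Q2) := ⟨u, hu, rfl⟩
      rw [e1, mem_bot] at f1
      rw [e2, mem_bot] at f2
      rw [mem_bot]
      exact Prod.ext f1 f2
    · exact FRL_map h2 _ K hK e2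
  · exact FRL_map h1 _ K hK e1

theorem thm_FRL : St_FRL := by
  intro S _ hS E
  induction E using Finset.induction_on with
  | empty =>
    intro _
    refine ⟨Unit, inferInstance, 1, fun g hg => absurd hg (Finset.notMem_empty g), ?_, ?_⟩
    · intro K _ hK
      exact absurd (Subsingleton.elim _ _) hK
    · intro E ε hε
      refine ⟨{1}, Finset.singleton_nonempty _, fun g _ => ?_⟩
      have h2 : ((({1} : Finset Unit) : Set Unit) \ {y | y * g ∈ ({1} : Finset Unit)}) = ∅ := by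
        ext y
        simp
      rw [h2, Set.ncard_empty, Nat.cast_zero]
      positivity
  | insert g E hg ih =>
    intro h1
    obtain ⟨Q1, _, f1, hf1, hL1, hA1⟩ := hS g (fun h => h1 (h ▸ Finset.mem_insert_self g E))
    obtain ⟨Q2, _, f2, hf2, hL2, hA2⟩ := ih (fun h => h1 (Finset.mem_insert_of_mem h))
    refine ⟨Q1 × Q2, inferInstance, f1.prod f2, ?_, FRL_locInd hL1 hL2, FRL_folner hA1 hA2⟩
    intro u hu h
    rcases Finset.mem_insert.1 hu with rfl | hu
    · exact hf1 (congrArg Prod.fst h)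
    · exact hf2 u hu (congrArg Prod.snd h)

end Pool.Agent.PDE
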