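import Pool.Agent.PDE.StR

/-!
# PDE, module LCV: locally indicable groups are conservative (MP_add920_al)
-/

set_option autoImplicit false
set_option linter.unusedVariables false

namespace Pool.Agent.PDE

open Pool.Agent.PDA Pool.Agent.PDB Subgroup

open Classical in
/-- the part of `a` supported on `P` -/
noncomputable def LCVpart {k S : Type} [Field k] [Group S] (P : S → Prop) (a : MonoidAlgebra k S) :
    MonoidAlgebra k S := MonoidAlgebra.ofCoeff (a.coeff.filter P)

section part

variable {k S : Type} [Field k] [Group S]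

open Classical in
lemma LCVpart_coeff (P : S → Prop) (a : MonoidAlgebra k S) (s : S) :
    (LCVpart P a).coeff s = if P s then a.coeff s else 0 := by
  simp only [LCVpart, MonoidAlgebra.coeff_ofCoeff]
  rw [Finsupp.filter_apply]

lemma LCVpart_zero (P : S → Prop) : LCVpart P (0 : MonoidAlgebra k S) = 0 := by
  classical
  ext s
  rw [LCVpart_coeff]
  simp

lemma LCVpart_add (P : S → Prop) (a b : MonoidAlgebra k S) :
    LCVpart P (a + b) = LCVpart P a + LCVpart P b := by
  classical
  ext s
  rw [LCVpart_coeff, MonoidAlgebra.coeff_add, MonoidAlgebra.coeff_add, Finsupp.add_apply,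
    Finsupp.add_apply, LCVpart_coeff, LCVpart_coeff]
  split_ifs <;> simp

lemma LCVpart_sum {ι : Type} (P : S → Prop) (t : Finset ι) (a : ι → MonoidAlgebra k S) :
    LCVpart P (∑ i ∈ t, a i) = ∑ i ∈ t, LCVpart P (a i) := by
  classical
  induction t using Finset.induction_on with
  | empty => simp [LCVpart_zero]
  | insert i t hi ih => rw [Finset.sum_insert hi, Finset.sum_insert hi, LCVpart_add, ih]

open Classical in
lemma LCVpart_single (P : S → Prop) (s : S) (r : k) :
    LCVpart P (MonoidAlgebra.single s r) = if P s then MonoidAlgebra.single s r else 0 := by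
  ext u
  rw [LCVpart_coeff, MonoidAlgebra.coeff_single]
  by_cases hu : s = u
  · subst hu
    split_ifs <;> simp
  · split_ifs <;> simp [hu]

open Classical in
lemma LCVpart_support (P : S → Prop) (a : MonoidAlgebra k S) :
    (LCVpart P a).coeff.support = a.coeff.support.filter P := by
  ext s
  rw [Finsupp.mem_support_iff, LCVpart_coeff, Finset.mem_filter, Finsupp.mem_support_iff]
  by_cases h : P s <;> simp [h]

omit [Group S] in
lemma LCV_expand (y : MonoidAlgebra k S) :
    y = ∑ w ∈ y.coeff.support, MonoidAlgebra.single w (y.coeff w) := by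
  conv_lhs => rw [← MonoidAlgebra.sum_coeff_single y]
  rfl

lemma LCV_single_mul (w : S) (r : k) (cw : ℤ) (hh H : S → ℤ) (hp : ∀ s, H (w * s) = cw + hh s)
    (m : ℤ) (a : MonoidAlgebra k S) :
    LCVpart (fun s => H s = m) (MonoidAlgebra.single w r * a) =
      MonoidAlgebra.single w r * LCVpart (fun s => hh s = m - cw) a := by
  classical
  induction a using MonoidAlgebra.induction_linear with
  | zero => simp [LCVpart_zero]
  | add a b ha hb => rw [mul_add, LCVpart_add, LCVpart_add, mul_add, ha, hb]
  | single s t =>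
    rw [MonoidAlgebra.single_mul_single, LCVpart_single, LCVpart_single]
    by_cases h : H (w * s) = m
    · have h2 : hh s = m - cw := by have := hp s; omega
      rw [if_pos h, if_pos h2, MonoidAlgebra.single_mul_single]
    · have h2 : ¬ hh s = m - cw := by have := hp s; omega
      rw [if_neg h, if_neg h2, mul_zero]

lemma LCV_split (y a : MonoidAlgebra k S) (c hh H : S → ℤ)
    (hp : ∀ w ∈ y.coeff.support, ∀ s, H (w * s) = c w + hh s) (J : Finset ℤ)
    (hJ : ∀ w ∈ y.coeff.support, c w ∈ J) (m : ℤ) :
    LCVpart (fun s => H s = m) (y * a) =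
      ∑ j ∈ J, LCVpart (fun s => c s = j) y * LCVpart (fun s => hh s = m - j) a := by
  classical
  have h1 : LCVpart (fun s => H s = m) (y * a) = ∑ w ∈ y.coeff.support,
      MonoidAlgebra.single w (y.coeff w) * LCVpart (fun s => hh s = m - c w) a := by
    conv_lhs => rw [LCV_expand y]
    rw [Finset.sum_mul, LCVpart_sum]
    refine Finset.sum_congr rfl fun w hw => ?_
    exact LCV_single_mul w _ (c w) hh H (hp w hw) m a
  have h2 : ∀ j ∈ J, LCVpart (fun s => c s = j) y * LCVpart (fun s => hh s = m - j) a =
      ∑ w ∈ y.coeff.support, (if c w = j then MonoidAlgebra.single w (y.coeff w) else 0) *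
        LCVpart (fun s => hh s = m - j) a := by
    intro j hj
    conv_lhs => rw [LCV_expand y]
    rw [LCVpart_sum, Finset.sum_mul]
    refine Finset.sum_congr rfl fun w hw => ?_
    rw [LCVpart_single]
    by_cases h : c w = j <;> simp [h]
  rw [h1, Finset.sum_congr rfl h2, Finset.sum_comm]
  refine Finset.sum_congr rfl fun w hw => ?_
  rw [Finset.sum_eq_single (c w)]
  · simp
  · intro j _ hj
    rw [if_neg (fun h => hj h.symm), zero_mul]
  · intro h
    exact absurd (hJ w hw) h

lemma LCV_aug_single (s : S) (r : k) : aug k S (MonoidAlgebra.single s r) = r := by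
  unfold aug
  rw [MonoidAlgebra.lift_single]
  simp

end part

/-! ## Laurent polynomials -/

section laurent

variable {k S : Type} [Field k] [Group S]

lemma LCV_poly {ι : Type} [Fintype ι] (f : ι → Polynomial k) (hf : f ≠ 0) :
    ∃ (e : ℕ) (g : ι → Polynomial k),
      (∀ i, f i = (Polynomial.X - Polynomial.C 1) ^ e * g i) ∧ ∃ i, (g i).eval 1 ≠ 0 := by
  classical
  obtain ⟨i1, hi1⟩ : ∃ i, f i ≠ 0 := by
    by_contra h
    push Not at h
    exact hf (funext h)
  obtain ⟨i0, hi0, hmin⟩ := Finset.exists_min_image (Finset.univ.filter fun i => f i ≠ 0)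
    (fun i => (f i).rootMultiplicity 1) ⟨i1, by simp [hi1]⟩
  have hi0' : f i0 ≠ 0 := (Finset.mem_filter.1 hi0).2
  have hd : ∀ i, (Polynomial.X - Polynomial.C (1 : k)) ^ ((f i0).rootMultiplicity 1) ∣ f i := by
    intro i
    by_cases hz : f i = 0
    · rw [hz]; exact dvd_zero _
    · exact (pow_dvd_pow _ (hmin i (by simp [hz]))).trans (Polynomial.pow_rootMultiplicity_dvd _ _)
  choose g hg using hd
  refine ⟨_, g, hg, i0, fun h0 => ?_⟩
  have h1 : (Polynomial.X - Polynomial.C (1 : k)) ∣ g i0 := Polynomial.dvd_iff_isRoot.2 h0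
  obtain ⟨q, hq⟩ := h1
  have h2 : (Polynomial.X - Polynomial.C (1 : k)) ^ ((f i0).rootMultiplicity 1 + 1) ∣ f i0 := by
    refine ⟨q, ?_⟩
    rw [pow_succ, mul_assoc, ← hq]
    exact hg i0
  have h3 := (Polynomial.le_rootMultiplicity_iff hi0').2 h2
  omega

/-- evaluation at `T = 1` -/
noncomputable def LCVev : LaurentPolynomial k →+* k :=
  LaurentPolynomial.eval₂ (RingHom.id k) (1 : kˣ)

lemma LCVev_single (n : ℤ) (r : k) : LCVev (AddMonoidAlgebra.single n r : LaurentPolynomial k) = r := by
  unfold LCVev
  rw [LaurentPolynomial.single_eq_C_mul_T, LaurentPolynomial.eval₂_C_mul_T]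
  simp

lemma LCV_laur {ι : Type} [Fintype ι] (ρ : ι → LaurentPolynomial k) (hρ : ρ ≠ 0) :
    ∃ (d : LaurentPolynomial k) (σ : ι → LaurentPolynomial k), d ≠ 0 ∧
      (∀ i, ρ i = d * σ i) ∧ ∃ i, LCVev (σ i) ≠ 0 := by
  classical
  choose n f hf using fun i => LaurentPolynomial.exists_T_pow (ρ i)
  have hρ' : ∀ i, ρ i = Polynomial.toLaurent (f i) * LaurentPolynomial.T (-(n i : ℤ)) := by
    intro i
    rw [hf i, mul_assoc, ← LaurentPolynomial.T_add]
    simp
  have hf0 : f ≠ 0 := by
    intro h
    apply hρ
    funext i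
    rw [hρ' i, h]
    simp
  obtain ⟨e, g, hg, i, hi⟩ := LCV_poly f hf0
  refine ⟨Polynomial.toLaurent ((Polynomial.X - Polynomial.C 1) ^ e),
    fun i => Polynomial.toLaurent (g i) * LaurentPolynomial.T (-(n i : ℤ)), ?_, ?_, i, ?_⟩
  · rw [Polynomial.toLaurent_ne_zero]
    exact pow_ne_zero _ (Polynomial.X_sub_C_ne_zero 1)
  · intro i
    rw [hρ' i, hg i, map_mul, mul_assoc]
  · unfold LCVev
    rw [map_mul, LaurentPolynomial.eval₂_toLaurent, LaurentPolynomial.eval₂_T]
    simp only [one_zpow, Units.val_one, mul_one]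
    rw [Polynomial.eval₂_eq_eval_map, Polynomial.map_id]
    exact hi

/-- `∑ a(s) T^{h(s)}` -/
noncomputable def LCVth (hh : S → ℤ) (a : MonoidAlgebra k S) : LaurentPolynomial k :=
  AddMonoidAlgebra.ofCoeff (a.coeff.mapDomain hh)

lemma LCVth_zero (hh : S → ℤ) : LCVth hh (0 : MonoidAlgebra k S) = 0 := by
  simp [LCVth]

lemma LCVth_add (hh : S → ℤ) (a b : MonoidAlgebra k S) :
    LCVth hh (a + b) = LCVth hh a + LCVth hh b := by
  simp [LCVth, Finsupp.mapDomain_add]

omit [Group S] in
lemma LCVth_single (hh : S → ℤ) (s : S) (r : k) :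
    LCVth hh (MonoidAlgebra.single s r) = AddMonoidAlgebra.single (hh s) r := by
  simp [LCVth, Finsupp.mapDomain_single]

lemma LCVth_ev (hh : S → ℤ) (a : MonoidAlgebra k S) : LCVev (LCVth hh a) = aug k S a := by
  induction a using MonoidAlgebra.induction_linear with
  | zero => rw [LCVth_zero, map_zero, map_zero]
  | add a b ha hb => rw [LCVth_add, map_add, map_add, ha, hb]
  | single s t => rw [LCVth_single, LCVev_single, LCV_aug_single]

lemma LCVth_coeff (hh : S → ℤ) (a : MonoidAlgebra k S) (n : ℤ) :
    (LCVth hh a).coeff n = aug k S (LCVpart (fun s => hh s = n) a) := by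
  classical
  induction a using MonoidAlgebra.induction_linear with
  | zero => simp [LCVth_zero, LCVpart_zero]
  | add a b ha hb => rw [LCVth_add, LCVpart_add, map_add, AddMonoidAlgebra.coeff_add,
      Finsupp.add_apply, ha, hb]
  | single s t =>
    rw [LCVth_single, LCVpart_single, AddMonoidAlgebra.coeff_single]
    split_ifs with h
    · rw [h, Finsupp.single_eq_same, LCV_aug_single]
    · rw [map_zero, Finsupp.single_apply, if_neg h]

end laurent

/-! ## the splitting step -/

section step

variable {k S : Type} [Field k] [Group S]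

lemma LCV_step {ι : Type} [Fintype ι] (y : ι → MonoidAlgebra k S) (c hh : ι → S → ℤ) (H : S → ℤ)
    (hp : ∀ i, ∀ w ∈ (y i).coeff.support, ∀ s, H (w * s) = c i w + hh i s) (J : Finset ℤ)
    (hJ : ∀ i, ∀ w ∈ (y i).coeff.support, c i w ∈ J)
    (r' : ι × {j // j ∈ J} → k) (hr0 : r' ≠ 0)
    (hr : ∀ a : ι × {j // j ∈ J} → MonoidAlgebra k S,
      ∑ x, LCVpart (fun s => c x.1 s = (x.2 : ℤ)) (y x.1) * a x = 0 →
      ∑ x, r' x * aug k S (a x) = 0) :
    ∃ r : ι → k, r ≠ 0 ∧
      ∀ a : ι → MonoidAlgebra k S, ∑ i, y i * a i = 0 → ∑ i, r i * aug k S (a i) = 0 := by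
  classical
  let ρ : ι → LaurentPolynomial k := fun i =>
    ∑ j : {j // j ∈ J}, AddMonoidAlgebra.single (j : ℤ) (r' (i, j))
  have hρc : ∀ i (j : {j // j ∈ J}), (ρ i).coeff (j : ℤ) = r' (i, j) := by
    intro i j
    simp only [ρ]
    rw [AddMonoidAlgebra.coeff_sum, Finsupp.finsetSum_apply, Finset.sum_eq_single j]
    · rw [AddMonoidAlgebra.coeff_single, Finsupp.single_eq_same]
    · intro b _ hb
      rw [AddMonoidAlgebra.coeff_single, Finsupp.single_apply, if_neg]
      intro h
      exact hb (Subtype.ext h)
    · intro h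
      exact absurd (Finset.mem_univ j) h
  have hρ0 : ρ ≠ 0 := by
    intro h
    apply hr0
    funext ⟨i, j⟩
    rw [← hρc i j, h]
    simp
  obtain ⟨d, σ, hd, hσ, i0, hi0⟩ := LCV_laur ρ hρ0
  refine ⟨fun i => LCVev (σ i), fun h => hi0 (congrFun h i0), fun a ha => ?_⟩
  have key : ∑ i, ρ i * LCVth (hh i) (a i) = 0 := by
    ext m
    rw [AddMonoidAlgebra.coeff_sum, Finsupp.finsetSum_apply]
    have h1 : ∀ i, (ρ i * LCVth (hh i) (a i)).coeff m =
        ∑ j : {j // j ∈ J}, r' (i, j) * aug k S (LCVpart (fun s => hh i s = m - (j : ℤ)) (a i)) := by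
      intro i
      simp only [ρ]
      rw [Finset.sum_mul, AddMonoidAlgebra.coeff_sum, Finsupp.finsetSum_apply]
      refine Finset.sum_congr rfl fun j _ => ?_
      rw [AddMonoidAlgebra.coeff_single_mul_apply, LCVth_coeff]
      have : -(j : ℤ) + m = m - (j : ℤ) := by ring
      rw [this]
    rw [Finset.sum_congr rfl fun i _ => h1 i]
    have h2 := hr (fun x => LCVpart (fun s => hh x.1 s = m - (x.2 : ℤ)) (a x.1)) ?_
    · rw [Fintype.sum_prod_type] at h2
      simpa using h2
    · rw [Fintype.sum_prod_type]
      have h3 : ∀ i, ∑ j : {j // j ∈ J}, LCVpart (fun s => c i s = (j : ℤ)) (y i) *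
          LCVpart (fun s => hh i s = m - (j : ℤ)) (a i) =
          LCVpart (fun s => H s = m) (y i * a i) := by
        intro i
        rw [LCV_split (y i) (a i) (c i) (hh i) H (hp i) J (hJ i) m]
        exact Finset.sum_coe_sort J (fun j => LCVpart (fun s => c i s = j) (y i) *
          LCVpart (fun s => hh i s = m - j) (a i))
      rw [Finset.sum_congr rfl fun i _ => h3 i, ← LCVpart_sum, ha, LCVpart_zero]
  have h4 : d * ∑ i, σ i * LCVth (hh i) (a i) = 0 := by
    rw [Finset.mul_sum, ← key]
    refine Finset.sum_congr rfl fun i _ => ?_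
    rw [hσ i, mul_assoc]
  have h5 : ∑ i, σ i * LCVth (hh i) (a i) = 0 := (mul_eq_zero.1 h4).resolve_left hd
  have h6 := congrArg (LCVev (k := k)) h5
  rw [map_sum, map_zero] at h6
  rw [← h6]
  refine Finset.sum_congr rfl fun i _ => ?_
  rw [map_mul, LCVth_ev]

end step

/-! ## measure -/

lemma LCV_card {S : Type} (A : Finset S) (c : S → ℤ) (J : Finset ℤ)
    (hJ : ∀ w ∈ A, c w ∈ J) :
    ∑ j ∈ J, ((A.filter fun s => c s = j).card - 1) + (A.image c).card = A.card := by
  have hsub : A.image c ⊆ J := by
    intro j hj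
    obtain ⟨w, hw, rfl⟩ := Finset.mem_image.1 hj
    exact hJ w hw
  have h1 : ∑ j ∈ J, ((A.filter fun s => c s = j).card - 1) =
      ∑ j ∈ A.image c, ((A.filter fun s => c s = j).card - 1) := by
    symm
    apply Finset.sum_subset hsub
    intro j _ hj
    have : (A.filter fun s => c s = j) = ∅ := by
      apply Finset.filter_eq_empty_iff.2
      intro s hs hc
      exact hj (Finset.mem_image.2 ⟨s, hs, hc⟩)
    rw [this]
    rfl
  rw [h1, Finset.card_eq_sum_ones, ← Finset.sum_add_distrib, Finset.card_eq_sum_card_image c A]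
  refine Finset.sum_congr rfl fun j hj => ?_
  obtain ⟨w, hw, hc⟩ := Finset.mem_image.1 hj
  have hpos : 0 < (A.filter fun s => c s = j).card :=
    Finset.card_pos.2 ⟨w, Finset.mem_filter.2 ⟨hw, hc⟩⟩
  omega

/-! ## the cocycle -/

lemma LCV_height {S : Type} [Group S] (K : Subgroup S) (π : K →* Multiplicative ℤ) :
    ∃ H : S → ℤ, ∀ (u : K) (s : S), H (u * s) = Multiplicative.toAdd (π u) + H s := by
  classical
  let rep : S → S := fun s => (Quotient.mk (QuotientGroup.rightRel K) s).out
  have hrep : ∀ s, s * (rep s)⁻¹ ∈ K := by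
    intro s
    have h : QuotientGroup.rightRel K (rep s) s := Quotient.exact (Quotient.out_eq _)
    rw [QuotientGroup.rightRel_apply] at h
    exact h
  have hrep2 : ∀ (u : K) (s : S), rep (u * s) = rep s := by
    intro u s
    have : (Quotient.mk (QuotientGroup.rightRel K) ((u : S) * s)) =
        Quotient.mk (QuotientGroup.rightRel K) s := by
      apply Quotient.sound
      change QuotientGroup.rightRel K ((u : S) * s) s
      rw [QuotientGroup.rightRel_apply]
      have : s * ((u : S) * s)⁻¹ = ((u⁻¹ : K) : S) := by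
        simp [mul_inv_rev, ← mul_assoc]
      rw [this]
      exact (u⁻¹).2
    simp only [rep]
    rw [this]
  refine ⟨fun s => Multiplicative.toAdd (π ⟨s * (rep s)⁻¹, hrep s⟩), fun u s => ?_⟩
  have h1 : (⟨(u : S) * s * (rep (u * s))⁻¹, hrep (u * s)⟩ : K) = u * ⟨s * (rep s)⁻¹, hrep s⟩ := by
    apply Subtype.ext
    simp only [Subgroup.coe_mul]
    rw [hrep2, mul_assoc]
  change Multiplicative.toAdd (π ⟨(u : S) * s * (rep (u * s))⁻¹, hrep (u * s)⟩) = _
  rw [h1, map_mul, toAdd_mul]

/-- [LCV] locally indicable groups are conservative -/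
theorem thm_LCV : St_LCV := by
  classical
  intro k S _ _ hS
  have main : ∀ (n : ℕ) (ι : Type) [Fintype ι] (y : ι → MonoidAlgebra k S), y ≠ 0 →
      ∑ i, ((y i).coeff.support.card - 1) = n → ∃ r : ι → k, r ≠ 0 ∧
        ∀ a : ι → MonoidAlgebra k S, ∑ i, y i * a i = 0 → ∑ i, r i * aug k S (a i) = 0 := by
    intro n
    induction n using Nat.strong_induction_on with
    | _ n ih =>
    intro ι _ y hy hn
    by_cases hsmall : ∀ i, (y i).coeff.support.card ≤ 1
    · refine ⟨fun i => aug k S (y i), ?_, fun a ha => ?_⟩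
      · intro h
        apply hy
        funext i
        have hi := congrFun h i
        simp only [Pi.zero_apply] at hi ⊢
        have h1 := hsmall i
        rcases Nat.lt_or_ge (y i).coeff.support.card 1 with h2 | h2
        · have h3 : (y i).coeff.support = ∅ := Finset.card_eq_zero.1 (by omega)
          exact MonoidAlgebra.coeff_eq_zero.1 (Finsupp.support_eq_empty.1 h3)
        · obtain ⟨g, hg⟩ := Finset.card_eq_one.1 (le_antisymm h1 h2)
          have h3 := LCV_expand (y i)
          rw [hg, Finset.sum_singleton] at h3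
          rw [h3, LCV_aug_single] at hi
          rw [h3, hi]
          simp
      · have := congrArg (aug k S) ha
        rw [map_sum, map_zero] at this
        simpa [map_mul] using this
    · push Not at hsmall
      obtain ⟨i0, hi0⟩ := hsmall
      -- base points
      have hg : ∀ i, ∃ g : S, y i ≠ 0 → g ∈ (y i).coeff.support := by
        intro i
        by_cases h : y i = 0
        · exact ⟨1, fun h2 => absurd h h2⟩
        · have : (y i).coeff.support.Nonempty := by
            rw [Finset.nonempty_iff_ne_empty]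
            intro h3
            exact h (MonoidAlgebra.coeff_eq_zero.1 (Finsupp.support_eq_empty.1 h3))
          obtain ⟨g, hg⟩ := this
          exact ⟨g, fun _ => hg⟩
      choose g hg using hg
      let E : Finset S := Finset.univ.biUnion fun i => (y i).coeff.support.image fun w => w * (g i)⁻¹
      let K : Subgroup S := Subgroup.closure (E : Set S)
      have hmem : ∀ i, ∀ w ∈ (y i).coeff.support, w * (g i)⁻¹ ∈ K := by
        intro i w hw
        apply Subgroup.subset_closure
        simp only [E, Finset.coe_biUnion, Set.mem_iUnion, Finset.mem_coe, Finset.mem_image]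
        exact ⟨i, Finset.mem_univ _, w, hw, rfl⟩
      have hKfg : K.FG := ⟨E, rfl⟩
      have hKne : K ≠ ⊥ := by
        intro hbot
        obtain ⟨u, hu, v, hv, huv⟩ := Finset.one_lt_card.1 hi0
        have h1 := hmem i0 u hu
        have h2 := hmem i0 v hv
        rw [hbot, Subgroup.mem_bot] at h1 h2
        exact huv (mul_right_cancel (h1.trans h2.symm))
      obtain ⟨π, hπ⟩ := hS K hKfg hKne
      obtain ⟨H, hH⟩ := LCV_height K π
      let c : ι → S → ℤ := fun i w =>
        if h : w * (g i)⁻¹ ∈ K then Multiplicative.toAdd (π ⟨w * (g i)⁻¹, h⟩) else 0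
      let hh : ι → S → ℤ := fun i s => H (g i * s)
      have hp : ∀ i, ∀ w ∈ (y i).coeff.support, ∀ s, H (w * s) = c i w + hh i s := by
        intro i w hw s
        have h1 := hH ⟨w * (g i)⁻¹, hmem i w hw⟩ (g i * s)
        simp only [c, hh]
        rw [dif_pos (hmem i w hw), ← h1]
        congr 1
        group
      have hne : ∃ i1, y i1 ≠ 0 ∧ ∃ w ∈ (y i1).coeff.support, c i1 w ≠ c i1 (g i1) := by
        by_contra hcon
        push Not at hcon
        apply hπ
        have hcl : ∀ x (hx : x ∈ K), π ⟨x, hx⟩ = 1 := by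
          intro x hx
          induction hx using Subgroup.closure_induction with
          | mem x hx =>
            simp only [E, Finset.coe_biUnion, Set.mem_iUnion, Finset.mem_coe,
              Finset.mem_image] at hx
            obtain ⟨i, _, w, hw, rfl⟩ := hx
            have hyi : y i ≠ 0 := by
              intro h
              rw [h] at hw
              simp at hw
            have h1 := hcon i hyi w hw
            simp only [c] at h1
            rw [dif_pos (hmem i w hw), dif_pos (hmem i (g i) (hg i hyi))] at h1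
            have h2 : (⟨g i * (g i)⁻¹, hmem i (g i) (hg i hyi)⟩ : K) = 1 := by
              apply Subtype.ext
              simp
            rw [h2, map_one, toAdd_one] at h1
            exact toAdd_eq_zero.1 h1
          | one => exact map_one π
          | mul x y hx hy ihx ihy =>
            have : (⟨x * y, Subgroup.mul_mem _ hx hy⟩ : K) = ⟨x, hx⟩ * ⟨y, hy⟩ := rfl
            rw [this, map_mul, ihx, ihy, one_mul]
          | inv x hx ihx =>
            have : (⟨x⁻¹, Subgroup.inv_mem _ hx⟩ : K) = (⟨x, hx⟩)⁻¹ := rfl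
            rw [this, map_inv, ihx, inv_one]
        ext x
        exact congrArg _ (hcl x.1 x.2)
      obtain ⟨i1, hy1, w1, hw1, hc1⟩ := hne
      let J : Finset ℤ := Finset.univ.biUnion fun i => (y i).coeff.support.image (c i)
      have hJ : ∀ i, ∀ w ∈ (y i).coeff.support, c i w ∈ J := by
        intro i w hw
        simp only [J, Finset.mem_biUnion, Finset.mem_image]
        exact ⟨i, Finset.mem_univ _, w, hw, rfl⟩
      let y' : ι × {j // j ∈ J} → MonoidAlgebra k S :=
        fun x => LCVpart (fun s => c x.1 s = (x.2 : ℤ)) (y x.1)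
      have hy' : y' ≠ 0 := by
        intro h
        have h1 := congrFun h (i1, ⟨c i1 w1, hJ i1 w1 hw1⟩)
        have h2 : (y' (i1, ⟨c i1 w1, hJ i1 w1 hw1⟩)).coeff w1 = (y i1).coeff w1 := by
          simp only [y']
          rw [LCVpart_coeff, if_pos rfl]
        rw [h1] at h2
        exact (Finsupp.mem_support_iff.1 hw1) (by rw [← h2]; simp)
      have hsum : ∀ i, ∑ j : {j // j ∈ J}, ((y' (i, j)).coeff.support.card - 1) +
          ((y i).coeff.support.image (c i)).card = (y i).coeff.support.card := by
        intro i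
        have h1 := LCV_card (y i).coeff.support (c i) J (hJ i)
        rw [← Finset.sum_coe_sort J] at h1
        rw [← h1]
        congr 1
        refine Finset.sum_congr rfl fun j _ => ?_
        simp only [y']
        rw [LCVpart_support]
        have h2 : ∀ (d1 d2 : DecidablePred fun s => c i s = (j : ℤ)),
            @Finset.filter S (fun s => c i s = (j : ℤ)) d1 (y i).coeff.support =
            @Finset.filter S (fun s => c i s = (j : ℤ)) d2 (y i).coeff.support := by
          intro d1 d2
          rw [Subsingleton.elim d1 d2]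
        rw [h2 _ _]
      have hlt : ∑ x, ((y' x).coeff.support.card - 1) < n := by
        rw [← hn, Fintype.sum_prod_type]
        apply Finset.sum_lt_sum
        · intro i _
          have h1 := hsum i
          by_cases h : y i = 0
          · have h2 : (y i).coeff.support.card = 0 := by rw [h]; simp
            omega
          · have h2 : 0 < ((y i).coeff.support.image (c i)).card :=
              Finset.card_pos.2 ⟨_, Finset.mem_image_of_mem _ (hg i h)⟩
            omega
        · refine ⟨i1, Finset.mem_univ _, ?_⟩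
          have h1 := hsum i1
          have h2 : 1 < ((y i1).coeff.support.image (c i1)).card :=
            Finset.one_lt_card.2 ⟨_, Finset.mem_image_of_mem _ hw1, _,
              Finset.mem_image_of_mem _ (hg i1 hy1), hc1⟩
          omega
      obtain ⟨r', hr0, hr⟩ := ih _ hlt (ι × {j // j ∈ J}) y' hy' rfl
      exact LCV_step y c hh H hp J hJ r' hr0 hr
  intro ι _ y hy
  exact main _ ι y hy rfl

end Pool.Agent.PDE
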