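import Pool.Agent.PDE.StR

/-!
# PDE, LUP: locally indicable groups have unique products
-/

set_option autoImplicit false

namespace Pool.Agent.PDE

open Pool.Agent.PDA Pool.Agent.PDB Subgroup

open Classical in
private theorem LUP_main {S : Type} [Group S] (hS : LocInd S) (n : ℕ) :
    ∀ A B : Finset S, A.card + B.card = n → A.Nonempty → B.Nonempty →
      ∃ a0 ∈ A, ∃ b0 ∈ B, UniqueMul A B a0 b0 := by
  induction n using Nat.strong_induction_on with
  | _ n ih =>
  intro A B hn hA hB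
  by_cases h1 : A.card ≤ 1 ∧ B.card ≤ 1
  · exact UniqueMul.of_card_le_one hA hB h1.1 h1.2
  obtain ⟨a, ha⟩ := hA
  obtain ⟨b, hb⟩ := hB
  obtain ⟨T, hT⟩ : ∃ T : Finset S, T = A.image (fun x => a⁻¹ * x) ∪ B.image (fun y => y * b⁻¹) :=
    ⟨_, rfl⟩
  have hTA : ∀ x ∈ A, a⁻¹ * x ∈ closure (T : Set S) := by
    intro x hx
    refine subset_closure ?_
    rw [hT, Finset.mem_coe, Finset.mem_union]
    exact Or.inl (Finset.mem_image_of_mem _ hx)
  have hTB : ∀ y ∈ B, y * b⁻¹ ∈ closure (T : Set S) := by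
    intro x hx
    refine subset_closure ?_
    rw [hT, Finset.mem_coe, Finset.mem_union]
    exact Or.inr (Finset.mem_image_of_mem _ hx)
  have hK : closure (T : Set S) ≠ ⊥ := by
    intro h2
    apply h1
    rw [Finset.card_le_one, Finset.card_le_one]
    have e1 : ∀ x ∈ A, x = a := by
      intro x hx
      have h3 := hTA x hx
      rw [h2, mem_bot, inv_mul_eq_one] at h3
      exact h3.symm
    have e2 : ∀ y ∈ B, y = b := by
      intro y hy
      have h3 := hTB y hy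
      rw [h2, mem_bot, mul_inv_eq_one] at h3
      exact h3
    exact ⟨fun x hx y hy => (e1 x hx).trans (e1 y hy).symm,
      fun x hx y hy => (e2 x hx).trans (e2 y hy).symm⟩
  obtain ⟨π, hπ⟩ := hS (closure (T : Set S)) ⟨T, rfl⟩ hK
  -- the height
  obtain ⟨f, hf⟩ : ∃ f : S → ℤ, ∀ (g : S) (hg : g ∈ closure (T : Set S)),
      f g = Multiplicative.toAdd (π ⟨g, hg⟩) :=
    ⟨fun g => if hg : g ∈ closure (T : Set S) then Multiplicative.toAdd (π ⟨g, hg⟩) else 0,
      fun g hg => dif_pos hg⟩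
  have hfm : ∀ g h : S, g ∈ closure (T : Set S) → h ∈ closure (T : Set S) →
      f (g * h) = f g + f h := by
    intro g h hg hh
    rw [hf g hg, hf h hh, hf _ (mul_mem hg hh)]
    have h2 : (⟨g * h, mul_mem hg hh⟩ : closure (T : Set S)) = ⟨g, hg⟩ * ⟨h, hh⟩ := rfl
    rw [h2, map_mul, toAdd_mul]
  have hf1 : f 1 = 0 := by
    have h2 := hfm 1 1 (one_mem _) (one_mem _)
    rw [mul_one] at h2
    omega
  have hne : (∃ x ∈ A, f (a⁻¹ * x) ≠ 0) ∨ ∃ y ∈ B, f (y * b⁻¹) ≠ 0 := by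
    by_contra h2
    push Not at h2
    obtain ⟨h3, h4⟩ := h2
    apply hπ
    have h5 : ∀ g (hg : g ∈ closure (T : Set S)), f g = 0 := by
      intro g hg
      induction hg using Subgroup.closure_induction with
      | mem x hx =>
        rw [hT, Finset.mem_coe, Finset.mem_union, Finset.mem_image, Finset.mem_image] at hx
        rcases hx with ⟨y, hy, rfl⟩ | ⟨y, hy, rfl⟩
        · exact h3 y hy
        · exact h4 y hy
      | one => exact hf1
      | mul x y hx hy ihx ihy => rw [hfm x y hx hy, ihx, ihy, add_zero]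
      | inv x hx ihx =>
        have h6 := hfm x x⁻¹ hx (inv_mem hx)
        rw [mul_inv_cancel, hf1, ihx] at h6
        omega
    ext ⟨g, hg⟩
    have h6 := h5 g hg
    rw [hf g hg] at h6
    rw [MonoidHom.one_apply]
    exact h6
  obtain ⟨A', hA'⟩ : ∃ A' : Finset S,
      A' = A.filter fun x => ∀ z ∈ A, f (a⁻¹ * z) ≤ f (a⁻¹ * x) := ⟨_, rfl⟩
  obtain ⟨B', hB'⟩ : ∃ B' : Finset S,
      B' = B.filter fun x => ∀ z ∈ B, f (z * b⁻¹) ≤ f (x * b⁻¹) := ⟨_, rfl⟩
  have hAA : A' ⊆ A := by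
    rw [hA']
    exact Finset.filter_subset _ _
  have hBB : B' ⊆ B := by
    rw [hB']
    exact Finset.filter_subset _ _
  have hlt : A'.card + B'.card < n := by
    have c1 := Finset.card_le_card hAA
    have c2 := Finset.card_le_card hBB
    rcases hne with ⟨x, hx, hx2⟩ | ⟨y, hy, hy2⟩
    · have h2 : A' ⊂ A := by
        refine lt_of_le_of_ne hAA fun h3 => hx2 ?_
        have h4 : ∀ z ∈ A, ∀ w ∈ A, f (a⁻¹ * w) ≤ f (a⁻¹ * z) := by
          intro z hz
          rw [← h3, hA', Finset.mem_filter] at hz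
          exact hz.2
        have h5 := h4 x hx a ha
        have h6 := h4 a ha x hx
        rw [inv_mul_cancel, hf1] at h5 h6
        omega
      have := Finset.card_lt_card h2
      omega
    · have h2 : B' ⊂ B := by
        refine lt_of_le_of_ne hBB fun h3 => hy2 ?_
        have h4 : ∀ z ∈ B, ∀ w ∈ B, f (w * b⁻¹) ≤ f (z * b⁻¹) := by
          intro z hz
          rw [← h3, hB', Finset.mem_filter] at hz
          exact hz.2
        have h5 := h4 y hy b hb
        have h6 := h4 b hb y hy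
        rw [mul_inv_cancel, hf1] at h5 h6
        omega
      have := Finset.card_lt_card h2
      omega
  obtain ⟨a1, ha1, ha2⟩ := Finset.exists_max_image A (fun x => f (a⁻¹ * x)) ⟨a, ha⟩
  obtain ⟨b1, hb1, hb2⟩ := Finset.exists_max_image B (fun x => f (x * b⁻¹)) ⟨b, hb⟩
  have hA1 : a1 ∈ A' := by
    rw [hA', Finset.mem_filter]
    exact ⟨ha1, ha2⟩
  have hB1 : b1 ∈ B' := by
    rw [hB', Finset.mem_filter]
    exact ⟨hb1, hb2⟩
  obtain ⟨a0, ha0, b0, hb0, hu⟩ := ih _ hlt A' B' rfl ⟨a1, hA1⟩ ⟨b1, hB1⟩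
  refine ⟨a0, hAA ha0, b0, hBB hb0, fun x y hx hy hxy => ?_⟩
  have ha0' : a0 ∈ A ∧ ∀ z ∈ A, f (a⁻¹ * z) ≤ f (a⁻¹ * a0) := by
    rw [hA', Finset.mem_filter] at ha0
    exact ha0
  have hb0' : b0 ∈ B ∧ ∀ z ∈ B, f (z * b⁻¹) ≤ f (b0 * b⁻¹) := by
    rw [hB', Finset.mem_filter] at hb0
    exact hb0
  have h3 := hfm _ _ (hTA x hx) (hTB y hy)
  have h4 := hfm _ _ (hTA a0 ha0'.1) (hTB b0 hb0'.1)
  have h5 : a⁻¹ * x * (y * b⁻¹) = a⁻¹ * a0 * (b0 * b⁻¹) := by
    have h6 : a⁻¹ * x * (y * b⁻¹) = a⁻¹ * (x * y) * b⁻¹ := by group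
    rw [h6, hxy]
    group
  rw [h5, h4] at h3
  have h7 := ha0'.2 x hx
  have h8 := hb0'.2 y hy
  refine hu ?_ ?_ hxy
  · rw [hA', Finset.mem_filter]
    refine ⟨hx, fun z hz => ?_⟩
    have := ha0'.2 z hz
    omega
  · rw [hB', Finset.mem_filter]
    refine ⟨hy, fun z hz => ?_⟩
    have := hb0'.2 z hz
    omega

theorem thm_LUP : St_LUP := by
  intro S _ hS
  exact ⟨fun {A B} hA hB => LUP_main hS _ A B rfl hA hB⟩

end Pool.Agent.PDE
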