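import Pool.Agent.PDE.StR

/-!
# PDE, ORE: group rings of amenable groups satisfy the Ore condition
-/

set_option autoImplicit false

namespace Pool.Agent.PDE

open Pool.Agent.PDA Pool.Agent.PDB Subgroup
open scoped Pointwise Classical

private theorem ORE_ncard {G : Type} [Group G] (F : Finset G) (g : G) :
    ((F : Set G) \ {y | y * g ∈ F}).ncard = (F.filter fun y => y * g ∉ F).card := by
  rw [← Set.ncard_coe_finset]
  congr 1
  ext y
  simp

/-- a finite set with small doubling by `E` -/
private theorem ORE_set {G : Type} [Group G] (h : Folner G) (E : Finset G) :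
    ∃ F : Finset G, F.Nonempty ∧ (F * E).card < 2 * F.card := by
  have hE : (0 : ℝ) < 2 * ((E.card : ℝ) + 1) := by positivity
  obtain ⟨F, hne, hF⟩ := h E (1 / (2 * ((E.card : ℝ) + 1))) (by positivity)
  refine ⟨F, hne, ?_⟩
  have hsub : F * E ⊆ F ∪ E.biUnion fun g => (F.filter fun y => y * g ∉ F).image fun y => y * g := by
    intro x hx
    obtain ⟨y, hy, g, hg, rfl⟩ := Finset.mem_mul.1 hx
    rw [Finset.mem_union]
    by_cases hyg : y * g ∈ F
    · left
      exact hyg
    · right
      exact Finset.mem_biUnion.2 ⟨g, hg, Finset.mem_image.2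
        ⟨y, Finset.mem_filter.2 ⟨hy, hyg⟩, rfl⟩⟩
  have h1 : (F * E).card ≤ F.card + ∑ g ∈ E, (F.filter fun y => y * g ∉ F).card := by
    refine (Finset.card_le_card hsub).trans ((Finset.card_union_le _ _).trans ?_)
    refine Nat.add_le_add_left (Finset.card_biUnion_le.trans ?_) _
    exact Finset.sum_le_sum fun g _ => Finset.card_image_le
  have h2 : ((F * E).card : ℝ) ≤ F.card + ∑ g ∈ E, ((F.filter fun y => y * g ∉ F).card : ℝ) := by
    exact_mod_cast h1
  have h3 : ∑ g ∈ E, ((F.filter fun y => y * g ∉ F).card : ℝ) ≤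
      ∑ g ∈ E, 1 / (2 * ((E.card : ℝ) + 1)) * F.card := by
    refine Finset.sum_le_sum fun g hg => ?_
    have := hF g hg
    rw [ORE_ncard] at this
    exact this
  rw [Finset.sum_const, nsmul_eq_mul] at h3
  have h4 : (E.card : ℝ) * (1 / (2 * ((E.card : ℝ) + 1)) * F.card) ≤ 1 / 2 * F.card := by
    have h5 : (E.card : ℝ) * (1 / (2 * ((E.card : ℝ) + 1))) ≤ 1 / 2 := by
      rw [mul_one_div, div_le_div_iff₀ hE (by norm_num)]
      nlinarith
    have h6 : (0 : ℝ) ≤ F.card := by positivity
    calc (E.card : ℝ) * (1 / (2 * ((E.card : ℝ) + 1)) * F.card)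
        = (E.card : ℝ) * (1 / (2 * ((E.card : ℝ) + 1))) * F.card := by ring
      _ ≤ 1 / 2 * F.card := mul_le_mul_of_nonneg_right h5 h6
  have h7 : (0 : ℝ) < F.card := by exact_mod_cast hne.card_pos
  have h8 : ((F * E).card : ℝ) < 2 * F.card := by linarith
  exact_mod_cast h8

/-- an element with coefficients `u` on `F` -/
private noncomputable def ORE_el {k S : Type} [Field k] [Group S] (F : Finset S) (u : F → k) :
    MonoidAlgebra k S := ∑ f : F, MonoidAlgebra.single (f : S) (u f)

private theorem ORE_el_coeff {k S : Type} [Field k] [Group S] (F : Finset S) (u : F → k) (f : F) :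
    (ORE_el F u).coeff (f : S) = u f := by
  unfold ORE_el
  rw [MonoidAlgebra.coeff_sum, Finsupp.finsetSum_apply, Finset.sum_eq_single f]
  · simp
  · intro g _ hg
    rw [MonoidAlgebra.coeff_single, Finsupp.single_apply, if_neg]
    intro h
    exact hg (Subtype.ext h)
  · intro h
    exact absurd (Finset.mem_univ f) h

/-- the coefficients of a product vanish off `F E` -/
private theorem ORE_supp {k S : Type} [Field k] [Group S] (F E : Finset S) (u : F → k)
    (a : MonoidAlgebra k S) (ha : a.coeff.support ⊆ E) (t : S) (ht : t ∉ F * E) :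
    (ORE_el F u * a).coeff t = 0 := by
  unfold ORE_el
  rw [Finset.sum_mul, MonoidAlgebra.coeff_sum, Finsupp.finsetSum_apply]
  refine Finset.sum_eq_zero fun f _ => ?_
  by_contra hne
  apply ht
  have h1 := MonoidAlgebra.support_coeff_single_mul_subset a (u f) (f : S)
    (Finsupp.mem_support_iff.2 hne)
  obtain ⟨g, hg, rfl⟩ := Finset.mem_image.1 h1
  exact Finset.mul_mem_mul f.2 (ha hg)

theorem thm_ORE : St_ORE := by
  intro k S _ _ hF hdom a b hb
  obtain ⟨E, hE⟩ : ∃ E : Finset S, E = a.coeff.support ∪ b.coeff.support := ⟨_, rfl⟩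
  have ha' : a.coeff.support ⊆ E := hE ▸ Finset.subset_union_left
  have hb' : b.coeff.support ⊆ E := hE ▸ Finset.subset_union_right
  obtain ⟨F, hne, hcard⟩ := ORE_set hF E
  let L : ((F → k) × (F → k)) →ₗ[k] ((F * E : Finset S) → k) :=
    { toFun := fun p t => (ORE_el F p.2 * a - ORE_el F p.1 * b).coeff (t : S)
      map_add' := fun p q => by
        funext t
        have h1 : ∀ u v : F → k, ORE_el F (u + v) = ORE_el F u + ORE_el F v := by
          intro u v
          unfold ORE_el
          rw [← Finset.sum_add_distrib]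
          refine Finset.sum_congr rfl fun f _ => ?_
          rw [← MonoidAlgebra.single_add]
          rfl
        show (ORE_el F (p.2 + q.2) * a - ORE_el F (p.1 + q.1) * b).coeff (t : S) =
          (ORE_el F p.2 * a - ORE_el F p.1 * b).coeff (t : S) +
          (ORE_el F q.2 * a - ORE_el F q.1 * b).coeff (t : S)
        rw [h1, h1, ← Finsupp.add_apply, ← MonoidAlgebra.coeff_add]
        congr 2
        rw [add_mul, add_mul]
        abel
      map_smul' := fun c p => by
        funext t
        have h1 : ∀ u : F → k, ORE_el F (c • u) = c • ORE_el F u := by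
          intro u
          unfold ORE_el
          rw [Finset.smul_sum]
          refine Finset.sum_congr rfl fun f _ => ?_
          rw [MonoidAlgebra.smul_single]
          rfl
        show (ORE_el F (c • p.2) * a - ORE_el F (c • p.1) * b).coeff (t : S) =
          c * (ORE_el F p.2 * a - ORE_el F p.1 * b).coeff (t : S)
        rw [h1, h1, smul_mul_assoc, smul_mul_assoc, ← smul_sub, MonoidAlgebra.coeff_smul]
        rfl }
  have hker : LinearMap.ker L ≠ ⊥ := by
    apply LinearMap.ker_ne_bot_of_finrank_lt
    rw [Module.finrank_prod, Module.finrank_fintype_fun_eq_card,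
      Module.finrank_fintype_fun_eq_card, Fintype.card_coe, Fintype.card_coe, ← two_mul]
    exact hcard
  obtain ⟨⟨u, v⟩, huv, hne'⟩ := (Submodule.ne_bot_iff _).1 hker
  have h0 : ORE_el F v * a - ORE_el F u * b = 0 := by
    apply MonoidAlgebra.ext
    refine Finsupp.ext fun t => ?_
    by_cases ht : t ∈ F * E
    · have h1 := congrFun (LinearMap.mem_ker.1 huv) ⟨t, ht⟩
      exact h1
    · rw [MonoidAlgebra.coeff_sub, Finsupp.sub_apply, ORE_supp F E v a ha' t ht,
        ORE_supp F E u b hb' t ht, sub_zero]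
      rfl
  have h1 : ∀ w : F → k, ORE_el F w = 0 → w = 0 := by
    intro w hw
    funext f
    rw [← ORE_el_coeff F w f, hw]
    rfl
  refine ⟨ORE_el F u, ORE_el F v, ?_, sub_eq_zero.1 h0⟩
  intro hv
  rw [hv, zero_mul, zero_sub, neg_eq_zero] at h0
  apply hne'
  rcases mul_eq_zero.1 h0 with h2 | h2
  · rw [h1 u h2, h1 v hv]
    rfl
  · exact absurd h2 hb

end Pool.Agent.PDE
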