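import Pool.Agent.PDE.StR

/-!
# PDE, ULT: an ultraproduct of division rings
-/

set_option autoImplicit false

namespace Pool.Agent.PDE

open Pool.Agent.PDA Pool.Agent.PDB Subgroup

namespace ULTx

/-- ultraproducts of division rings are division rings -/
theorem ultra {I : Type} (U : Ultrafilter I) (D : I → Type) [∀ i, DivisionRing (D i)] :
    ∃ (E : Type) (_ : DivisionRing E) (π : (∀ i, D i) →+* E),
      ∀ x, π x = 0 ↔ ∀ᶠ i in (U : Filter I), x i = 0 := by
  classical
  let J : Ideal (∀ i, D i) :=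
    { carrier := {x | ∀ᶠ i in (U : Filter I), x i = 0}
      add_mem' := fun {a b} ha hb => by
        filter_upwards [ha, hb] with i h1 h2
        rw [Pi.add_apply, h1, h2, add_zero]
      zero_mem' := Filter.Eventually.of_forall fun i => rfl
      smul_mem' := fun c x hx => by
        filter_upwards [hx] with i h1
        rw [smul_eq_mul, Pi.mul_apply, h1, mul_zero] }
  have hJ : J.IsTwoSided := ⟨fun {a} b ha => by
    have ha' : ∀ᶠ i in (U : Filter I), a i = 0 := ha
    show ∀ᶠ i in (U : Filter I), (a * b) i = 0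
    filter_upwards [ha'] with i h1
    rw [Pi.mul_apply, h1, zero_mul]⟩
  have hmem : ∀ x, x ∈ J ↔ ∀ᶠ i in (U : Filter I), x i = 0 := fun x => Iff.rfl
  have hnt : Nontrivial ((∀ i, D i) ⧸ J) := by
    refine ⟨⟨Ideal.Quotient.mk J 1, Ideal.Quotient.mk J 0, fun h => ?_⟩⟩
    rw [map_zero, Ideal.Quotient.eq_zero_iff_mem, hmem] at h
    obtain ⟨i, hi⟩ := h.exists
    exact one_ne_zero hi
  have hu : ∀ a : (∀ i, D i) ⧸ J, IsUnit a ∨ a = 0 := by
    intro a
    obtain ⟨x, rfl⟩ := Ideal.Quotient.mk_surjective a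
    by_cases hx : ∀ᶠ i in (U : Filter I), x i = 0
    · exact Or.inr (Ideal.Quotient.eq_zero_iff_mem.2 ((hmem x).2 hx))
    · left
      rw [← Ultrafilter.eventually_not] at hx
      refine isUnit_iff_exists.2 ⟨Ideal.Quotient.mk J fun i => (x i)⁻¹, ?_, ?_⟩
      · rw [← map_mul, ← map_one (Ideal.Quotient.mk J), Ideal.Quotient.mk_eq_mk_iff_sub_mem, hmem]
        filter_upwards [hx] with i h1
        rw [Pi.sub_apply, Pi.mul_apply, mul_inv_cancel₀ h1, Pi.one_apply, sub_self]
      · rw [← map_mul, ← map_one (Ideal.Quotient.mk J), Ideal.Quotient.mk_eq_mk_iff_sub_mem, hmem]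
        filter_upwards [hx] with i h1
        rw [Pi.sub_apply, Pi.mul_apply, inv_mul_cancel₀ h1, Pi.one_apply, sub_self]
  exact ⟨(∀ i, D i) ⧸ J, DivisionRing.ofIsUnitOrEqZero hu, Ideal.Quotient.mk J, fun x =>
    Ideal.Quotient.eq_zero_iff_mem⟩

theorem aug_map {S Q : Type} [Group S] [Group Q] (f : S →* Q) (a : MonoidAlgebra ℚ S) :
    aug ℚ Q (MonoidAlgebra.mapDomainRingHom ℚ f a) = aug ℚ S a := by
  have h : ((aug ℚ Q : MonoidAlgebra ℚ Q →ₐ[ℚ] ℚ) : MonoidAlgebra ℚ Q →+* ℚ).comp
      (MonoidAlgebra.mapDomainRingHom ℚ f) = (aug ℚ S : MonoidAlgebra ℚ S →ₐ[ℚ] ℚ) := by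
    refine MonoidAlgebra.ringHom_ext (fun r => ?_) fun g => ?_
    · simp [aug]
    · simp [aug]
  exact DFunLike.congr_fun h a

end ULTx

theorem thm_ULT : St_ULT := by
  classical
  intro S _ h
  choose Q iQ f hf hQ using fun E : Finset S => h (E.erase 1) (Finset.notMem_erase _ _)
  unfold DivQ at hQ
  choose D iD φ hφ hM using hQ
  set U : Ultrafilter (Finset S) := Ultrafilter.of Filter.atTop with hU
  have hU' : ∀ E0 : Finset S, ∀ᶠ E in (U : Filter (Finset S)), E0 ⊆ E := fun E0 =>
    (Ultrafilter.of_le (f := (Filter.atTop : Filter (Finset S)))) (Filter.eventually_ge_atTop E0)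
  obtain ⟨L, iL, π, hπ⟩ := ULTx.ultra U D
  set ψ : MonoidAlgebra ℚ S →+* (∀ E, D E) := RingHom.pi fun E =>
    (φ E).comp (MonoidAlgebra.mapDomainRingHom ℚ (f E)) with hψ
  refine ⟨L, iL, π.comp ψ, ?_, fun m A hA => ?_⟩
  · rw [injective_iff_map_eq_zero]
    intro a ha
    by_contra ha0
    have h1 : ∀ᶠ E in (U : Filter (Finset S)), ψ a E = 0 := (hπ _).1 ha
    obtain ⟨E, hE1, hE2⟩ := (h1.and (hU' ((a.coeff.support ×ˢ a.coeff.support).image
      fun p => p.1⁻¹ * p.2))).exists
    have h2 : MonoidAlgebra.mapDomain (f E) a = 0 := by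
      apply hφ E
      rw [map_zero]
      exact hE1
    have h3 : a.coeff ≠ 0 := fun h => ha0 (MonoidAlgebra.coeff_injective h)
    obtain ⟨g, hg⟩ := Finsupp.support_nonempty_iff.2 h3
    have hinj : Set.InjOn (f E) (a.coeff.support : Set S) := by
      intro x hx y hy hxy
      by_contra hne
      have h4 : x⁻¹ * y ∈ E.erase 1 := by
        refine Finset.mem_erase.2 ⟨fun h => hne (inv_mul_eq_one.1 h), hE2 ?_⟩
        exact Finset.mem_image.2 ⟨(x, y), Finset.mem_product.2 ⟨hx, hy⟩, rfl⟩
      apply hf E _ h4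
      rw [map_mul, map_inv, hxy, inv_mul_cancel]
    have h5 := Finsupp.mapDomain_apply' (a.coeff.support : Set S) a.coeff (Set.Subset.refl _) hinj
      hg
    have h6 : Finsupp.mapDomain (f E) a.coeff = 0 := by
      have h7 := congrArg MonoidAlgebra.coeff h2
      exact h7
    rw [h6] at h5
    exact Finsupp.mem_support_iff.1 hg h5.symm
  · have h1 : ∀ E, IsUnit ((A.map (MonoidAlgebra.mapDomainRingHom ℚ (f E))).map (φ E)) := by
      intro E
      apply hM E
      rw [← hA]
      ext i j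
      exact ULTx.aug_map (f E) (A i j)
    choose B hB1 hB2 using fun E => isUnit_iff_exists.1 (h1 E)
    have h2 : IsUnit (A.map ψ) := by
      refine isUnit_iff_exists.2 ⟨Matrix.of fun i j E => B E i j, ?_, ?_⟩
      · ext i j E
        have h3 := congrFun (congrFun (hB1 E) i) j
        rw [Matrix.mul_apply] at h3 ⊢
        rw [Finset.sum_apply]
        have h4 : (1 : Matrix (Fin m) (Fin m) (∀ E, D E)) i j E =
            (1 : Matrix (Fin m) (Fin m) (D E)) i j := by
          rw [Matrix.one_apply, Matrix.one_apply]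
          split_ifs <;> rfl
        rw [h4, ← h3]
        rfl
      · ext i j E
        have h3 := congrFun (congrFun (hB2 E) i) j
        rw [Matrix.mul_apply] at h3 ⊢
        rw [Finset.sum_apply]
        have h4 : (1 : Matrix (Fin m) (Fin m) (∀ E, D E)) i j E =
            (1 : Matrix (Fin m) (Fin m) (D E)) i j := by
          rw [Matrix.one_apply, Matrix.one_apply]
          split_ifs <;> rfl
        rw [h4, ← h3]
        rfl
    have h5 := h2.map π.mapMatrix
    have h6 : π.mapMatrix (A.map ψ) = A.map (π.comp ψ) := by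
      ext i j
      rfl
    rw [h6] at h5
    exact h5

end Pool.Agent.PDE
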