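import Pool.Agent.PDE.MDR
import Pool.Agent.PDE.DIN
import Pool.Agent.PDE.LUP
import Pool.Agent.PDE.LCV
import Pool.Agent.PDE.ORE
import Pool.Agent.PDE.DLA
import Pool.Agent.PDE.FRL
import Pool.Agent.PDE.ULT

/-!
# PDE: the final theorem, without hypotheses
-/

set_option autoImplicit false

namespace Pool.Agent.PDE

open Pool.Agent.PDA Pool.Agent.PDB

/-- residually (amenable and locally indicable) groups satisfy `DivQ` -/
theorem pf_RLA (S : Type) [Group S] (h : ResLIA S) : DivQ S :=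
  thm_RLA thm_FRL (thm_DLA thm_LUP thm_ORE thm_LCV) thm_ULT S h

theorem pf_MDR (G : Type) [Group G] (hG : IsPD3 G)
    (H : Subgroup G) (hfg : H.FG) (hno : NoF2 H) (H0 : Subgroup H) (h0 : H0.index ≠ 0)
    (h : ResLIA H0 ∨ DivQ H0) : VPolyZ H := by
  have hd : DivQ H0 := h.elim (pf_RLA H0) id
  rcases subsingleton_or_nontrivial H0 with hs | hs
  · exact thm_PZV.1 H H0 h0 (thm_PZV.2 H0 hs)
  · have : H0.FiniteIndex := ⟨h0⟩
    have : Group.FG H := (Group.fg_iff_subgroup_fg H).2 hfg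
    have : Group.FG H0 := inferInstance
    obtain ⟨π, hπ⟩ := hd.onto thm_BDR this hs
    refine pf_MDE G hG H hfg hno H0 h0 hd (Or.inr ⟨H0, h0, π, ?_⟩)
    rintro rfl
    obtain ⟨g, hg⟩ := hπ (Multiplicative.ofAdd 1)
    have h1 : (1 : Multiplicative ℤ) = Multiplicative.ofAdd 1 := hg
    have h2 := congrArg Multiplicative.toAdd h1
    exact absurd h2 (by norm_num)

end Pool.Agent.PDE
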