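import Pool.Agent.PDE.All
import Pool.Agent.PDE.FNL
import Pool.Agent.PDE.MDF

/-!
# PDE: the theorem for virtually locally indicable subgroups
-/

set_option autoImplicit false

namespace Pool.Agent.PDE

open Pool.Agent.PDA Pool.Agent.PDB Subgroup

theorem pf_STL (S : Type) [Group S] (hCS : CL S) (hfg : Group.FG S) :
    Subsingleton S ∨ ∃ (π : S →* Multiplicative ℤ) (x : S), Function.Surjective π ∧
      π.ker = zpowers x :=
  thm_STL thm_TOP pf_RPJ (thm_FAC pf_E2L) thm_FGD pf_SCF pf_CDW (thm_CDP thm_LIS) pf_CDO thm_INS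
    pf_BSX S hCS hfg

theorem pf_FNL (G : Type) [Group G] (hG : IsPD3 G)
    (S : Type) [Group S] (j : S →* G) (hj : Function.Injective j) (hidx : j.range.index ≠ 0)
    (hfg : Group.FG S) (hnf : NoF2 S) (hdiv : LIE S) (π₀ : S →* Multiplicative ℤ)
    (hπ₀ : Function.Surjective π₀) : VPolyZ S :=
  thm_FNL thm_TOP (thm_FG2 thm_FG1 thm_FRE thm_HOM thm_BDR) (thm_FG3 thm_BDR) pf_SCF pf_STL
    pf_BSX pf_ABK pf_KLE thm_PZ3 thm_PZF thm_PZV G hG S j hj hidx hfg hnf hdiv π₀ hπ₀

/-- `DivQ` implies local indicability -/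
theorem DivQ.lie {S : Type} [Group S] (h : DivQ S) : LIE S := by
  refine ⟨?_, ?_⟩
  · intro K hK hne
    have h1 : DivQ K := (pf_INE S K K.subtype K.subtype_injective).2.1 h
    have h2 : Group.FG K := (Group.fg_iff_subgroup_fg K).2 hK
    have h3 : Nontrivial K := (Subgroup.nontrivial_iff_ne_bot K).2 hne
    obtain ⟨π, hπ⟩ := h1.onto thm_BDR h2 h3
    refine ⟨π, ?_⟩
    rintro rfl
    obtain ⟨g, hg⟩ := hπ (Multiplicative.ofAdd 1)
    have h4 : (1 : Multiplicative ℤ) = Multiplicative.ofAdd 1 := hg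
    exact absurd (congrArg Multiplicative.toAdd h4) (by norm_num)
  · obtain ⟨D, hD, φ, hφ, -⟩ := h
    exact ⟨D, hD, φ, hφ⟩

/-- residually (amenable and locally indicable) groups -/
theorem ResLIA.lie {S : Type} [Group S] (h : ResLIA S) : LIE S := (pf_RLA S h).lie

theorem pf_MDL (G : Type) [Group G] (hG : IsPD3 G) (H : Subgroup G) (hfg : H.FG) (hno : NoF2 H)
    (H0 : Subgroup H) (h0 : H0.index ≠ 0) (h : ResLIA H0 ∨ LIE H0) : VPolyZ H := by
  have hd : LIE H0 := h.elim ResLIA.lie id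
  rcases subsingleton_or_nontrivial H0 with hs | hs
  · exact thm_PZV.1 H H0 h0 (thm_PZV.2 H0 hs)
  have : H0.FiniteIndex := ⟨h0⟩
  have : Group.FG H := (Group.fg_iff_subgroup_fg H).2 hfg
  have hfg0 : Group.FG H0 := inferInstance
  have hno0 : NoF2 H0 := hno.sub H0.subtype H0.subtype_injective
  have hj : Function.Injective (H.subtype.comp H0.subtype) :=
    H.subtype_injective.comp H0.subtype_injective
  by_cases hidx : H.index = 0
  · have hin0 : InPD3 H0 := by
      refine ⟨G, inferInstance, hG, H.subtype.comp H0.subtype, hj, ?_⟩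
      rw [MonoidHom.range_comp, Subgroup.range_subtype,
        Subgroup.index_map_of_injective _ H.subtype_injective, Subgroup.range_subtype, hidx,
        mul_zero]
    have hpoly : PolyZ (⊤ : Subgroup H0) := by
      rcases pf_STL H0 ⟨hin0, hno0, hd⟩ hfg0 with hs' | ⟨π, x, hπ, hker⟩
      · exact thm_PZV.2 H0 hs'
      · exact thm_PZF H0 π x hπ hd.2.torFree hker
    exact thm_PZV.1 H H0 h0 hpoly
  · have : H.FiniteIndex := ⟨hidx⟩
    obtain ⟨π, hπ⟩ := hd.1.onto hfg0 hs
    have hji : (H.subtype.comp H0.subtype).range.index ≠ 0 := by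
      rw [MonoidHom.range_comp, Subgroup.range_subtype,
        Subgroup.index_map_of_injective _ H.subtype_injective, Subgroup.range_subtype]
      exact mul_ne_zero h0 hidx
    exact thm_VPF H H0 h0 (pf_FNL G hG _ _ hj hji hfg0 hno0 hd π hπ)

end Pool.Agent.PDE
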