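import Pool.Agent.PDE.StG

/-!
# PDE, part 2: residually (amenable and locally indicable) groups (MP_add920_al)

Architect helper49. Every `def St_X : Prop` is a module; its docstring is the proof. Prove it in a file
`Pool/Agent/PDE/X.lean` as `theorem thm_X : St_X` (namespace `Pool.Agent.PDE`).
-/

set_option autoImplicit false
set_option linter.unusedVariables false

namespace Pool.Agent.PDE

open Pool.Agent.PDA Pool.Agent.PDB Subgroup

/-- locally indicable: nontrivial finitely generated subgroups have nontrivial homomorphisms to `ℤ` -/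
def LocInd (S : Type) [Group S] : Prop :=
  ∀ K : Subgroup S, K.FG → K ≠ ⊥ → ∃ π : K →* Multiplicative ℤ, π ≠ 1

/-- residually (amenable and locally indicable): every `g ≠ 1` has nontrivial image in some amenable
locally indicable group -/
def ResLIA (S : Type) [Group S] : Prop :=
  ∀ g : S, g ≠ 1 → ∃ (Q : Type) (_ : Group Q) (f : S →* Q), f g ≠ 1 ∧ LocInd Q ∧ Folner Q

/-- [LUP] Locally indicable groups have unique products (so `k[S]` is a domain, Mathlib).
PROOF. `UniqueProds S` (Mathlib, `Mathlib/Algebra/Group/UniqueProds/Basic.lean`): for finite nonempty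
`A`, `B` there are `a0 ∈ A`, `b0 ∈ B` with `UniqueMul A B a0 b0`. Strong induction on `|A| + |B|`. Let
`a ∈ A`, `b ∈ B`; replacing `A` by `a⁻¹ A` and `B` by `B b⁻¹` we may assume `1 ∈ A`, `1 ∈ B`. If
`A = B = {1}`, clear. Otherwise `K = closure (A ∪ B)` is finitely generated and nontrivial; let
`π : K → ℤ` be nontrivial: some `g ∈ A ∪ B` has `π(g) ≠ 0 = π(1)`. Let `A' ⊆ A`, `B' ⊆ B` be the sets of
the elements of maximal height `π` in `A`, in `B`. `|A'| + |B'| < |A| + |B|`, and a unique product for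
`A'`, `B'` is one for `A`, `B` (`a b = a0 b0` implies `π a + π b = max + max`). -/
def St_LUP : Prop := ∀ (S : Type) [Group S], LocInd S → UniqueProds S

/-- [LCV] (Howie, Schneebeli; Gersten) Locally indicable groups are conservative.
PROOF. Induction on `μ(y) = ∑_i (|supp y_i| - 1)` (truncated subtraction, so zero coordinates
contribute `0`), for all finite types `ι` at the same time. (1) If `g_i ∈ S` and `y'_i = y_i g_i`, the
claim for `y'` implies the claim for `y` (`∑ y_i a_i = ∑ y'_i (g_i⁻¹ a_i)`, `aug (g_i⁻¹ a_i) = aug a_i`),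
and `μ(y') = μ(y)`. So we may assume `1 ∈ supp y_i` if `y_i ≠ 0`. (2) If all supports are contained in
`{1}`, `y_i = c_i ∈ k`, `r = c`. (3) Otherwise let `K` be the subgroup generated by the supports,
`π : K → ℤ` nontrivial, so `π(u) ≠ 0` for some `u ∈ supp y_{i0}`. Choose `h : S → ℤ` with
`h(u s) = π(u) + h(s)` for `u ∈ K`, `s ∈ S` (representatives of the right cosets `K s`). For `a ∈ k[S]` let
`a_m` be the part of `a` supported on `{s | h(s) = m}`, and `y_{i,j}` the part of `y_i` supported on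
`{u ∈ K | π(u) = j}`; `(y_{i,j} a)_m = y_{i,j} a_{m-j}`. Let `J ⊂ ℤ` be a finite set containing all heights
of elements of the supports of the `y_i`, `ι' = ι × J`, `y'_{(i,j)} = y_{i,j}`; `μ(y') < μ(y)`: for every
`i` with `y_i ≠ 0` `∑_j (|supp y_{i,j}| - 1) = |supp y_i| - #{j | y_{i,j} ≠ 0} ≤ |supp y_i| - 1`, and
for `i0` the inequality is strict (`1` and `u` have different heights). By induction there is
`r' ≠ 0` for `y'`. Let `∑ y_i a_i = 0`. Taking parts of height `m`: `∑_{i,j} y_{i,j} (a_i)_{m-j} = 0`, so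
`∑_{i,j} r'_{i,j} aug((a_i)_{m-j}) = 0` for all `m ∈ ℤ`; i.e. `∑_i ρ_i α_i = 0` in `k[t, t⁻¹]` with
`ρ_i = ∑_j r'_{i,j} t^j`, `α_i = ∑_m aug((a_i)_m) t^m`. Multiplying by powers of `t` we may assume that
`ρ_i` (independent of `a`) and `α_i` are in `k[t]`. Let `e` be the minimum of the multiplicities of the
root `1` of the `ρ_i ≠ 0`, `ρ_i = (t - 1)^e σ_i`, `r_i = σ_i(1)`, not all zero. `∑ σ_i α_i = 0`, and
`α_i(1) = aug(a_i)`. -/
def St_LCV : Prop := ∀ (k S : Type) [Field k] [Group S], LocInd S → ∀ (ι : Type) [Fintype ι]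
  (y : ι → MonoidAlgebra k S), y ≠ 0 → ∃ r : ι → k, r ≠ 0 ∧
    ∀ a : ι → MonoidAlgebra k S, ∑ i, y i * a i = 0 → ∑ i, r i * aug k S (a i) = 0

/-- [ORE] (Tamari) PROOF. Let `E = supp a ∪ supp b ∪ {1}`, `F` a finite nonempty set with
`|{y ∈ F | y g ∉ F}| ≤ ε |F|` for `g ∈ E`, `ε = 1 / (2 |E|)`. Then `|F E| ≤ |F| + ∑_{g ∈ E} |F g \ F|
≤ (3/2) |F| < 2 |F|`. The `k`-linear map `(u, v) ↦ v a - u b` from the pairs of elements supported on `F`
(dimension `2 |F|`) to the elements supported on `F E` has a nonzero kernel. If `v = 0`, `u b = 0`, so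
`u = 0`: contradiction. -/
def St_ORE : Prop := ∀ (k S : Type) [Field k] [Group S], Folner S →
  NoZeroDivisors (MonoidAlgebra k S) → ∀ a b : MonoidAlgebra k S, b ≠ 0 →
  ∃ u v : MonoidAlgebra k S, v ≠ 0 ∧ v * a = u * b

/-- [DLA] PROOF (from `St_LUP`, `St_ORE`, `St_LCV`). `R = ℚ[S]` is a domain (`St_LUP` and the Mathlib
instance `NoZeroDivisors (MonoidAlgebra R A)` for `UniqueProds A`) and satisfies the left Ore condition
(`St_ORE`; Mathlib `OreLocalization.OreSet (nonZeroDivisors R)`: `oreDenom * r = oreNum * s`). `D` is the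
Ore localization (`Mathlib/RingTheory/OreLocalization/Ring.lean`, or
`OreLocalization/NonZeroDivisors.lean`: it is a division ring), `φ = numeratorRingHom`, injective. Let
`A` be a square matrix over `R` with augmentation `1`, `M = A.map φ`. CLAIM: `r ᵥ* M = 0` implies `r = 0`
for `r : Fin m → D`. Choose `s ≠ 0` and `y : Fin m → R` with `φ(s) r_i = φ(y_i)` (common denominator, by
induction with the Ore condition); `∑_i y_i A_{i,l} = 0` for all `l`. If `r ≠ 0`, `y ≠ 0`, and `St_LCV`
gives `c ≠ 0` in `ℚ^m` with `∑_i c_i aug(A_{i,l}) = c_l = 0` for all `l`: contradiction. So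
`r ↦ r ᵥ* M` is an injective endomorphism of the finite dimensional left `D`-space `D^m`, hence
bijective, and its inverse is `r ↦ r ᵥ* B` (a left linear map is given by a matrix), `M B = B M = 1`. -/
def St_DLA : Prop := ∀ (S : Type) [Group S], LocInd S → Folner S → DivQ S

/-- [FRL] PROOF. Induction on `E`. `E = ∅`: the trivial group. `E = {g} ∪ E'`: `f1 : S → Q1` with
`f1(g) ≠ 1` and `f2 : S → Q2` for `E'`; take `Q1 × Q2`. `LocInd (Q1 × Q2)`: let `K` be a nontrivial
finitely generated subgroup; if its image in `Q1` (finitely generated) is not trivial, compose with a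
homomorphism of the image; otherwise its image in `Q2` is not trivial (and similarly).
`Folner (Q1 × Q2)`: products of Folner sets (`F1` for the first components of `E` and `ε/2`, `F2` for the
second components): `|{(x,y) ∈ F1 × F2 | (x g1, y g2) ∉ F1 × F2}| ≤ |{x g1 ∉ F1}| |F2| + |F1| |{y g2 ∉ F2}|`. -/
def St_FRL : Prop := ∀ (S : Type) [Group S], ResLIA S → ∀ E : Finset S, (1 : S) ∉ E →
  ∃ (Q : Type) (_ : Group Q) (f : S →* Q), (∀ g ∈ E, f g ≠ 1) ∧ LocInd Q ∧ Folner Q

/-- [ULT] An ultraproduct.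
PROOF. Let `I` be the type of the finite sets `E ⊂ S` with `1 ∉ E`; `f_E : S → Q_E`, `φ_E : ℚ[Q_E] → D_E`
as in the hypothesis; `𝒰` an ultrafilter on `I` containing all `{E' | E ⊆ E'}` (`Filter.atTop` is a
proper filter, `Ultrafilter.of`). `P = Π_E D_E` (a ring), `c` the congruence (`RingCon`)
`x ∼ y ↔ ∀ᶠ E in 𝒰, x E = y E`, `D = P / c`. `D` is nontrivial, and if `x` is not `∼ 0` then `x E ≠ 0` for
almost all `E` (ultrafilter) and `(x E)⁻¹` is an inverse: `D` is a division ring
(`DivisionRing.ofIsUnitOrEqZero`). `φ : ℚ[S] → D` is induced by `a ↦ (φ_E(f_E a))_E`. Injective: if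
`a ≠ 0`, for all `E` containing the elements `g⁻¹ h`, `g ≠ h` in the support of `a`, `f_E` is injective
on the support of `a`, so `f_E a ≠ 0`, `φ_E(f_E a) ≠ 0`. Let `A` be a matrix over `ℚ[S]` with augmentation
`1`; `f_E A` has augmentation `1`, so `φ_E(f_E A)` has an inverse `B_E`; the class of `(B_E)_E` is an
inverse of `A.map φ`. -/
def St_ULT : Prop := ∀ (S : Type) [Group S], (∀ E : Finset S, (1 : S) ∉ E →
  ∃ (Q : Type) (_ : Group Q) (f : S →* Q), (∀ g ∈ E, f g ≠ 1) ∧ DivQ Q) → DivQ S

end Pool.Agent.PDE
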