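import Pool.Agent.PDE.All
import Pool.Agent.PDE.StR

/-!
# PDE: the final theorem

`thm_MDR` combines `pf_MDE` with the modules of `Pool/Agent/PDE/StR.lean`.
-/

set_option autoImplicit false

namespace Pool.Agent.PDE

open Pool.Agent.PDA Pool.Agent.PDB Subgroup

/-- finitely generated residually locally indicable groups map onto `ℤ` -/
theorem ResLIA.ind {S : Type} [Group S] (h : ResLIA S) [hfg : Group.FG S] [hn : Nontrivial S] :
    ∃ π : S →* Multiplicative ℤ, π ≠ 1 := by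
  obtain ⟨g, hg⟩ := exists_ne (1 : S)
  obtain ⟨Q, _, f, hf, hQ, -⟩ := h g hg
  have h1 : f.range.FG := by
    rw [← Group.fg_iff_subgroup_fg]
    exact Group.fg_of_surjective f.rangeRestrict_surjective
  have h2 : f.range ≠ ⊥ := by
    intro h3
    have h4 : f g ∈ f.range := ⟨g, rfl⟩
    rw [h3, Subgroup.mem_bot] at h4
    exact hf h4
  obtain ⟨π, hπ⟩ := hQ f.range h1 h2
  refine ⟨π.comp f.rangeRestrict, fun h3 => hπ ?_⟩
  ext u
  obtain ⟨s, rfl⟩ := f.rangeRestrict_surjective u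
  exact congrArg Multiplicative.toAdd (DFunLike.congr_fun h3 s)

theorem thm_RLA (h1 : St_FRL) (h2 : St_DLA) (h3 : St_ULT) (S : Type) [Group S] (h : ResLIA S) :
    DivQ S :=
  h3 S fun E hE => by
    obtain ⟨Q, _, f, hf, hQ, hQ'⟩ := h1 S h E hE
    exact ⟨Q, inferInstance, f, hf, h2 Q hQ hQ'⟩

theorem thm_MDR (h1 : St_FRL) (h2 : St_DLA) (h3 : St_ULT) (G : Type) [Group G] (hG : IsPD3 G)
    (H : Subgroup G) (hfg : H.FG) (hno : NoF2 H) (H0 : Subgroup H) (h0 : H0.index ≠ 0)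
    (h : ResLIA H0 ∨ (DivQ H0 ∧ (H.index = 0 ∨
      ∃ H1 : Subgroup H, H1.index ≠ 0 ∧ ∃ χ : H1 →* Multiplicative ℤ, χ ≠ 1))) :
    VPolyZ H := by
  rcases h with h | ⟨hd, hi⟩
  · rcases subsingleton_or_nontrivial H0 with hs | hs
    · exact thm_PZV.1 H H0 h0 (thm_PZV.2 H0 hs)
    · have : H0.FiniteIndex := ⟨h0⟩
      have : Group.FG H := (Group.fg_iff_subgroup_fg H).2 hfg
      exact pf_MDE G hG H hfg hno H0 h0 (thm_RLA h1 h2 h3 H0 h) (Or.inr ⟨H0, h0, h.ind⟩)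
  · exact pf_MDE G hG H hfg hno H0 h0 hd hi

end Pool.Agent.PDE
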