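import Pool.Agent.PDE.StL

/-!
# PDE: the finitely generated groups of the class `CL`

As `Pool/Agent/PDE/STE.lean` (helper27).
-/

set_option autoImplicit false
set_option linter.unusedVariables false

namespace Pool.Agent.PDE

open Pool.Agent.PDA Pool.Agent.PDB Subgroup

private theorem STL_surj {H : Type} [Group H] (π : H →* Multiplicative ℤ) (s : H)
    (h : π s = Multiplicative.ofAdd 1) : Function.Surjective π := by
  intro q
  refine ⟨s ^ (Multiplicative.toAdd q), ?_⟩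
  rw [map_zpow, h, ← ofAdd_zsmul, smul_eq_mul, mul_one]
  rfl

private theorem STL_norm {H : Type} [Group H] (s x : H) (m : ℤ) (hm : m = 1 ∨ m = -1)
    (hx : s * x * s⁻¹ = x ^ m) (g : H) (n : ℕ) (h : s ^ n * g * (s ^ n)⁻¹ ∈ zpowers x) :
    g ∈ zpowers x := by
  have h1 : s⁻¹ * x * s ∈ zpowers x := by
    rcases hm with rfl | rfl
    · rw [zpow_one] at hx
      have h2 : s⁻¹ * x * s = x := by
        conv_lhs => rw [← hx]
        group
      rw [h2]
      exact mem_zpowers x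
    · have h2 : s⁻¹ * x * s = x⁻¹ := by
        have h3 : x⁻¹ = s * x * s⁻¹ := by rw [hx, zpow_neg_one]
        have h4 : x = (s * x * s⁻¹)⁻¹ := by rw [← h3, inv_inv]
        conv_lhs => rw [h4]
        group
      rw [h2]
      exact inv_mem (mem_zpowers x)
  have h2 : ∀ h : H, s * h * s⁻¹ ∈ zpowers x → h ∈ zpowers x := by
    intro h hh
    obtain ⟨j, hj⟩ := mem_zpowers_iff.1 hh
    have h3 : h = (s⁻¹ * x * s) ^ j := by
      have h4 : s⁻¹ * x * s = s⁻¹ * x * (s⁻¹)⁻¹ := by rw [inv_inv]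
      rw [h4, conj_zpow, hj]
      group
    rw [h3]
    exact zpow_mem h1 j
  induction n with
  | zero => simpa using h
  | succ n ih =>
    refine ih (h2 _ ?_)
    have h3 : s * (s ^ n * g * (s ^ n)⁻¹) * s⁻¹ = s ^ (n + 1) * g * (s ^ (n + 1))⁻¹ := by
      rw [pow_succ']
      group
    rw [h3]
    exact h

/-- part (1) of the proof -/
private theorem STL_one (h1 : St_TOP) (h2 : St_RPJ) (h3 : St_FAC) (h5 : St_FGD)
    (S : Type) [Group S] (hS : CL S) (hfg : Group.FG S) (hn : Nontrivial S) :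
    (∀ (d : ℕ) (x : Fin d → S), closure (Set.range x) = ⊤ →
      (⊤ : Submodule (MonoidAlgebra ℚ S) (Rel ℚ x)).FG) ∧
    ∃ π : S →* Multiplicative ℤ, Function.Surjective π := by
  obtain ⟨hPD, hN, hLI, D, _, φ, hφ⟩ := hS
  have hprj := h2 S hPD
  obtain ⟨G, _, hG, j, hj, hidx⟩ := hPD
  obtain ⟨R⟩ := h1 G hG
  have hfac : ∀ (d : ℕ) (x : Fin d → S), closure (Set.range x) = ⊤ → FacQ φ x :=
    fun d x hx => h3 G R S j hj hn hN D φ hφ d x hx
  exact ⟨fun d x hx => h5 S D φ hφ d x (hprj ℚ d x hx) (hfac d x hx), hLI.onto hfg hn⟩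

theorem thm_STL (h1 : St_TOP) (h2 : St_RPJ) (h3 : St_FAC) (h5 : St_FGD)
    (h7 : St_SCF) (h8 : St_CDW) (h9 : St_CDP) (h10 : St_CDO) (h12 : St_INS)
    (h13 : St_BSX) (S : Type) [Group S] (hCS : CL S) (hfg : Group.FG S) :
    Subsingleton S ∨ ∃ (π : S →* Multiplicative ℤ) (x : S), Function.Surjective π ∧
      π.ker = zpowers x := by
  rcases subsingleton_or_nontrivial S with hs | hs
  · exact Or.inl hs
  obtain ⟨hfinS, π₀, hπ₀⟩ := STL_one h1 h2 h3 h5 S hCS hfg hs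
  obtain ⟨π, s, B, n, b, -, hs1, hBk, hb, hcz, hsB, hasc⟩ :=
    h7 ℚ S π₀ hπ₀ hfg hCS.2.1 hfinS
  have hπ := STL_surj π s hs1
  rcases subsingleton_or_nontrivial B with hB | hB
  · refine Or.inr ⟨π, 1, hπ, ?_⟩
    rw [zpowers_one_eq_bot, eq_bot_iff]
    intro g hg
    obtain ⟨m, hm⟩ := hasc g hg
    have e1 : (⟨_, hm⟩ : B) = 1 := Subsingleton.elim _ _
    have e2 : s ^ m * g * (s ^ m)⁻¹ = 1 := congrArg Subtype.val e1
    rw [mul_inv_eq_one, mul_eq_left] at e2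
    exact e2
  have hCB : CL B := hCS.sub h12 B.subtype B.subtype_injective
  have hBfg : Group.FG B := by
    rw [Group.fg_iff]
    exact ⟨Set.range b, hb, Set.finite_range b⟩
  obtain ⟨hfinB, π₁, hπ₁⟩ := STL_one h1 h2 h3 h5 B hCB hBfg hB
  have hρ := h8 ℚ S π s B n b hs1 hBk hb hcz hsB (h2 S hCS.1 ℚ (n + 1) (cz s b) hcz) (hfinB n b hb)
  have hproj := h9 ℚ B n b hb hρ
  obtain ⟨π', s', B', n', b', -, hs1', hBk', hb', hcz', hsB', hasc'⟩ :=
    h7 ℚ B π₁ hπ₁ hBfg hCB.2.1 hfinB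
  have htriv := h10 ℚ B π' s' B' n' b' hs1' hBk' hb' hcz' hsB' hCB.2.2.2.torFree hproj
  have hker : ∀ g : B, π' g = 1 → g = 1 := by
    intro g hg
    obtain ⟨m, hm⟩ := hasc' g (MonoidHom.mem_ker.2 hg)
    have e2 := htriv _ hm
    rw [mul_inv_eq_one, mul_eq_left] at e2
    exact e2
  have hx : ∀ g : B, g ∈ zpowers s' := by
    intro g
    refine mem_zpowers_iff.2 ⟨Multiplicative.toAdd (π' g), ?_⟩
    have e1 : π' (g * (s' ^ (Multiplicative.toAdd (π' g)))⁻¹) = 1 := by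
      rw [map_mul, map_inv, map_zpow, hs1', ← ofAdd_zsmul, smul_eq_mul, mul_one,
        ofAdd_toAdd, mul_inv_cancel]
    have e2 := hker _ e1
    rw [mul_inv_eq_one] at e2
    exact e2.symm
  have hBx : ∀ g ∈ B, g ∈ zpowers (s' : S) := by
    intro g hg
    obtain ⟨j, hj⟩ := mem_zpowers_iff.1 (hx ⟨g, hg⟩)
    refine mem_zpowers_iff.2 ⟨j, ?_⟩
    exact congrArg Subtype.val hj
  have hinf : ∀ n : ℕ, 0 < n → (s' : S) ^ n ≠ 1 := by
    intro n hn h
    have e1 : s' ^ n = 1 := Subtype.ext h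
    have e2 := congrArg (fun g => Multiplicative.toAdd (π' g)) e1
    simp only [map_pow, hs1', toAdd_pow, toAdd_ofAdd, map_one, toAdd_one, nsmul_eq_mul, mul_one] at e2
    omega
  have hx1 : (s' : S) ≠ 1 := by
    intro h
    exact hinf 1 one_pos (by rw [pow_one, h])
  obtain ⟨m, hm⟩ := mem_zpowers_iff.1 (hBx _ (hsB s' s'.2))
  have hasc2 : ∀ g ∈ π.ker, ∃ n : ℕ, s ^ n * g * (s ^ n)⁻¹ ∈ zpowers (s' : S) := by
    intro g hg
    obtain ⟨j, hj⟩ := hasc g hg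
    exact ⟨j, hBx _ hj⟩
  have hd : BSData S π (s' : S) s m := by
    refine ⟨hs1, MonoidHom.mem_ker.1 (hBk s'.2), ?_, hinf, hm.symm⟩
    intro g hg
    obtain ⟨q, hq⟩ := hasc2 g (MonoidHom.mem_ker.2 hg)
    obtain ⟨i, hi⟩ := mem_zpowers_iff.1 hq
    exact ⟨q, i, hi.symm⟩
  obtain ⟨G, _, hG, j, hj, hidx⟩ := hCS.1
  have hm1 := h13 G hG S j hj π s' s m hd
  have hm0 : m ≠ 0 := by
    rintro rfl
    rw [zpow_zero] at hm
    have h := hm.symm
    rw [mul_inv_eq_one, mul_eq_left] at h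
    exact hx1 h
  have hm2 : m = 1 ∨ m = -1 := by
    rw [abs_le] at hm1
    omega
  refine Or.inr ⟨π, s', hπ, le_antisymm ?_ ?_⟩
  · intro g hg
    obtain ⟨q, hq⟩ := hasc2 g hg
    exact STL_norm s s' m hm2 hm.symm g q hq
  · rw [zpowers_le]
    exact hBk s'.2

end Pool.Agent.PDE
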