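import Pool.Agent.PDA.StF

/-!
# PDE: subgroups of `PD_3`-groups without nonabelian free subgroups (MP_add920_al)

Architect helper49. Every `def St_X : Prop` is a module; its docstring is the proof. Prove it in a file
`Pool/Agent/PDE/X.lean` as `theorem thm_X : St_X` (namespace `Pool.Agent.PDE`).

Notation in the docstrings: `Λ = k[S]`; elements of a group are also elements of its group ring
(`el k g`); all modules are left modules; `aug` is the augmentation; `rm f g` is `x ↦ f(x) g`.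
-/

set_option autoImplicit false
set_option linter.unusedVariables false

namespace Pool.Agent.PDE

open Pool.Agent.PDA Pool.Agent.PDB Subgroup

/-! ## the groups -/

/-- no nonabelian free subgroup -/
def NoF2 (S : Type) [Group S] : Prop := ∀ f : FreeGroup (Fin 2) →* S, ¬ Function.Injective f

/-- `ℚ[S]` embeds in a division ring over which every square matrix over `ℚ[S]` whose augmentation
is the identity matrix is invertible -/
def DivQ (S : Type) [Group S] : Prop :=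
  ∃ (D : Type) (_ : DivisionRing D) (φ : MonoidAlgebra ℚ S →+* D), Function.Injective φ ∧
    ∀ (m : ℕ) (A : Matrix (Fin m) (Fin m) (MonoidAlgebra ℚ S)),
      A.map (aug ℚ S) = 1 → IsUnit (A.map φ)

/-- the class of groups considered for subgroups of infinite index -/
def CE (S : Type) [Group S] : Prop := InPD3 S ∧ NoF2 S ∧ DivQ S

/-- [TFE] PROOF. Let `c^n = 1`, `n > 0`, `c ≠ 1`. In `ℚ[S]` `(c - 1) (∑_{i < n} c^i) = c^n - 1 = 0`, but
`c - 1 ≠ 0` and the second factor has augmentation `n ≠ 0`; `φ` is injective and `D` has no zero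
divisors. -/
def St_TFE : Prop := ∀ (S : Type) [Group S], DivQ S → TorFree S

/-- [INE] PROOF. Compose: `f : FreeGroup (Fin 2) →* K` injective gives `j ∘ f` injective; restrict `φ`
along `ℚ[K] → ℚ[H]` (`MonoidAlgebra.mapDomainRingHom ℚ j`, injective, compatible with `aug`). For `CE`
use also `St_INS`. -/
def St_INE : Prop := ∀ (H K : Type) [Group H] [Group K] (j : K →* H), Function.Injective j →
  (NoF2 H → NoF2 K) ∧ (DivQ H → DivQ K) ∧ (CE H → CE K)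

/-! ## cohomology with coefficients in a division ring -/

section defs

variable {G : Type} [Group G] {D : Type} [DivisionRing D]

/-- every derivation `δ : S → D` is inner -/
def HOneD {S : Type} [Group S] (χ : S →* Dˣ) : Prop :=
  ∀ δ : S → D, (∀ g h, δ (g * h) = δ g + (χ g : D) * δ h) → ∃ v : D, ∀ g, δ g = ((χ g : D) - 1) * v

/-- equivariant maps `l : P → D` with finite support modulo `H` -/
def IsFSD (H : Subgroup G) (χ : H →* Dˣ) {P : Type} [AddCommGroup P] [Module (ZG G) P]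
    (l : P →+ D) : Prop :=
  (∀ (h : H) (x : P), l (el ℤ (h : G) • x) = (χ h : D) * l x) ∧
    ∀ x : P, FinMod H {g : G | l (el ℤ g • x) ≠ 0}

/-- every cocycle of finite support is a coboundary of a map of finite support -/
def FsPropD (R : Short G) (H : Subgroup G) (χ : H →* Dˣ) : Prop :=
  ∀ l : R.P1 →+ D, IsFSD H χ l → (∀ x, l (R.d2 x) = 0) →
    ∃ L : R.P0 →+ D, IsFSD H χ L ∧ ∀ x, l x = L (R.d1 x)

/-- every cocycle `ω` on `Hom(P1, ℤ[G])` with `ω(f h) = ω(f) χ(h)` is a coboundary -/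
def OmPropD (R : Short G) (H : Subgroup G) (χ : H →* Dˣ) : Prop :=
  ∀ ω : (R.P1 →ₗ[ZG G] ZG G) →+ D,
    (∀ (h : H) (f : R.P1 →ₗ[ZG G] ZG G), ω (rm f (h : G)) = ω f * (χ h : D)) →
    (∀ f : R.P0 →ₗ[ZG G] ZG G, ω (f ∘ₗ R.d1) = 0) →
    ∃ ω' : (R.P2 →ₗ[ZG G] ZG G) →+ D,
      (∀ (h : H) (f : R.P2 →ₗ[ZG G] ZG G), ω' (rm f (h : G)) = ω' f * (χ h : D)) ∧
      ∀ f : R.P1 →ₗ[ZG G] ZG G, ω f = ω' (f ∘ₗ R.d2)

/-- every map `φ` from the relation module to `D` with `φ(s y) = φ(y) ψ(s)⁻¹` extends -/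
def E2R {S : Type} [Group S] {d : ℕ} (x : Fin d → S) (ψ : S →* Dˣ) : Prop :=
  ∀ φ : Rel ℤ x →+ D, (∀ (s : S) (y : Rel ℤ x), φ (el ℤ s • y) = φ y * (((ψ s)⁻¹ : Dˣ) : D)) →
    ∃ φ' : (Fin d → ZG S) →+ D,
      (∀ (s : S) (y : Fin d → ZG S), φ' (el ℤ s • y) = φ' y * (((ψ s)⁻¹ : Dˣ) : D)) ∧
      ∀ y : Rel ℤ x, φ' (y : Fin d → ZG S) = φ y

/-- every linear map `L : Rel ℚ x → ℚ[S]`, followed by `φ`, is `y ↦ ∑ φ(y_i) c_i` -/
def FacQ {S : Type} [Group S] {d : ℕ} (φ : MonoidAlgebra ℚ S →+* D) (x : Fin d → S) : Prop :=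
  ∀ L : Rel ℚ x →ₗ[MonoidAlgebra ℚ S] MonoidAlgebra ℚ S, ∃ c : Fin d → D,
    ∀ y : Rel ℚ x, φ (L y) = ∑ i, φ ((y : Fin d → MonoidAlgebra ℚ S) i) * c i

end defs

/-- [PTH] (Peterson and Thom) `H^1(S; D) = 0` for groups without nonabelian free subgroups.
PROOF. `f(a) u = 0` implies `a = 0` or `u = 0`. `S` is torsion-free (as in `St_TFE`, with `ℤ[S]`).
`δ 1 = 0`. For `g ≠ 1` let `v_g = (f(g) - 1)⁻¹ δ(g)`. If all `v_g` are equal, `δ` is inner. Suppose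
`v_g ≠ v_h`, `g, h ≠ 1`, and replace `δ` by `δ - (f(·) - 1) v_g`: now `δ(g) = 0`,
`δ(h) = (f(h) - 1) v`, `v ≠ 0`, and the same for `g⁻¹`, `h⁻¹` (`δ(h⁻¹) = (f(h)⁻¹ - 1) v`).
CLAIM: `F : FreeGroup (Fin 2) → S`, `0 ↦ g`, `1 ↦ h` is injective (contradiction). Otherwise let
`w ≠ 1` be in the kernel with `L = (toWord w).length` minimal, `toWord w = c_1 … c_L` (letters with
signs), `u_i ∈ S` the image of `c_1 … c_i`, `u_0 = u_L = 1`. (a) `u_0, …, u_(L-1)` are different: if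
`u_i = u_j`, `0 ≤ i < j < L`, then `c_(i+1) … c_j` is a nonempty reduced word (an infix of a reduced
word) of length `< L` in the kernel. (b) If all letters of `w` are `g^(±1)` (or all `h^(±1)`), then,
the word being reduced, `w = 0-th generator ^ (± L)` and `g^L = 1`, contradiction. (c) Let `Y` be the
set of the `i ∈ {1, …, L}` with `c_i` a letter `h^(±1)`. `0 = δ(1) = ∑_{i ∈ Y} f(u_i - u_(i-1)) v`, so
`∑_{i ∈ Y} (u_i - u_(i-1)) = 0` in `ℤ[S]`. By (b) there is `i`, `1 ≤ i < L`, such that exactly one of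
`i`, `i + 1` is in `Y`. By (a) the coefficient of `u_i` in the sum is `1` or `-1`, contradiction. -/
def St_PTH : Prop := ∀ (S D : Type) [Group S] [DivisionRing D] (f : ZG S →+* D),
  Function.Injective f → NoF2 S → ∀ δ : S → D,
  (∀ g h, δ (g * h) = δ g + f (el ℤ g) * δ h) → ∃ v : D, ∀ g, δ g = (f (el ℤ g) - 1) * v

/-- [ONE] `PD_3`-groups have one end.
PROOF. `F : G → ℤ` the characteristic function of `A`; for every `s` `F(g s) = F(g)` off a finite set.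
Dual basis of `P0`: `x = ∑_j f_j(x) u_j`; `e x_0 = 1`. `Λ(x) = ∑_j e(u_j) ∑_g f_j(x)_g F(g) ∈ ℤ`,
additive. `Λ(g x) = ∑_j e(u_j) ∑_{g'} f_j(x)_{g'} F(g g') = F(g) ∑_j e(u_j) aug(f_j(x)) = F(g) e(x)` for
all `g` off a finite set (depending on `x`). `l = Λ ∘ d1 : P1 → ℤ`: for every `x` `l(g x) = 0` off a
finite set of `g` (`e ∘ d1 = 0`). `f(x) = ∑_g l(g⁻¹ x) g` is a linear map `P1 → ℤ[G]`, `f ∘ d2 = 0`, so
`f = f' ∘ d1` (`Short.h1`); `L(x) = f'(x)_1`; `L(g x) = f'(x)_{g⁻¹}` is zero off a finite set, and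
`L ∘ d1 = l`. So `Λ - L` vanishes on `range d1 = ker e`, hence `(Λ - L)(x) = e(x) c`,
`c = (Λ - L)(x_0)`. With `x = g x_0`: `c = Λ(g x_0) - L(g x_0) = F(g)` off a finite set of `g`. So `F` is
constant off a finite set. (Compare `Pool/Agent/PDA/FU2.lean`.) -/
def St_ONE : Prop := ∀ (G : Type) [Group G] (R : Short G) (A : Set G),
  (∀ s : G, {g : G | ¬ (g ∈ A ↔ g * s ∈ A)}.Finite) → A.Finite ∨ Aᶜ.Finite

/-- [EDN] An almost invariant equivariant function has finite support modulo `H`.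
PROOF (from `St_ONE`, `St_GFG`). Let `E` be a finite symmetric generating set of `G` and
`Bad = {g | ∃ s ∈ E, F(g s) ≠ F(g)}`, contained in finitely many cosets `H f_1, …, H f_N`
(`f_i ∈ Bad`; `Bad` is stable under `H`). For `c ∈ D`, `c ≠ 0`, let `Γ_c = {g | F(g) = c}`. `Γ_c` meets
every coset `H f` in at most one point (`F(h f) = χ(h) F(f)`, `χ` injective). So `Γ_c ∩ Bad` is finite,
and `{g | ¬ (g ∈ Γ_c ↔ g s ∈ Γ_c)}` is finite for `s ∈ E`, hence for all `s` (induction over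
`closure E = ⊤`). By `St_ONE` `Γ_c` is finite or has finite complement; for `h ≠ 1` in `H` `h Γ_c` is
disjoint from `Γ_c`, so in the second case `Γ_c` and `G` are finite. So `Γ_c` is finite in both cases
(if `G` is finite the theorem is clear). If `Γ_c ∩ Bad = ∅` and `Γ_c ≠ ∅` then `Γ_c E ⊆ Γ_c`, so
`Γ_c = G`, but `h Γ_c` is disjoint from `Γ_c`: contradiction. So every `g` with `F(g) = c ≠ 0` has a
`g' ∈ Γ_c ∩ Bad`, `g' = h f_i`, `c = χ(h) F(f_i)`, `h⁻¹ g ∈ Γ_{F(f_i)}`. So `{F ≠ 0}` is contained in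
`⋃_i H Γ_{F(f_i)}`, finitely many cosets. -/
def St_EDN : Prop := ∀ (G : Type) [Group G] (R : Short G) (H : Subgroup G) (D : Type)
  [DivisionRing D] (χ : H →* Dˣ), Function.Injective χ → Nontrivial H → ∀ F : G → D,
  (∀ (h : H) (g : G), F ((h : G) * g) = (χ h : D) * F g) →
  (∀ s : G, FinMod H {g : G | F (g * s) ≠ F g}) → FinMod H {g : G | F g ≠ 0}

/-- [FSD] Finitely supported cocycles.
PROOF (from `St_EDN`; compare `Pool/Agent/PDA/FU1.lean`). `l` kills `ker d1 = range d2`, so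
`l = l' ∘ d1` with `l' : ker e → D` additive, `l'(h y) = χ(h) l'(y)`. Let `e x_0 = 1` and
`δ(h) = l'(h x_0 - x_0)`: `δ(g h) = δ(g) + χ(g) δ(h)`, so `δ(h) = (χ(h) - 1) v`. Define
`Λ(y + n x_0) = l'(y) + n v` for `y ∈ ker e`, `n ∈ ℤ` (`P0 = ker e ⊕ ℤ x_0`). `Λ(h x) = χ(h) Λ(x)`, and
`Λ ∘ d1 = l`. `F(g) = Λ(g x_0)`: `F(h g) = χ(h) F(g)`, `F(g s) - F(g) = Λ(g (s x_0 - x_0)) = l(g z)` if
`s x_0 - x_0 = d1 z`: zero off finitely many cosets. By `St_EDN` `F` is zero off finitely many cosets,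
so `L = Λ` is `IsFSD`: for `x = d1 z + e(x) x_0` `Λ(g x) = l(g z) + e(x) F(g)`. -/
def St_FSD : Prop := ∀ (G : Type) [Group G] (R : Short G) (H : Subgroup G) (D : Type)
  [DivisionRing D] (χ : H →* Dˣ), Function.Injective χ → Nontrivial H → HOneD χ → FsPropD R H χ

/-- [DUD] Duality.
PROOF (compare `Pool/Agent/PDA/DUA.lean`, the direction (←), for `D = ℚ`). For `P` finitely generated
projective and `f : P → ℤ[G]` linear put `λ_f(x) = ∑_{h ∈ H} f(x)_h χ(h)`. It is `IsFSD`, additive in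
`f`, `λ_{rm f h}(x) = λ_f(x) χ(h)` for `h ∈ H`, `λ_f ∘ d = λ_{f ∘ d}`. Let `V_i` be the set of the
`IsFSD` maps on `P_i`, a right `D`-vector space (`(l c)(x) = l(x) c`, i.e. a module over `Dᵐᵒᵖ`).
(A) `V` is spanned by the `λ_f`: with a dual basis `x = ∑_j f_j(x) u_j`, `l(x) = ∑_j ∑_g f_j(x)_g l(g u_j)
= ∑_j ∑_σ λ_{rm f_j σ⁻¹}(x) l(σ u_j)`, `σ` in representatives of the finitely many cosets `H σ` with
`l(σ u_j) ≠ 0`. (B) If `ω : Hom(P, ℤ[G]) → D` is additive with `ω(rm f h) = ω(f) χ(h)`, put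
`ω^(l) = ∑_j ∑_σ ω(rm f_j σ⁻¹) l(σ u_j)` (sum over `H\G`; the summand only depends on the coset and
is zero for almost all cosets). It is right `D`-linear and `ω^(λ_f) = ω(f)`, since
`λ_f(σ u_j) = ∑_h f(u_j)_{σ⁻¹ h} χ(h)`, so `ω^(λ_f) = ∑_j ∑_{g ∈ G} f(u_j)_g ω(rm f_j g)
= ω(x ↦ ∑_j f_j(x) f(u_j)) = ω(f)`. Now let `ω` be a cocycle as in `OmPropD` and `ω^ : V_1 → D`. It kills
the kernel of `V_1 → V_2`, `l ↦ l ∘ d2`: such an `l` is `L ∘ d1`, `L = ∑ λ_{f_i} q_i`,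
`ω^(l) = ∑ ω(f_i ∘ d1) q_i = 0`. So `ω^ = Ω' ∘ (· ∘ d2)` for a right linear `Ω' : V_2 → D` (extend from
the image, a subspace); `ω'(f) := Ω'(λ_f)`. -/
def St_DUD : Prop := ∀ (G : Type) [Group G] (R : Short G) (H : Subgroup G) (D : Type)
  [DivisionRing D] (χ : H →* Dˣ), FsPropD R H χ → OmPropD R H χ

/-- [CMD] Comparison with the relation module.
PROOF (from `St_FRE`, `St_EX2`, `St_BDR`; compare `Pool/Agent/PDA/CMP.lean`, for `D = ℚ`). Let
`D_i = Hom(P_{3-i}, ℤ[G])` (`i = 0, 1, 2`), a left `ℤ[G]`-module by `g * f = w(g) rm f g⁻¹`; projective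
over `ℤ[G]` and over `ℤ[H]` (`St_FRE`). `θ : D_0 → ℤ` is linear onto the trivial module, with kernel
the image of `D_1`, etc. Let `U` be `D` with `h • c = c ψ(h)⁻¹`. A linear map `ker (D_1 → D_0) → U` is
the same as a linear map `ω : D_2 → U` killing `ker (D_2 → D_1)` (the image of `Hom(P0, ℤ[G])`);
linearity: `w(h) ω(rm f h⁻¹) = ω(f) ψ(h)⁻¹`, i.e. `ω(rm f h) = ω(f) (w(h) ψ(h)) = ω(f) χ(h)`. So
`OmPropD` says that every linear map `ker (D_1 → D_0) → U` extends to `D_1`. By `St_EX2` the same holds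
for the resolution `bd ℤ x : ℤ[H]^d → ℤ[H] → Tr ℤ H` (`St_BDR`): this is `E2R x ψ`. -/
def St_CMD : Prop := ∀ (G : Type) [Group G] (R : Short G) (w : G →* ℤˣ),
  (∀ (f : R.P3 →ₗ[ZG G] ZG G) (g : G), R.θ (rm f g) = (w g : ℤ) * R.θ f) →
  ∀ (H : Subgroup G) (D : Type) [DivisionRing D] (χ ψ : H →* Dˣ),
  (∀ h : H, (χ h : D) = ((w (h : G) : ℤ) : D) * (ψ h : D)) →
  ∀ (d : ℕ) (x : Fin d → H), closure (Set.range x) = ⊤ → OmPropD R H χ → E2R x ψ

/-- [E2L] `H^2(S; D) = 0`.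
PROOF (from `St_WCH`, `St_PTH`, `St_FSD`, `St_DUD`, `St_CMD`). Let `H = j.range`, `ε : S ≃ H`,
`x' = ε ∘ x`, `D' = Dᵐᵒᵖ`, `ψ : H →* D'ˣ`, `ψ(ε s) = op (f(s⁻¹))`, `w` from `St_WCH`,
`χ(h) = w(h) ψ(h)`. `g : ℤ[H] → D'`, `h ↦ χ(h)` is an injective ring homomorphism
(`g(∑ a_h h) = op (f(∑ a_h w(h) (ε⁻¹ h)⁻¹))`). `NoF2 H`. By `St_PTH` `HOneD χ`. `χ` is injective: if
`χ(h) = 1` then `f(s⁻¹) = ±1` (`ε s = h`), so `s^2 = 1`, and `s = 1` (torsion-free, as in `St_TFE`).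
`St_FSD`, `St_DUD`, `St_CMD`: `E2R x' ψ`. Transport `Φ` to `Rel ℤ x'` (along `ℤ[S] ≃ ℤ[H]`), with values
in `D'`: `Φ'(ε(s) y) = op (f(s) Φ(y)) = op(Φ y) * op(f(s)) = Φ'(y) ψ(ε s)⁻¹`. The extension gives an
additive `Φ'' : ℤ[S]^d → D` with `Φ''(s y) = f(s) Φ''(y)`, so `Φ''(y) = ∑ f(y_i) c_i`,
`c_i = Φ''(e_i)`. -/
def St_E2L : Prop := ∀ (G : Type) [Group G] (R : Short G) (S : Type) [Group S] (j : S →* G),
  Function.Injective j → Nontrivial S → NoF2 S → ∀ (D : Type) [DivisionRing D] (f : ZG S →+* D),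
  Function.Injective f → ∀ (d : ℕ) (x : Fin d → S), closure (Set.range x) = ⊤ →
  ∀ Φ : Rel ℤ x →+ D, (∀ (s : S) (y : Rel ℤ x), Φ (el ℤ s • y) = f (el ℤ s) * Φ y) →
  ∃ c : Fin d → D, ∀ y : Rel ℤ x, Φ y = ∑ i, f ((y : Fin d → ZG S) i) * c i

/-! ## the relation module -/

/-- [FAC] PROOF (from `St_E2L`). `q : ℤ[S] → ℚ[S]` the inclusion (`MonoidAlgebra.mapRingHom` of
`Int.castRingHom ℚ`), `f = φ ∘ q` injective. `Φ(y) = φ(L(q y))` for `y ∈ Rel ℤ x`. `St_E2L` gives `c` with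
`φ(L(q y)) = ∑ φ(q(y_i)) c_i`. For `y ∈ Rel ℚ x` there are `N > 0` and `y' ∈ Rel ℤ x` with `N y = q y'`
(common denominator), so `N φ(L y) = N ∑ φ(y_i) c_i`, and `N ≠ 0` in `D` (`φ` injective). -/
def St_FAC : Prop := ∀ (G : Type) [Group G] (R : Short G) (S : Type) [Group S] (j : S →* G),
  Function.Injective j → Nontrivial S → NoF2 S → ∀ (D : Type) [DivisionRing D]
  (φ : MonoidAlgebra ℚ S →+* D), Function.Injective φ → ∀ (d : ℕ) (x : Fin d → S),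
  closure (Set.range x) = ⊤ → FacQ φ x

/-- [RKD] `m + 1 ≤ d`.
PROOF. `Λ = ℚ[S]`, `P = Rel ℚ x`. As in `Pool/Agent/PDA/IND.lean` there are linear `L_a : P → Λ` with
`aug (L_a y_b) = δ_ab` (`P` projective: `σ : P → (X →₀ Λ)`; the vectors `(aug (σ(y_b)_x))_x ∈ X →₀ ℚ` are
linearly independent by `IndMod`; functionals `ℓ_a` dual to them;
`L_a(y) = ∑_x σ(y)_x * algebraMap (ℓ_a(e_x))`). Let `A = (L_a y_b)_{b,a}`: the augmentation of `A` is
`1`, so `M = A.map φ` is invertible. `FacQ`: `M_{b,a} = φ(L_a y_b) = ∑_i φ(y_{b,i}) c_{a,i}`, so `M = Y C`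
with `Y = (φ(y_{b,i}))` of size `m × d`. Also `Y v = 0` for the column `v = (φ(x_i - 1))_i` (`bd y_b = 0`),
and `v ≠ 0` (otherwise all `x_i = 1` and `S` is trivial). The left linear map `D^m → D^d`, `r ↦ r Y`, is
injective (`r Y C M⁻¹ = r`) with values in the kernel of `D^d → D`, `r ↦ ∑ r_i v_i`, of dimension
`d - 1`. -/
def St_RKD : Prop := ∀ (S : Type) [Group S] (D : Type) [DivisionRing D]
  (φ : MonoidAlgebra ℚ S →+* D), Function.Injective φ →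
  (∀ (m : ℕ) (A : Matrix (Fin m) (Fin m) (MonoidAlgebra ℚ S)),
    A.map (aug ℚ S) = 1 → IsUnit (A.map φ)) →
  ∀ (d : ℕ) (x : Fin d → S), closure (Set.range x) = ⊤ → Nontrivial S →
  Module.Projective (MonoidAlgebra ℚ S) (Rel ℚ x) → FacQ φ x → ∀ (m : ℕ) (y : Fin m → Rel ℚ x),
  IndMod (aug ℚ S) (IA (aug ℚ S) (⊤ : Submodule (MonoidAlgebra ℚ S) (Rel ℚ x))) y → m + 1 ≤ d

/-- [FGD] The relation module is finitely generated.
PROOF. `P = Rel ℚ x`, `σ : P → (X →₀ Λ)` linear and `p : (X →₀ Λ) → P` with `p σ = id`. `D^d` is a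
finite dimensional left `D`-space; choose `y_1, …, y_r ∈ P` such that the vectors `(φ(y_{b,i}))_i` span
the span of all `(φ(y_i))_i`, `y ∈ P`. Let `X_0` be the finite union of the supports of the `σ(y_b)`. For
`ξ ∉ X_0` the coordinate `σ_ξ : P → Λ` is zero: `φ(σ_ξ y) = ∑ φ(y_i) c_i` (`FacQ`) is zero for
`y = y_b`, hence for all `y` (`(φ(y_i)) = ∑ λ_b (φ(y_{b,i}))`). So `y = p(σ y) = ∑_{ξ ∈ X_0} σ(y)_ξ p(e_ξ)`. -/
def St_FGD : Prop := ∀ (S : Type) [Group S] (D : Type) [DivisionRing D]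
  (φ : MonoidAlgebra ℚ S →+* D), Function.Injective φ → ∀ (d : ℕ) (x : Fin d → S),
  Module.Projective (MonoidAlgebra ℚ S) (Rel ℚ x) → FacQ φ x →
  (⊤ : Submodule (MonoidAlgebra ℚ S) (Rel ℚ x)).FG

/-- [INQ] A homomorphism onto `ℤ`.
PROOF (from `St_BDR`; compare `Pool/Agent/PDA/ZMP.lean`). Let `V ⊆ ℚ^d` be the image of `Rel ℚ x` under
the augmentation of the coordinates, a subspace. `V ≠ ℚ^d`: otherwise take `y_1, …, y_d ∈ Rel ℚ x` with
augmentations the unit vectors; they are independent modulo `I R` (the augmentation kills `I R`), so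
`d + 1 ≤ d`. So there is `φ : Fin d → ℚ`, `φ ≠ 0`, and we may take `φ : Fin d → ℤ`, with
`∑ φ_i aug(y_i) = 0` for `y ∈ Rel ℚ x`, in particular for `y ∈ Rel ℤ x`. As in `ZMP`: `Φ(y) = ∑ φ_i aug(y_i)`
on `ℤ[S]^d` factors through `bd`, `Φ = Φ' ∘ bd`, `χ(g) = Φ'(g - 1)` is a homomorphism `S → ℤ` with
`χ(x_i) = φ_i`, not zero; its image is `n ℤ`, `n ≠ 0`; divide by `n`. -/
def St_INQ : Prop := ∀ (S : Type) [Group S] (d : ℕ) (x : Fin d → S), closure (Set.range x) = ⊤ →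
  (∀ (m : ℕ) (y : Fin m → Rel ℚ x),
    IndMod (aug ℚ S) (IA (aug ℚ S) (⊤ : Submodule (MonoidAlgebra ℚ S) (Rel ℚ x))) y → m + 1 ≤ d) →
  ∃ π : S →* Multiplicative ℤ, Function.Surjective π

/-! ## ascending HNN extensions -/

/-- [BRF] (from `St_LIQ`, `St_TRE`; as `St_BRI`, `Pool/Agent/PDB/BRI.lean`, with `NoF2` instead of
`Folner`). PROOF. Suppose `x ∈ B`, `x ∉ A` and `c ∈ B`, `t c t⁻¹ ∉ A`. As in `BRI`: the graph with
vertices `V = H ⧸ B` and edges `H ⧸ A`, `δ : V → ℕ` from `TRE`, `y = ![t, x*t*c, t⁻¹, (x*t*c)⁻¹]`,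
`i* = i + 2`, `D g = {i | δ (g (y i) B) < δ (gB)}` has at most one element, and
`i ∉ D g → i* ∈ D (g (y i))`, `δ (g (y i) B) > δ (g B)` for `i ∉ D g`. CLAIM: the homomorphism
`FreeGroup (Fin 2) → H`, `0 ↦ t`, `1 ↦ x t c` is injective. Let `i_1 … i_L` be a nonempty reduced word
(`i_(k+1) ≠ i_k*`; the four letters are `0, 1, 2 = 0*, 3 = 1*`). There is `g` with `i_1 ∉ D g`: if
`i_1 ∈ D 1` take `g = y j` with `j ≠ i_1, i_1*` (then `j ∉ D 1`, `D g = {j*}`). By induction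
`i_(k+1) ∉ D (g y(i_1) … y(i_k))`, since this set is `{i_k*}`, and `δ` strictly increases; so
`g y(i_1) … y(i_L) B ≠ g B`, and the word is not in the kernel. -/
def St_BRF : Prop :=
  ∀ (k : Type) [Field k] (H : Type) [Group H] (π : H →* Multiplicative ℤ) (t : H) (A B : Subgroup H),
    NoF2 H → π t = Multiplicative.ofAdd 1 → B ≤ π.ker → A ≤ B → (∀ a ∈ A, t⁻¹ * a * t ∈ B) →
    closure (insert t (B : Set H)) = ⊤ →
    (∀ l : MonoidAlgebra k H, l * (el k t - 1) ∈ LI k B → l ∈ LI k A) →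
    B ≤ A ∨ ∀ c ∈ B, t * c * t⁻¹ ∈ A

/-- [SCF] (from `St_CST`, `St_BRF`, `St_ASC`; as `St_SCN`, `Pool/Agent/PDB/SCN.lean`, with `NoF2` instead
of `Folner`). -/
def St_SCF : Prop :=
  ∀ (k : Type) [Field k] (H : Type) [Group H] (π : H →* Multiplicative ℤ), Function.Surjective π →
    Group.FG H → NoF2 H →
    (∀ (d : ℕ) (x : Fin d → H), closure (Set.range x) = ⊤ →
      (⊤ : Submodule (MonoidAlgebra k H) (Rel k x)).FG) →
    ∃ (π' : H →* Multiplicative ℤ) (s : H) (B : Subgroup H) (n : ℕ) (b : Fin n → B),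
      π'.ker = π.ker ∧ π' s = Multiplicative.ofAdd 1 ∧ B ≤ π'.ker ∧ closure (Set.range b) = ⊤ ∧
      closure (Set.range (cz s b)) = ⊤ ∧ (∀ u ∈ B, s * u * s⁻¹ ∈ B) ∧
      ∀ g ∈ π'.ker, ∃ m : ℕ, s ^ m * g * (s ^ m)⁻¹ ∈ B

/-- [ASL] PROOF (from `St_LIQ`; compare `Pool/Agent/PDA/BSR.lean`). Let `u = ∑_g z(g) [g s B] ∈ k[S/B]`.
The map `P : g B ↦ g s⁻¹ B` of `S/B` is well defined (`g b s⁻¹ B = g s⁻¹ (s b s⁻¹) B`) and lowers the
height `π(g)` by one; `∑_g z(g) [g B] = P_* u`. The hypothesis says `u = P_* u` (`St_LIQ`), so `u = 0`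
(look at a point of the support of `u` of maximal height). So `z s ∈ LI k B` (`St_LIQ`). -/
def St_ASL : Prop := ∀ (k S : Type) [Field k] [Group S] (π : S →* Multiplicative ℤ) (s : S)
  (B : Subgroup S), π s = Multiplicative.ofAdd 1 → B ≤ π.ker → (∀ u ∈ B, s * u * s⁻¹ ∈ B) →
  ∀ z : MonoidAlgebra k S, z * (el k s - 1) ∈ LI k B → z * el k s ∈ LI k B

open Classical in
/-- the part of `a` supported on the elements of height `h` -/
noncomputable def ht {k S : Type} [CommRing k] [Group S] (π : S →* Multiplicative ℤ) (h : ℤ)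
    (a : MonoidAlgebra k S) : MonoidAlgebra k S :=
  MonoidAlgebra.ofCoeff (a.coeff.filter (fun g => Multiplicative.toAdd (π g) = h))

/-- [NIL] PROOF. Write `z_h = (ht π h (z i))_i`; `z = ∑_h z_h` (finite sum), `(g z)_h = g z_{h - π(g)}`.
(1) There is `N` such that for `u ∈ U` homogeneous of height `h` (`u = u_h`) `ρ₁ u` has heights in
`[h - N, h + N]`: `U` is generated by finitely many homogeneous `u_i` of heights `h_i` (the homogeneous
components of the generators are in `U`); take `N` for these; `u = ∑ a_i u_i` gives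
`u = ∑ (a_i)_{h - h_i} u_i`. (2) Sum the equation for `T^i u`, `i < M`:
`∑_{i<M} T^i u = ρ₁ u - ρ₁ (T^M u) - ∑_{i<M} ρ₂ (T^i u)`. Take `j = N + 1`, `M = 2 N + 3`, `u` homogeneous
of height `h`, and the part of height `h - j`: the left side gives `T^j u`; `ρ₁ u` gives `0`;
`ρ₁ (T^M u)` has heights `≤ h - M + N < h - j` and gives `0`. So `T^j u = (β u)_{h-j}` with
`β = - ∑_{i<M} ρ₂ ∘ T^i` defined on all of `k[S]^n`, with values in `U`. (3) `α z = ∑_h (β (z_h))_{h-j}` is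
linear over `k[S]`, has values in `U`, and `α u = T^j u` for all `u ∈ U` (`u = ∑ u_h`, `u_h ∈ U`). -/
def St_NIL : Prop := ∀ (k S : Type) [CommRing k] [Group S] (π : S →* Multiplicative ℤ) (n : ℕ)
  (U : Submodule (MonoidAlgebra k S) (Fin n → MonoidAlgebra k S)), U.FG →
  (∀ u ∈ U, ∀ h : ℤ, (fun i => ht π h (u i)) ∈ U) →
  ∀ T : (Fin n → MonoidAlgebra k S) →ₗ[MonoidAlgebra k S] (Fin n → MonoidAlgebra k S),
  (∀ u ∈ U, T u ∈ U) →
  (∀ (h : ℤ) (z : Fin n → MonoidAlgebra k S), T (fun i => ht π h (z i)) =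
    fun i => ht π (h - 1) (T z i)) →
  ∀ (ρ₁ : U →ₗ[MonoidAlgebra k S] U)
    (ρ₂ : (Fin n → MonoidAlgebra k S) →ₗ[MonoidAlgebra k S] U),
  (∀ (u : U) (hu : T u ∈ U), u = ρ₁ u - ρ₁ ⟨T u, hu⟩ - ρ₂ u) →
  ∃ (M : ℕ) (α : (Fin n → MonoidAlgebra k S) →ₗ[MonoidAlgebra k S] (Fin n → MonoidAlgebra k S)),
    (∀ z, α z ∈ U) ∧ ∀ u ∈ U, α u = (fun z => T z)^[M] u

/-- the linear map `z ↦ ∑_j z_j s⁻¹ c_j` -/
noncomputable def TT {k S : Type} [CommRing k] [Group S] (s : S) {n : ℕ}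
    (c : Fin n → Fin n → MonoidAlgebra k S) :
    (Fin n → MonoidAlgebra k S) →ₗ[MonoidAlgebra k S] (Fin n → MonoidAlgebra k S) where
  toFun z := ∑ j, (z j * el k s⁻¹) • c j
  map_add' z w := by simp [add_mul, add_smul, Finset.sum_add_distrib]
  map_smul' a z := by simp [mul_assoc, mul_smul, Finset.smul_sum]

/-- [CDT] PROOF (from `St_NIL`, `St_ASL`, `St_LIS`). Let `β_j = s b_j s⁻¹`, `c_j ∈ k[S]^n` the image of
`e_j` (so `∑_i c_{j,i} (b_i - 1) = β_j - 1`), `Q = Rel k (cz s b) ⊆ k[S]^(n+1)` (coordinate `0` belongs to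
`s`), `U = Rel k (b : Fin n → S) = {u : ∑ u_j (b_j - 1) = 0}`, `T = TT s c`. Facts: `T U ⊆ U`
(`∑ z_j s⁻¹ (β_j - 1) = ∑ z_j (b_j - 1) s⁻¹`); `T` has degree `-1`; `U` is stable under `ht`; `U` is
generated by the images of the generators of `Rel k b` (decompose `u ∈ U` along left cosets:
`u = ∑_τ τ w_τ`, `w_τ ∈ k[B]^n`, `bd w_τ = 0`). `θ : U × k[S]^n → Q`,
`θ(u, v) = (∑ v_j (1 - β_j), u + (v_j s)_j - ∑ v_j c_j)` is well defined
(`∑ v_j [(1 - β_j)(s - 1) + s (b_j - 1) - (β_j - 1)] = ∑ v_j (s b_j - β_j s) = 0`). `θ` is onto: let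
`(z_0, z) ∈ Q`. `z_0 (s - 1) = - ∑ z_i (b_i - 1) ∈ LI k B`, so `z_0 s ∈ LI k B` (`St_ASL`),
`z_0 s = ∑ a_j (b_j - 1)` (`St_LIS`), `z_0 = ∑ a_j s⁻¹ (β_j - 1)`; take `v_j = - a_j s⁻¹` and
`u = z - (v_j s) + ∑ v_j c_j`; `u ∈ U`: `∑ u_j (b_j - 1) = - z_0 (s - 1) - ∑ v_j (s b_j - s - β_j + 1)
= - z_0 (s - 1) - ∑ v_j (β_j - 1)(s - 1) = 0` (`s b_j = β_j s`). `Q` is projective: `σ = (σ_1, σ_2) : Q → U × k[S]^n`
linear with `θ σ = id`. `ρ(u, v) := - (v - σ_2(θ(u, v))) s ∈ U`: the first coordinate of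
`θ((u, v) - σ θ(u, v)) = 0` is `∑ v'_j (1 - β_j) = 0` with `v' = v - σ_2 θ(u,v)`, and
`∑ v'_j s (b_j - 1) = ∑ v'_j (β_j - 1) s = 0`. For `u ∈ U` `θ((u - T u), - u s⁻¹) = 0`, so
`ρ(u - T u, - u s⁻¹) = u`. With `ρ₁ u = ρ(u, 0)`, `ρ₂ z = ρ(0, z s⁻¹)` this is
`u = ρ₁ u - ρ₁ (T u) - ρ₂ u`. `St_NIL`. -/
def St_CDT : Prop :=
  ∀ (k : Type) [Field k] (S : Type) [Group S] (π : S →* Multiplicative ℤ) (s : S) (B : Subgroup S)
    (n : ℕ) (b : Fin n → B), π s = Multiplicative.ofAdd 1 → B ≤ π.ker → closure (Set.range b) = ⊤ →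
    closure (Set.range (cz s b)) = ⊤ → (∀ u ∈ B, s * u * s⁻¹ ∈ B) →
    Module.Projective (MonoidAlgebra k S) (Rel k (cz s b)) →
    (⊤ : Submodule (MonoidAlgebra k B) (Rel k b)).FG →
    ∀ e : Fin n → Fin n → MonoidAlgebra k B,
    (∀ (j : Fin n) (hj : s * (b j : S) * s⁻¹ ∈ B), bd k b (e j) = el k (⟨_, hj⟩ : B) - 1) →
    ∃ (M : ℕ) (α : (Fin n → MonoidAlgebra k S) →ₗ[MonoidAlgebra k S] (Fin n → MonoidAlgebra k S)),
      (∀ z, α z ∈ Rel k (fun i => (b i : S))) ∧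
      ∀ u ∈ Rel k (fun i => (b i : S)),
        α u = (fun z => TT s (fun j i => res k B (e j i)) z)^[M] u

/-- [HTP] PROOF (from `St_BDR`). `k[B]` is free over `k[θ(B)]`: let `X` be a set of representatives of
the right cosets `θ(B) τ` with `1 ∈ X`; every element of `B` is uniquely `θ(a) τ`. Let
`p₀ : k[B] → k[B]` be additive (`k`-linear) with `p₀(θ(a) τ) = a`; `p₀(θ(a) y) = a p₀(y)`,
`aug (p₀ y) = aug y`. For `τ ∈ X`, `i` choose `z_{τ,i}` with `bd z_{τ,i} = p₀(bd(τ e_i))` (`St_BDR`); let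
`p₁ : k[B]^n → k[B]^n` be `k`-linear with `p₁(θ(a) τ e_i) = a z_{τ,i}`; `p₁(θ(a) y) = a p₁(y)`,
`bd (p₁ y) = p₀(bd y)`. Let `bd q = 1 - p₀(1) ` (augmentation `0`; in fact `p₀ 1 = 1`, so `q = 0` is
possible). `h₁(z) = z - p₁(Φ z) - (bd z) q` is `k[B]`-linear, `bd (h₁ z) = bd z - p₀(θ(bd z)) - (bd z)(1 - p₀ 1) = 0`
(`p₀(θ(a)) = p₀(θ(a) 1) = a p₀(1)`). `ρ(z) = h₁(z) + p₁(w z)` is `k[B]`-linear with values in `Rel k b`
(`bd (p₁ (w z)) = p₀(bd (w z)) = 0`), and `ρ r = r - p₁(Φ r) + p₁(w r) = r` for `r ∈ Rel k b`. -/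
def St_HTP : Prop :=
  ∀ (k : Type) [CommRing k] (B : Type) [Group B] (n : ℕ) (b : Fin n → B),
    closure (Set.range b) = ⊤ → ∀ θ : B →* B, Function.Injective θ →
    ∀ Φ w : (Fin n → MonoidAlgebra k B) →+ (Fin n → MonoidAlgebra k B),
    (∀ (a : MonoidAlgebra k B) (z), Φ (a • z) = MonoidAlgebra.mapDomainRingHom k θ a • Φ z) →
    (∀ z, bd k b (Φ z) = MonoidAlgebra.mapDomainRingHom k θ (bd k b z)) →
    (∀ (a : MonoidAlgebra k B) (z), w (a • z) = MonoidAlgebra.mapDomainRingHom k θ a • w z) →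
    (∀ z, w z ∈ Rel k b) → (∀ r ∈ Rel k b, w r = Φ r) →
    ∃ ρ : (Fin n → MonoidAlgebra k B) →ₗ[MonoidAlgebra k B] (Fin n → MonoidAlgebra k B),
      (∀ z, ρ z ∈ Rel k b) ∧ ∀ r ∈ Rel k b, ρ r = r

/-- [CDW] PROOF (from `St_CDT`, `St_HTP`, `St_BDR`). Choose `e_j` with `bd e_j = s b_j s⁻¹ - 1` in `k[B]`
(`St_BDR`); `M, α` from `St_CDT`; `φ : B →* B`, `u ↦ s u s⁻¹`, `φ_#(z) = ∑_j φ(z_j) e_j` on `k[B]^n`
(additive, `φ_#(a z) = φ(a) φ_#(z)`, `bd (φ_# z) = ∑ φ(z_j)(φ(b_j) - 1) = φ(bd z)`). `Φ = φ_#^M`,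
`θ = φ^M`. With `ι : k[B]^n → k[S]^n` the inclusion: `T(g ι(z)) = g s⁻¹ ι(φ_# z)`, so
`T^M(ι z) = s^(-M) ι(Φ z)`. Let `κ : k[S] → k[B]`, `κ(a) = ∑_{u ∈ B} a(s^(-M) u) u`: `κ(u a) = θ(u) κ(a)`
for `u ∈ B` (`u⁻¹ s^(-M) = s^(-M) θ(u)⁻¹`), `κ(a c) = κ(a) c` for `c ∈ k[B]`, `κ(s^(-M) c) = c`. Put
`w(z) = κ(α(ι z))` (coordinatewise). `w(a z) = θ(a) w(z)`; `w z ∈ Rel k b` since
`∑ κ(v_i)(b_i - 1) = κ(∑ v_i (b_i - 1)) = 0` for `v = α(ι z)`; for `r ∈ Rel k b` `ι r ∈ U`, so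
`w(r) = κ(s^(-M) ι(Φ r)) = Φ r`. `St_HTP`. -/
def St_CDW : Prop :=
  ∀ (k : Type) [Field k] (S : Type) [Group S] (π : S →* Multiplicative ℤ) (s : S) (B : Subgroup S)
    (n : ℕ) (b : Fin n → B), π s = Multiplicative.ofAdd 1 → B ≤ π.ker → closure (Set.range b) = ⊤ →
    closure (Set.range (cz s b)) = ⊤ → (∀ u ∈ B, s * u * s⁻¹ ∈ B) →
    Module.Projective (MonoidAlgebra k S) (Rel k (cz s b)) →
    (⊤ : Submodule (MonoidAlgebra k B) (Rel k b)).FG →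
    ∃ ρ : (Fin n → MonoidAlgebra k B) →ₗ[MonoidAlgebra k B] (Fin n → MonoidAlgebra k B),
      (∀ z, ρ z ∈ Rel k b) ∧ ∀ r ∈ Rel k b, ρ r = r

/-- [CDP] PROOF (from `St_LIS`). `bd : k[B]^n → LI k ⊤` is onto (`St_LIS`) with kernel `Rel k b`; the
map `y = bd z ↦ z - ρ z` is well defined and linear, a section. So `LI k ⊤` is a retract of a free
module. -/
def St_CDP : Prop := ∀ (k B : Type) [Field k] [Group B] (n : ℕ) (b : Fin n → B),
  closure (Set.range b) = ⊤ →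
  (∃ ρ : (Fin n → MonoidAlgebra k B) →ₗ[MonoidAlgebra k B] (Fin n → MonoidAlgebra k B),
    (∀ z, ρ z ∈ Rel k b) ∧ ∀ r ∈ Rel k b, ρ r = r) →
  Module.Projective (MonoidAlgebra k B) (LI k (⊤ : Subgroup B))

/-- [CDO] PROOF (from `St_NIL`, `St_ASL`, `St_LIS`). `Λ = k[S]`, `U = LI k B ⊆ Λ` (a left ideal, generated
by the `b_j - 1`), `I = LI k ⊤` the augmentation ideal. `θ : Λ × U → I`, `θ(v, u) = v (s - 1) + u`, is
onto (`St_LIS`: `I` is generated by `s - 1` and the `b_j - 1`). `I` is projective: `σ = (σ_1, σ_2)` with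
`θ σ = id`. `ρ(v, u) = (v - σ_1(θ(v, u))) s ∈ U`: `v' = v - σ_1 θ(v,u)` satisfies
`v' (s - 1) ∈ U`, so `v' s ∈ U` (`St_ASL`). For `u ∈ U`: `u s⁻¹ ∈ U` (`(b - 1) s⁻¹ = s⁻¹ (s b s⁻¹ - 1)`),
`θ(u s⁻¹, u s⁻¹ - u) = 0`, so `u = ρ(u s⁻¹, u s⁻¹ - u) = ρ₁ u - ρ₁ (u s⁻¹) - ρ₂ u` with
`ρ₁ u = - ρ(0, u)`, `ρ₂ z = - ρ(z s⁻¹, 0)`. `St_NIL` with `n = 1`, `T z = z s⁻¹` gives `M`,
`q = α(1) ∈ U` with `u s^(-M) = u q` for `u ∈ U`. For `b ∈ B`: `(b - 1)(s^(-M) - q) = 0`. Let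
`κ : k[S] → k[B]`, `κ(a) = ∑_{u ∈ B} a(s^(-M) u) u`; `κ(b a) = θ(b) κ(a)`, `θ(b) = s^M b s^(-M)`. So
`(θ(b) - 1)(1 - c) = 0` with `c = κ(q)`, `aug c = 0` (every element of `LI k B` has sum zero over every
left coset `g B`: `St_LIQ` or span induction). So `x = 1 - c ∈ k[B]` is not zero and `θ(b) x = x`; the
support of `x` is finite, nonempty and stable under `θ(b)`, so `θ(b)` has finite order, `θ(b) = 1`,
`b = 1`. -/
def St_CDO : Prop :=
  ∀ (k : Type) [Field k] (S : Type) [Group S] (π : S →* Multiplicative ℤ) (s : S) (B : Subgroup S)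
    (n : ℕ) (b : Fin n → B), π s = Multiplicative.ofAdd 1 → B ≤ π.ker → closure (Set.range b) = ⊤ →
    closure (Set.range (cz s b)) = ⊤ → (∀ u ∈ B, s * u * s⁻¹ ∈ B) → TorFree S →
    Module.Projective (MonoidAlgebra k S) (LI k (⊤ : Subgroup S)) → ∀ u ∈ B, u = 1

/-! ## assembly -/

/-- [STE] The finitely generated groups of the class `CE`.
PROOF (from `St_TOP`, `St_RPJ`, `St_FAC`, `St_RKD`, `St_FGD`, `St_INQ`, `St_SCF`, `St_CDW`, `St_CDP`,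
`St_CDO`, `St_TFE`, `St_INE`, `St_BSX`). (1) For `S ∈ CE` finitely generated and nontrivial: `D, φ` from
`DivQ S`; `S → G`, `R` from `St_TOP`; `FacQ φ x` for all generating `x` (`St_FAC`); `Rel ℚ x` projective
(`St_RPJ`), so all `Rel ℚ x` are finitely generated (`St_FGD`) and there is `π₀ : S → ℤ` onto (`St_RKD`,
`St_INQ`); `St_SCF` with `k = ℚ` gives `π, s, B, b`. (2) `B ∈ CE` (`St_INE`), finitely generated. If `B`
is trivial, `π.ker` is trivial: `x = 1`. Otherwise `Rel ℚ b` is finitely generated by (1), so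
`St_CDW` and `St_CDP` give `Projective (LI ℚ (⊤ : Subgroup B))`. Apply (1) to `B`: `π', s', B', b'`;
`St_CDO` for `B` gives `B'` trivial, so `π'.ker` is trivial and `B = zpowers s'`. (3) Let `x ∈ S` be
`s'`, `B = zpowers x`, `x ≠ 1`, `s x s⁻¹ = x^m`; `St_BSX` gives `|m| ≤ 1`, `m = ±1`, and
`π.ker = zpowers x` as in `Pool/Agent/PDA/FND.lean` (case (1) there) or `STS.lean`. -/
def St_STE : Prop := ∀ (S : Type) [Group S], CE S → Group.FG S →
  Subsingleton S ∨ ∃ (π : S →* Multiplicative ℤ) (x : S), Function.Surjective π ∧ π.ker = zpowers x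

/-- [FNE] Subgroups of finite index with a map onto `ℤ`.
PROOF. As `Pool/Agent/PDA/FND.lean`, with `CE` instead of the class of `St_CLS`: `St_SCF` instead of
`St_SCN`, `St_STE` instead of `St_STS`, `St_TFE` for torsion-freeness of `S`, `St_INE` for
`NoF2 B`, `DivQ B`; `t x t⁻¹ = x^m` with `m = ±1` for the generators `t`, `x` of `B` (`B → ℤ`,
`t ↦ 1`, kernel `zpowers x`, `x ≠ 1`) from `St_BSX` (or: `t⁻¹ x t` is a power of `x` too). -/
def St_FNE : Prop := ∀ (G : Type) [Group G], IsPD3 G → ∀ (S : Type) [Group S] (j : S →* G),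
  Function.Injective j → j.range.index ≠ 0 → Group.FG S → NoF2 S → DivQ S →
  ∀ π : S →* Multiplicative ℤ, Function.Surjective π → VPolyZ S

/-- [MDE] The main theorem.
PROOF (from `St_STE`, `St_FNE`, `St_VPF`, `St_INE`, `St_TFE`, `St_PZF`, `St_PZV`). `H.index = 0`: `H0` is
finitely generated and in `CE` (`H0 → H → G`); `St_STE`; if `H0` is trivial `St_PZV` 2, otherwise
`St_PZF` gives `PolyZ (⊤ : Subgroup H0)`, and `St_PZV` 1. `H.index ≠ 0`: as in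
`Pool/Agent/PDA/MAD.lean` with `H2 = H0 ⊓ H1` and `St_FNE`. -/
def St_MDE : Prop := ∀ (G : Type) [Group G], IsPD3 G → ∀ H : Subgroup G, H.FG → NoF2 H →
  ∀ H0 : Subgroup H, H0.index ≠ 0 → DivQ H0 →
  (H.index = 0 ∨ ∃ H1 : Subgroup H, H1.index ≠ 0 ∧ ∃ χ : H1 →* Multiplicative ℤ, χ ≠ 1) → VPolyZ H

end Pool.Agent.PDE
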