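import Pool.Agent.PDE.StR
import Pool.Agent.PDE.INE

/-!
# PDE, part 3: locally indicable groups (MP_add920_al)

In `Pool/Agent/PDE/StG.lean` the matrix condition of `DivQ` is only used to get homomorphisms onto `ℤ`.
Here it is replaced by local indicability: the theorem holds for locally indicable groups `S` such that
`ℚ[S]` embeds in a division ring.
-/

set_option autoImplicit false

namespace Pool.Agent.PDE

open Pool.Agent.PDA Pool.Agent.PDB Subgroup

/-- `ℚ[S]` embeds in a division ring -/
def EmbD (S : Type) [Group S] : Prop :=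
  ∃ (D : Type) (_ : DivisionRing D) (φ : MonoidAlgebra ℚ S →+* D), Function.Injective φ

/-- locally indicable and `ℚ[S]` embeds in a division ring -/
def LIE (S : Type) [Group S] : Prop := LocInd S ∧ EmbD S

/-- the class of groups considered for subgroups of infinite index -/
def CL (S : Type) [Group S] : Prop := InPD3 S ∧ NoF2 S ∧ LIE S

theorem LocInd.sub {H K : Type} [Group H] [Group K] (j : K →* H) (hj : Function.Injective j)
    (h : LocInd H) : LocInd K := by
  intro L hL hne
  have h1 : (L.map j).FG := by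
    obtain ⟨T, rfl⟩ := hL
    classical
    exact ⟨T.image j, by rw [MonoidHom.map_closure, Finset.coe_image]⟩
  have h2 : L.map j ≠ ⊥ := by
    intro h3
    apply hne
    rw [eq_bot_iff]
    intro g hg
    have h4 : j g ∈ L.map j := ⟨g, hg, rfl⟩
    rw [h3, mem_bot] at h4
    rw [mem_bot]
    exact hj (by rw [h4, map_one])
  obtain ⟨π, hπ⟩ := h (L.map j) h1 h2
  refine ⟨π.comp (j.subgroupMap L), fun h3 => hπ ?_⟩
  ext u
  obtain ⟨s, rfl⟩ := j.subgroupMap_surjective L u
  exact congrArg Multiplicative.toAdd (DFunLike.congr_fun h3 s)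

theorem EmbD.sub {H K : Type} [Group H] [Group K] (j : K →* H) (hj : Function.Injective j)
    (h : EmbD H) : EmbD K := by
  obtain ⟨D, hD, φ, hφ⟩ := h
  refine ⟨D, hD, φ.comp (MonoidAlgebra.mapDomainRingHom ℚ j), ?_⟩
  rw [RingHom.coe_comp]
  refine hφ.comp ?_
  exact MonoidAlgebra.mapDomain_injective hj

theorem LIE.sub {H K : Type} [Group H] [Group K] (j : K →* H) (hj : Function.Injective j)
    (h : LIE H) : LIE K := ⟨h.1.sub j hj, h.2.sub j hj⟩

theorem NoF2.sub {H K : Type} [Group H] [Group K] (j : K →* H) (hj : Function.Injective j)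
    (h : NoF2 H) : NoF2 K := fun f hf => h (j.comp f) (by
    rw [MonoidHom.coe_comp]
    exact hj.comp hf)

theorem CL.sub (hI : St_INS) {H K : Type} [Group H] [Group K] (j : K →* H)
    (hj : Function.Injective j) (h : CL H) : CL K :=
  ⟨(hI H K j hj).1 h.1, h.2.1.sub j hj, h.2.2.sub j hj⟩

/-- torsion-freeness -/
theorem EmbD.torFree {S : Type} [Group S] (h : EmbD S) : TorFree S := by
  obtain ⟨D, _, φ, hφ⟩ := h
  intro c n hn hc
  by_contra hne
  have h1 : (el ℚ c - 1) * ∑ i ∈ Finset.range n, el ℚ c ^ i = 0 := by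
    rw [mul_geom_sum, ← map_pow, hc, map_one, sub_self]
  have h2 : φ (el ℚ c - 1) * φ (∑ i ∈ Finset.range n, el ℚ c ^ i) = 0 := by
    rw [← map_mul, h1, map_zero]
  rcases mul_eq_zero.1 h2 with h3 | h3
  · have h4 : el ℚ c - 1 = 0 := hφ (by rw [h3, map_zero])
    apply hne
    have h5 : el ℚ c = el ℚ (1 : S) := by
      rw [sub_eq_zero.1 h4]
      exact (map_one (MonoidAlgebra.of ℚ S)).symm
    exact MonoidAlgebra.of_injective h5
  · have h4 : ∑ i ∈ Finset.range n, el ℚ c ^ i = 0 := hφ (by rw [h3, map_zero])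
    have h5 := congrArg (aug ℚ S) h4
    rw [map_sum, map_zero] at h5
    have h6 : ∀ i ∈ Finset.range n, aug ℚ S (el ℚ c ^ i) = 1 := by
      intro i _
      rw [map_pow]
      have : aug ℚ S (el ℚ c) = 1 := by
        unfold aug
        simp
      rw [this, one_pow]
    rw [Finset.sum_congr rfl h6] at h5
    simp at h5
    omega

/-- a nontrivial homomorphism to `ℤ` can be made surjective -/
theorem exists_onto_of_ne_one {S : Type} [Group S] (χ : S →* Multiplicative ℤ) (h : χ ≠ 1) :
    ∃ π : S →* Multiplicative ℤ, Function.Surjective π := by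
  -- the image as a subgroup of `ℤ`
  let f : Additive S →+ ℤ := MonoidHom.toAdditiveLeft χ
  obtain ⟨m, hm⟩ := Int.subgroup_cyclic f.range
  have hm0 : m ≠ 0 := by
    rintro rfl
    apply h
    ext g
    have h1 : f (Additive.ofMul g) ∈ f.range := ⟨_, rfl⟩
    rw [hm, AddSubgroup.mem_closure_singleton] at h1
    obtain ⟨n, hn⟩ := h1
    have h2 : f (Additive.ofMul g) = 0 := by rw [← hn, smul_zero]
    exact Multiplicative.toAdd.injective h2
  have hdvd : ∀ g : S, ∃ n : ℤ, Multiplicative.toAdd (χ g) = n * m := by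
    intro g
    have h1 : f (Additive.ofMul g) ∈ f.range := ⟨_, rfl⟩
    rw [hm, AddSubgroup.mem_closure_singleton] at h1
    obtain ⟨n, hn⟩ := h1
    exact ⟨n, by rw [← smul_eq_mul, hn]; rfl⟩
  choose n hn using hdvd
  refine ⟨{ toFun := fun g => Multiplicative.ofAdd (n g)
            map_one' := ?_
            map_mul' := ?_ }, ?_⟩
  · have h1 := hn 1
    rw [map_one, toAdd_one] at h1
    have h2 : n 1 = 0 := by
      rcases mul_eq_zero.1 h1.symm with h2 | h2
      · exact h2
      · exact absurd h2 hm0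
    rw [h2, ofAdd_zero]
  · intro g g'
    have h1 : n (g * g') * m = (n g + n g') * m := by
      rw [← hn, map_mul, toAdd_mul, hn, hn, add_mul]
    have h2 : n (g * g') = n g + n g' := mul_right_cancel₀ hm0 h1
    rw [h2, ofAdd_add]
  · intro q
    have h1 : m * Multiplicative.toAdd q ∈ f.range := by
      rw [hm, AddSubgroup.mem_closure_singleton]
      exact ⟨Multiplicative.toAdd q, by rw [smul_eq_mul, mul_comm]⟩
    obtain ⟨g, hg⟩ := h1
    refine ⟨Additive.toMul g, ?_⟩
    show Multiplicative.ofAdd (n (Additive.toMul g)) = q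
    have h2 : n (Additive.toMul g) * m = Multiplicative.toAdd q * m := by
      rw [← hn, mul_comm (Multiplicative.toAdd q) m, ← hg]
      rfl
    rw [mul_right_cancel₀ hm0 h2, ofAdd_toAdd]

/-- finitely generated nontrivial locally indicable groups map onto `ℤ` -/
theorem LocInd.onto {S : Type} [Group S] (h : LocInd S) (hfg : Group.FG S) (hn : Nontrivial S) :
    ∃ π : S →* Multiplicative ℤ, Function.Surjective π := by
  obtain ⟨g, hg⟩ := exists_ne (1 : S)
  have h1 : (⊤ : Subgroup S) ≠ ⊥ := by
    intro h2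
    have h3 : g ∈ (⊤ : Subgroup S) := mem_top g
    rw [h2, mem_bot] at h3
    exact hg h3
  obtain ⟨π, hπ⟩ := h ⊤ hfg.out h1
  refine exists_onto_of_ne_one (π.comp (Subgroup.topEquiv (G := S)).symm.toMonoidHom)
    fun h2 => hπ ?_
  ext u
  have h3 := DFunLike.congr_fun h2 (u : S)
  exact congrArg Multiplicative.toAdd h3

end Pool.Agent.PDE
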